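import Pool.Agent.UWar.HighT
import Pool.Agent.IWar.DistN
import Pool.Agent.IWar.Four

/-!
# UWar.AeU: all integer targets, almost all coefficients

A modified copy of `Pool/Agent/RWar/AeR.lean`: `ae_realU` for the real sums over `TT r h`, `ae_floorU` for the
integer parts over `TH r` (`high_floor`, `four`, `ae_dist`).
-/

namespace UWar

open Filter Topology MeasureTheory MWg HWar IWar

private theorem AeU_gw_pos {d : ℕ} (t : Fin d → ℝ) : 0 < gw t := Real.exp_pos _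

private theorem AeU_borel {d : ℕ} (A : ℕ → (Fin d → ℝ) → ENNReal) (hA : ∀ r, Measurable (A r))
    {D : ℝ} (hD : 0 ≤ D) {r0 : ℕ} (hint : ∀ r, r0 ≤ r → ∫⁻ t, A r t ≤ ENNReal.ofReal (D / 2 ^ r)) :
    ∀ᵐ t : Fin d → ℝ, Tendsto (fun r => A r t) atTop (𝓝 0) := by
  have hsum : Summable (fun r : ℕ => D / 2 ^ (r + r0)) := by
    have h1 : (fun r : ℕ => D / 2 ^ (r + r0)) = fun r : ℕ => D / 2 ^ r0 * (1 / 2) ^ r := by
      funext r
      rw [pow_add, one_div, inv_pow]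
      field_simp
    rw [h1]
    exact summable_geometric_two.mul_left _
  have h1 : ∫⁻ t, ∑' r, A (r + r0) t ≠ ⊤ := by
    rw [lintegral_tsum (fun r => (hA (r + r0)).aemeasurable)]
    have h2 : ∑' r, ∫⁻ t, A (r + r0) t ≤ ∑' r, ENNReal.ofReal (D / 2 ^ (r + r0)) :=
      ENNReal.tsum_le_tsum fun r => hint (r + r0) (Nat.le_add_left _ _)
    rw [← ENNReal.ofReal_tsum_of_nonneg (fun r => by positivity) hsum] at h2
    exact (h2.trans_lt ENNReal.ofReal_lt_top).ne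
  have hmeas : Measurable (fun t => ∑' r, A (r + r0) t) :=
    Measurable.tsum fun r => hA (r + r0)
  filter_upwards [ae_lt_top hmeas h1] with t ht
  have h3 := ENNReal.tendsto_atTop_zero_of_tsum_ne_top ht.ne
  exact (tendsto_add_atTop_iff_nat r0).1 h3

private theorem AeU_prod_diff {ι : Type*} (s : Finset ι) (u v : ι → ℂ) {δ : ℝ} (hδ0 : 0 ≤ δ)
    (hδ : δ ≤ 1) (hu : ∀ i ∈ s, ‖u i‖ ≤ 1) (hv : ∀ i ∈ s, ‖u i - v i‖ ≤ δ) :
    ‖∏ i ∈ s, u i‖ ≤ 1 ∧ ‖∏ i ∈ s, u i - ∏ i ∈ s, v i‖ ≤ 2 ^ s.card * δ ∧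
      ‖∏ i ∈ s, v i‖ ≤ 2 ^ s.card := by
  classical
  induction s using Finset.induction_on with
  | empty => simp [hδ0]
  | insert a s ha ih =>
      obtain ⟨i0, i1, i2⟩ := ih (fun i hi => hu i (Finset.mem_insert_of_mem hi))
        (fun i hi => hv i (Finset.mem_insert_of_mem hi))
      have hua := hu a (Finset.mem_insert_self _ _)
      have hva := hv a (Finset.mem_insert_self _ _)
      have hv2 : ‖v a‖ ≤ 2 := by
        have h1 : v a = u a - (u a - v a) := by ring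
        rw [h1]
        refine (norm_sub_le _ _).trans ?_
        linarith
      rw [Finset.prod_insert ha, Finset.prod_insert ha, Finset.card_insert_of_notMem ha, pow_succ]
      refine ⟨?_, ?_, ?_⟩
      · rw [norm_mul]
        exact mul_le_one₀ hua (norm_nonneg _) i0
      · have h1 : u a * ∏ i ∈ s, u i - v a * ∏ i ∈ s, v i =
            u a * (∏ i ∈ s, u i - ∏ i ∈ s, v i) + (u a - v a) * ∏ i ∈ s, v i := by ring
        rw [h1]
        refine (norm_add_le _ _).trans ?_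
        rw [norm_mul, norm_mul]
        have h2 : ‖u a‖ * ‖∏ i ∈ s, u i - ∏ i ∈ s, v i‖ ≤ 1 * (2 ^ s.card * δ) :=
          mul_le_mul hua i1 (norm_nonneg _) zero_le_one
        have h3 : ‖u a - v a‖ * ‖∏ i ∈ s, v i‖ ≤ δ * 2 ^ s.card :=
          mul_le_mul hva i2 (norm_nonneg _) hδ0
        linarith
      · rw [norm_mul]
        have h3 : ‖v a‖ * ‖∏ i ∈ s, v i‖ ≤ 2 * 2 ^ s.card :=
          mul_le_mul hv2 i2 (norm_nonneg _) zero_le_two
        linarith

private theorem AeU_ee_sum {ι : Type*} (s : Finset ι) (θ : ℝ) (a : ι → ℝ) :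
    ee (θ * ∑ i ∈ s, a i) = ∏ i ∈ s, ee (θ * a i) := by
  classical
  induction s using Finset.induction_on with
  | empty => simp [ee]
  | insert b s hb ih =>
      rw [Finset.sum_insert hb, Finset.prod_insert hb, mul_add, ee_add, ih]

private theorem AeU_GU {k d : ℕ} (p : ParX k d) (l r : ℕ) (f : ℕ → ℝ) (θ : ℝ) :
    GU p l r f θ = ∑ b ∈ BU p l r, ∏ x, ee (θ * f (b x)) := by
  unfold GU bsum
  exact Finset.sum_congr rfl fun b _ => AeU_ee_sum _ _ _

private theorem AeU_sum_diff {α ι : Type*} [Fintype ι] (S : Finset α)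
    (U V : α → ι → ℂ) {δ : ℝ} (hδ0 : 0 ≤ δ) (hδ : δ ≤ 1) (hU : ∀ a ∈ S, ∀ i, ‖U a i‖ ≤ 1)
    (hV : ∀ a ∈ S, ∀ i, ‖U a i - V a i‖ ≤ δ) :
    ‖∑ a ∈ S, ∏ i, U a i - ∑ a ∈ S, ∏ i, V a i‖ ≤
      (S.card : ℝ) * (2 ^ Fintype.card ι * δ) ∧
      ‖∑ a ∈ S, ∏ i, V a i‖ ≤ (S.card : ℝ) * 2 ^ Fintype.card ι := by
  have key := fun a (ha : a ∈ S) => AeU_prod_diff (Finset.univ : Finset ι) (fun i => U a i)
    (fun i => V a i) hδ0 hδ (fun i _ => hU a ha i) (fun i _ => hV a ha i)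
  refine ⟨?_, ?_⟩
  · rw [← Finset.sum_sub_distrib]
    refine (norm_sum_le _ _).trans ?_
    refine (Finset.sum_le_sum fun a ha => (key a ha).2.1).trans ?_
    simp
  · refine (norm_sum_le _ _).trans ?_
    refine (Finset.sum_le_sum fun a ha => (key a ha).2.2).trans ?_
    simp

/-- Products of slightly increased factors. -/
private theorem AeU_prod_up {ι : Type*} (s : Finset ι) (x y : ι → ℝ) {η W : ℝ} (hη : 0 ≤ η)
    (hW : 1 ≤ W) (hy : ∀ i ∈ s, 0 ≤ y i) (hyx : ∀ i ∈ s, y i ≤ W) (hx0 : ∀ i ∈ s, 0 ≤ x i)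
    (hx : ∀ i ∈ s, x i ≤ W) (hxy : ∀ i ∈ s, x i ≤ y i + η) :
    ∏ i ∈ s, x i ≤ ∏ i ∈ s, y i + s.card * (η * W ^ s.card) := by
  classical
  induction s using Finset.induction_on with
  | empty => simp
  | insert a s ha ih =>
      have ih' := ih (fun i hi => hy i (Finset.mem_insert_of_mem hi))
        (fun i hi => hyx i (Finset.mem_insert_of_mem hi))
        (fun i hi => hx0 i (Finset.mem_insert_of_mem hi))
        (fun i hi => hx i (Finset.mem_insert_of_mem hi))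
        (fun i hi => hxy i (Finset.mem_insert_of_mem hi))
      have hxa := hx a (Finset.mem_insert_self _ _)
      have hxa0 := hx0 a (Finset.mem_insert_self _ _)
      have hxya := hxy a (Finset.mem_insert_self _ _)
      have hPy : ∏ i ∈ s, y i ≤ W ^ s.card := by
        rw [← Finset.prod_const]
        exact Finset.prod_le_prod (fun i hi => hy i (Finset.mem_insert_of_mem hi))
          (fun i hi => hyx i (Finset.mem_insert_of_mem hi))
      have hPy0 : 0 ≤ ∏ i ∈ s, y i :=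
        Finset.prod_nonneg fun i hi => hy i (Finset.mem_insert_of_mem hi)
      have hW0 : 0 ≤ W ^ s.card := by positivity
      rw [Finset.prod_insert ha, Finset.prod_insert ha, Finset.card_insert_of_notMem ha, pow_succ]
      push_cast
      have h1 : x a * ∏ i ∈ s, x i ≤ x a * (∏ i ∈ s, y i + s.card * (η * W ^ s.card)) :=
        mul_le_mul_of_nonneg_left ih' hxa0
      have h2 : x a * ∏ i ∈ s, y i ≤ (y a + η) * ∏ i ∈ s, y i :=
        mul_le_mul_of_nonneg_right hxya hPy0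
      have h3 : η * ∏ i ∈ s, y i ≤ η * W ^ s.card := mul_le_mul_of_nonneg_left hPy hη
      have h4 : x a * (s.card * (η * W ^ s.card)) ≤ W * (s.card * (η * W ^ s.card)) :=
        mul_le_mul_of_nonneg_right hxa (by positivity)
      have h5 : η * W ^ s.card ≤ η * (W ^ s.card * W) := by
        apply mul_le_mul_of_nonneg_left _ hη
        nlinarith
      nlinarith

private theorem AeU_LL_cont {c : ℤ → ℝ → ℂ} (hc : ∀ m, Continuous (c m)) (D : ℕ) (f : ℕ → ℝ)
    (x : ℕ) : Continuous fun θ => LL c D f θ x := by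
  unfold LL
  refine (ee_cont.comp (continuous_id.mul continuous_const)).mul ?_
  exact continuous_finsetSum _ fun m _ => (hc m).mul continuous_const

private theorem AeU_cardNN (k r : ℕ) : ((NN k r).card : ℝ) ≤ 8 ^ k * (XX r) ^ k := by
  unfold NN
  rw [Nat.card_Icc]
  have h1 : 1 ≤ (4 * 2 ^ r) ^ k := Nat.one_le_pow _ _ (by positivity)
  have h2 : (8 * 2 ^ r) ^ k + 1 - (4 * 2 ^ r) ^ k ≤ (8 * 2 ^ r) ^ k := by omega
  have h3 : (((8 * 2 ^ r) ^ k + 1 - (4 * 2 ^ r) ^ k : ℕ) : ℝ) ≤ (((8 * 2 ^ r) ^ k : ℕ) : ℝ) := by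
    exact_mod_cast h2
  refine h3.trans ?_
  unfold XX
  push_cast
  rw [mul_pow]

private theorem AeU_TH_meas (r : ℕ) : MeasurableSet (TH r) := by
  unfold TH
  exact (measurableSet_lt measurable_const continuous_abs.measurable).inter
    (measurableSet_le continuous_abs.measurable measurable_const)

private theorem AeU_TH_le {r : ℕ} {θ : ℝ} (hθ : θ ∈ TH r) : |θ| ≤ XX r := by
  have h1 : |θ| ≤ 1 / 2 := hθ.2
  have h2 := XX_one r
  linarith

private theorem AeU_S_fin {r : ℕ} {S : Set ℝ} (hS : ∀ θ ∈ S, |θ| ≤ XX r) : volume S < ⊤ :=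
  (measure_mono fun θ hθ => abs_le.1 (hS θ hθ)).trans_lt
    (measure_Icc_lt_top (a := -XX r) (b := XX r))

private theorem AeU_S_real {r : ℕ} {S : Set ℝ} (hS : ∀ θ ∈ S, |θ| ≤ XX r) :
    volume.real S ≤ 2 * XX r := by
  unfold Measure.real
  have hP := XX_pos r
  have h1 : volume S ≤ ENNReal.ofReal (2 * XX r) := by
    refine (measure_mono fun θ hθ => abs_le.1 (hS θ hθ)).trans
      (le_of_eq (?_ : volume (Set.Icc (-XX r) (XX r)) = _))
    rw [Real.volume_Icc]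
    congr 1
    ring
  exact ENNReal.toReal_le_of_le_ofReal (by positivity) h1

/-- The trivial bound. -/
private theorem AeU_triv {k d : ℕ} (p : ParX k d) {K : ℝ → ℂ} {CK : ℝ}
    (hCK : ∀ θ, ‖K θ‖ ≤ CK) {r : ℕ} {S : Set ℝ} (hS : ∀ θ ∈ S, |θ| ≤ XX r) (l : ℕ)
    (f : ℕ → ℝ) (Y : ℝ) :
    ‖MU p S K l r f Y‖ ≤
      CK * (((ZU p r).card : ℝ) * ((BU p l r).card : ℝ)) * (2 * XX r) := by
  have hCK0 : 0 ≤ CK := (norm_nonneg _).trans (hCK 0)
  unfold MU
  have hpt : ∀ θ ∈ S, ‖K θ * ee (-(θ * Y)) * FU p r θ * GU p l r f θ‖ ≤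
      CK * (((ZU p r).card : ℝ) * ((BU p l r).card : ℝ)) := by
    intro θ _
    rw [norm_mul, norm_mul, norm_mul, ee_norm, mul_one, ← mul_assoc]
    exact mul_le_mul (mul_le_mul (hCK θ) (FU_norm p r θ) (norm_nonneg _) hCK0)
      (GU_norm p l r f θ) (norm_nonneg _) (by positivity)
  refine (norm_setIntegral_le_of_norm_le_const (AeU_S_fin hS) hpt).trans ?_
  exact mul_le_mul_of_nonneg_left (AeU_S_real hS) (by positivity)

/-- The integer parts are close to the trigonometric approximation. -/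
private theorem AeU_close {k d : ℕ} (p : ParX k d) {K : ℝ → ℂ} (hK : Measurable K) {CK : ℝ}
    (hCK : ∀ θ, ‖K θ‖ ≤ CK) {c : ℤ → ℝ → ℂ} (hc : ∀ m, Continuous (c m)) {D l r : ℕ}
    (f : ℕ → ℝ) {δ : ℝ} (hδ0 : 0 ≤ δ) (hδ : δ ≤ 1)
    (happ : ∀ θ, |θ| ≤ 1 / 2 → ∀ b ∈ BU p l r, ∀ x,
      ‖ee (θ * fl f (b x)) - LL c D f θ (b x)‖ ≤ δ) (Y : ℝ) :
    ‖MU p (TH r) K l r (fl f) Y - MV p (TH r) K c D l r f Y‖ ≤
      CK * (((ZU p r).card : ℝ) * ((BU p l r).card : ℝ) * (2 ^ (p.J * p.M) * δ)) * (2 * XX r) := by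
  have hCK0 : 0 ≤ CK := (norm_nonneg _).trans (hCK 0)
  have hmeas : MeasurableSet (TH r) := AeU_TH_meas r
  set SB : ℝ → ℂ := fun θ => ∑ b ∈ BU p l r, ∏ x, LL c D f θ (b x) with hSB
  have hSBc : Continuous SB := continuous_finsetSum _ fun z _ => continuous_finsetProd _
    fun γ _ => AeU_LL_cont hc D _ _
  have hBB : ∀ θ ∈ TH r, ‖GU p l r (fl f) θ - SB θ‖ ≤
        ((BU p l r).card : ℝ) * (2 ^ (p.J * p.M) * δ) ∧
      ‖SB θ‖ ≤ ((BU p l r).card : ℝ) * 2 ^ (p.J * p.M) := by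
    intro θ hθ
    rw [AeU_GU]
    have h1 := AeU_sum_diff (BU p l r) (fun b x => ee (θ * fl f (b x)))
      (fun b x => LL c D f θ (b x)) hδ0 hδ (fun _ _ _ => (ee_norm _).le)
      (fun b hb x => happ θ hθ.2 b hb x)
    rw [Fintype.card_prod, Fintype.card_fin, Fintype.card_fin] at h1
    exact h1
  set z0 : ℝ := ((ZU p r).card : ℝ) with hz0
  set b0 : ℝ := ((BU p l r).card : ℝ) with hb0
  have hz00 : 0 ≤ z0 := Nat.cast_nonneg _
  have hb00 : 0 ≤ b0 := Nat.cast_nonneg _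
  have hKe : ∀ θ, ‖K θ * ee (-(θ * Y))‖ ≤ CK := by
    intro θ
    rw [norm_mul, ee_norm, mul_one]
    exact hCK θ
  have hKm : Measurable fun θ => K θ * ee (-(θ * Y)) :=
    hK.mul (ee_cont.comp (continuous_id.mul continuous_const).neg).measurable
  have i1 : IntegrableOn (fun θ => K θ * ee (-(θ * Y)) * FU p r θ *
      GU p l r (fl f) θ) (TH r) := by
    refine Measure.integrableOn_of_bounded (M := CK * z0 * b0) (AeU_S_fin (fun θ hθ => AeU_TH_le hθ)).ne ?_ ?_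
    · exact ((hKm.mul (FU_cont p r).measurable).mul
        (GU_cont p l r _).measurable).aestronglyMeasurable
    · refine Filter.Eventually.of_forall fun θ => ?_
      rw [norm_mul, norm_mul]
      exact mul_le_mul (mul_le_mul (hKe θ) (FU_norm p r θ) (norm_nonneg _) hCK0)
        (GU_norm p l r _ θ) (norm_nonneg _) (by positivity)
  have i2 : IntegrableOn (fun θ => K θ * ee (-(θ * Y)) * FU p r θ * SB θ) (TH r) := by
    refine Measure.integrableOn_of_bounded (M := CK * z0 * (b0 * 2 ^ (p.J * p.M)))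
      (AeU_S_fin (fun θ hθ => AeU_TH_le hθ)).ne ?_ ?_
    · exact ((hKm.mul (FU_cont p r).measurable).mul hSBc.measurable).aestronglyMeasurable
    · refine (ae_restrict_iff' hmeas).2 (Filter.Eventually.of_forall fun θ hθ => ?_)
      rw [norm_mul, norm_mul]
      exact mul_le_mul (mul_le_mul (hKe θ) (FU_norm p r θ) (norm_nonneg _) hCK0)
        (hBB θ hθ).2 (norm_nonneg _) (by positivity)
  have hMB : MV p (TH r) K c D l r f Y =
      ∫ θ in TH r, K θ * ee (-(θ * Y)) * FU p r θ * SB θ := rfl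
  have hMR : MU p (TH r) K l r (fl f) Y =
      ∫ θ in TH r, K θ * ee (-(θ * Y)) * FU p r θ * GU p l r (fl f) θ := rfl
  rw [hMB, hMR, ← integral_sub i1 i2]
  have hpt : ∀ θ ∈ TH r, ‖K θ * ee (-(θ * Y)) * FU p r θ * GU p l r (fl f) θ -
      K θ * ee (-(θ * Y)) * FU p r θ * SB θ‖ ≤ CK * (z0 * b0 * (2 ^ (p.J * p.M) * δ)) := by
    intro θ hθ
    obtain ⟨b2, b3⟩ := hBB θ hθ
    have e1 : K θ * ee (-(θ * Y)) * FU p r θ * GU p l r (fl f) θ -
        K θ * ee (-(θ * Y)) * FU p r θ * SB θ = K θ * ee (-(θ * Y)) *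
        (FU p r θ * (GU p l r (fl f) θ - SB θ)) := by ring
    rw [e1, norm_mul]
    refine mul_le_mul (hKe θ) ?_ (norm_nonneg _) hCK0
    rw [norm_mul, mul_assoc]
    exact mul_le_mul (FU_norm p r θ) b2 (norm_nonneg _) hz00
  refine (norm_setIntegral_le_of_norm_le_const (AeU_S_fin (fun θ hθ => AeU_TH_le hθ)) hpt).trans ?_
  exact mul_le_mul_of_nonneg_left (AeU_S_real (fun θ hθ => AeU_TH_le hθ)) (by positivity)

/-- From the mean over the coefficients to almost all coefficients. -/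
private theorem AeU_gen (k d : ℕ) (Φ : ℕ → (Fin d → ℝ) × ℝ → ℝ) (hΦc : ∀ r, Continuous (Φ r))
    (hΦ0 : ∀ r z, 0 ≤ Φ r z) {C : ℝ} (hC : 0 < C) {r0 : ℕ}
    (hr0 : ∀ r, r0 ≤ r → ∀ Y : ℝ, ∫⁻ t, ENNReal.ofReal (gw t * Φ r (t, Y)) ≤
      ENNReal.ofReal (C / (XX r) ^ (k + 1))) :
    ∀ᵐ t : Fin d → ℝ, Tendsto (fun r : ℕ => ∑ N ∈ NN k r, Φ r (t, (N : ℝ))) atTop (𝓝 0) := by
  have hFc : ∀ (r : ℕ) (N : ℕ), Continuous (fun t : Fin d → ℝ => Φ r (t, (N : ℝ))) := fun r N =>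
    (hΦc r).comp (Continuous.prodMk_left (N : ℝ))
  set S : ℕ → (Fin d → ℝ) → ℝ := fun r t => ∑ N ∈ NN k r, Φ r (t, (N : ℝ)) with hS'
  have hSc : ∀ r, Continuous (S r) := fun r => continuous_finsetSum _ fun N _ => hFc r N
  have hS0 : ∀ r t, 0 ≤ S r t := fun r t => Finset.sum_nonneg fun N _ => hΦ0 r _
  set A : ℕ → (Fin d → ℝ) → ENNReal := fun r t => ENNReal.ofReal (gw t * S r t) with hA
  have hAm : ∀ r, Measurable (A r) := fun r =>
    (gw_cont.mul (hSc r)).measurable.ennreal_ofReal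
  have hint : ∀ r, r0 ≤ r → ∫⁻ t, A r t ≤ ENNReal.ofReal (C * 8 ^ k / 2 ^ r) := by
    intro r hr
    have h1 : ∀ t, A r t = ∑ N ∈ NN k r, ENNReal.ofReal (gw t * Φ r (t, (N : ℝ))) := by
      intro t
      rw [hA]
      simp only
      rw [hS']
      simp only
      rw [Finset.mul_sum, ENNReal.ofReal_sum_of_nonneg]
      intro N _
      exact mul_nonneg (AeU_gw_pos t).le (hΦ0 r _)
    have h2 : ∫⁻ t, A r t = ∑ N ∈ NN k r, ∫⁻ t, ENNReal.ofReal (gw t * Φ r (t, (N : ℝ))) := by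
      rw [lintegral_congr h1]
      rw [lintegral_finsetSum]
      intro N _
      exact (gw_cont.mul (hFc r N)).measurable.ennreal_ofReal
    have hP : 0 < XX r := by
      unfold XX
      positivity
    rw [h2]
    have h3 : ∑ N ∈ NN k r, ∫⁻ t, ENNReal.ofReal (gw t * Φ r (t, (N : ℝ))) ≤
        ∑ _N ∈ NN k r, ENNReal.ofReal (C / (XX r) ^ (k + 1)) := by
      refine Finset.sum_le_sum fun N _ => ?_
      exact hr0 r hr (N : ℝ)
    refine h3.trans ?_
    rw [Finset.sum_const, nsmul_eq_mul]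
    have h4 : ((NN k r).card : ENNReal) = ENNReal.ofReal ((NN k r).card : ℝ) := by
      rw [ENNReal.ofReal_natCast]
    rw [h4, ← ENNReal.ofReal_mul (Nat.cast_nonneg _)]
    apply ENNReal.ofReal_le_ofReal
    have h5 : 8 ^ k * (XX r) ^ k * (C / (XX r) ^ (k + 1)) = C * 8 ^ k / XX r := by
      rw [pow_succ]
      field_simp
    have h6 : XX r = 2 ^ r := rfl
    rw [← h6, ← h5]
    exact mul_le_mul_of_nonneg_right (AeU_cardNN k r) (by positivity)
  have hmain := AeU_borel A hAm (D := C * 8 ^ k) (by positivity) hint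
  filter_upwards [hmain] with t ht
  have h7 : Tendsto (fun r => (A r t).toReal) atTop (𝓝 0) := by
    have := (ENNReal.tendsto_toReal ENNReal.zero_ne_top).comp ht
    rw [ENNReal.toReal_zero] at this
    exact this
  have h8 : ∀ r, (A r t).toReal = gw t * S r t := fun r =>
    ENNReal.toReal_ofReal (mul_nonneg (AeU_gw_pos t).le (hS0 r t))
  have h9 : Tendsto (fun r => (gw t)⁻¹ * (A r t).toReal) atTop (𝓝 ((gw t)⁻¹ * 0)) :=
    h7.const_mul _
  rw [mul_zero] at h9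
  refine h9.congr fun r => ?_
  rw [h8, ← mul_assoc, inv_mul_cancel₀ (AeU_gw_pos t).ne', one_mul]

theorem ae_realU {k d : ℕ} (p : ParX k d) (g : ℕ → ℝ) (K : ℕ → ℝ → ℂ)
    (hK : ∀ r, Measurable (K r)) {CK : ℝ} (hCK : ∀ r θ, ‖K r θ‖ ≤ CK) :
    ∀ᵐ t : Fin d → ℝ, ∀ φ : Fin p.q → ℕ, Function.Injective φ → (∀ l, φ l < p.L) →
      ∀ h : ℕ, h ≤ p.u → Tendsto (fun r : ℕ => ∑ N ∈ NN k r, ∏ l : Fin p.q,
        (‖MU p (TT r h) (K r) (φ l) r (ff k d g t) (N : ℝ)‖ / su p (φ l) r) ^ 2)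
        atTop (𝓝 0) := by
  rw [ae_all_iff]
  intro φ
  rw [eventually_imp_distrib_left]
  intro hφ
  rw [eventually_imp_distrib_left]
  intro hφL
  rw [ae_all_iff]
  intro h
  rw [eventually_imp_distrib_left]
  intro hh
  obtain ⟨C, hC, hev⟩ := high_real p g hh K hK hCK
  obtain ⟨r0, hr0⟩ := eventually_atTop.1 hev
  refine AeU_gen k d (fun r z => ∏ l : Fin p.q,
    (‖MU p (TT r h) (K r) (φ l) r (ff k d g z.1) z.2‖ / su p (φ l) r) ^ 2) ?_
    (fun r z => Finset.prod_nonneg fun l _ => sq_nonneg _) hC (r0 := r0)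
    (fun r hr Y => hr0 r hr φ hφ hφL Y)
  intro r
  refine continuous_finsetProd _ fun l _ => ?_
  have h1 := mv_cont p g (TT_meas r h) (R := XX r) (fun θ hθ => TT_le hθ)
    (hK r) (hCK r) (c := fun _ _ => 1) (fun _ => continuous_const) 0 (φ l) r
  simp only [mv_real] at h1
  exact (h1.norm.div_const _).pow 2

private theorem AeU_mv {k d : ℕ} (p : ParX k d) (g : ℕ → ℝ) (K : ℕ → ℝ → ℂ)
    (hK : ∀ r, Measurable (K r)) {CK : ℝ} (hCK : ∀ r θ, ‖K r θ‖ ≤ CK)
    (c : ℕ → ℤ → ℝ → ℂ) (hc : ∀ r m, Continuous (c r m)) {Cc : ℝ}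
    (hcb : ∀ r m θ, |θ| ≤ 1 / 2 → ‖c r m θ‖ ≤ Cc / (1 + |(m : ℝ)|)) :
    ∀ᵐ t : Fin d → ℝ, ∀ φ : Fin p.q → ℕ, Function.Injective φ → (∀ l, φ l < p.L) →
      Tendsto (fun r : ℕ => ∑ N ∈ NN k r, ∏ l : Fin p.q,
        (‖MV p (TH r) (K r) (c r) (DD r) (φ l) r (ff k d g t) (N : ℝ)‖ / su p (φ l) r) ^ 2)
        atTop (𝓝 0) := by
  rw [ae_all_iff]
  intro φ
  rw [eventually_imp_distrib_left]
  intro hφ
  rw [eventually_imp_distrib_left]
  intro hφL
  obtain ⟨C, hC, hev⟩ := high_floor p g K hK hCK c hc hcb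
  obtain ⟨r0, hr0⟩ := eventually_atTop.1 hev
  refine AeU_gen k d (fun r z => ∏ l : Fin p.q,
    (‖MV p (TH r) (K r) (c r) (DD r) (φ l) r (ff k d g z.1) z.2‖ / su p (φ l) r) ^ 2) ?_
    (fun r z => Finset.prod_nonneg fun l _ => sq_nonneg _) hC (r0 := r0)
    (fun r hr Y => hr0 r hr φ hφ hφL Y)
  intro r
  refine continuous_finsetProd _ fun l _ => ?_
  have h1 := mv_cont p g (AeU_TH_meas r) (R := XX r) (fun θ hθ => AeU_TH_le hθ)
    (hK r) (hCK r) (hc r) (DD r) (φ l) r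
  exact (h1.norm.div_const _).pow 2

theorem ae_floorU {k d : ℕ} (p : ParX k d) (g : ℕ → ℝ) (K : ℕ → ℝ → ℂ)
    (hK : ∀ r, Measurable (K r)) {CK : ℝ} (hCK : ∀ r θ, ‖K r θ‖ ≤ CK) :
    ∀ᵐ t : Fin d → ℝ, ∀ φ : Fin p.q → ℕ, Function.Injective φ → (∀ l, φ l < p.L) →
      Tendsto (fun r : ℕ => ∑ N ∈ NN k r, ∏ l : Fin p.q,
        (‖MU p (TH r) (K r) (φ l) r (fl (ff k d g t)) (N : ℝ)‖ / su p (φ l) r) ^ 2)
        atTop (𝓝 0) := by
  have hCK0 : 0 ≤ CK := (norm_nonneg _).trans (hCK 0 0)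
  have hd1 : 1 ≤ d := by
    have h1 := p.c1
    have h2 := p.c2
    have h3 := p.hq
    omega
  obtain ⟨Cc, c, hCc, hc, hcb, happ⟩ := four (2 * k + (k + 1) * (2 * p.q + 1) + 2)
  filter_upwards [AeU_mv p g K hK hCK c hc hcb, ae_dist (k := k) hd1 g] with t hma hdist φ hφ hφL
  have hα := hma φ hφ hφL
  set cδ : ℝ := CK * 2 ^ (p.J * p.M) * 2 with hcδ
  have hcδ0 : 0 ≤ cδ := by positivity
  set W : ℝ := 8 ^ k * p.q * 2 * cδ * (2 * CK + 2) * ((2 * CK + 2) ^ 2) ^ p.q with hW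
  have herr : Tendsto (fun r => W / XX r) atTop (𝓝 0) := XX_tendsto.const_div_atTop W
  have hsum := hα.add herr
  rw [add_zero] at hsum
  refine squeeze_zero' (Filter.Eventually.of_forall fun r => Finset.sum_nonneg fun N _ =>
    Finset.prod_nonneg fun l _ => sq_nonneg _) ?_ hsum
  filter_upwards [happ, hdist, letter_le p, su_pos p, XX_tendsto.eventually_ge_atTop cδ]
    with r e1 e2 e3 e4 e6
  have hP := XX_pos r
  have hP1 := XX_ge_one r
  obtain ⟨P, hPdef⟩ : ∃ P : ℝ, P = XX r := ⟨_, rfl⟩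
  rw [← hPdef] at hP hP1 e6
  have hPk1 : 1 ≤ P ^ k := one_le_pow₀ hP1
  have hPk0 : 0 < P ^ k := by positivity
  have hPk2 : 1 ≤ P ^ (k + 1) := one_le_pow₀ hP1
  set δ : ℝ := 1 / P ^ (2 * k + (k + 1) * (2 * p.q + 1) + 2) with hδdef
  have hδ0 : 0 ≤ δ := by positivity
  have hδ1 : δ ≤ 1 := by
    rw [hδdef, div_le_one (by positivity)]
    exact one_le_pow₀ hP1
  set ε : ℝ := cδ * (P ^ (k + 1) * δ) with hε
  have hε0 : 0 ≤ ε := by positivity
  have hε1 : ε ≤ 1 := by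
    have h1 : P ^ (k + 1) * δ ≤ 1 / P := by
      rw [hδdef, mul_one_div, div_le_div_iff₀ (by positivity) hP, one_mul, ← pow_succ]
      apply pow_le_pow_right₀ hP1
      nlinarith
    calc ε ≤ cδ * (1 / P) := mul_le_mul_of_nonneg_left h1 hcδ0
      _ = cδ / P := by ring
      _ ≤ 1 := by rw [div_le_one hP]; exact e6
  set B : ℝ := (2 * CK + 2) * P ^ (k + 1) with hB
  have hB2 : 2 * CK * P ^ (k + 1) + 2 ≤ B := by
    rw [hB]
    nlinarith
  have hCP : 0 ≤ 2 * CK * P ^ (k + 1) := by positivity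
  have key : ∀ N ∈ NN k r, ∏ l : Fin p.q,
      (‖MU p (TH r) (K r) (φ l) r (fl (ff k d g t)) (N : ℝ)‖ / su p (φ l) r) ^ 2 ≤
      ∏ l : Fin p.q,
      (‖MV p (TH r) (K r) (c r) (DD r) (φ l) r (ff k d g t) (N : ℝ)‖ / su p (φ l) r) ^ 2 + (Finset.univ : Finset (Fin p.q)).card *
            ((2 * ε * B) * (B ^ 2) ^ (Finset.univ : Finset (Fin p.q)).card) := by
    intro N _
    have hcl : ∀ l : Fin p.q,
        ‖MU p (TH r) (K r) (φ l) r (fl (ff k d g t)) (N : ℝ)‖ / su p (φ l) r ≤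
        ‖MV p (TH r) (K r) (c r) (DD r) (φ l) r (ff k d g t) (N : ℝ)‖ / su p (φ l) r + ε ∧
        ‖MV p (TH r) (K r) (c r) (DD r) (φ l) r (ff k d g t) (N : ℝ)‖ / su p (φ l) r ≤
        ‖MU p (TH r) (K r) (φ l) r (fl (ff k d g t)) (N : ℝ)‖ / su p (φ l) r + ε ∧
        ‖MU p (TH r) (K r) (φ l) r (fl (ff k d g t)) (N : ℝ)‖ / su p (φ l) r ≤
          2 * CK * P ^ (k + 1) := by
      intro l
      obtain ⟨s1, s2, s3⟩ := e4 (φ l) (hφL l)
      have hszdef : su p (φ l) r =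
        ((ZU p r).card : ℝ) * ((BU p (φ l) r).card : ℝ) / P ^ k := by rw [hPdef]; rfl
      have hzb : ((ZU p r).card : ℝ) * ((BU p (φ l) r).card : ℝ) = P ^ k * su p (φ l) r := by
        rw [hszdef]
        field_simp
      have n2 := AeU_triv p (hCK r) (r := r) (S := TH r) (fun θ hθ => AeU_TH_le hθ) (φ l)
        (fl (ff k d g t)) (N : ℝ)
      have n1 : ‖MU p (TH r) (K r) (φ l) r (fl (ff k d g t)) (N : ℝ) -
          MV p (TH r) (K r) (c r) (DD r) (φ l) r (ff k d g t) (N : ℝ)‖ ≤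
          CK * (((ZU p r).card : ℝ) * ((BU p (φ l) r).card : ℝ) * (2 ^ (p.J * p.M) * δ)) *
            (2 * XX r) := by
        refine AeU_close p (hK r) (hCK r) (hc r) (ff k d g t) hδ0 hδ1 ?_ (N : ℝ)
        intro θ hθ b hb x
        obtain ⟨g1, g2⟩ := e3 (φ l) (hφL l) b hb x
        have := e1 θ (ff k d g t (b x)) hθ (e2 (b x) g1 (by
          have := XX_pos r
          linarith))
        rw [← hPdef] at this
        exact this
      set a := MU p (TH r) (K r) (φ l) r (fl (ff k d g t)) (N : ℝ) with ha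
      set b := MV p (TH r) (K r) (c r) (DD r) (φ l) r (ff k d g t) (N : ℝ) with hb
      rw [hzb, ← hPdef] at n1 n2
      set S := su p (φ l) r with hS
      have m1 : ‖a - b‖ / S ≤ ε := by
        rw [div_le_iff₀ s1]
        refine n1.trans (le_of_eq ?_)
        rw [hε, hcδ, pow_succ P k]
        ring
      have m2 : ‖a‖ / S ≤ 2 * CK * P ^ (k + 1) := by
        rw [div_le_iff₀ s1]
        refine n2.trans (le_of_eq ?_)
        rw [pow_succ P k]
        ring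
      have m3 : ‖a‖ ≤ ‖b‖ + ‖a - b‖ := by
        have := norm_add_le b (a - b)
        rwa [add_sub_cancel] at this
      have m4 : ‖b‖ ≤ ‖a‖ + ‖a - b‖ := by
        have := norm_sub_le a (a - b)
        rwa [sub_sub_cancel] at this
      refine ⟨?_, ?_, m2⟩
      · have := div_le_div_of_nonneg_right m3 s1.le
        rw [add_div] at this
        linarith
      · have := div_le_div_of_nonneg_right m4 s1.le
        rw [add_div] at this
        linarith
    have hs0 : ∀ l : Fin p.q, 0 ≤ su p (φ l) r := fun l => (e4 (φ l) (hφL l)).1.le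
    refine AeU_prod_up Finset.univ _ _ (by positivity) ?_ (fun l _ => sq_nonneg _) ?_
      (fun l _ => sq_nonneg _) ?_ ?_
    · have : 1 ≤ B := by linarith
      nlinarith
    · intro l _
      obtain ⟨h1, h2, h3⟩ := hcl l
      exact pow_le_pow_left₀ (div_nonneg (norm_nonneg _) (hs0 l)) (by linarith) 2
    · intro l _
      obtain ⟨h1, h2, h3⟩ := hcl l
      exact pow_le_pow_left₀ (div_nonneg (norm_nonneg _) (hs0 l)) (by linarith) 2
    · intro l _
      obtain ⟨h1, h2, h3⟩ := hcl l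
      have h4 : 0 ≤ ‖MU p (TH r) (K r) (φ l) r (fl (ff k d g t)) (N : ℝ)‖ /
        su p (φ l) r := div_nonneg (norm_nonneg _) (hs0 l)
      have h5 : 0 ≤ ‖MV p (TH r) (K r) (c r) (DD r) (φ l) r (ff k d g t) (N : ℝ)‖ / su p (φ l) r :=
        div_nonneg (norm_nonneg _) (hs0 l)
      generalize ‖MU p (TH r) (K r) (φ l) r (fl (ff k d g t)) (N : ℝ)‖ /
        su p (φ l) r = a at *
      generalize ‖MV p (TH r) (K r) (c r) (DD r) (φ l) r (ff k d g t) (N : ℝ)‖ / su p (φ l) r = b at *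
      have h6 : a ^ 2 ≤ (b + ε) ^ 2 := pow_le_pow_left₀ h4 h1 2
      have h7 : ε * (2 * b + ε) ≤ ε * (2 * B) := by
        apply mul_le_mul_of_nonneg_left _ hε0
        linarith
      nlinarith
  refine (Finset.sum_le_sum key).trans ?_
  rw [Finset.sum_add_distrib]
  have hlast : ∑ _N ∈ NN k r, ((Finset.univ : Finset (Fin p.q)).card : ℝ) *
      ((2 * ε * B) * (B ^ 2) ^ (Finset.univ : Finset (Fin p.q)).card) ≤ W / P := by
    rw [Finset.sum_const, nsmul_eq_mul, Finset.card_univ, Fintype.card_fin]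
    have h1 : 0 ≤ (p.q : ℝ) * ((2 * ε * B) * (B ^ 2) ^ p.q) := by
      have : 0 ≤ B := by linarith
      positivity
    refine (mul_le_mul_of_nonneg_right (AeU_cardNN k r) h1).trans (le_of_eq ?_)
    rw [hW, hε, hB, hδdef, ← hPdef]
    have h2 : P ^ (2 * k + (k + 1) * (2 * p.q + 1) + 2) =
        P ^ k * P ^ (k + 1) * P ^ (k + 1) * ((P ^ (k + 1)) ^ 2) ^ p.q * P := by
      rw [← pow_mul, ← pow_mul, ← pow_add, ← pow_add, ← pow_add, ← pow_succ]
      congr 1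
      ring
    rw [h2, mul_pow (2 * CK + 2) (P ^ (k + 1)) 2, mul_pow ((2 * CK + 2) ^ 2) _ p.q]
    have h3 : ((P ^ (k + 1)) ^ 2) ^ p.q ≠ 0 := by positivity
    have h4 : P ^ k ≠ 0 := hPk0.ne'
    have h5 : P ^ (k + 1) ≠ 0 := by positivity
    field_simp
  rw [← hPdef]
  linarith

end UWar
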