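import Pool.Agent.UWar.Defs
import Pool.Agent.RWar.Energy
import Pool.Agent.HWar.M2Cont
import Pool.Agent.HWar.ChLet
import Pool.Agent.MWg.Tools

/-!
# UWar.Basic: sizes, continuity, measurability

A modified copy of `Pool/Agent/RWar/Basic.lean` and the end of `Pool/Agent/RWar/Energy.lean`.
-/

namespace UWar

open Filter Topology MeasureTheory MWg HWar IWar

private theorem Basic_XX_pos (r : ℕ) : 0 < XX r := by
  unfold XX
  positivity

variable {k d : ℕ}

/-- Generic letters are positive and at most `P`. -/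
theorem letter_le (p : ParX k d) : ∀ᶠ r : ℕ in atTop, ∀ l < p.L,
    ∀ b : Fin p.J × Fin p.M → ℕ, b ∈ BU p l r → ∀ x, 1 ≤ b x ∧ (b x : ℝ) ≤ XX r := by
  have hk := p.hk
  refine Filter.Eventually.of_forall fun r l hl b hb x => ?_
  unfold BU KWar.Bk at hb
  obtain ⟨h1, h2⟩ := KWar.mem_blk (Fintype.mem_piFinset.1 hb x)
  have hQ1 : 1 ≤ KWar.QQ k r := KWar.QQ_one_le (by omega) r
  have hbe : 0 < KWar.be p.M l x.2 := by
    unfold KWar.be
    positivity
  have hbe2 := (KWar.be_bounds hl x.2.2).2.2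
  have h0 : 0 < KWar.be p.M l x.2 * KWar.QQ k r ^ (k - 1 - KWar.lv k p.M (x.1 : ℕ)) := by
    positivity
  refine ⟨?_, ?_⟩
  · have h3 : (0 : ℝ) < (b x : ℝ) := h0.trans h1
    exact_mod_cast h3
  · have h4 : KWar.QQ k r ^ (k - 1 - KWar.lv k p.M (x.1 : ℕ)) ≤ XX r := by
      rw [← KWar.QQ_pow (show 2 ≤ k by omega) r]
      exact pow_le_pow_right₀ hQ1 (by omega)
    have h5 : KWar.be p.M l x.2 * KWar.QQ k r ^ (k - 1 - KWar.lv k p.M (x.1 : ℕ)) ≤
        1 / 256 * XX r := mul_le_mul hbe2 h4 (by positivity) (by norm_num)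
    have := Basic_XX_pos r
    linarith

theorem su_pos (p : ParX k d) : ∀ᶠ r : ℕ in atTop, ∀ l < p.L, 0 < su p l r ∧
    0 < ((ZU p r).card : ℝ) ∧ 0 < ((BU p l r).card : ℝ) := by
  have hk := p.hk
  have hB := KWar.sz_pos (k := k) (n := 0) (J := p.J) (M := p.M) (L := p.L) (by omega) p.hJk
  have hJ : ∃ P0 : ℝ, ∀ P, P0 ≤ P → (J0 P).Nonempty :=
    ⟨0, fun P _ => ⟨0, by simp [J0]⟩⟩
  obtain ⟨P1, hP1⟩ := tot_pos (n := k) (by omega) hJ p.n1
  obtain ⟨P2, hP2⟩ := tot_pos (n := k) (by omega) hJ p.n2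
  filter_upwards [hB, MWg.XX_tendsto.eventually_ge_atTop (max (max P1 P2) 16)] with r hr hXr l hl
  have hX0 := Basic_XX_pos r
  have h1 : 0 < ((BU p l r).card : ℝ) := (hr l hl).2.2
  have h2 : 0 < ((ZU p r).card : ℝ) := by
    unfold ZU
    rw [Finset.card_product, Finset.card_product]
    push_cast
    have a1 : 0 < ((chain k J0 p.n1 (XX r)).card : ℝ) :=
      hP1 _ (((le_max_left _ _).trans (le_max_left _ _)).trans hXr)
    have a2 : 0 < ((chain k J0 p.n2 (XX r)).card : ℝ) :=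
      hP2 _ (((le_max_right _ _).trans (le_max_left _ _)).trans hXr)
    have a3 : 0 < ((J1 (XX r)).card : ℝ) := by
      have h16 : 16 ≤ XX r := (le_max_right _ _).trans hXr
      have := card_J1_ge h16
      linarith
    positivity
  refine ⟨?_, h2, h1⟩
  unfold su
  positivity

theorem FU_cont (p : ParX k d) (r : ℕ) : Continuous (FU p r) :=
  continuous_finsetSum _ fun _ _ => ee_cont.comp (continuous_id.mul continuous_const)

theorem GU_cont (p : ParX k d) (l r : ℕ) (f : ℕ → ℝ) : Continuous (GU p l r f) :=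
  continuous_finsetSum _ fun _ _ => ee_cont.comp (continuous_id.mul continuous_const)

theorem FU_norm (p : ParX k d) (r : ℕ) (θ : ℝ) : ‖FU p r θ‖ ≤ ((ZU p r).card : ℝ) := by
  refine (norm_sum_le _ _).trans ?_
  simp [HWar.ee_norm]

theorem GU_norm (p : ParX k d) (l r : ℕ) (f : ℕ → ℝ) (θ : ℝ) :
    ‖GU p l r f θ‖ ≤ ((BU p l r).card : ℝ) := by
  refine (norm_sum_le _ _).trans ?_
  simp [HWar.ee_norm]

private theorem Basic_ee_zero : ee 0 = 1 := by
  unfold ee
  simp

private theorem Basic_ee_sum {ι : Type*} (s : Finset ι) (g : ι → ℝ) :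
    ee (∑ i ∈ s, g i) = ∏ i ∈ s, ee (g i) := by
  classical
  induction s using Finset.induction_on with
  | empty => simp [Basic_ee_zero]
  | insert a s ha ih => rw [Finset.sum_insert ha, Finset.prod_insert ha, HWar.ee_add, ih]

/-- With the mode `0` only, `MV` is `MU`. -/
theorem mv_real (p : ParX k d) (S : Set ℝ) (K : ℝ → ℂ) (l r : ℕ) (f : ℕ → ℝ) (Y : ℝ) :
    MV p S K (fun _ _ => 1) 0 l r f Y = MU p S K l r f Y := by
  have hL : ∀ (g : ℕ → ℝ) (θ : ℝ) (x : ℕ), LL (fun _ _ => 1) 0 g θ x = ee (θ * g x) := by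
    intro g θ x
    unfold LL
    simp [Basic_ee_zero]
  unfold MV MU
  congr 1
  funext θ
  congr 1
  unfold GU bsum
  refine Finset.sum_congr rfl fun b _ => ?_
  simp only [hL]
  rw [← Basic_ee_sum, Finset.mul_sum]

/-- Continuity in the coefficients and the target. -/
theorem mv_cont (p : ParX k d) (g : ℕ → ℝ) {S : Set ℝ} (hS : MeasurableSet S) {R : ℝ}
    (hSR : ∀ θ ∈ S, |θ| ≤ R) {K : ℝ → ℂ} (hK : Measurable K) {CK : ℝ} (hCK : ∀ θ, ‖K θ‖ ≤ CK)
    {c : ℤ → ℝ → ℂ} (hc : ∀ m, Continuous (c m)) (D l r : ℕ) :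
    Continuous fun x : (Fin d → ℝ) × ℝ => MV p S K c D l r (ff k d g x.1) x.2 := by
  have hsub : S ⊆ Set.Icc (-R) R := fun θ hθ => by
    rw [Set.mem_Icc, ← abs_le]
    exact hSR θ hθ
  have hbd : ∀ m : ℤ, ∃ C : ℝ, ∀ θ ∈ Set.Icc (-R) R, ‖c m θ‖ ≤ C := fun m =>
    isCompact_Icc.exists_bound_of_continuousOn (hc m).continuousOn
  choose C hC using hbd
  have hLL : ∀ (g : ℕ → ℝ) (θ : ℝ) (x : ℕ), θ ∈ S →
      ‖LL c D g θ x‖ ≤ ∑ m ∈ Finset.Icc (-(D : ℤ)) D, C m := by
    intro g θ x hθ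
    unfold LL
    rw [norm_mul, HWar.ee_norm, one_mul]
    refine (norm_sum_le _ _).trans (Finset.sum_le_sum fun m _ => ?_)
    rw [norm_mul, HWar.ee_norm, mul_one]
    exact hC m θ (hsub hθ)
  have hLc : ∀ (g : ℕ → ℝ) (x : ℕ), Continuous fun θ => LL c D g θ x := by
    intro g x
    unfold LL
    refine (ee_cont.comp (continuous_id.mul continuous_const)).mul ?_
    exact continuous_finsetSum _ fun m _ => (hc m).mul continuous_const
  unfold MV
  refine continuous_of_dominated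
    (bound := fun _ => CK * ((ZU p r).card : ℝ) *
      ∑ _b ∈ BU p l r, ∏ _j : Fin p.J × Fin p.M, ∑ m ∈ Finset.Icc (-(D : ℤ)) D, C m) ?_ ?_ ?_ ?_
  · intro x
    refine AEStronglyMeasurable.mul ?_ ?_
    · refine AEStronglyMeasurable.mul ?_ (FU_cont p r).aestronglyMeasurable
      refine AEStronglyMeasurable.mul hK.aestronglyMeasurable ?_
      exact (ee_cont.comp (continuous_id.mul continuous_const).neg).aestronglyMeasurable
    · refine Continuous.aestronglyMeasurable ?_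
      exact continuous_finsetSum _ fun b _ => continuous_finsetProd _ fun j _ => hLc _ _
  · intro x
    rw [ae_restrict_iff' hS]
    refine Filter.Eventually.of_forall fun θ hθ => ?_
    rw [norm_mul, norm_mul, norm_mul, HWar.ee_norm, mul_one]
    have h0 : 0 ≤ CK := (norm_nonneg _).trans (hCK θ)
    refine mul_le_mul (mul_le_mul (hCK θ) (FU_norm p r θ) (norm_nonneg _) h0) ?_
      (norm_nonneg _) (mul_nonneg h0 (Nat.cast_nonneg _))
    refine (norm_sum_le _ _).trans (Finset.sum_le_sum fun b _ => ?_)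
    rw [norm_prod]
    exact Finset.prod_le_prod (fun j _ => norm_nonneg _) fun j _ => hLL _ θ _ hθ
  · have : IsFiniteMeasure (volume.restrict S) := ⟨by
      rw [Measure.restrict_apply_univ]
      exact (measure_mono hsub).trans_lt measure_Icc_lt_top⟩
    exact integrable_const _
  · refine Filter.Eventually.of_forall fun θ => ?_
    have ha : ∀ (y : ℕ), Continuous fun x : (Fin d → ℝ) × ℝ => ff k d g x.1 y := by
      intro y
      unfold ff
      refine continuous_const.add (continuous_finsetSum _ fun i _ => ?_)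
      exact ((continuous_apply i).comp continuous_fst).mul continuous_const
    have hL2 : ∀ (y : ℕ),
        Continuous fun x : (Fin d → ℝ) × ℝ => LL c D (ff k d g x.1) θ y := by
      intro y
      unfold LL
      refine (ee_cont.comp (continuous_const.mul (ha y))).mul ?_
      refine continuous_finsetSum _ fun m _ => continuous_const.mul ?_
      exact ee_cont.comp (continuous_const.mul (ha y))
    refine ((continuous_const.mul (ee_cont.comp (continuous_const.mul continuous_snd).neg)).mul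
      continuous_const).mul ?_
    exact continuous_finsetSum _ fun b _ => continuous_finsetProd _ fun j _ => hL2 _

private theorem en_cont (k n r : ℕ) : Continuous (RWar.SC k n r) := by
  unfold RWar.SC
  refine continuous_finsetSum _ fun w _ => ?_
  exact ee_cont.comp (continuous_id.mul continuous_const)

private theorem en_norm (k n r : ℕ) (θ : ℝ) :
    ‖RWar.SC k n r θ‖ ≤ ((chain k J0 n (XX r)).card : ℝ) := by
  unfold RWar.SC
  refine (norm_sum_le _ _).trans ?_
  simp [ee_norm]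

/-- The sum over the plain letters is a product. -/
theorem FU_eq (p : ParX k d) (r : ℕ) (θ : ℝ) :
    FU p r θ = RWar.SC k p.n1 r θ * RWar.SC k p.n2 r θ * ∑ v ∈ J1 (XX r), ee (θ * (v : ℝ) ^ k) := by
  unfold FU ZU RWar.SC
  rw [Finset.sum_product, Finset.sum_product, Finset.sum_mul_sum, Finset.sum_mul]
  refine Finset.sum_congr rfl fun w _ => ?_
  rw [Finset.sum_mul]
  refine Finset.sum_congr rfl fun w' _ => ?_
  rw [Finset.mul_sum]
  refine Finset.sum_congr rfl fun v _ => ?_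
  unfold zsum
  dsimp only
  rw [mul_add, mul_add, ee_add, ee_add]

/-- The mean square of the sum over the plain letters. -/
theorem FU_energy (p : ParX k d) : ∃ C : ℝ, 0 < C ∧ ∀ᶠ r : ℕ in atTop,
    ∀ S : Set ℝ, MeasurableSet S → (∀ θ ∈ S, |θ| ≤ XX r) → ∫ θ in S, ‖FU p r θ‖ ^ 2 ≤
      C * ((ZU p r).card : ℝ) ^ 2 * ((XX r) ^ (1 + p.v) / (XX r) ^ k) := by
  obtain ⟨C, hC, hE⟩ := RWar.energy_wide (k := k) (by have := p.hk; omega) p.n1
  refine ⟨C, hC, ?_⟩
  filter_upwards [hE] with r hr S hS hSP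
  have hP : 0 < XX r := XX_pos r
  obtain ⟨t1, ht1⟩ : ∃ t, t = ((chain k J0 p.n1 (XX r)).card : ℝ) := ⟨_, rfl⟩
  obtain ⟨t2, ht2⟩ : ∃ t, t = ((chain k J0 p.n2 (XX r)).card : ℝ) := ⟨_, rfl⟩
  obtain ⟨t3, ht3⟩ : ∃ t, t = ((J1 (XX r)).card : ℝ) := ⟨_, rfl⟩
  have ht20 : 0 ≤ t2 := by rw [ht2]; exact Nat.cast_nonneg _
  have ht30 : 0 ≤ t3 := by rw [ht3]; exact Nat.cast_nonneg _
  have hZ : ((ZU p r).card : ℝ) = t1 * t2 * t3 := by
    unfold ZU
    rw [Finset.card_product, Finset.card_product]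
    push_cast
    rw [ht1, ht2, ht3]
  have hle : ∀ θ, ‖FU p r θ‖ ^ 2 ≤ (t2 * t3) ^ 2 * ‖RWar.SC k p.n1 r θ‖ ^ 2 := by
    intro θ
    rw [FU_eq, norm_mul, norm_mul]
    have h2 : ‖RWar.SC k p.n2 r θ‖ ≤ t2 := by rw [ht2]; exact en_norm _ _ _ _
    have h3 : ‖∑ v ∈ J1 (XX r), ee (θ * (v : ℝ) ^ k)‖ ≤ t3 := by
      rw [ht3]
      refine (norm_sum_le _ _).trans ?_
      simp [ee_norm]
    have h4 : ‖RWar.SC k p.n2 r θ‖ * ‖∑ v ∈ J1 (XX r), ee (θ * (v : ℝ) ^ k)‖ ≤ t2 * t3 :=
      mul_le_mul h2 h3 (norm_nonneg _) ht20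
    rw [mul_assoc, mul_pow, mul_comm]
    exact mul_le_mul_of_nonneg_right (pow_le_pow_left₀ (by positivity) h4 2) (by positivity)
  have hc1 : Continuous fun θ => ‖FU p r θ‖ ^ 2 := by
    have h5 : Continuous (FU p r) := by
      unfold FU
      exact continuous_finsetSum _ fun _ _ => ee_cont.comp (continuous_id.mul continuous_const)
    exact h5.norm.pow 2
  have hc2 : Continuous fun θ => (t2 * t3) ^ 2 * ‖RWar.SC k p.n1 r θ‖ ^ 2 :=
    continuous_const.mul ((en_cont k p.n1 r).norm.pow 2)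
  have hsub : S ⊆ Set.Icc (-XX r) (XX r) := fun θ hθ => abs_le.1 (hSP θ hθ)
  have hi1 : IntegrableOn (fun θ => ‖FU p r θ‖ ^ 2) S := hc1.integrableOn_Icc.mono_set hsub
  have hi2 : IntegrableOn (fun θ => (t2 * t3) ^ 2 * ‖RWar.SC k p.n1 r θ‖ ^ 2)
      (Set.Icc (-XX r) (XX r)) := hc2.integrableOn_Icc
  calc ∫ θ in S, ‖FU p r θ‖ ^ 2
      ≤ ∫ θ in S, (t2 * t3) ^ 2 * ‖RWar.SC k p.n1 r θ‖ ^ 2 :=
        setIntegral_mono hi1 (hi2.mono_set hsub) hle
    _ ≤ ∫ θ in Set.Icc (-XX r) (XX r), (t2 * t3) ^ 2 * ‖RWar.SC k p.n1 r θ‖ ^ 2 := by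
        refine setIntegral_mono_set hi2 ?_ (Eventually.of_forall hsub)
        exact Eventually.of_forall fun θ => by positivity
    _ = (t2 * t3) ^ 2 * ∫ θ in (-XX r)..(XX r), ‖RWar.SC k p.n1 r θ‖ ^ 2 := by
        rw [integral_Icc_eq_integral_Ioc, ← intervalIntegral.integral_of_le (by linarith),
          intervalIntegral.integral_const_mul]
    _ ≤ (t2 * t3) ^ 2 * (C * t1 ^ 2 *
        (XX r) ^ (1 + (k : ℝ) * (1 - 1 / (k : ℝ)) ^ p.n1 - k)) := by
        refine mul_le_mul_of_nonneg_left ?_ (by positivity)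
        rw [ht1]
        exact hr
    _ ≤ (t2 * t3) ^ 2 * (C * t1 ^ 2 * ((XX r) ^ (1 + p.v) / (XX r) ^ k)) := by
        have h6 : (XX r) ^ (1 + (k : ℝ) * (1 - 1 / (k : ℝ)) ^ p.n1 - k) ≤
            (XX r) ^ (1 + p.v) / (XX r) ^ k := by
          rw [Real.rpow_sub hP, Real.rpow_natCast]
          refine div_le_div_of_nonneg_right ?_ (by positivity)
          rw [← Real.rpow_natCast (XX r) (1 + p.v)]
          refine Real.rpow_le_rpow_of_exponent_le (XX_one r) ?_
          push_cast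
          have := p.hv
          linarith
        exact mul_le_mul_of_nonneg_left (mul_le_mul_of_nonneg_left h6 (by positivity))
          (by positivity)
    _ = _ := by
        rw [hZ]
        ring

end UWar
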