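import Pool.Agent.RWar.Energy
import Pool.Agent.RWar.WeylPl
import Pool.Agent.UWar.Basic

/-!
# UWar.LowU: small and large frequencies

A modified copy of `Pool/Agent/RWar/LowR.lean`. PROOF. As `Pool/Agent/HWar/LowFreq.lean` (`low_freq`, `tail_freq`) and `Pool/Agent/IWar/LowF2.lean`. `P = XX r`,
`FU = S1 S2 V` (`FU_eq`), `‖GU‖ ≤ #BU`.
(a) `|θ| ≤ P^(1/4-k)`: the integrand is `≤ C P^u |θ| #ZU #BU` (or `≤ C #ZU #BU` in `low_freqU2`), so this part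
is `≤ 2 C P^u P^(1/2-2k) #ZU #BU ≤ 2 C P^(-1/2) su` as `u + 1 ≤ k` (`≤ 2 C P^(1/4) su`).
(b) `P^(1/4-k) ≤ |θ| ≤ P^(-u) ≤ P⁻¹` (`u ≥ 1` by `hn`): `‖V‖ ≤ P^(1-σ)` (`RWar.weyl_plain`), `#J1 ≥ P/16`, and by
Cauchy-Schwarz (`2 x y ≤ x²/a + a y²` with `a = tot1/tot2`, or the integral Cauchy-Schwarz inequality)
and `RWar.energy_low` for `n1` and `n2` (`k(1-1/k)^n1 ≤ k(1-1/k)^n2 < u`) with `σ/2`
`∫_{|θ| ≤ P^(-u)} ‖S1‖ ‖S2‖ ≤ C' tot1 tot2 P^(σ/2-k)`. So this part is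
`≤ C #BU P^(1-σ) C' tot1 tot2 P^(σ/2-k) ≤ C'' su P^(-σ/2)`.
`tail_freqU`: as `tail_freq`.
-/

namespace UWar

open Filter Topology MeasureTheory MWg HWar

variable {k d : ℕ}

private theorem lowU_ee_cont : Continuous ee := by
  unfold ee
  fun_prop

private theorem lowU_SC_cont (k n r : ℕ) : Continuous (RWar.SC k n r) := by
  unfold RWar.SC
  refine continuous_finsetSum _ fun w _ => ?_
  exact lowU_ee_cont.comp (continuous_id.mul continuous_const)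

private theorem lowU_set (Θ : ℝ) : {θ : ℝ | |θ| ≤ Θ} = Set.Icc (-Θ) Θ := by
  ext θ
  simp only [Set.mem_ofPred_eq, Set.mem_Icc, abs_le]

private theorem lowU_SC_zero {k n r : ℕ} (h : ((chain k J0 n (XX r)).card : ℝ) = 0) (θ : ℝ) :
    RWar.SC k n r θ = 0 := by
  have h1 : chain k J0 n (XX r) = ∅ := by
    rw [← Finset.card_eq_zero]
    exact_mod_cast h
  unfold RWar.SC
  rw [h1, Finset.sum_empty]

private theorem lowU_amgm {x y a : ℝ} (ha : 0 < a) :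
    x * y ≤ a / 2 * x ^ 2 + (1 / (2 * a)) * y ^ 2 := by
  have h1 : a / 2 * x ^ 2 + (1 / (2 * a)) * y ^ 2 - x * y = (a * x - y) ^ 2 / (2 * a) := by
    field_simp
    ring
  have h2 : 0 ≤ (a * x - y) ^ 2 / (2 * a) := by positivity
  linarith

private theorem lowU_mean (p : ParX k d) {σ : ℝ} (hσ : 0 < σ) :
    ∃ C' : ℝ, 0 < C' ∧ ∀ᶠ r : ℕ in atTop,
      ∫ θ in (-((XX r) ^ p.u)⁻¹)..((XX r) ^ p.u)⁻¹, ‖RWar.SC k p.n1 r θ‖ * ‖RWar.SC k p.n2 r θ‖ ≤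
        C' * (((chain k J0 p.n1 (XX r)).card : ℝ) * ((chain k J0 p.n2 (XX r)).card : ℝ)) *
          (XX r) ^ (σ - k) := by
  have hk2 : 2 ≤ k := by
    have := p.hk
    omega
  have hn1 : (k : ℝ) * (1 - 1 / (k : ℝ)) ^ p.n1 < p.u := by
    refine lt_of_le_of_lt ?_ p.hn
    have hk1 : (1 : ℝ) ≤ k := by exact_mod_cast (by omega : 1 ≤ k)
    have h0 : 0 ≤ 1 - 1 / (k : ℝ) := by
      rw [sub_nonneg, div_le_one (by linarith)]
      exact hk1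
    have h1 : 1 - 1 / (k : ℝ) ≤ 1 := by
      have : 0 ≤ 1 / (k : ℝ) := by positivity
      linarith
    exact mul_le_mul_of_nonneg_left (pow_le_pow_of_le_one h0 h1 p.hn12) (by linarith)
  obtain ⟨C1, hC1, h1⟩ := RWar.energy_low hk2 hn1 hσ
  obtain ⟨C2, hC2, h2⟩ := RWar.energy_low hk2 p.hn hσ
  refine ⟨C1 + C2, by positivity, ?_⟩
  filter_upwards [h1, h2] with r hr1 hr2
  have hP : 0 < XX r := XX_pos r
  have hΘ : 0 < ((XX r) ^ p.u)⁻¹ := inv_pos.2 (pow_pos hP _)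
  obtain ⟨Θ, hΘd⟩ : ∃ Θ, Θ = ((XX r) ^ p.u)⁻¹ := ⟨_, rfl⟩
  rw [← hΘd] at hr1 hr2 hΘ ⊢
  obtain ⟨t1, ht1⟩ : ∃ t, t = ((chain k J0 p.n1 (XX r)).card : ℝ) := ⟨_, rfl⟩
  obtain ⟨t2, ht2⟩ : ∃ t, t = ((chain k J0 p.n2 (XX r)).card : ℝ) := ⟨_, rfl⟩
  have ht10 : 0 ≤ t1 := by rw [ht1]; exact Nat.cast_nonneg _
  have ht20 : 0 ≤ t2 := by rw [ht2]; exact Nat.cast_nonneg _
  rw [← ht1] at hr1
  rw [← ht2] at hr2
  rw [← ht1, ← ht2]
  have hE : 0 < (XX r) ^ (σ - k) := Real.rpow_pos_of_pos hP _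
  rcases ht10.eq_or_lt with h0 | h10
  · have hz : ∀ θ, RWar.SC k p.n1 r θ = 0 := lowU_SC_zero (by rw [← ht1, ← h0])
    simp only [hz, norm_zero, zero_mul, intervalIntegral.integral_zero]
    positivity
  rcases ht20.eq_or_lt with h0 | h20
  · have hz : ∀ θ, RWar.SC k p.n2 r θ = 0 := lowU_SC_zero (by rw [← ht2, ← h0])
    simp only [hz, norm_zero, mul_zero, intervalIntegral.integral_zero]
    positivity
  have hc1 : Continuous fun θ => ‖RWar.SC k p.n1 r θ‖ := (lowU_SC_cont k p.n1 r).norm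
  have hc2 : Continuous fun θ => ‖RWar.SC k p.n2 r θ‖ := (lowU_SC_cont k p.n2 r).norm
  have ha : 0 < t2 / t1 := by positivity
  have hi1 : IntervalIntegrable (fun θ => t2 / t1 / 2 * ‖RWar.SC k p.n1 r θ‖ ^ 2) volume (-Θ) Θ := by
    have hc : Continuous fun θ => t2 / t1 / 2 * ‖RWar.SC k p.n1 r θ‖ ^ 2 :=
      continuous_const.mul (hc1.pow 2)
    exact hc.intervalIntegrable _ _
  have hi2 : IntervalIntegrable (fun θ => (1 / (2 * (t2 / t1))) * ‖RWar.SC k p.n2 r θ‖ ^ 2)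
      volume (-Θ) Θ := by
    have hc : Continuous fun θ => (1 / (2 * (t2 / t1))) * ‖RWar.SC k p.n2 r θ‖ ^ 2 :=
      continuous_const.mul (hc2.pow 2)
    exact hc.intervalIntegrable _ _
  have hi3 : IntervalIntegrable (fun θ => ‖RWar.SC k p.n1 r θ‖ * ‖RWar.SC k p.n2 r θ‖)
      volume (-Θ) Θ := by
    have hc : Continuous fun θ => ‖RWar.SC k p.n1 r θ‖ * ‖RWar.SC k p.n2 r θ‖ := hc1.mul hc2
    exact hc.intervalIntegrable _ _
  have h3 : ∫ θ in (-Θ)..Θ, ‖RWar.SC k p.n1 r θ‖ * ‖RWar.SC k p.n2 r θ‖ ≤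
      ∫ θ in (-Θ)..Θ, (t2 / t1 / 2 * ‖RWar.SC k p.n1 r θ‖ ^ 2 +
        (1 / (2 * (t2 / t1))) * ‖RWar.SC k p.n2 r θ‖ ^ 2) := by
    refine intervalIntegral.integral_mono (by linarith) hi3 (hi1.add hi2) ?_
    intro θ
    exact lowU_amgm ha
  have h4 : ∫ θ in (-Θ)..Θ, (t2 / t1 / 2 * ‖RWar.SC k p.n1 r θ‖ ^ 2 +
        (1 / (2 * (t2 / t1))) * ‖RWar.SC k p.n2 r θ‖ ^ 2) =
      t2 / t1 / 2 * (∫ θ in (-Θ)..Θ, ‖RWar.SC k p.n1 r θ‖ ^ 2) +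
        (1 / (2 * (t2 / t1))) * ∫ θ in (-Θ)..Θ, ‖RWar.SC k p.n2 r θ‖ ^ 2 := by
    rw [intervalIntegral.integral_add hi1 hi2,
      intervalIntegral.integral_const_mul, intervalIntegral.integral_const_mul]
  rw [h4] at h3
  refine h3.trans ?_
  have h5 : t2 / t1 / 2 * (∫ θ in (-Θ)..Θ, ‖RWar.SC k p.n1 r θ‖ ^ 2) ≤
      t2 / t1 / 2 * (C1 * t1 ^ 2 * (XX r) ^ (σ - k)) :=
    mul_le_mul_of_nonneg_left hr1 (by positivity)
  have h6 : (1 / (2 * (t2 / t1))) * (∫ θ in (-Θ)..Θ, ‖RWar.SC k p.n2 r θ‖ ^ 2) ≤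
      (1 / (2 * (t2 / t1))) * (C2 * t2 ^ 2 * (XX r) ^ (σ - k)) :=
    mul_le_mul_of_nonneg_left hr2 (by positivity)
  refine (add_le_add h5 h6).trans ?_
  have h7 : t2 / t1 / 2 * (C1 * t1 ^ 2 * (XX r) ^ (σ - k)) +
      (1 / (2 * (t2 / t1))) * (C2 * t2 ^ 2 * (XX r) ^ (σ - k)) =
      (C1 + C2) * (t1 * t2) * (XX r) ^ (σ - k) / 2 := by
    field_simp
  rw [h7]
  have h8 : 0 ≤ (C1 + C2) * (t1 * t2) * (XX r) ^ (σ - k) := by positivity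
  linarith

private theorem lowU_split (p : ParX k d) {σ C C' : ℝ} (hC' : 0 < C') (K : ℝ → ℂ)
    (hK : Continuous K) (hK1 : ∀ θ, ‖K θ‖ ≤ C) {r : ℕ} {E : ℝ} (hE : 0 ≤ E)
    (hs : ∀ θ, |θ| ≤ (XX r) ^ ((1 : ℝ) / 4 - k) → ‖K θ‖ ≤ E)
    (hr16 : 16 ≤ XX r)
    (hw : ∀ θ : ℝ, (XX r) ^ ((1 : ℝ) / 4 - k) ≤ |θ| → |θ| ≤ (XX r)⁻¹ →
      ‖∑ z ∈ J1 (XX r), ee (θ * (z : ℝ) ^ k)‖ ≤ (XX r) ^ (1 - σ))
    (hm : ∫ θ in (-((XX r) ^ p.u)⁻¹)..((XX r) ^ p.u)⁻¹, ‖RWar.SC k p.n1 r θ‖ * ‖RWar.SC k p.n2 r θ‖ ≤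
        C' * (((chain k J0 p.n1 (XX r)).card : ℝ) * ((chain k J0 p.n2 (XX r)).card : ℝ)) *
          (XX r) ^ (σ / 2 - k))
    (l : ℕ) (f : ℕ → ℝ) (Y : ℝ) :
    ‖∫ θ in {θ : ℝ | |θ| ≤ ((XX r) ^ p.u)⁻¹}, K θ * ee (-(θ * Y)) *
        FU p r θ * GU p l r f θ‖ ≤
      (2 * E * (XX r) ^ ((1 : ℝ) / 4) + 16 * C * C' * (XX r) ^ (-(σ / 2))) * su p l r := by
  have hC0 : 0 ≤ C := (norm_nonneg _).trans (hK1 0)
  have hu1 : 1 ≤ p.u := by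
    have h1 := p.hn
    have h2 : (0 : ℝ) ≤ (k : ℝ) * (1 - 1 / (k : ℝ)) ^ p.n2 := by
      have hk1 : (1 : ℝ) ≤ k := by
        have := p.hk
        exact_mod_cast (by omega : 1 ≤ k)
      have h0 : 0 ≤ 1 - 1 / (k : ℝ) := by
        rw [sub_nonneg, div_le_one (by linarith)]
        exact hk1
      positivity
    have h3 : (0 : ℝ) < (p.u : ℝ) := lt_of_le_of_lt h2 h1
    have h4 : 0 < p.u := by exact_mod_cast h3
    exact h4
  have hP1 : 1 ≤ XX r := XX_ge_one r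
  have hP : 0 < XX r := XX_pos r
  have hu0 : 0 < (XX r) ^ p.u := pow_pos hP _
  have hk0 : 0 < (XX r) ^ k := pow_pos hP k
  obtain ⟨Θ, hΘ⟩ : ∃ Θ, Θ = ((XX r) ^ p.u)⁻¹ := ⟨_, rfl⟩
  obtain ⟨ρ, hρ⟩ : ∃ ρ, ρ = (XX r) ^ ((1 : ℝ) / 4 - k) := ⟨_, rfl⟩
  obtain ⟨Z, hZ⟩ : ∃ Z, Z = ((ZU p r).card : ℝ) := ⟨_, rfl⟩
  obtain ⟨B, hB⟩ : ∃ B, B = ((BU p l r).card : ℝ) := ⟨_, rfl⟩
  obtain ⟨t1, ht1⟩ : ∃ t, t = ((chain k J0 p.n1 (XX r)).card : ℝ) := ⟨_, rfl⟩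
  obtain ⟨t2, ht2⟩ : ∃ t, t = ((chain k J0 p.n2 (XX r)).card : ℝ) := ⟨_, rfl⟩
  have hΘ0 : 0 < Θ := by rw [hΘ]; exact inv_pos.2 hu0
  have hΘP : Θ ≤ (XX r)⁻¹ := by
    rw [hΘ]
    refine inv_anti₀ hP ?_
    calc XX r = (XX r) ^ 1 := (pow_one _).symm
      _ ≤ (XX r) ^ p.u := pow_le_pow_right₀ hP1 hu1
  have hρ0 : 0 < ρ := by rw [hρ]; exact Real.rpow_pos_of_pos hP _
  have hZ0 : 0 ≤ Z := by rw [hZ]; exact Nat.cast_nonneg _
  have hB0 : 0 ≤ B := by rw [hB]; exact Nat.cast_nonneg _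
  have ht10 : 0 ≤ t1 := by rw [ht1]; exact Nat.cast_nonneg _
  have ht20 : 0 ≤ t2 := by rw [ht2]; exact Nat.cast_nonneg _
  rw [← hΘ, ← ht1, ← ht2] at hm
  rw [← hρ] at hs hw
  rw [← hΘ]
  have hZt : Z = t1 * t2 * ((J1 (XX r)).card : ℝ) := by
    rw [hZ, ht1, ht2]
    unfold ZU
    rw [Finset.card_product, Finset.card_product]
    push_cast
    ring
  obtain ⟨F, hF⟩ : ∃ F : ℝ → ℂ, F = fun θ => K θ * ee (-(θ * Y)) * FU p r θ *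
      GU p l r f θ := ⟨_, rfl⟩
  have hFc : Continuous F := by
    rw [hF]
    exact ((hK.mul (lowU_ee_cont.comp (continuous_id.mul continuous_const).neg)).mul
      (FU_cont p r)).mul (GU_cont p l r f)
  have hFn : ∀ θ, ‖F θ‖ ≤ ‖K θ‖ * ‖FU p r θ‖ * B := by
    intro θ
    rw [hF]
    dsimp only
    rw [norm_mul, norm_mul, norm_mul, ee_norm, mul_one, hB]
    exact mul_le_mul_of_nonneg_left (GU_norm p l r f θ) (by positivity)
  have hsmall : ∀ θ, |θ| ≤ ρ → ‖F θ‖ ≤ E * Z * B := by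
    intro θ hθ
    refine (hFn θ).trans (mul_le_mul_of_nonneg_right ?_ hB0)
    exact mul_le_mul (hs θ hθ) (by rw [hZ]; exact FU_norm p r θ) (norm_nonneg _) hE
  have hbig : ∀ θ, |θ| ≤ Θ → ρ < |θ| →
      ‖F θ‖ ≤ (C * (XX r) ^ (1 - σ) * B) * (‖RWar.SC k p.n1 r θ‖ * ‖RWar.SC k p.n2 r θ‖) := by
    intro θ h1 h2
    have h4 := hw θ h2.le (h1.trans hΘP)
    refine (hFn θ).trans ?_
    rw [FU_eq, norm_mul, norm_mul]
    have h6 : ‖K θ‖ * (‖RWar.SC k p.n1 r θ‖ * ‖RWar.SC k p.n2 r θ‖ *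
        ‖∑ z ∈ J1 (XX r), ee (θ * (z : ℝ) ^ k)‖) ≤
        C * (‖RWar.SC k p.n1 r θ‖ * ‖RWar.SC k p.n2 r θ‖ * (XX r) ^ (1 - σ)) :=
      mul_le_mul (hK1 θ) (mul_le_mul_of_nonneg_left h4 (by positivity)) (by positivity) hC0
    refine (mul_le_mul_of_nonneg_right h6 hB0).trans (le_of_eq ?_)
    ring
  have hgoal : ∀ θ, K θ * ee (-(θ * Y)) * FU p r θ * GU p l r f θ = F θ := by
    intro θ
    rw [hF]
  simp only [hgoal]
  rw [lowU_set]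
  have hFi : IntegrableOn F (Set.Icc (-Θ) Θ) := hFc.integrableOn_Icc
  rw [← integral_inter_add_sdiff (measurableSet_Icc (a := -ρ) (b := ρ)) hFi]
  refine (norm_add_le _ _).trans ?_
  -- first part
  have hp1 : ‖∫ θ in Set.Icc (-Θ) Θ ∩ Set.Icc (-ρ) ρ, F θ‖ ≤ E * Z * B * (2 * ρ) := by
    have hc0 : 0 ≤ E * Z * B := by positivity
    have hvol : (volume : Measure ℝ) (Set.Icc (-Θ) Θ ∩ Set.Icc (-ρ) ρ) ≤
        volume (Set.Icc (-ρ) ρ) := measure_mono Set.inter_subset_right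
    have hvolt : (volume : Measure ℝ) (Set.Icc (-ρ) ρ) < ⊤ := by
      rw [Real.volume_Icc]
      exact ENNReal.ofReal_lt_top
    have h1 := norm_setIntegral_le_of_norm_le_const (μ := volume)
      (s := Set.Icc (-Θ) Θ ∩ Set.Icc (-ρ) ρ) (f := F) (C := E * Z * B)
      (lt_of_le_of_lt hvol hvolt) (fun θ hθ => hsmall θ (abs_le.2 hθ.2))
    refine h1.trans (mul_le_mul_of_nonneg_left ?_ hc0)
    unfold Measure.real
    refine (ENNReal.toReal_mono hvolt.ne hvol).trans (le_of_eq ?_)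
    rw [Real.volume_Icc, ENNReal.toReal_ofReal (by linarith)]
    ring
  -- second part
  have hSc : Continuous fun θ => (C * (XX r) ^ (1 - σ) * B) *
      (‖RWar.SC k p.n1 r θ‖ * ‖RWar.SC k p.n2 r θ‖) :=
    continuous_const.mul ((lowU_SC_cont k p.n1 r).norm.mul (lowU_SC_cont k p.n2 r).norm)
  have hc2 : 0 ≤ C * (XX r) ^ (1 - σ) * B := by positivity
  have hp2 : ‖∫ θ in Set.Icc (-Θ) Θ \ Set.Icc (-ρ) ρ, F θ‖ ≤
      (C * (XX r) ^ (1 - σ) * B) * ∫ θ in (-Θ)..Θ, ‖RWar.SC k p.n1 r θ‖ * ‖RWar.SC k p.n2 r θ‖ := by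
    have hSi : IntegrableOn (fun θ => (C * (XX r) ^ (1 - σ) * B) *
        (‖RWar.SC k p.n1 r θ‖ * ‖RWar.SC k p.n2 r θ‖)) (Set.Icc (-Θ) Θ) := hSc.integrableOn_Icc
    have hm1 : MeasurableSet (Set.Icc (-Θ) Θ \ Set.Icc (-ρ) ρ) :=
      measurableSet_Icc.diff measurableSet_Icc
    have h1 : ‖∫ θ in Set.Icc (-Θ) Θ \ Set.Icc (-ρ) ρ, F θ‖ ≤
        ∫ θ in Set.Icc (-Θ) Θ \ Set.Icc (-ρ) ρ,
          (C * (XX r) ^ (1 - σ) * B) * (‖RWar.SC k p.n1 r θ‖ * ‖RWar.SC k p.n2 r θ‖) := by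
      refine norm_integral_le_of_norm_le (hSi.mono_set Set.sdiff_subset) ?_
      refine (ae_restrict_iff' hm1).2 (Eventually.of_forall fun θ hθ => ?_)
      refine hbig θ (abs_le.2 hθ.1) ?_
      by_contra hcon
      exact hθ.2 (abs_le.1 (not_lt.1 hcon))
    have h2 : ∫ θ in Set.Icc (-Θ) Θ \ Set.Icc (-ρ) ρ,
          (C * (XX r) ^ (1 - σ) * B) * (‖RWar.SC k p.n1 r θ‖ * ‖RWar.SC k p.n2 r θ‖) ≤
        ∫ θ in Set.Icc (-Θ) Θ,
          (C * (XX r) ^ (1 - σ) * B) * (‖RWar.SC k p.n1 r θ‖ * ‖RWar.SC k p.n2 r θ‖) := by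
      refine setIntegral_mono_set hSi ?_ (Eventually.of_forall Set.sdiff_subset)
      exact Eventually.of_forall fun θ => mul_nonneg hc2 (by positivity)
    refine (h1.trans h2).trans (le_of_eq ?_)
    rw [integral_Icc_eq_integral_Ioc, ← intervalIntegral.integral_of_le (by linarith),
      intervalIntegral.integral_const_mul]
  refine (add_le_add hp1 (hp2.trans (mul_le_mul_of_nonneg_left hm hc2))).trans ?_
  -- the numbers
  have hsr : su p l r = Z * B / (XX r) ^ k := by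
    unfold su
    rw [hZ, hB]
  have htot : t1 * t2 * (XX r) ≤ 16 * Z := by
    have h1 := card_J1_ge hr16
    rw [hZt]
    have h2 : 0 ≤ t1 * t2 := by positivity
    have h3 := mul_le_mul_of_nonneg_left h1 h2
    linarith
  have hA1 : E * Z * B * (2 * ρ) = 2 * E * (XX r) ^ ((1 : ℝ) / 4) * su p l r := by
    rw [hsr, hρ, Real.rpow_sub hP, Real.rpow_natCast]
    ring
  have hA2 : C * (XX r) ^ (1 - σ) * B * (C' * (t1 * t2) * (XX r) ^ (σ / 2 - k)) ≤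
      16 * C * C' * (XX r) ^ (-(σ / 2)) * su p l r := by
    have e1 : (XX r) ^ (1 - σ) = (XX r) * (XX r) ^ (-σ) := by
      rw [sub_eq_add_neg, Real.rpow_add hP, Real.rpow_one]
    have e2 : (XX r) ^ (σ / 2 - k) = (XX r) ^ (σ / 2) / (XX r) ^ k := by
      rw [Real.rpow_sub hP, Real.rpow_natCast]
    have e3 : (XX r) ^ (-(σ / 2)) = (XX r) ^ (-σ) * (XX r) ^ (σ / 2) := by
      rw [← Real.rpow_add hP]
      congr 1
      ring
    rw [e1, e2, e3, hsr]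
    have hx0 : 0 < (XX r) ^ (-σ) := Real.rpow_pos_of_pos hP _
    have hy0 : 0 < (XX r) ^ (σ / 2) := Real.rpow_pos_of_pos hP _
    have h5 : 0 ≤ C * C' * B * ((XX r) ^ (-σ) * (XX r) ^ (σ / 2)) / (XX r) ^ k := by positivity
    calc C * (XX r * (XX r) ^ (-σ)) * B * (C' * (t1 * t2) * ((XX r) ^ (σ / 2) / (XX r) ^ k))
        = (t1 * t2 * XX r) * (C * C' * B * ((XX r) ^ (-σ) * (XX r) ^ (σ / 2)) / (XX r) ^ k) := by
          ring
      _ ≤ (16 * Z) * (C * C' * B * ((XX r) ^ (-σ) * (XX r) ^ (σ / 2)) / (XX r) ^ k) :=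
          mul_le_mul_of_nonneg_right htot h5
      _ = _ := by ring
  rw [hA1]
  refine (add_le_add le_rfl hA2).trans (le_of_eq ?_)
  ring

theorem low_freqU (p : ParX k d) {C : ℝ} (K : ℕ → ℝ → ℂ) (hK : ∀ r, Continuous (K r))
    (hK1 : ∀ r θ, ‖K r θ‖ ≤ C) (hK2 : ∀ r θ, ‖K r θ‖ ≤ C * ((XX r) ^ p.u * |θ|))
    {η : ℝ} (hη : 0 < η) :
    ∀ᶠ r : ℕ in atTop, ∀ (l : ℕ) (f : ℕ → ℝ) (Y : ℝ),
      ‖∫ θ in {θ : ℝ | |θ| ≤ ((XX r) ^ p.u)⁻¹}, K r θ * ee (-(θ * Y)) *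
        FU p r θ * GU p l r f θ‖ ≤ η * su p l r := by
  have hC0 : 0 ≤ C := (norm_nonneg _).trans (hK1 0 0)
  have hk2 : 2 ≤ k := by
    have := p.hk
    omega
  obtain ⟨σ, hσ, hw⟩ := RWar.weyl_plain hk2
  obtain ⟨C', hC', hm⟩ := lowU_mean p (half_pos hσ)
  have hlim : Tendsto (fun P : ℝ => 2 * C * P ^ (-(1 / 2) : ℝ) + 16 * C * C' * P ^ (-(σ / 2)))
      atTop (𝓝 0) := by
    have h1 : Tendsto (fun P : ℝ => P ^ (-(1 / 2) : ℝ)) atTop (𝓝 0) :=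
      tendsto_rpow_neg_atTop (by norm_num)
    have h2 : Tendsto (fun P : ℝ => P ^ (-(σ / 2))) atTop (𝓝 0) :=
      tendsto_rpow_neg_atTop (by positivity)
    have h3 := (h1.const_mul (2 * C)).add (h2.const_mul (16 * C * C'))
    simpa using h3
  have ht : ∀ᶠ r : ℕ in atTop, 2 * C * (XX r) ^ (-(1 / 2) : ℝ) +
      16 * C * C' * (XX r) ^ (-(σ / 2)) < η :=
    (hlim.comp XX_tendsto).eventually (gt_mem_nhds hη)
  have h16 : ∀ᶠ r : ℕ in atTop, (16 : ℝ) ≤ XX r := XX_tendsto.eventually_ge_atTop 16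
  filter_upwards [hw, hm, ht, h16] with r hr1 hr2 hr3 hr4
  intro l f Y
  have hP1 : 1 ≤ XX r := XX_ge_one r
  have hP : 0 < XX r := XX_pos r
  have hu0 : 0 < (XX r) ^ p.u := pow_pos hP _
  have hρ0 : 0 < (XX r) ^ ((1 : ℝ) / 4 - k) := Real.rpow_pos_of_pos hP _
  have hsr0 : 0 ≤ su p l r := by
    unfold su
    positivity
  have h1 := lowU_split p hC' (K r) (hK r) (hK1 r)
    (E := C * ((XX r) ^ p.u * (XX r) ^ ((1 : ℝ) / 4 - k))) (by positivity)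
    (fun θ hθ => (hK2 r θ).trans (mul_le_mul_of_nonneg_left
      (mul_le_mul_of_nonneg_left hθ hu0.le) hC0)) hr4 hr1 hr2 l f Y
  refine h1.trans (mul_le_mul_of_nonneg_right ?_ hsr0)
  refine le_trans ?_ hr3.le
  refine add_le_add ?_ le_rfl
  have h2 : (XX r) ^ p.u * (XX r) ^ ((1 : ℝ) / 4 - k) * (XX r) ^ ((1 : ℝ) / 4) ≤
      (XX r) ^ (-(1 / 2) : ℝ) := by
    rw [← Real.rpow_natCast, ← Real.rpow_add hP, ← Real.rpow_add hP]
    refine Real.rpow_le_rpow_of_exponent_le hP1 ?_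
    have h3 : ((p.u : ℕ) : ℝ) + 1 ≤ k := by
      have := p.hu
      exact_mod_cast (by omega : p.u + 1 ≤ k)
    linarith
  calc 2 * (C * ((XX r) ^ p.u * (XX r) ^ ((1 : ℝ) / 4 - k))) * (XX r) ^ ((1 : ℝ) / 4)
      = 2 * C * ((XX r) ^ p.u * (XX r) ^ ((1 : ℝ) / 4 - k) * (XX r) ^ ((1 : ℝ) / 4)) := by ring
    _ ≤ 2 * C * (XX r) ^ (-(1 / 2) : ℝ) := mul_le_mul_of_nonneg_left h2 (by positivity)

theorem low_freqU2 (p : ParX k d) {C : ℝ} (K : ℕ → ℝ → ℂ) (hK : ∀ r, Continuous (K r))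
    (hK1 : ∀ r θ, ‖K r θ‖ ≤ C) :
    ∀ᶠ r : ℕ in atTop, ∀ (l : ℕ) (f : ℕ → ℝ) (Y : ℝ),
      ‖∫ θ in {θ : ℝ | |θ| ≤ ((XX r) ^ p.u)⁻¹}, K r θ * ee (-(θ * Y)) *
        FU p r θ * GU p l r f θ‖ ≤ 3 * C * (XX r) ^ ((1 : ℝ) / 4) * su p l r := by
  have hC0 : 0 ≤ C := (norm_nonneg _).trans (hK1 0 0)
  have hk2 : 2 ≤ k := by
    have := p.hk
    omega
  obtain ⟨σ, hσ, hw⟩ := RWar.weyl_plain hk2
  obtain ⟨C', hC', hm⟩ := lowU_mean p (half_pos hσ)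
  have hlim : Tendsto (fun P : ℝ => 16 * C' * P ^ (-(σ / 2))) atTop (𝓝 0) := by
    have h2 : Tendsto (fun P : ℝ => P ^ (-(σ / 2))) atTop (𝓝 0) :=
      tendsto_rpow_neg_atTop (by positivity)
    have h3 := h2.const_mul (16 * C')
    simpa using h3
  have ht : ∀ᶠ r : ℕ in atTop, 16 * C' * (XX r) ^ (-(σ / 2)) < 1 :=
    (hlim.comp XX_tendsto).eventually (gt_mem_nhds one_pos)
  have h16 : ∀ᶠ r : ℕ in atTop, (16 : ℝ) ≤ XX r := XX_tendsto.eventually_ge_atTop 16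
  filter_upwards [hw, hm, ht, h16] with r hr1 hr2 hr3 hr4
  intro l f Y
  have hP1 : 1 ≤ XX r := XX_ge_one r
  have hP : 0 < XX r := XX_pos r
  have hsr0 : 0 ≤ su p l r := by
    unfold su
    positivity
  have h1 := lowU_split p hC' (K r) (hK r) (hK1 r) (E := C) hC0
    (fun θ _ => hK1 r θ) hr4 hr1 hr2 l f Y
  refine h1.trans (mul_le_mul_of_nonneg_right ?_ hsr0)
  have hq1 : 1 ≤ (XX r) ^ ((1 : ℝ) / 4) := Real.one_le_rpow hP1 (by norm_num)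
  have hq2 : C * (16 * C' * (XX r) ^ (-(σ / 2))) ≤ C * (XX r) ^ ((1 : ℝ) / 4) :=
    mul_le_mul_of_nonneg_left (hr3.le.trans hq1) hC0
  linarith

private theorem lowU_int {P : ℝ} (hP : 0 < P) (c : ℝ) :
    IntegrableOn (fun θ : ℝ => c * (θ ^ 2)⁻¹) (Set.Ioi P ∪ Set.Iic (-P)) ∧
      ∫ θ in Set.Ioi P ∪ Set.Iic (-P), c * (θ ^ 2)⁻¹ = 2 * c / P := by
  have h1 : IntegrableOn (fun θ : ℝ => θ ^ (-2 : ℝ)) (Set.Ioi P) :=
    integrableOn_Ioi_rpow_of_lt (by norm_num) hP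
  have h2 : ∀ θ ∈ Set.Ioi P, θ ^ (-2 : ℝ) = (θ ^ 2)⁻¹ := by
    intro θ hθ
    have hθ0 : 0 ≤ θ := (hP.trans hθ).le
    rw [Real.rpow_neg hθ0]
    norm_cast
  have h3 : IntegrableOn (fun θ : ℝ => (θ ^ 2)⁻¹) (Set.Ioi P) :=
    h1.congr_fun h2 measurableSet_Ioi
  have h4 : ∫ θ in Set.Ioi P, (θ ^ 2)⁻¹ = 1 / P := by
    rw [← setIntegral_congr_fun measurableSet_Ioi h2, integral_Ioi_rpow_of_lt (by norm_num) hP]
    have : (-2 : ℝ) + 1 = -1 := by norm_num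
    rw [this, Real.rpow_neg_one]
    field_simp
  have h5 : IntegrableOn (fun θ : ℝ => (θ ^ 2)⁻¹) (Set.Iic (-P)) := by
    rw [← Measure.map_neg_eq_self (volume : Measure ℝ)]
    have m : MeasurableEmbedding fun x : ℝ => -x := (Homeomorph.neg ℝ).measurableEmbedding
    rw [m.integrableOn_map_iff]
    simp only [Function.comp_def, neg_sq, Set.neg_preimage, Set.neg_Iic, neg_neg]
    exact (integrableOn_Ici_iff_integrableOn_Ioi enorm_ne_top).2 h3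
  have h7 : ∫ θ in Set.Iic (-P), (θ ^ 2)⁻¹ = 1 / P := by
    rw [← integral_comp_neg_Ioi P (fun θ : ℝ => (θ ^ 2)⁻¹)]
    simp only [neg_sq]
    exact h4
  have hdisj : Disjoint (Set.Ioi P) (Set.Iic (-P)) := by
    rw [Set.disjoint_left]
    intro θ h8 h9
    have h8' : P < θ := h8
    have h9' : θ ≤ -P := h9
    linarith
  refine ⟨(h3.union h5).const_mul c, ?_⟩
  rw [integral_const_mul, setIntegral_union hdisj measurableSet_Iic h3 h5, h4, h7]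
  ring

theorem tail_freqU (p : ParX k d) {C : ℝ} (K : ℕ → ℝ → ℂ) (hK : ∀ r, Continuous (K r))
    (hK3 : ∀ r θ, |θ| ^ (k + 2) * ‖K r θ‖ ≤ C) {η : ℝ} (hη : 0 < η) :
    ∀ᶠ r : ℕ in atTop, ∀ (l : ℕ) (f : ℕ → ℝ) (Y : ℝ),
      ‖∫ θ in {θ : ℝ | XX r < |θ|}, K r θ * ee (-(θ * Y)) * FU p r θ * GU p l r f θ‖ ≤
        η * su p l r := by
  have hC0 : 0 ≤ C := by
    refine le_trans ?_ (hK3 0 0)
    positivity
  have ht : ∀ᶠ r : ℕ in atTop, 2 * C / XX r < η := by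
    have h1 : Tendsto (fun P : ℝ => 2 * C / P) atTop (𝓝 0) :=
      tendsto_const_nhds.div_atTop tendsto_id
    exact (h1.comp XX_tendsto).eventually (gt_mem_nhds hη)
  filter_upwards [ht] with r hr
  intro l f Y
  have hP : 0 < XX r := XX_pos r
  have hk0 : 0 < (XX r) ^ k := pow_pos hP k
  obtain ⟨Z, hZ⟩ : ∃ Z, Z = ((ZU p r).card : ℝ) := ⟨_, rfl⟩
  obtain ⟨B, hB⟩ : ∃ B, B = ((BU p l r).card : ℝ) := ⟨_, rfl⟩
  have hZ0 : 0 ≤ Z := by rw [hZ]; exact Nat.cast_nonneg _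
  have hB0 : 0 ≤ B := by rw [hB]; exact Nat.cast_nonneg _
  have hsz : su p l r = Z * B / (XX r) ^ k := by
    unfold su
    rw [hZ, hB]
  have hszn : 0 ≤ su p l r := by
    rw [hsz]
    positivity
  obtain ⟨c, hc⟩ : ∃ c, c = C * (Z * B) / (XX r) ^ k := ⟨_, rfl⟩
  have hc0 : 0 ≤ c := by rw [hc]; positivity
  obtain ⟨hi1, hi2⟩ := lowU_int hP c
  have hsub : {θ : ℝ | XX r < |θ|} ⊆ Set.Ioi (XX r) ∪ Set.Iic (-(XX r)) := by
    intro θ hθ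
    have hθ' : XX r < |θ| := hθ
    rcases lt_abs.1 hθ' with h | h
    · exact Or.inl h
    · refine Or.inr ?_
      show θ ≤ -(XX r)
      linarith
  have hm : MeasurableSet {θ : ℝ | XX r < |θ|} :=
    measurableSet_lt measurable_const measurable_norm
  have h1 : ‖∫ θ in {θ : ℝ | XX r < |θ|}, K r θ * ee (-(θ * Y)) * FU p r θ *
      GU p l r f θ‖ ≤ ∫ θ in {θ : ℝ | XX r < |θ|}, c * (θ ^ 2)⁻¹ := by
    refine norm_integral_le_of_norm_le (hi1.mono_set hsub) ?_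
    refine (ae_restrict_iff' hm).2 (Eventually.of_forall fun θ hθ => ?_)
    have hθ' : XX r < |θ| := hθ
    have hθ0 : 0 < |θ| := hP.trans hθ'
    rw [norm_mul, norm_mul, norm_mul, ee_norm, mul_one]
    have h2 : ‖FU p r θ‖ * ‖GU p l r f θ‖ ≤ Z * B := by
      rw [hZ, hB]
      exact mul_le_mul (FU_norm p r θ) (GU_norm p l r f θ) (norm_nonneg _)
        (Nat.cast_nonneg _)
    have h3 : ‖K r θ‖ ≤ C / (XX r) ^ k * (θ ^ 2)⁻¹ := by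
      have h4 := hK3 r θ
      have h5 : (XX r) ^ k * θ ^ 2 * ‖K r θ‖ ≤ C := by
        refine le_trans (mul_le_mul_of_nonneg_right ?_ (norm_nonneg _)) h4
        rw [pow_add, ← sq_abs θ]
        exact mul_le_mul_of_nonneg_right (pow_le_pow_left₀ hP.le hθ'.le k) (by positivity)
      have hθ2 : 0 < θ ^ 2 := by
        rw [← sq_abs]
        positivity
      rw [← div_eq_mul_inv, div_div, le_div_iff₀ (by positivity)]
      linarith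
    calc ‖K r θ‖ * ‖FU p r θ‖ * ‖GU p l r f θ‖
        = ‖K r θ‖ * (‖FU p r θ‖ * ‖GU p l r f θ‖) := by ring
      _ ≤ (C / (XX r) ^ k * (θ ^ 2)⁻¹) * (Z * B) :=
          mul_le_mul h3 h2 (by positivity) (by positivity)
      _ = c * (θ ^ 2)⁻¹ := by rw [hc]; ring
  have h6 : ∫ θ in {θ : ℝ | XX r < |θ|}, c * (θ ^ 2)⁻¹ ≤ 2 * c / XX r := by
    rw [← hi2]
    refine setIntegral_mono_set hi1 ?_ (Eventually.of_forall hsub)
    exact Eventually.of_forall fun θ => mul_nonneg hc0 (by positivity)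
  refine (h1.trans h6).trans ?_
  have h7 : 2 * c / XX r = 2 * C / XX r * su p l r := by
    rw [hc, hsz]
    ring
  rw [h7]
  exact mul_le_mul_of_nonneg_right hr.le hszn

end UWar
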