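import Pool.Agent.UWar.Basic
import Pool.Agent.MWg.LemML
import Pool.Agent.MWg.PData

/-!
# UWar.MainU: many tuples are moderately close to the target

A modified copy of `Pool/Agent/RWar/MainR.lean`. PROOF. As `Pool/Agent/HWar/MainCt.lean` (`main_ct`), with `f x = x^k` for the plain letters. `P = XX r`.
`0 ≤ v^k ≤ P^k/4` for `v ∈ J1 P`. Generic letters: `b_j ≤ 2 Q^(k-1)`, `b_j^k ≤ 2^k Q^(k(k-1)) = 2^k P^(k-1)`
(`QK_pow`), so `0 ≤ ∑_j α_j b_j^k ≤ T max α 2^k P^(k-1) ≤ P^k/4` for large `P`. By `smallHead` for the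
chain `w2` (`n2 ≥ 1`) at least `c1 tot2` of the `w2` have value `≤ (2^k+1) P^k`; for such `w2`, all `v`, `b`
the number `y' = Y - ...` is in `[3^k P^k, 12^k P^k]` (`4^k - 1 ≥ 3^k + 2^k + 1 + ..`: see `main_ct`),
and `lemML` for the chain `w1` with `H = P^u/2` (`C0 P_(n1)^k ≤ P^u/2`, as
`k(1-1/k)^n1 ≤ k(1-1/k)^n2 < u`; `H ≤ P^k`) gives `≥ c tot1 P^u/(2P^k)` chains `w1`.
-/

namespace UWar

open Filter Topology MWg HWar

variable {k d : ℕ}

private theorem MainU_pow1 {k : ℕ} (hk : 5 ≤ k) : (3 : ℝ) ^ k + 2 ^ k + 2 ≤ 4 ^ k := by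
  induction k, hk using Nat.le_induction with
  | base => norm_num
  | succ k hk ih =>
      have h3 : (0 : ℝ) < 3 ^ k := by positivity
      have h2 : (0 : ℝ) < 2 ^ k := by positivity
      rw [pow_succ, pow_succ, pow_succ]
      linarith

private theorem MainU_pow2 {k : ℕ} (hk : 5 ≤ k) : (8 : ℝ) ^ k + 2 ^ k + 2 ≤ 12 ^ k := by
  induction k, hk using Nat.le_induction with
  | base => norm_num
  | succ k hk ih =>
      have h3 : (0 : ℝ) < 8 ^ k := by positivity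
      have h2 : (0 : ℝ) < 2 ^ k := by positivity
      rw [pow_succ, pow_succ, pow_succ]
      linarith

private theorem MainU_pow3 {k J M : ℕ} (hJk : 4 * J < k) (hM : M ≤ k) :
    16 * ((J : ℝ) * M) ≤ 128 ^ k := by
  have h1 : 16 * (J * M) ≤ 4 * (k * k) := by
    have h2 : (4 * J) * M ≤ k * k := Nat.mul_le_mul hJk.le hM
    nlinarith
  have h3 : ∀ m : ℕ, 4 * (m * m) ≤ 128 ^ m := by
    intro m
    induction m with
    | zero => norm_num
    | succ m ih =>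
        rw [pow_succ]
        have h4 : 1 ≤ 128 ^ m := Nat.one_le_pow _ _ (by norm_num)
        nlinarith
  have h5 : 16 * (J * M) ≤ 128 ^ k := h1.trans (h3 k)
  exact_mod_cast h5

private theorem MainU_abs {k : ℕ} (hk : 1 ≤ k) {f : ℕ → ℝ} (hf : Good k f) :
    ∃ C1 : ℝ, 0 ≤ C1 ∧ ∀ x : ℕ, |f x| ≤ C1 + 2 * (x : ℝ) ^ k := by
  obtain ⟨x0, hx0⟩ := (Metric.tendsto_atTop.1 (good_lim hk hf)) 1 one_pos
  refine ⟨∑ i ∈ Finset.range (x0 + 1), |f i|, Finset.sum_nonneg fun i _ => abs_nonneg _, ?_⟩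
  intro x
  have hs0 : 0 ≤ ∑ i ∈ Finset.range (x0 + 1), |f i| := Finset.sum_nonneg fun i _ => abs_nonneg _
  rcases lt_or_ge x (x0 + 1) with h | h
  · have h1 : |f x| ≤ ∑ i ∈ Finset.range (x0 + 1), |f i| :=
      Finset.single_le_sum (f := fun i => |f i|) (fun i _ => abs_nonneg _) (Finset.mem_range.2 h)
    have h2 : 0 ≤ 2 * (x : ℝ) ^ k := by positivity
    linarith
  · have hx : 0 < (x : ℝ) := by
      have : 0 < x := by omega
      exact_mod_cast this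
    have h1 := hx0 x (by omega)
    rw [Real.dist_eq] at h1
    have hun : 0 < (x : ℝ) ^ k := by positivity
    have h2 : |f x / (x : ℝ) ^ k| ≤ 2 := by
      calc |f x / (x : ℝ) ^ k| = |(f x / (x : ℝ) ^ k - 1) + 1| := by ring_nf
        _ ≤ |f x / (x : ℝ) ^ k - 1| + |(1 : ℝ)| := abs_add_le _ _
        _ ≤ 2 := by
            rw [abs_one]
            linarith
    rw [abs_div, abs_of_pos hun, div_le_iff₀ hun] at h2
    linarith

private theorem MainU_letter {k J M L l r : ℕ} (hk : 5 ≤ k) (hl : l < L)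
    {b : Fin J × Fin M → ℕ} (hb : b ∈ KWar.Bk k J M l r) (p : Fin J × Fin M) :
    ((b p : ℕ) : ℝ) ≤ XX r / 128 := by
  unfold KWar.Bk at hb
  rw [Fintype.mem_piFinset] at hb
  have h1 := (KWar.mem_blk (hb p)).2
  have h2 := KWar.be_bounds (M := M) (L := L) hl p.2.2
  have hQ := KWar.QQ_one_le (k := k) (by omega) r
  have h3 : KWar.QQ k r ^ (k - 1 - KWar.lv k M (p.1 : ℕ)) ≤ XX r := by
    rw [← KWar.QQ_pow (k := k) (by omega) r]
    exact pow_le_pow_right₀ hQ (by omega)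
  have h4 : 0 ≤ KWar.QQ k r ^ (k - 1 - KWar.lv k M (p.1 : ℕ)) := by positivity
  have h5 : 0 ≤ KWar.be M l (p.2 : ℕ) := h2.2.1.le.trans h2.1
  calc ((b p : ℕ) : ℝ) ≤ 2 * (KWar.be M l (p.2 : ℕ) * KWar.QQ k r ^ (k - 1 - KWar.lv k M (p.1 : ℕ))) := h1
    _ ≤ 2 * ((1 / 256) * XX r) := by
        apply mul_le_mul_of_nonneg_left _ (by norm_num)
        exact mul_le_mul h2.2.2 h3 h4 (by norm_num)
    _ = XX r / 128 := by ring

private theorem MainU_bulk {k J M L l r : ℕ} (hk : 5 ≤ k) (hJk : 4 * J < k) (hM : M ≤ k)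
    (hl : l < L) {f : ℕ → ℝ} {C1 : ℝ} (hC1 : ∀ x : ℕ, |f x| ≤ C1 + 2 * (x : ℝ) ^ k)
    (hr : 8 * (((J : ℝ) * M) * C1) ≤ (XX r) ^ k)
    {b : Fin J × Fin M → ℕ} (hb : b ∈ KWar.Bk k J M l r) : |bsum f b| ≤ (XX r) ^ k / 4 := by
  have hX : 0 < XX r := XX_pos r
  have h1 : |bsum f b| ≤ ∑ p : Fin J × Fin M, (C1 + 2 * (XX r / 128) ^ k) := by
    unfold bsum
    refine (Finset.abs_sum_le_sum_abs _ _).trans (Finset.sum_le_sum fun p _ => ?_)
    have h2 := MainU_letter hk hl hb p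
    have h3 : ((b p : ℕ) : ℝ) ^ k ≤ (XX r / 128) ^ k :=
      pow_le_pow_left₀ (Nat.cast_nonneg _) h2 k
    have h4 := hC1 (b p)
    linarith
  rw [Finset.sum_const, Finset.card_univ, Fintype.card_prod, Fintype.card_fin, Fintype.card_fin,
    nsmul_eq_mul] at h1
  push_cast at h1
  have h5 := MainU_pow3 hJk hM
  have h6 : (XX r / 128) ^ k = XX r ^ k / 128 ^ k := div_pow _ _ _
  have h7 : (0 : ℝ) < 128 ^ k := by positivity
  have h8 : 0 < XX r ^ k := by positivity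
  have h9 : 16 * ((J : ℝ) * M) * (XX r ^ k / 128 ^ k) ≤ XX r ^ k := by
    rw [mul_div_assoc', div_le_iff₀ h7, mul_comm]
    exact mul_le_mul_of_nonneg_left h5 h8.le
  rw [h6] at h1
  have h10 : ((J : ℝ) * M) * (C1 + 2 * (XX r ^ k / 128 ^ k)) =
      ((J : ℝ) * M) * C1 + (16 * ((J : ℝ) * M) * (XX r ^ k / 128 ^ k)) / 8 := by ring
  rw [h10] at h1
  linarith

private theorem MainU_count (p : ParX k d) {l r : ℕ} {f : ℕ → ℝ} {Y H K G0 : ℝ} (hK : 0 ≤ K)
    {G : List (ℕ × ℕ) → Prop} (hG : G0 ≤ cnt k J0 p.n2 (XX r) G)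
    (h : ∀ b ∈ BU p l r, ∀ v ∈ J1 (XX r), ∀ w' ∈ chain k J0 p.n2 (XX r), G w' →
      K ≤ cnt k J0 p.n1 (XX r) (fun w => |val (fun x => (x : ℝ) ^ k) (fun _ => 0) w -
        (Y - val (fun x => (x : ℝ) ^ k) (fun _ => 0) w' - (v : ℝ) ^ k -
          bsum f b)| ≤ H)) :
    ((BU p l r).card : ℝ) * (((J1 (XX r)).card : ℝ) * (G0 * K)) ≤
      ((open Classical in ((ZU p r ×ˢ BU p l r).filter fun x =>
          |zsum (fun x => (x : ℝ) ^ k) x.1 + bsum f x.2 - Y| ≤ H).card : ℕ) : ℝ) := by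
  classical
  unfold ZU
  have hcf : ((((((chain k J0 p.n1 (XX r) ×ˢ chain k J0 p.n2 (XX r)) ×ˢ J1 (XX r)) ×ˢ
      BU p l r).filter fun x =>
        |zsum (fun x => (x : ℝ) ^ k) x.1 + bsum f x.2 - Y| ≤ H).card : ℕ) : ℝ) =
      ∑ b ∈ BU p l r, ∑ v ∈ J1 (XX r), ∑ w' ∈ chain k J0 p.n2 (XX r),
        ∑ w ∈ chain k J0 p.n1 (XX r),
          (if |zsum (fun x => (x : ℝ) ^ k) ((w, w'), v) + bsum f b - Y| ≤ H
            then (1 : ℝ) else 0) := by
    rw [Finset.card_filter, Finset.sum_product_right]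
    push_cast
    refine Finset.sum_congr rfl fun b _ => ?_
    rw [Finset.sum_product_right]
    refine Finset.sum_congr rfl fun v _ => ?_
    rw [Finset.sum_product_right]
  have hgoal : ((BU p l r).card : ℝ) * (((J1 (XX r)).card : ℝ) * (G0 * K)) ≤
      ∑ b ∈ BU p l r, ∑ v ∈ J1 (XX r), ∑ w' ∈ chain k J0 p.n2 (XX r),
        ∑ w ∈ chain k J0 p.n1 (XX r),
          (if |zsum (fun x => (x : ℝ) ^ k) ((w, w'), v) + bsum f b - Y| ≤ H
            then (1 : ℝ) else 0) := by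
    have e : ((BU p l r).card : ℝ) * (((J1 (XX r)).card : ℝ) * (G0 * K)) =
        ∑ _b ∈ BU p l r, ∑ _v ∈ J1 (XX r), G0 * K := by
      rw [Finset.sum_const, Finset.sum_const, nsmul_eq_mul, nsmul_eq_mul]
    rw [e]
    refine Finset.sum_le_sum fun b hb => Finset.sum_le_sum fun v hv => ?_
    have h1 : G0 * K ≤ ∑ w' ∈ (chain k J0 p.n2 (XX r)).filter G, K := by
      rw [Finset.sum_const, nsmul_eq_mul]
      refine mul_le_mul_of_nonneg_right ?_ hK
      refine hG.trans (le_of_eq ?_)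
      unfold cnt
      congr!
    refine h1.trans ?_
    have h2 : ∑ w' ∈ (chain k J0 p.n2 (XX r)).filter G, K ≤
        ∑ w' ∈ (chain k J0 p.n2 (XX r)).filter G, ∑ w ∈ chain k J0 p.n1 (XX r),
          (if |zsum (fun x => (x : ℝ) ^ k) ((w, w'), v) + bsum f b - Y| ≤ H
            then (1 : ℝ) else 0) := by
      refine Finset.sum_le_sum fun w' hw' => ?_
      rw [Finset.mem_filter] at hw'
      refine (h b hb v hv w' hw'.1 hw'.2).trans (le_of_eq ?_)
      unfold cnt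
      rw [Finset.card_filter]
      push_cast
      refine Finset.sum_congr rfl fun w _ => ?_
      have e2 : zsum (fun x => (x : ℝ) ^ k) ((w, w'), v) + bsum f b - Y =
          val (fun x => (x : ℝ) ^ k) (fun _ => 0) w -
          (Y - val (fun x => (x : ℝ) ^ k) (fun _ => 0) w' - (v : ℝ) ^ k -
            bsum f b) := by
        rw [chain_val (k := k) (n := p.n1) (P := XX r) (fun x => (x : ℝ) ^ k),
          chain_val (k := k) (n := p.n2) (P := XX r) (fun x => (x : ℝ) ^ k)]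
        unfold zsum
        ring
      rw [e2]
    refine h2.trans ?_
    refine Finset.sum_le_sum_of_subset_of_nonneg (Finset.filter_subset _ _) ?_
    intro w' _ _
    refine Finset.sum_nonneg fun w _ => ?_
    split_ifs <;> norm_num
  refine hgoal.trans (le_of_eq ?_)
  rw [← hcf]

theorem main_ctU (p : ParX k d) {f : ℕ → ℝ} (hfg : Good k f) :
    ∃ c : ℝ, 0 < c ∧ ∀ᶠ r : ℕ in atTop, ∀ l < p.L, ∀ Y : ℝ, 4 ^ k * (XX r) ^ k - 1 ≤ Y →
      Y ≤ 8 ^ k * (XX r) ^ k + 1 →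
      c * su p l r * (XX r) ^ p.u ≤
        ((open Classical in ((ZU p r ×ˢ BU p l r).filter fun x =>
          |zsum (fun x => (x : ℝ) ^ k) x.1 + bsum f x.2 - Y| ≤
            (XX r) ^ p.u / 2).card : ℕ) : ℝ) := by
  classical
  have hk : 5 ≤ k := by have := p.hk; omega
  have hk2 : 2 ≤ k := by omega
  have hk1 : 1 ≤ k := by omega
  have huk := p.hu
  have hJk : 4 * p.J < k := by have := p.hJk; omega
  have hMk : p.M ≤ k := by
    have h7 := p.c7
    have hq := p.hq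
    have : 1 * p.M ≤ p.q * p.M := Nat.mul_le_mul_right _ hq
    omega
  obtain ⟨C1, hC1, habs⟩ := MainU_abs hk1 hfg
  have hf : Good k (fun x => (x : ℝ) ^ k) := good_pow hk1
  obtain ⟨c1, C0, P1, hc1, hC0, hP1, hML⟩ := lemML hk2 hf (side_J0 k) p.n1
  obtain ⟨c2, P2, hc2, hP2, hSH⟩ := smallHead hk2 hf (side_J0 k) p.hn2
  obtain ⟨Ps, hside⟩ := side_J1 hk2 hf
  obtain ⟨Ca, hCa, hth⟩ := nxt_iter_pow_le hk1 p.n1
  refine ⟨c1 * c2 / 2, by positivity, ?_⟩
  have hXk : Tendsto (fun r : ℕ => (XX r) ^ k) atTop atTop :=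
    (tendsto_pow_atTop (by omega)).comp XX_tendsto
  have hn1u : (k : ℝ) * (1 - 1 / (k : ℝ)) ^ p.n1 < (p.u : ℝ) := by
    refine lt_of_le_of_lt ?_ p.hn
    have hkR : (1 : ℝ) ≤ (k : ℝ) := by exact_mod_cast hk1
    have hq0 : 0 ≤ 1 - 1 / (k : ℝ) := by
      rw [sub_nonneg, div_le_one (by linarith)]
      exact hkR
    have hq1 : 1 - 1 / (k : ℝ) ≤ 1 := by
      have : 0 ≤ 1 / (k : ℝ) := by positivity
      linarith
    exact mul_le_mul_of_nonneg_left (pow_le_pow_of_le_one hq0 hq1 p.hn12) (by linarith)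
  filter_upwards [XX_tendsto.eventually_ge_atTop P1, XX_tendsto.eventually_ge_atTop P2,
    XX_tendsto.eventually_ge_atTop Ps,
    hXk.eventually_ge_atTop (8 * (((p.J : ℝ) * p.M) * C1)),
    hXk.eventually_ge_atTop 2,
    eventually_rpow_le (C := 2 * (C0 * Ca)) (A := (k : ℝ) * (1 - 1 / (k : ℝ)) ^ p.n1)
      (B := (p.u : ℝ)) hn1u] with r hr1 hr2 hr3 hr4 hr5 hr6
  intro l hl Y hY1 hY2
  have hX1 := XX_ge_one r
  have hX0 := XX_pos r
  have hXk0 : 0 < XX r ^ k := by positivity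
  have hXu0 : 0 < XX r ^ p.u := by positivity
  have hT : 0 ≤ tot k J0 p.n1 (XX r) := tot_nonneg _ _ _ _
  have hHk : XX r ^ p.u / 2 ≤ XX r ^ k := by
    have h1 : XX r ^ p.u ≤ XX r ^ k := pow_le_pow_right₀ hX1 (by omega)
    linarith
  have hHθ : C0 * ((nxt k)^[p.n1] (XX r)) ^ k ≤ XX r ^ p.u / 2 := by
    have h1 : C0 * ((nxt k)^[p.n1] (XX r)) ^ k ≤
        C0 * (Ca * XX r ^ ((k : ℝ) * (1 - 1 / (k : ℝ)) ^ p.n1)) :=
      mul_le_mul_of_nonneg_left (hth _ hX1) (by linarith)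
    rw [Real.rpow_natCast] at hr6
    have h2 : 2 * (C0 * Ca) * XX r ^ ((k : ℝ) * (1 - 1 / (k : ℝ)) ^ p.n1) =
        2 * (C0 * (Ca * XX r ^ ((k : ℝ) * (1 - 1 / (k : ℝ)) ^ p.n1))) := by ring
    rw [h2] at hr6
    linarith
  have hp1 := mul_le_mul_of_nonneg_right (MainU_pow1 hk) hXk0.le
  have hp2 := mul_le_mul_of_nonneg_right (MainU_pow2 hk) hXk0.le
  have hlow := MainU_count p (l := l) (r := r) (f := f)
    (Y := Y) (H := XX r ^ p.u / 2)
    (K := c1 * tot k J0 p.n1 (XX r) * (XX r ^ p.u / 2) / XX r ^ k)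
    (G0 := c2 * tot k J0 p.n2 (XX r))
    (G := fun w => |val (fun x => (x : ℝ) ^ k) (fun _ => 0) w| ≤ (2 ^ k + 1) * XX r ^ k)
    (by positivity)
    (hSH (XX r) hr2) (by
      intro b hb v hv w' _ hw'
      have hb1 := abs_le.1 (MainU_bulk hk hJk hMk hl habs hr4 hb)
      have hv1 := abs_le.1 ((hside (XX r) hr3).2 v hv)
      have hw1 := abs_le.1 hw'
      refine hML (XX r) hr1 (Y - val (fun x => (x : ℝ) ^ k) (fun _ => 0) w' - (v : ℝ) ^ k -
        bsum f b) ?_ ?_ _ hHθ hHk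
      · nlinarith [hb1.2, hv1.2, hw1.2]
      · nlinarith [hb1.1, hv1.1, hw1.1])
  refine le_trans (le_of_eq ?_) hlow
  unfold su ZU
  rw [Finset.card_product, Finset.card_product]
  push_cast
  unfold tot
  ring

end UWar
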