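import Pool.Agent.UWar.ApxU
import Pool.Agent.UWar.AsmU
import Pool.Agent.UWar.AeU
import Pool.Agent.MWg.FinalD

/-!
# UWar.FinU: exact representation and approximation for almost all coefficients

Modified copies of `Pool/Agent/KWar/Fin.lean`, `Pool/Agent/LWar/FinF.lean` (pigeonhole for the families) and
`Pool/Agent/RWar/FinA.lean`, `FinR.lean` (plain letters).
-/

namespace UWar

open Filter Topology MeasureTheory MWg HWar IWar

/-- Every large integer is a sum of `r` positive `k`-th powers and `T` integer parts `⌊f y⌋`. -/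
def ExactU (k r T : ℕ) (f : ℕ → ℝ) : Prop :=
  ∃ N0 : ℤ, ∀ N : ℤ, N0 ≤ N → ∃ (x : Fin r → ℕ) (y : Fin T → ℕ), (∀ i, 0 < x i) ∧
    (∀ j, 0 < y j) ∧ ∑ i, (x i : ℤ) ^ k + ∑ j, ⌊f (y j)⌋ = N

/-- Sums of `r` positive `k`-th powers and `T` values `f y` approximate all large reals. -/
def ApproxU (k r T : ℕ) (f : ℕ → ℝ) : Prop :=
  ∀ ε : ℝ, 0 < ε → ∃ Y : ℝ, ∀ y : ℝ, Y ≤ y → ∃ (x : Fin r → ℕ) (z : Fin T → ℕ),
    (∀ i, 0 < x i) ∧ (∀ j, 0 < z j) ∧ |∑ i, (x i : ℝ) ^ k + ∑ j, f (z j) - y| < ε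

theorem exactU_mono {k r0 r T0 T : ℕ} (hr : r0 ≤ r) (hT : T0 ≤ T) {f : ℕ → ℝ}
    (h : ExactU k r0 T0 f) : ExactU k r T f := by
  obtain ⟨j, rfl⟩ : ∃ j, r = r0 + j := ⟨r - r0, by omega⟩
  obtain ⟨i, rfl⟩ : ∃ i, T = T0 + i := ⟨T - T0, by omega⟩
  obtain ⟨N0, hN0⟩ := h
  refine ⟨N0 + j + i * ⌊f 1⌋, fun N hN => ?_⟩
  obtain ⟨x, y, hx, hy, hxN⟩ := hN0 (N - j - i * ⌊f 1⌋) (by linarith)
  refine ⟨Fin.append x (fun _ => 1), Fin.append y (fun _ => 1), fun a => ?_, fun a => ?_, ?_⟩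
  · refine Fin.addCases (fun a => ?_) (fun a => ?_) a
    · rw [Fin.append_left]
      exact hx a
    · rw [Fin.append_right]
      exact Nat.one_pos
  · refine Fin.addCases (fun a => ?_) (fun a => ?_) a
    · rw [Fin.append_left]
      exact hy a
    · rw [Fin.append_right]
      exact Nat.one_pos
  · rw [Fin.sum_univ_add, Fin.sum_univ_add]
    simp only [Fin.append_left, Fin.append_right, Finset.sum_const, Finset.card_univ,
      Fintype.card_fin, nsmul_eq_mul, Nat.cast_one, one_pow, mul_one]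
    linarith

theorem approxU_mono {k r0 r T0 T : ℕ} (hr : r0 ≤ r) (hT : T0 ≤ T) {f : ℕ → ℝ}
    (h : ApproxU k r0 T0 f) : ApproxU k r T f := by
  obtain ⟨j, rfl⟩ : ∃ j, r = r0 + j := ⟨r - r0, by omega⟩
  obtain ⟨i, rfl⟩ : ∃ i, T = T0 + i := ⟨T - T0, by omega⟩
  intro ε hε
  obtain ⟨Y, hY⟩ := h ε hε
  refine ⟨Y + j + i * f 1, fun y hy => ?_⟩
  obtain ⟨x, z, hx, hz, hxy⟩ := hY (y - j - i * f 1) (by linarith)
  refine ⟨Fin.append x (fun _ => 1), Fin.append z (fun _ => 1), fun a => ?_, fun a => ?_, ?_⟩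
  · refine Fin.addCases (fun a => ?_) (fun a => ?_) a
    · rw [Fin.append_left]
      exact hx a
    · rw [Fin.append_right]
      exact Nat.one_pos
  · refine Fin.addCases (fun a => ?_) (fun a => ?_) a
    · rw [Fin.append_left]
      exact hz a
    · rw [Fin.append_right]
      exact Nat.one_pos
  · rw [Fin.sum_univ_add, Fin.sum_univ_add]
    simp only [Fin.append_left, Fin.append_right, Finset.sum_const, Finset.card_univ,
      Fintype.card_fin, nsmul_eq_mul, Nat.cast_one, one_pow, mul_one]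
    refine lt_of_eq_of_lt ?_ hxy
    congr 1
    ring

/-- a tuple of plain letters as a function -/
private theorem FinU_plain {k d : ℕ} (p : ParX k d) {r : ℕ} {z : Zt} (hz : z ∈ ZU p r) :
    ∃ x : Fin (p.n1 + p.n2 + 1) → ℕ, (∀ i, 0 < x i) ∧
      ∑ i, (x i : ℝ) ^ k = zsum (fun x => (x : ℝ) ^ k) z := by
  unfold ZU at hz
  obtain ⟨h1, h2⟩ := Finset.mem_product.1 hz
  obtain ⟨h3, h4⟩ := Finset.mem_product.1 h1
  obtain ⟨x, hx, hxs⟩ := list_fin (z.1.1.map Prod.fst ++ (z.1.2.map Prod.fst ++ [z.2]))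
    (m := p.n1 + p.n2 + 1) (by
      simp only [List.length_append, List.length_map, List.length_cons, List.length_nil,
        chain_length h3, chain_length h4]
      ring)
  refine ⟨x, fun i => ?_, ?_⟩
  · have h5 := hx i
    rw [List.mem_append, List.mem_append, List.mem_map, List.mem_map, List.mem_singleton] at h5
    rcases h5 with ⟨q, hq, h6⟩ | ⟨q, hq, h6⟩ | h6
    · rw [← h6]
      exact chain_fst_pos h3 q hq
    · rw [← h6]
      exact chain_fst_pos h4 q hq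
    · rw [h6]
      unfold J1 at h2
      have := (Finset.mem_Ioc.1 h2).1
      omega
  · rw [hxs fun x => (x : ℝ) ^ k]
    unfold zsum
    simp only [List.map_append, List.sum_append, List.map_map, List.map_cons, List.sum_cons,
      List.map_nil, List.sum_nil, add_zero, Function.comp_def]
    ring

/-- a tuple of plain letters as a function, integer sums -/
private theorem FinU_plainZ {k d : ℕ} (p : ParX k d) {r : ℕ} {z : Zt} (hz : z ∈ ZU p r) :
    ∃ x : Fin (p.n1 + p.n2 + 1) → ℕ, (∀ i, 0 < x i) ∧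
      ((∑ i, (x i : ℤ) ^ k : ℤ) : ℝ) = zsum (fun x => (x : ℝ) ^ k) z := by
  obtain ⟨x, hx, hxs⟩ := FinU_plain p hz
  refine ⟨x, hx, ?_⟩
  rw [← hxs]
  push_cast
  rfl

/-- a tuple of generic letters as a function -/
private theorem FinU_gen {k d : ℕ} (p : ParX k d) {l r : ℕ} {b : Fin p.J × Fin p.M → ℕ}
    (hb : b ∈ BU p l r) : ∃ y : Fin (p.J * p.M) → ℕ, (∀ i, 0 < y i) ∧
      ∀ f : ℕ → ℝ, ∑ i, f (y i) = bsum f b := by
  refine ⟨fun i => b (finProdFinEquiv.symm i), fun i => ?_, fun f => ?_⟩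
  · unfold BU KWar.Bk at hb
    have h5 := Fintype.mem_piFinset.1 hb (finProdFinEquiv.symm i)
    unfold KWar.blk at h5
    obtain ⟨h1, _⟩ := Finset.mem_Ioc.1 h5
    exact lt_of_le_of_lt (Nat.zero_le _) h1
  · unfold bsum
    exact Equiv.sum_comp finProdFinEquiv.symm (fun x => f (b x))

private theorem FinU_pigeon {q L u : ℕ} (hq : 1 ≤ q) (hL : (u + 1) * (q - 1) < L)
    (H : Fin L → ℕ) (hH : ∀ l, H l ≤ u) :
    ∃ h, h ≤ u ∧ ∃ ψ : Fin q → Fin L, Function.Injective ψ ∧ ∀ i, H (ψ i) = h := by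
  classical
  obtain ⟨h, hh, hcard⟩ := Finset.exists_lt_card_fiber_of_mul_lt_card_of_maps_to
    (s := (Finset.univ : Finset (Fin L))) (t := Finset.range (u + 1)) (f := H) (n := q - 1)
    (fun a _ => Finset.mem_range.2 (by have := hH a; omega))
    (by rw [Finset.card_range, Finset.card_univ, Fintype.card_fin]; exact hL)
  have hq2 : q ≤ (Finset.univ.filter fun l : Fin L => H l = h).card := by
    have := hcard
    omega
  obtain ⟨T, hT, hTc⟩ := Finset.exists_subset_card_eq hq2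
  refine ⟨h, by have := Finset.mem_range.1 hh; omega, fun i => T.orderEmbOfFin hTc i, ?_, ?_⟩
  · exact (T.orderEmbOfFin hTc).injective
  · intro i
    have h1 := hT (T.orderEmbOfFin_mem hTc i)
    exact (Finset.mem_filter.1 h1).2

/-- Pigeonhole for the families. -/
private theorem FinU_pigeonF {I : Type} [Fintype I] [DecidableEq I] {L q : ℕ} (hq : 1 ≤ q)
    (hL : Fintype.card I * (q - 1) < L) {V : I → ℕ → ℝ} {c : ℝ}
    (hc : ∀ l : ℕ, l < L → c ≤ ∑ j, V j l) (hI : 0 < Fintype.card I) :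
    ∃ j : I, ∃ φ : Fin q → Fin L, Function.Injective φ ∧
      ∀ i, c / Fintype.card I ≤ V j (φ i) := by
  have h1 : ∀ l : Fin L, ∃ j : I, c / Fintype.card I ≤ V j l := by
    intro l
    by_contra hcon
    push Not at hcon
    have h2 : ∑ j, V j (l : ℕ) < ∑ _j : I, c / Fintype.card I :=
      Finset.sum_lt_sum_of_nonempty (Finset.card_pos.1 (by rwa [Finset.card_univ]))
        fun j _ => hcon j
    rw [Finset.sum_const, Finset.card_univ, nsmul_eq_mul, mul_div_cancel₀] at h2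
    · exact absurd (hc l l.2) (not_le.2 h2)
    · exact_mod_cast hI.ne'
  choose J hJ using h1
  obtain ⟨j, _, hj⟩ := Finset.exists_lt_card_fiber_of_mul_lt_card_of_maps_to
    (s := (Finset.univ : Finset (Fin L))) (t := (Finset.univ : Finset I)) (f := J) (n := q - 1)
    (fun _ _ => Finset.mem_univ _) (by rwa [Finset.card_univ, Finset.card_univ, Fintype.card_fin])
  have h3 : Fintype.card (Fin q) ≤
      Fintype.card {x // x ∈ (Finset.univ : Finset (Fin L)).filter fun x => J x = j} := by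
    rw [Fintype.card_fin, Fintype.card_coe]
    omega
  obtain ⟨e⟩ := Function.Embedding.nonempty_of_card_le h3
  refine ⟨j, fun i => (e i : Fin L), fun a b hab => e.injective (Subtype.ext hab), fun i => ?_⟩
  have h4 := (Finset.mem_filter.1 (e i).2).2
  have h5 := hJ (e i)
  rwa [h4] at h5

private theorem FinU_core {k d : ℕ} (p : ParX k d) {g : ℕ → ℝ} (t : Fin d → ℝ) {K : ℕ → ℝ → ℂ}
    (hK : ∀ r, Continuous (K r)) {CK : ℝ} (hCK : ∀ r θ, ‖K r θ‖ ≤ CK) {ε1 : ℝ} (h0 : 0 < ε1)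
    (h1 : ε1 ≤ 1) {c : ℝ} (hc : 0 < c)
    (hlow : ∀ᶠ r : ℕ in atTop, ∀ l : ℕ, l < p.L → ∀ Y : ℝ,
        4 ^ k * (XX r) ^ k - 1 ≤ Y → Y ≤ 8 ^ k * (XX r) ^ k + 1 →
        (∀ z ∈ ZU p r, ∀ b ∈ BU p l r,
          ε1 ≤ |zsum (fun x => (x : ℝ) ^ k) z + bsum (ff k d g t) b - Y|) →
        c ≤ ∑ h ∈ Finset.range (p.u + 1), ‖MU p (TT r h) (K r) l r (ff k d g t) Y‖ /
          su p l r)
    (hgood : ∀ φ : Fin p.q → ℕ, Function.Injective φ → (∀ l, φ l < p.L) →
      ∀ h : ℕ, h ≤ p.u → Tendsto (fun r : ℕ =>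
        ∫⁻ Y in Set.Icc (4 ^ k * (XX r) ^ k - 1) (8 ^ k * (XX r) ^ k + 1), ENNReal.ofReal (∏ l,
          (‖MU p (TT r h) (K r) (φ l) r (ff k d g t) Y‖ / su p (φ l) r) ^ 2))
        atTop (𝓝 0)) :
    ∃ Y : ℝ, ∀ y : ℝ, Y ≤ y → ∃ (x : Fin (p.n1 + p.n2 + 1) → ℕ) (z : Fin (p.J * p.M) → ℕ),
      (∀ i, 0 < x i) ∧ (∀ j, 0 < z j) ∧
        |∑ i, (x i : ℝ) ^ k + ∑ j, ff k d g t (z j) - y| < 2 * ε1 := by
  classical
  set f := ff k d g t with hf
  set G : (Fin p.q → Fin p.L) × ℕ → ℕ → ℝ → ENNReal := fun a r Y => ENNReal.ofReal (∏ l,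
    (‖MU p (TT r a.2) (K r) (a.1 l : ℕ) r f Y‖ / su p (a.1 l : ℕ) r) ^ 2) with hG
  set I : ℕ → Set ℝ := fun r => Set.Icc (4 ^ k * (XX r) ^ k - 1) (8 ^ k * (XX r) ^ k + 1) with hI
  set S : Finset ((Fin p.q → Fin p.L) × ℕ) :=
    (Finset.univ.filter fun ψ : Fin p.q → Fin p.L => Function.Injective ψ) ×ˢ
      Finset.range (p.u + 1) with hS
  have hGm : ∀ a r, Measurable (G a r) := by
    intro a r
    rw [hG]
    have hcont : Continuous (fun Y : ℝ => ∏ l,
        (‖MU p (TT r a.2) (K r) (a.1 l : ℕ) r f Y‖ / su p (a.1 l : ℕ) r) ^ 2) := by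
      refine continuous_finsetProd _ fun l _ => ?_
      have h2 := (mv_cont p g (TT_meas r a.2) (R := XX r) (fun θ hθ => TT_le hθ)
        (hK r).measurable (hCK r) (c := fun _ _ => 1) (fun _ => continuous_const) 0
        (a.1 l : ℕ) r).comp (Continuous.prodMk_right t)
      have h3 : Continuous fun Y : ℝ => MU p (TT r a.2) (K r) (a.1 l : ℕ) r f Y := by
        refine h2.congr fun Y => ?_
        exact mv_real p (TT r a.2) (K r) (a.1 l : ℕ) r f Y
      exact (h3.norm.div_const _).pow 2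
    exact hcont.measurable.ennreal_ofReal
  have hlim : Tendsto (fun r : ℕ => ∑ a ∈ S, ∫⁻ Y in I r, G a r Y) atTop (𝓝 0) := by
    have h2 : Tendsto (fun r : ℕ => ∑ a ∈ S, ∫⁻ Y in I r, G a r Y) atTop
        (𝓝 (∑ _a ∈ S, (0 : ENNReal))) := by
      refine tendsto_finsetSum _ fun a ha => ?_
      obtain ⟨ha1, ha2⟩ := Finset.mem_product.1 ha
      have hinj := (Finset.mem_filter.1 ha1).2
      refine hgood (fun l => (a.1 l : ℕ)) ?_ (fun l => (a.1 l).isLt) a.2
        (by have := Finset.mem_range.1 ha2; omega)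
      intro i j hij
      exact hinj (Fin.ext hij)
    simpa using h2
  set c0 : ℝ := c / (p.u + 1) with hc0
  have hu0 : (0 : ℝ) < p.u + 1 := by positivity
  have hc0' : 0 < c0 := div_pos hc hu0
  set c1 : ℝ := (c0 ^ 2) ^ p.q with hc1
  have hc1' : 0 < c1 := by positivity
  have hev : ∀ᶠ r : ℕ in atTop, ∑ a ∈ S, ∫⁻ Y in I r, G a r Y < ENNReal.ofReal (c1 * (2 * ε1)) := by
    refine hlim.eventually (gt_mem_nhds ?_)
    rw [ENNReal.ofReal_pos]
    positivity
  obtain ⟨r0, hr0⟩ := eventually_atTop.1 (hev.and hlow)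
  have hk1 : 1 ≤ k := by have := p.hk; omega
  refine ⟨4 ^ k * XX r0 ^ k, fun y hy => ?_⟩
  obtain ⟨r, hr, hy1, hy2⟩ := finalD_scale hk1 r0 hy
  obtain ⟨hlt, hlowr⟩ := hr0 r hr
  by_contra hcon
  push Not at hcon
  have hfar : ∀ l : ℕ, ∀ z ∈ ZU p r, ∀ b ∈ BU p l r, 2 * ε1 ≤
      |zsum (fun x => (x : ℝ) ^ k) z + bsum f b - y| := by
    intro l z hz b hb
    obtain ⟨x, hx, hxs⟩ := FinU_plain p hz
    obtain ⟨w, hw, hws⟩ := FinU_gen p hb
    have h2 := hcon x w hx hw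
    rw [hxs, hws] at h2
    exact h2
  have hpt : ∀ Y ∈ Set.Icc (y - ε1) (y + ε1), ENNReal.ofReal c1 ≤ ∑ a ∈ S, G a r Y := by
    intro Y hY
    have hYI1 : 4 ^ k * (XX r) ^ k - 1 ≤ Y := by linarith [hY.1]
    have hYI2 : Y ≤ 8 ^ k * (XX r) ^ k + 1 := by linarith [hY.2]
    have hmid : ∀ l : ℕ, l < p.L → ∃ h, h ≤ p.u ∧
        c0 ≤ ‖MU p (TT r h) (K r) l r f Y‖ / su p l r := by
      intro l hl
      have h2 := hlowr l hl Y hYI1 hYI2 (fun z hz b hb => by
        have h3 := hfar l z hz b hb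
        have h4 : |Y - y| ≤ ε1 := by
          rw [abs_le]
          constructor
          · linarith [hY.1]
          · linarith [hY.2]
        have h5 : |zsum (fun x => (x : ℝ) ^ k) z + bsum f b - y| ≤ |zsum (fun x => (x : ℝ) ^ k) z + bsum f b - Y| + |Y - y| := by
          have h6 : zsum (fun x => (x : ℝ) ^ k) z + bsum f b - y = (zsum (fun x => (x : ℝ) ^ k) z + bsum f b - Y) + (Y - y) := by ring
          rw [h6]
          exact abs_add_le _ _
        linarith)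
      by_contra hno
      push Not at hno
      have h3 : ∑ h ∈ Finset.range (p.u + 1), ‖MU p (TT r h) (K r) l r f Y‖ /
          su p l r < ∑ _h ∈ Finset.range (p.u + 1), c0 := by
        refine Finset.sum_lt_sum_of_nonempty ⟨0, Finset.mem_range.2 (by omega)⟩ fun h hh => ?_
        exact hno h (by have := Finset.mem_range.1 hh; omega)
      rw [Finset.sum_const, Finset.card_range, nsmul_eq_mul] at h3
      have h4 : ((p.u + 1 : ℕ) : ℝ) * c0 = c := by
        rw [hc0]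
        push_cast
        field_simp
      rw [h4] at h3
      exact absurd h2 (not_le.2 h3)
    choose H hH1 hH2 using hmid
    obtain ⟨h, hh, ψ, hψ, hψh⟩ := FinU_pigeon p.hq
      (lt_of_le_of_lt (Nat.le_mul_of_pos_left _ (by norm_num)) p.hL) (fun l : Fin p.L => H l l.isLt)
      (fun l => hH1 l l.isLt)
    have hmem : (ψ, h) ∈ S := by
      rw [hS, Finset.mem_product]
      exact ⟨Finset.mem_filter.2 ⟨Finset.mem_univ _, hψ⟩, Finset.mem_range.2 (by omega)⟩
    have hle : ENNReal.ofReal c1 ≤ G (ψ, h) r Y := by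
      rw [hG]
      refine ENNReal.ofReal_le_ofReal ?_
      have h2 : c1 = ∏ _l : Fin p.q, c0 ^ 2 := by
        rw [Finset.prod_const, Finset.card_univ, Fintype.card_fin]
      rw [h2]
      refine Finset.prod_le_prod (fun l _ => by positivity) fun l _ => ?_
      have h3 := hH2 (ψ l : ℕ) (ψ l).isLt
      have h4 : H (ψ l : ℕ) (ψ l).isLt = h := hψh l
      rw [h4] at h3
      exact pow_le_pow_left₀ hc0'.le h3 2
    exact hle.trans (Finset.single_le_sum (f := fun a => G a r Y) (fun _ _ => zero_le) hmem)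
  have hsub : Set.Icc (y - ε1) (y + ε1) ⊆ I r := by
    refine Set.Icc_subset_Icc ?_ ?_
    · linarith
    · linarith
  have hfin : ENNReal.ofReal (c1 * (2 * ε1)) ≤ ∑ a ∈ S, ∫⁻ Y in I r, G a r Y := by
    calc ENNReal.ofReal (c1 * (2 * ε1))
        = ∫⁻ _Y in Set.Icc (y - ε1) (y + ε1), ENNReal.ofReal c1 := by
          rw [setLIntegral_const, Real.volume_Icc, ENNReal.ofReal_mul hc1'.le]
          congr 2
          ring
      _ ≤ ∫⁻ Y in Set.Icc (y - ε1) (y + ε1), ∑ a ∈ S, G a r Y :=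
          setLIntegral_mono' measurableSet_Icc hpt
      _ ≤ ∫⁻ Y in I r, ∑ a ∈ S, G a r Y := lintegral_mono_set hsub
      _ = ∑ a ∈ S, ∫⁻ Y in I r, G a r Y :=
          lintegral_finsetSum _ fun a _ => hGm a r
  exact absurd hfin (not_le.2 hlt)

/-- The polynomial with the coefficients `t` added. -/
private noncomputable def FinU_gt (k d : ℕ) (g : Polynomial ℝ) (t : Fin d → ℝ) : Polynomial ℝ :=
  g + ∑ i : Fin d, Polynomial.C (t i) * Polynomial.X ^ (k - 1 - (i : ℕ))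

private theorem FinU_gt_eval {k d : ℕ} (g : Polynomial ℝ) (t : Fin d → ℝ) :
    (fun x : ℕ => (x : ℝ) ^ k + (FinU_gt k d g t).eval (x : ℝ)) =
      ff k d (fun x => g.eval (x : ℝ)) t := by
  funext x
  unfold FinU_gt ff
  rw [Polynomial.eval_add, Polynomial.eval_finsetSum]
  simp only [Polynomial.eval_mul, Polynomial.eval_C, Polynomial.eval_pow, Polynomial.eval_X]
  ring

private theorem FinU_gt_deg {k d : ℕ} (hk : 1 ≤ k) {g : Polynomial ℝ} (hg : g.natDegree < k)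
    (t : Fin d → ℝ) : (FinU_gt k d g t).natDegree < k := by
  have h1 : (∑ i : Fin d, Polynomial.C (t i) * Polynomial.X ^ (k - 1 - (i : ℕ))).natDegree ≤
      k - 1 := by
    refine Polynomial.natDegree_sum_le_of_forall_le _ _ fun i _ => ?_
    exact (Polynomial.natDegree_C_mul_X_pow_le _ _).trans (by omega)
  have h2 : (FinU_gt k d g t).natDegree ≤ k - 1 :=
    (Polynomial.natDegree_add_le _ _).trans (max_le (by omega) h1)
  omega

private theorem FinU_good {k : ℕ} (hk : 2 ≤ k) {g : Polynomial ℝ} (hg : g.natDegree < k) :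
    Good k (fun x : ℕ => (x : ℝ) ^ k + g.eval (x : ℝ)) := by
  have h : ∀ m : ℕ, m ≤ k → Good k (fun x : ℕ => (x : ℝ) ^ k +
      ∑ i ∈ Finset.range m, g.coeff i * (x : ℝ) ^ i) := by
    intro m
    induction m with
    | zero =>
      intro _
      simpa using good_pow (by omega : 1 ≤ k)
    | succ m ih =>
      intro hm
      have h1 := good_add_pow (by omega : m < k) (ih (by omega)) (g.coeff m)
      have h2 : (fun x : ℕ => (x : ℝ) ^ k + ∑ i ∈ Finset.range (m + 1), g.coeff i * (x : ℝ) ^ i) =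
          (fun x : ℕ => (x : ℝ) ^ k + ∑ i ∈ Finset.range m, g.coeff i * (x : ℝ) ^ i +
            g.coeff m * (x : ℝ) ^ m) := by
        funext x
        rw [Finset.sum_range_succ]
        ring
      rw [h2]
      exact h1
  have h3 : (fun x : ℕ => (x : ℝ) ^ k + g.eval (x : ℝ)) = (fun x : ℕ => (x : ℝ) ^ k +
      ∑ i ∈ Finset.range k, g.coeff i * (x : ℝ) ^ i) := by
    funext x
    rw [Polynomial.eval_eq_sum_range' hg]
  rw [h3]
  exact h k le_rfl


theorem good_ff {k d : ℕ} (hk : 2 ≤ k) {g : Polynomial ℝ} (hg : g.natDegree < k)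
    (t : Fin d → ℝ) : Good k (ff k d (fun x => g.eval (x : ℝ)) t) := by
  rw [← FinU_gt_eval]
  exact FinU_good hk (FinU_gt_deg (by omega) hg t)

theorem apx_aeU {k d : ℕ} (p : ParX k d) {g : Polynomial ℝ} (hg : g.natDegree < k) :
    ∀ᵐ t : Fin d → ℝ, ApproxU k (p.n1 + p.n2 + 1) (p.J * p.M)
      (ff k d (fun x => g.eval (x : ℝ)) t) := by
  have hk := p.hk
  have hε : ∀ m : ℕ, (0 : ℝ) < 1 / ((m : ℝ) + 1) := fun m => by positivity
  have hε1 : ∀ m : ℕ, (1 : ℝ) / ((m : ℝ) + 1) ≤ 1 := fun m => by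
    rw [div_le_one (by positivity)]
    have : (0 : ℝ) ≤ m := Nat.cast_nonneg m
    linarith
  choose C K hC hKc hKb hlow using fun m : ℕ => low_asmU p (hε m) (hε1 m)
  have hgood : ∀ᵐ t : Fin d → ℝ, ∀ m : ℕ, ∀ φ : Fin p.q → ℕ, Function.Injective φ →
      (∀ l, φ l < p.L) → ∀ h : ℕ, h ≤ p.u → Tendsto (fun r : ℕ =>
        ∫⁻ Y in Set.Icc (4 ^ k * (XX r) ^ k - 1) (8 ^ k * (XX r) ^ k + 1), ENNReal.ofReal (∏ l,
          (‖MU p (TT r h) (K m r) (φ l) r (ff k d (fun x => g.eval (x : ℝ)) t) Y‖ /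
            su p (φ l) r) ^ 2)) atTop (𝓝 0) := by
    rw [ae_all_iff]
    intro m
    exact ae_goodU p _ (K m) (hKc m) (hKb m)
  filter_upwards [hgood] with t ht1
  intro ε hεp
  obtain ⟨m, hm⟩ := exists_nat_one_div_lt (half_pos hεp)
  obtain ⟨c, hc, hev⟩ := hlow m _ (good_ff (by omega) hg t)
  obtain ⟨Y, hY⟩ := FinU_core p t (hKc m) (hKb m) (hε m) (hε1 m) hc hev (ht1 m)
  refine ⟨Y, fun y hy => ?_⟩
  obtain ⟨x, z, hx, hz, hxy⟩ := hY y hy
  refine ⟨x, z, hx, hz, hxy.trans ?_⟩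
  linarith

theorem exact_aeU {k d : ℕ} (p : ParX k d) {g : Polynomial ℝ} (hg : g.natDegree < k) :
    ∀ᵐ t : Fin d → ℝ, ExactU k (p.n1 + p.n2 + 1) (p.J * p.M)
      (ff k d (fun x => g.eval (x : ℝ)) t) := by
  classical
  have hk5 := p.hk
  obtain ⟨C, K, hC, hKm, hKb, hasm⟩ := asmU p
  have hA1 := ae_realU p (fun x => g.eval (x : ℝ)) (K 0) (hKm 0) (CK := C) (hKb 0)
  have hA2 := ae_realU p (fun x => g.eval (x : ℝ)) (K 1) (hKm 1) (CK := C) (hKb 1)
  have hA3 := ae_floorU p (fun x => g.eval (x : ℝ)) (K 2) (hKm 2) (CK := C) (hKb 2)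
  filter_upwards [hA1, hA2, hA3] with t ht1 ht2 ht3
  obtain ⟨c, hc, hev⟩ := hasm _ (good_ff (by omega) hg t)
  set f : ℕ → ℝ := ff k d (fun x => g.eval (x : ℝ)) t with hf
  by_contra hnot
  let I : Type := (Fin (p.u + 1) ⊕ Fin (p.u + 1)) ⊕ Unit
  have hIc : Fintype.card I = 2 * (p.u + 1) + 1 := by
    simp only [I, Fintype.card_sum, Fintype.card_fin, Fintype.card_unit]
    ring
  have hI0 : 0 < Fintype.card I := by rw [hIc]; omega
  let V : ℕ → ℕ → I → ℕ → ℝ := fun r N => Sum.elim (Sum.elim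
    (fun h l => ‖MU p (TT r (h : ℕ)) (K 0 r) l r f (N : ℝ)‖ / su p l r)
    (fun h l => ‖MU p (TT r (h : ℕ)) (K 1 r) l r f (N : ℝ)‖ / su p l r))
    (fun _ l => ‖MU p (TH r) (K 2 r) l r (fl f) (N : ℝ)‖ / su p l r)
  have htend : ∀ (φ : Fin p.q → Fin p.L) (j : I), Function.Injective φ →
      Tendsto (fun r : ℕ => ∑ N ∈ NN k r, ∏ i, (V r N j (φ i)) ^ 2) atTop (𝓝 0) := by
    intro φ j hφ
    have hφ' : Function.Injective fun i => (φ i : ℕ) := fun a b hab => hφ (Fin.ext hab)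
    rcases j with (h | h) | u
    · exact ht1 (fun i => (φ i : ℕ)) hφ' (fun i => (φ i).2) h (by have := h.2; omega)
    · exact ht2 (fun i => (φ i : ℕ)) hφ' (fun i => (φ i).2) h (by have := h.2; omega)
    · exact ht3 (fun i => (φ i : ℕ)) hφ' (fun i => (φ i).2)
  set c' : ℝ := c / Fintype.card I with hc'
  have hc'0 : 0 < c' := div_pos hc (by exact_mod_cast hI0)
  have hc1 : 0 < (c' ^ 2) ^ p.q := by positivity
  have hall : ∀ᶠ r : ℕ in atTop, ∀ (φ : Fin p.q → Fin p.L) (j : I), Function.Injective φ →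
      ∑ N ∈ NN k r, ∏ i, (V r N j (φ i)) ^ 2 < (c' ^ 2) ^ p.q := by
    rw [eventually_all]
    intro φ
    rw [eventually_all]
    intro j
    by_cases hφ : Function.Injective φ
    · filter_upwards [(htend φ j hφ).eventually (gt_mem_nhds hc1)] with r hr _
      exact hr
    · exact Eventually.of_forall fun r hφ' => absurd hφ' hφ
  obtain ⟨r0, hr0⟩ := eventually_atTop.1 (hev.and hall)
  -- a large integer without a representation
  obtain ⟨N, hN, hNrep⟩ : ∃ N : ℤ, ⌈(4 : ℝ) ^ k * XX r0 ^ k⌉ ≤ N ∧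
      ∀ (x : Fin (p.n1 + p.n2 + 1) → ℕ) (y : Fin (p.J * p.M) → ℕ), (∀ i, 0 < x i) →
        (∀ j, 0 < y j) → ∑ i, (x i : ℤ) ^ k + ∑ j, ⌊f (y j)⌋ ≠ N := by
    by_contra hcon
    push Not at hcon
    exact hnot ⟨_, hcon⟩
  have hNr : (4 : ℝ) ^ k * XX r0 ^ k ≤ (N : ℝ) := Int.ceil_le.1 hN
  have hN0 : 0 ≤ N := by
    have h1 : (0 : ℝ) ≤ (4 : ℝ) ^ k * XX r0 ^ k :=
      mul_nonneg (by positivity) (pow_nonneg (finalD_XX_pos r0).le k)
    exact_mod_cast h1.trans hNr
  obtain ⟨N', rfl⟩ := Int.eq_ofNat_of_zero_le hN0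
  obtain ⟨r, hrr, hr1, hr2⟩ := finalD_scale (k := k) (by omega) r0 hNr
  obtain ⟨hrev, hrall⟩ := hr0 r hrr
  have hNN : N' ∈ NN k r := by
    unfold NN
    rw [Finset.mem_Icc]
    rw [← mul_pow] at hr1 hr2
    unfold XX at hr1 hr2
    constructor
    · have h1 : (((4 * 2 ^ r) ^ k : ℕ) : ℝ) ≤ ((N' : ℕ) : ℝ) := by
        push_cast
        push_cast at hr1
        exact hr1
      exact_mod_cast h1
    · have h1 : ((N' : ℕ) : ℝ) ≤ (((8 * 2 ^ r) ^ k : ℕ) : ℝ) := by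
        push_cast
        push_cast at hr2
        exact hr2
      exact_mod_cast h1
  have hbad : ∀ l : ℕ, l < p.L → c ≤ ∑ j, V r N' j l := by
    intro l hl
    have h1 := hrev l hl N' hNN (fun z hz b hb heq => by
      obtain ⟨x, hx, hxs⟩ := FinU_plainZ p hz
      obtain ⟨y, hy, hys⟩ := FinU_gen p hb
      refine hNrep x y hx hy ?_
      rw [← hxs, ← hys (fl f)] at heq
      unfold fl at heq
      have h3 : ((∑ i, (x i : ℤ) ^ k + ∑ j, ⌊f (y j)⌋ : ℤ) : ℝ) = (((N' : ℕ) : ℤ) : ℝ) := by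
        push_cast
        push_cast at heq
        exact heq
      exact_mod_cast h3)
    refine h1.trans (le_of_eq ?_)
    rw [Fintype.sum_sum_type, Fintype.sum_sum_type, Finset.sum_range, Finset.sum_add_distrib]
    simp only [V, Sum.elim_inl, Sum.elim_inr, Finset.univ_unique, Finset.sum_singleton]
  have hLI : Fintype.card I * (p.q - 1) < p.L := by
    refine lt_of_le_of_lt ?_ p.hL
    rw [hIc, ← mul_assoc]
    exact Nat.mul_le_mul_right _ (by omega)
  obtain ⟨j, φ, hφ, hφc⟩ := FinU_pigeonF p.hq hLI hbad hI0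
  have h1 := hrall φ j hφ
  have h2 : (c' ^ 2) ^ p.q ≤ ∏ i, (V r N' j (φ i)) ^ 2 := by
    have h3 : (c' ^ 2) ^ p.q = ∏ _i : Fin p.q, c' ^ 2 := by
      rw [Finset.prod_const, Finset.card_univ, Fintype.card_fin]
    rw [h3]
    exact Finset.prod_le_prod (fun _ _ => by positivity)
      fun i _ => pow_le_pow_left₀ hc'0.le (hφc i) 2
  have h3 : ∏ i, (V r N' j (φ i)) ^ 2 ≤ ∑ N ∈ NN k r, ∏ i, (V r N j (φ i)) ^ 2 :=
    Finset.single_le_sum (f := fun N => ∏ i, (V r N j (φ i)) ^ 2)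
      (fun N _ => Finset.prod_nonneg fun i _ => by positivity) hNN
  linarith

end UWar
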