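import Pool.Agent.UWar.Defs
import Pool.Agent.KWar.ParG

/-!
# UWar.ParExU: existence of the parameters

`par_u`: `q = a`, `M = 8 a`, `J = ⌊(2 a w + 5 k) / (16 a²)⌋ + 1`, `gp = ⌊k/(16 a)⌋`, `m1 = k - 8a² - 3a`,
`m0 = k - 24a² - 17a`, `u = k - v'`, `v' = 4 (J + gp) + 24a² + 17a + 3`, `n2 = (3v'+1)/2`, `n1 = n2 + nl`,
`v = w`. `par_exU`: `30 a²` random coefficients, at least `k log(1/δ) + 5 k / a` plain powers and at least
`δ k + 3 k / a` values of the random polynomial, if `a ≥ 3` and `k ≥ 100 a³`.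
-/

namespace UWar

theorem parExU_exp (k n : ℕ) (δ : ℝ) (hδ : 0 < δ) (hk : 1 ≤ k)
    (hn : (k : ℝ) * Real.log (1 / δ) ≤ n) : (1 - 1 / (k : ℝ)) ^ n ≤ δ := by
  have hkR : (1 : ℝ) ≤ (k : ℝ) := by exact_mod_cast hk
  have hk0 : (0 : ℝ) < (k : ℝ) := by linarith
  have h1 : 1 - 1 / (k : ℝ) ≤ Real.exp (-(1 / (k : ℝ))) := Real.one_sub_le_exp_neg _
  have h0 : 0 ≤ 1 - 1 / (k : ℝ) := by
    rw [sub_nonneg, div_le_one hk0]
    exact hkR
  have h2 : (1 - 1 / (k : ℝ)) ^ n ≤ Real.exp (-(1 / (k : ℝ))) ^ n := pow_le_pow_left₀ h0 h1 n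
  rw [← Real.exp_nat_mul] at h2
  refine h2.trans ?_
  have h3 : (n : ℝ) * -(1 / (k : ℝ)) ≤ Real.log δ := by
    have h4 : Real.log (1 / δ) = -Real.log δ := by
      rw [one_div, Real.log_inv]
    rw [h4] at hn
    have h5 : -Real.log δ ≤ n / k := by
      rw [le_div_iff₀ hk0]
      linarith
    have h6 : (n : ℝ) * -(1 / (k : ℝ)) = -(n / k) := by ring
    rw [h6]
    linarith
  calc Real.exp ((n : ℝ) * -(1 / (k : ℝ))) ≤ Real.exp (Real.log δ) := Real.exp_le_exp.mpr h3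
    _ = δ := Real.exp_log hδ

theorem par_u {a k d w nl : ℕ} (ha : 3 ≤ a) (hk : 100 * a ^ 3 ≤ k) (hd : d ≤ k)
    (hda : 30 * a ^ 2 ≤ d) (hw : w ≤ k) (hnl : (k : ℝ) * (1 - 1 / (k : ℝ)) ^ nl ≤ w) :
    ∃ p : ParX k d, a * (p.n1 + p.n2 + 1) + a ≤ a * nl + 5 * k ∧
      a * (p.J * p.M) + a ≤ a * w + 3 * k := by
  have ha0 : 0 < a := by omega
  obtain ⟨J', hJ'⟩ : ∃ J', J' = (2 * a * w + 5 * k) / (16 * a ^ 2) := ⟨_, rfl⟩
  have h16 : 0 < 16 * a ^ 2 := by positivity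
  have j1w : 16 * a ^ 2 * J' ≤ 2 * a * w + 5 * k := by
    rw [hJ']; exact Nat.mul_div_le _ _
  have j1 : 16 * a ^ 2 * J' ≤ k * (2 * a + 5) := by
    have h1 : 2 * a * w ≤ 2 * a * k := Nat.mul_le_mul_left _ hw
    have h2 : k * (2 * a + 5) = 2 * a * k + 5 * k := by ring
    omega
  have j2 : 2 * a * w + 5 * k + 1 ≤ 16 * a ^ 2 * (J' + 1) := by
    rw [hJ']; exact Nat.lt_mul_div_succ _ h16
  obtain ⟨G, hG⟩ : ∃ G, G = KWar.gp k (8 * a) := ⟨_, rfl⟩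
  have h16a : 0 < 2 * (8 * a) := by omega
  have g1 : 16 * a * G ≤ k := by
    have : 2 * (8 * a) * G ≤ k := by
      rw [hG]; unfold KWar.gp; exact Nat.mul_div_le _ _
    calc 16 * a * G = 2 * (8 * a) * G := by ring
      _ ≤ k := this
  have g2 : k + 1 ≤ 16 * a * (G + 1) := by
    have : k + 1 ≤ 2 * (8 * a) * (G + 1) := by
      rw [hG]; unfold KWar.gp; exact Nat.lt_mul_div_succ _ h16a
    calc k + 1 ≤ 2 * (8 * a) * (G + 1) := this
      _ = 16 * a * (G + 1) := by ring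
  obtain ⟨v, hv⟩ : ∃ v, v = 4 * (J' + 1 + G) + (24 * a ^ 2 + 17 * a) + 3 := ⟨_, rfl⟩
  -- integer versions
  have haZ : (3 : ℤ) ≤ a := by exact_mod_cast ha
  have hkZ : 100 * (a : ℤ) ^ 3 ≤ k := by exact_mod_cast hk
  have j1Z : 16 * (a : ℤ) ^ 2 * J' ≤ k * (2 * a + 5) := by exact_mod_cast j1
  have j1wZ : 16 * (a : ℤ) ^ 2 * J' ≤ 2 * a * w + 5 * k := by exact_mod_cast j1w
  have j2Z : 2 * (a : ℤ) * w + 5 * k + 1 ≤ 16 * (a : ℤ) ^ 2 * (J' + 1) := by exact_mod_cast j2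
  have hwZ : (w : ℤ) ≤ k := by exact_mod_cast hw
  have hw0Z : (0 : ℤ) ≤ w := Int.natCast_nonneg _
  have g1Z : 16 * (a : ℤ) * G ≤ k := by exact_mod_cast g1
  have g2Z : (k : ℤ) + 1 ≤ 16 * (a : ℤ) * (G + 1) := by exact_mod_cast g2
  have hvZ : (v : ℤ) = 4 * (J' + 1 + G) + (24 * (a : ℤ) ^ 2 + 17 * a) + 3 := by exact_mod_cast hv
  have hJZ : (0 : ℤ) ≤ J' := Int.natCast_nonneg _
  have hGZ : (0 : ℤ) ≤ G := Int.natCast_nonneg _
  obtain ⟨x, hx⟩ : ∃ x : ℤ, (a : ℤ) = 3 + x := ⟨a - 3, by ring⟩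
  have hx0 : 0 ≤ x := by linarith
  have hA2 : 3 * (a : ℤ) ≤ (a : ℤ) ^ 2 := by
    rw [pow_two]
    exact mul_le_mul_of_nonneg_right haZ (by linarith)
  have hA3 : 3 * (a : ℤ) ^ 2 ≤ (a : ℤ) ^ 3 := by
    have h : (a : ℤ) ^ 3 = a * (a : ℤ) ^ 2 := by ring
    rw [h]
    exact mul_le_mul_of_nonneg_right haZ (by positivity)
  have ha2pos : (0 : ℤ) < (a : ℤ) ^ 2 := by positivity
  -- `4 a² v ≤ k (3a+5) + 4a² (24a² + 17a + 7)`
  have v1 : 4 * (a : ℤ) ^ 2 * v ≤ k * (3 * a + 5) + 4 * (a : ℤ) ^ 2 * (24 * (a : ℤ) ^ 2 + 17 * a + 7) := by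
    rw [hvZ]
    have e1 : (a : ℤ) * (16 * (a : ℤ) * G) ≤ a * k := mul_le_mul_of_nonneg_left g1Z (by linarith)
    linarith
  -- `2 v ≤ k`
  have v2 : 2 * (v : ℤ) ≤ k := by
    have e1 : 4 * (a : ℤ) ^ 2 * (24 * (a : ℤ) ^ 2 + 17 * a + 7) ≤
        k * (2 * (a : ℤ) ^ 2 - 3 * a - 5) := by
      have e2 : 0 ≤ 2 * (a : ℤ) ^ 2 - 3 * a - 5 := by linarith
      have e3 : 100 * (a : ℤ) ^ 3 * (2 * (a : ℤ) ^ 2 - 3 * a - 5) ≤
          k * (2 * (a : ℤ) ^ 2 - 3 * a - 5) := mul_le_mul_of_nonneg_right hkZ e2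
      refine le_trans ?_ e3
      rw [hx, ← sub_nonneg]
      ring_nf
      positivity
    have e4 : 4 * (a : ℤ) ^ 2 * v ≤ 2 * (a : ℤ) ^ 2 * k := by linarith
    have e5 : 2 * (a : ℤ) ^ 2 * (2 * v) ≤ 2 * (a : ℤ) ^ 2 * k := by linarith
    exact le_of_mul_le_mul_left e5 (by positivity)
  have v2' : 2 * v ≤ k := by exact_mod_cast v2
  have hv1 : 1 ≤ v := by omega
  obtain ⟨U, hU⟩ : ∃ U, k = U + v := ⟨k - v, by omega⟩
  have hD0 : 8 * (24 * a ^ 2 + 17 * a) ≤ k := by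
    zify
    have : 8 * (24 * (a : ℤ) ^ 2 + 17 * a) ≤ 100 * (a : ℤ) ^ 3 := by
      rw [hx, ← sub_nonneg]
      ring_nf
      positivity
    linarith
  obtain ⟨m0, hm0⟩ : ∃ m0, k = m0 + (24 * a ^ 2 + 17 * a) := ⟨k - (24 * a ^ 2 + 17 * a), by omega⟩
  obtain ⟨m1, hm1⟩ : ∃ m1, k = m1 + (8 * a ^ 2 + 3 * a) := ⟨k - (8 * a ^ 2 + 3 * a), by omega⟩
  have hUZ : (k : ℤ) = U + v := by exact_mod_cast hU
  have hm0Z : (k : ℤ) = m0 + (24 * (a : ℤ) ^ 2 + 17 * a) := by exact_mod_cast hm0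
  have hm1Z : (k : ℤ) = m1 + (8 * (a : ℤ) ^ 2 + 3 * a) := by exact_mod_cast hm1
  have h30 : 24 * a ^ 2 + 17 * a ≤ 30 * a ^ 2 := by
    zify
    linarith
  have hk35 : 35 ≤ k := by
    have : 3 ^ 3 ≤ a ^ 3 := Nat.pow_le_pow_left ha 3
    omega
  have hN1 : ((k - 1 : ℕ) : ℤ) = (k : ℤ) - 1 := by
    rw [Nat.cast_sub (by omega)]
    simp
  refine ⟨{ q := a, M := 8 * a, J := J' + 1, L := 3 * ((U + 1) * (a - 1)) + 1,
            n1 := (3 * v + 1) / 2 + nl, n2 := (3 * v + 1) / 2, u := U, v := w, m0 := m0, m1 := m1,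
            hk := hk35
            hd := hd
            hq := ha0
            hM := by omega
            hJ := by omega
            hn2 := by omega
            hn12 := by omega
            hJk := by rw [← hG]; omega
            hL := Nat.lt_succ_self _
            hn := KWar.par_hn hv1 v2' hU
            hv := ?_
            hu := by omega
            c1 := by omega
            c1' := by omega
            c2 := ?_
            c3 := ?_
            c4 := by omega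
            c5 := ?_
            c6 := ?_
            c7 := ?_
            c8 := ?_ }, ?_, ?_⟩
  · -- hv
    have hk1 : (1 : ℝ) ≤ k := by exact_mod_cast (by omega : 1 ≤ k)
    have e1 : (0 : ℝ) ≤ 1 - 1 / (k : ℝ) := by
      rw [sub_nonneg, div_le_one (by linarith)]
      exact hk1
    have e2 : (1 : ℝ) - 1 / (k : ℝ) ≤ 1 := by
      have : (0 : ℝ) ≤ 1 / (k : ℝ) := by positivity
      linarith
    refine le_trans (mul_le_mul_of_nonneg_left ?_ (by linarith)) hnl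
    exact pow_le_pow_of_le_one e1 e2 (Nat.le_add_left _ _)
  · zify
    linarith
  · -- c3
    rw [← hG]
    have e1 : k - 1 - 4 * (J' + 1 + G) = (k - 1) - 4 * (J' + 1 + G) := rfl
    have e2 : 4 * (J' + 1 + G) ≤ k - 1 := by omega
    have e3 : 1 ≤ m0 := by omega
    zify [e2, e3]
    rw [hN1]
    have e4 : (U : ℤ) = k - v := by linarith
    have e5 : (m0 : ℤ) = k - (24 * (a : ℤ) ^ 2 + 17 * a) := by linarith
    rw [e4, e5, hvZ]
    have e6 : 0 ≤ (4 * ((J' : ℤ) + 1 + G)) * (24 * (a : ℤ) ^ 2 + 17 * a) := by positivity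
    have e7 : (35 : ℤ) ≤ k := by exact_mod_cast hk35
    linarith
  · -- c5
    rw [← hG]
    zify
    have e5 : (m0 : ℤ) = k - (24 * (a : ℤ) ^ 2 + 17 * a) := by linarith
    have e6 : (m1 : ℤ) = k - (8 * (a : ℤ) ^ 2 + 3 * a) := by linarith
    rw [e5, e6]
    linarith
  · -- c6
    rw [← hG]
    zify
    rw [hN1]
    have e4 : (U : ℤ) = k - v := by linarith
    have e5 : (m0 : ℤ) = k - (24 * (a : ℤ) ^ 2 + 17 * a) := by linarith
    have e6 : (m1 : ℤ) = k - (8 * (a : ℤ) ^ 2 + 3 * a) := by linarith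
    rw [e4, e5, e6, hvZ]
    obtain ⟨w, hw⟩ : ∃ w : ℤ, w = 4 * ((J' : ℤ) + 1 + G) := ⟨_, rfl⟩
    rw [← hw]
    have hw0 : 0 ≤ w := by rw [hw]; positivity
    have e7 : (35 : ℤ) ≤ k := by exact_mod_cast hk35
    have e8 : 0 ≤ w * (8 * (a : ℤ) ^ 2 + 17 * a - 1) := by
      apply mul_nonneg hw0
      linarith
    have e9 : 0 ≤ ((k : ℤ) - 2) * (16 * (a : ℤ) ^ 2 + 14 * a + 1) := by
      apply mul_nonneg (by linarith)
      positivity
    linarith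
  · zify
    linarith
  · -- c8
    rw [← hG]
    have e0 : k + w + 3 - m1 = w + 3 + (8 * a ^ 2 + 3 * a) := by omega
    rw [e0, Nat.add_sub_cancel]
    zify
    rw [hN1]
    obtain ⟨j, hj⟩ : ∃ j : ℤ, (J' : ℤ) + 1 = j := ⟨_, rfl⟩
    have hJj : (J' : ℤ) = j - 1 := by linarith
    rw [hJj, sub_add_cancel]
    rw [hJj] at j1Z j2Z hJZ
    rw [sub_add_cancel] at j2Z
    obtain ⟨T, hT⟩ : ∃ T : ℤ, T = (k : ℤ) - 1 - 2 * j - 4 * G := ⟨_, rfl⟩
    have hj0 : 0 ≤ j := by linarith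
    have e7 : (35 : ℤ) ≤ k := by exact_mod_cast hk35
    have hT0 : 0 ≤ T := by
      have := hvZ
      rw [hJj] at this
      linarith
    have T8 : (k : ℤ) * (8 * (a : ℤ) ^ 2 - 4 * a - 5) - 24 * (a : ℤ) ^ 2 ≤ 8 * (a : ℤ) ^ 2 * T := by
      have e1 : 2 * (a : ℤ) * (16 * (a : ℤ) * G) ≤ 2 * a * k :=
        mul_le_mul_of_nonneg_left g1Z (by linarith)
      rw [hT]
      linarith
    have key1 : (2 * (a : ℤ) * w + 5 * k) * T ≤ 16 * (a : ℤ) ^ 2 * j * T :=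
      mul_le_mul_of_nonneg_right (by linarith) hT0
    have hka : 0 ≤ 2 * (a : ℤ) * w + 5 * k := by positivity
    have key2 := mul_le_mul_of_nonneg_left T8 hka
    have key3 : 16 * (a : ℤ) ^ 2 * (8 * (a : ℤ) ^ 3 + 3 * (a : ℤ) ^ 2 + 3 * a + 1) +
        24 * (a : ℤ) ^ 2 * (2 * a + 5) ≤ k * (16 * (a : ℤ) ^ 2 - 30 * a - 25) := by
      have e1 : (0 : ℤ) ≤ 16 * (a : ℤ) ^ 2 - 30 * a - 25 := by linarith
      have e2 := mul_le_mul_of_nonneg_right hkZ e1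
      have e3 : 16 * (a : ℤ) ^ 2 * (8 * (a : ℤ) ^ 3 + 3 * (a : ℤ) ^ 2 + 3 * a + 1) +
          24 * (a : ℤ) ^ 2 * (2 * a + 5) ≤
          100 * (a : ℤ) ^ 3 * (16 * (a : ℤ) ^ 2 - 30 * a - 25) := by
        rw [hx, ← sub_nonneg]
        ring_nf
        positivity
      linarith
    have key4 : 16 * (a : ℤ) ^ 2 * (k * (a * (w + 3 + (8 * (a : ℤ) ^ 2 + 3 * a)) + k + 1)) ≤
        (2 * (a : ℤ) * w + 5 * k) * (k * (8 * (a : ℤ) ^ 2 - 4 * a - 5) - 24 * (a : ℤ) ^ 2) := by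
      have f1 := mul_le_mul_of_nonneg_left key3 (show (0 : ℤ) ≤ k by linarith)
      have f2 : 0 ≤ ((k : ℤ) - w) * (2 * a * k * (4 * a + 5)) := by
        apply mul_nonneg (by linarith)
        positivity
      have f3 : 0 ≤ ((k : ℤ) - w) * (48 * (a : ℤ) ^ 3) := by
        apply mul_nonneg (by linarith)
        positivity
      linarith
    have key5 : 16 * (a : ℤ) ^ 2 * ((k : ℤ) * (a * (w + 3 + (8 * (a : ℤ) ^ 2 + 3 * a)) + k + 1)) ≤
        16 * (a : ℤ) ^ 2 * (8 * (a : ℤ) ^ 2 * (j * T)) := by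
      have e1 := mul_le_mul_of_nonneg_left key1 (show (0 : ℤ) ≤ 8 * (a : ℤ) ^ 2 by positivity)
      linarith
    have key6 := le_of_mul_le_mul_left key5 (by positivity)
    have e8 : (0 : ℤ) ≤ a * (w + 3 + (8 * (a : ℤ) ^ 2 + 3 * a)) + k + 1 := by positivity
    have e9 : (0 : ℤ) ≤ (a : ℤ) ^ 2 * (2 * j + 4 * G) := by positivity
    have e10 : (a : ℤ) * (8 * a) * (((k : ℤ) - 1) * j) -
        ((a : ℤ) * (8 * a) * (2 * j * (j - 1) + 4 * G * (j - 1))) =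
        8 * (a : ℤ) ^ 2 * (j * T) + 8 * ((a : ℤ) ^ 2 * (2 * j + 4 * G)) := by
      rw [hT]
      ring
    linarith
  · show a * ((3 * v + 1) / 2 + nl + (3 * v + 1) / 2 + 1) + a ≤ a * nl + 5 * k
    have e1 : (3 * v + 1) / 2 + nl + (3 * v + 1) / 2 + 1 ≤ nl + 3 * v + 2 := by omega
    have e2 := Nat.mul_le_mul_left a e1
    refine (Nat.add_le_add_right e2 a).trans ?_
    zify
    have e3 : (0 : ℤ) ≤ 11 * a - 15 := by linarith
    have e4 := mul_le_mul_of_nonneg_right hkZ e3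
    have e5 : 12 * (a : ℤ) ^ 2 * (24 * (a : ℤ) ^ 2 + 17 * a + 7) + 12 * (a : ℤ) ^ 2 ≤
        100 * (a : ℤ) ^ 3 * (11 * a - 15) := by
      rw [hx, ← sub_nonneg]
      ring_nf
      positivity
    have e6 : 4 * (a : ℤ) * (3 * a * v + 3 * a) ≤ 4 * a * (5 * k) := by
      linarith
    have e7 : 3 * (a : ℤ) * v + 3 * a ≤ 5 * k :=
      le_of_mul_le_mul_left e6 (by positivity)
    linarith
  · show a * ((J' + 1) * (8 * a)) + a ≤ a * w + 3 * k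
    zify
    have e1 : 16 * (a : ℤ) ^ 2 + 2 * a ≤ k := by
      have : 16 * (a : ℤ) ^ 2 + 2 * a ≤ 100 * (a : ℤ) ^ 3 := by
        rw [hx, ← sub_nonneg]
        ring_nf
        positivity
      linarith
    linarith

/-- The parameters for real `δ`. -/
theorem par_exU {a k d : ℕ} {δ : ℝ} (hδ : 0 < δ) (hδ1 : δ ≤ 1) (ha : 3 ≤ a)
    (hk : 100 * a ^ 3 ≤ k) (hd : d ≤ k) (hda : 30 * a ^ 2 ≤ d) {r m : ℕ}
    (hr : k * Real.log (1 / δ) + 5 * ((k : ℝ) / a) ≤ r) (hm : δ * k + 3 * ((k : ℝ) / a) ≤ m) :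
    ∃ p : ParX k d, p.n1 + p.n2 + 1 ≤ r ∧ p.J * p.M ≤ m := by
  have ha3 : 3 ^ 3 ≤ a ^ 3 := Nat.pow_le_pow_left ha 3
  have hk1 : 1 ≤ k := by omega
  have hk0 : (0 : ℝ) < k := by exact_mod_cast hk1
  have ha0 : (0 : ℝ) < a := by exact_mod_cast (by omega : 0 < a)
  have hlog : 0 ≤ k * Real.log (1 / δ) := by
    apply mul_nonneg hk0.le
    apply Real.log_nonneg
    rw [le_div_iff₀ hδ]
    linarith
  have hδk : 0 ≤ δ * k := by positivity
  obtain ⟨nl, hnl⟩ : ∃ nl, nl = ⌈(k : ℝ) * Real.log (1 / δ)⌉₊ := ⟨_, rfl⟩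
  obtain ⟨w, hw⟩ : ∃ w, w = ⌈δ * (k : ℝ)⌉₊ := ⟨_, rfl⟩
  have n1 : (k : ℝ) * Real.log (1 / δ) ≤ nl := by rw [hnl]; exact Nat.le_ceil _
  have n2 : (nl : ℝ) < k * Real.log (1 / δ) + 1 := by rw [hnl]; exact Nat.ceil_lt_add_one hlog
  have w1 : δ * k ≤ w := by rw [hw]; exact Nat.le_ceil _
  have w2 : (w : ℝ) < δ * k + 1 := by rw [hw]; exact Nat.ceil_lt_add_one hδk
  have w3 : w ≤ k := by
    rw [hw]
    apply Nat.ceil_le.2
    nlinarith
  have h1 : (k : ℝ) * (1 - 1 / (k : ℝ)) ^ nl ≤ w := by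
    have h2 := parExU_exp k nl δ hδ hk1 n1
    have h3 := mul_le_mul_of_nonneg_left h2 hk0.le
    linarith
  obtain ⟨p, p1, p2⟩ := par_u ha hk hd hda w3 h1
  refine ⟨p, ?_, ?_⟩
  · have q1 : (a : ℝ) * ((p.n1 + p.n2 + 1 : ℕ) : ℝ) + a ≤ a * nl + 5 * k := by exact_mod_cast p1
    have q2 : (a : ℝ) * nl < a * (k * Real.log (1 / δ) + 1) := mul_lt_mul_of_pos_left n2 ha0
    have q3 : (a : ℝ) * (k * Real.log (1 / δ) + 5 * ((k : ℝ) / a)) ≤ a * r :=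
      mul_le_mul_of_nonneg_left hr ha0.le
    have q4 : (a : ℝ) * (k * Real.log (1 / δ) + 5 * ((k : ℝ) / a)) =
        a * (k * Real.log (1 / δ)) + 5 * k := by
      field_simp
    have q5 : (a : ℝ) * ((p.n1 + p.n2 + 1 : ℕ) : ℝ) ≤ a * r := by
      rw [q4] at q3
      linarith
    exact_mod_cast le_of_mul_le_mul_left q5 ha0
  · have q1 : (a : ℝ) * ((p.J * p.M : ℕ) : ℝ) + a ≤ a * w + 3 * k := by exact_mod_cast p2
    have q2 : (a : ℝ) * w < a * (δ * k + 1) := mul_lt_mul_of_pos_left w2 ha0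
    have q3 : (a : ℝ) * (δ * k + 3 * ((k : ℝ) / a)) ≤ a * m :=
      mul_le_mul_of_nonneg_left hm ha0.le
    have q4 : (a : ℝ) * (δ * k + 3 * ((k : ℝ) / a)) = a * (δ * k) + 3 * k := by
      field_simp
    have q5 : (a : ℝ) * ((p.J * p.M : ℕ) : ℝ) ≤ a * m := by
      rw [q4] at q3
      linarith
    exact_mod_cast le_of_mul_le_mul_left q5 ha0

end UWar
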