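import Pool.Agent.UWar.High

/-!
# UWar.HighT: the mean of the product of `q` families, for `TT r h` and for `TH r`

PROOF. `highG` with `dec_real`; for `TH r` split it into the nine pieces `TP r i`, `‖∑_i x_i‖² ≤ 9 ∑ ‖x_i‖²`, and
apply `highG` with `dec_floor` to every choice `ι : Fin q → Fin 9`.
-/

namespace UWar

open Filter Topology MeasureTheory MWg HWar IWar

variable {k d : ℕ}

theorem gw_cont {d : ℕ} : Continuous (gw : (Fin d → ℝ) → ℝ) := by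
  unfold gw
  refine Real.continuous_exp.comp (continuous_const.mul ?_)
  exact continuous_finset_sum _ fun i _ => (continuous_apply i).pow 2

theorem high_real (p : ParX k d) (g : ℕ → ℝ) {h : ℕ} (hh : h ≤ p.u) (K : ℕ → ℝ → ℂ)
    (hK : ∀ r, Measurable (K r)) {CK : ℝ} (hCK : ∀ r θ, ‖K r θ‖ ≤ CK) :
    ∃ C : ℝ, 0 < C ∧ ∀ᶠ r : ℕ in atTop, ∀ φ : Fin p.q → ℕ, Function.Injective φ →
      (∀ l, φ l < p.L) → ∀ Y : ℝ,
      ∫⁻ t : Fin d → ℝ, ENNReal.ofReal (gw t * ∏ l,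
        (‖MU p (TT r h) (K r) (φ l) r (ff k d g t) Y‖ / su p (φ l) r) ^ 2) ≤
      ENNReal.ofReal (C / (XX r) ^ (k + 1)) := by
  obtain ⟨C0, hC0, hdec⟩ := dec_real p hh
  obtain ⟨C, hC, hev⟩ := highG p g (fun _ r => TT r h) (fun _ r => TT_meas r h)
    (fun _ r θ hθ => TT_le hθ) (fun _ => 0) (fun _ => Nat.zero_le _) hC0 hdec K hK hCK
    (fun _ _ _ => 1) (fun _ _ => continuous_const) (Cc := 1)
    (by
      intro l r m θ _ hm
      have hm0 : m = 0 := by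
        simp only [Nat.cast_zero] at hm
        exact abs_nonpos_iff.1 hm
      rw [hm0]
      simp)
  refine ⟨C, hC, ?_⟩
  filter_upwards [hev] with r hr φ hφ hφL Y
  have h1 := hr φ hφ hφL Y
  simp only [mv_real] at h1
  exact h1

private theorem HighT_meas (r : ℕ) (i : Fin 9) : MeasurableSet (TP r i) := by
  unfold TP
  refine MeasurableSet.inter ?_ ?_
  · unfold TH
    exact (measurableSet_lt measurable_const continuous_abs.measurable).inter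
      (measurableSet_le continuous_abs.measurable measurable_const)
  · exact (Int.measurable_floor.comp (measurable_const_mul (8 : ℝ))) (measurableSet_singleton _)

private theorem HighT_union (r : ℕ) : ⋃ i : Fin 9, TP r i = TH r := by
  ext θ
  rw [Set.mem_iUnion]
  constructor
  · rintro ⟨i, hi⟩
    exact hi.1
  · intro hθ
    have h1 := hθ.2
    rw [abs_le] at h1
    have h2 : (-4 : ℤ) ≤ ⌊8 * θ⌋ := Int.le_floor.2 (by push_cast; linarith)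
    have h3 : ⌊8 * θ⌋ ≤ 4 := by
      have h4 : ⌊8 * θ⌋ < 5 := Int.floor_lt.2 (by push_cast; linarith)
      omega
    refine ⟨⟨(⌊8 * θ⌋ + 4).toNat, by omega⟩, hθ, ?_⟩
    change ⌊8 * θ⌋ = (((⌊8 * θ⌋ + 4).toNat : ℕ) : ℤ) - 4
    omega

private theorem HighT_disj (r : ℕ) : Pairwise (Function.onFun Disjoint (TP r)) := by
  intro i j hij
  rw [Function.onFun, Set.disjoint_left]
  intro θ h1 h2
  apply hij
  have h3 : ((i : ℕ) : ℤ) - 4 = ((j : ℕ) : ℤ) - 4 := h1.2.symm.trans h2.2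
  exact Fin.ext (by omega)

private theorem HighT_le (r : ℕ) (i : Fin 9) {θ : ℝ} (hθ : θ ∈ TP r i) : |θ| ≤ 1 / 2 := hθ.1.2

private theorem HighT_leX (r : ℕ) (i : Fin 9) {θ : ℝ} (hθ : θ ∈ TP r i) : |θ| ≤ XX r := by
  have h1 := HighT_le r i hθ
  have h2 := XX_one r
  linarith

private theorem HighT_int (p : ParX k d) {S : Set ℝ} (hS : MeasurableSet S) {R : ℝ}
    (hSR : ∀ θ ∈ S, |θ| ≤ R) {K : ℝ → ℂ} (hK : Measurable K) {CK : ℝ} (hCK : ∀ θ, ‖K θ‖ ≤ CK)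
    {c : ℤ → ℝ → ℂ} (hc : ∀ m, Continuous (c m)) (D l r : ℕ) (f : ℕ → ℝ) (Y : ℝ) :
    IntegrableOn (fun θ => K θ * ee (-(θ * Y)) * FU p r θ *
      ∑ b ∈ BU p l r, ∏ x, LL c D f θ (b x)) S := by
  have hsub : S ⊆ Set.Icc (-R) R := fun θ hθ => abs_le.1 (hSR θ hθ)
  have hLc : ∀ (x : ℕ), Continuous fun θ => LL c D f θ x := by
    intro x
    unfold LL
    refine (ee_cont.comp (continuous_id.mul continuous_const)).mul ?_
    exact continuous_finset_sum _ fun m _ => (hc m).mul continuous_const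
  have hcont : Continuous fun θ => ee (-(θ * Y)) * FU p r θ *
      ∑ b ∈ BU p l r, ∏ x, LL c D f θ (b x) := by
    refine ((ee_cont.comp (continuous_id.mul continuous_const).neg).mul (FU_cont p r)).mul ?_
    exact continuous_finset_sum _ fun b _ => continuous_finset_prod _ fun j _ => hLc _
  obtain ⟨M, hM⟩ := isCompact_Icc.exists_bound_of_continuousOn
    (s := Set.Icc (-R) R) hcont.continuousOn
  have hfin : volume S < ⊤ := (measure_mono hsub).trans_lt measure_Icc_lt_top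
  have e1 : (fun θ => K θ * ee (-(θ * Y)) * FU p r θ *
      ∑ b ∈ BU p l r, ∏ x, LL c D f θ (b x)) = fun θ => K θ * (ee (-(θ * Y)) * FU p r θ *
      ∑ b ∈ BU p l r, ∏ x, LL c D f θ (b x)) := by
    funext θ
    ring
  rw [e1]
  refine Measure.integrableOn_of_bounded (M := CK * M) hfin.ne
    (hK.mul hcont.measurable).aestronglyMeasurable ?_
  refine ae_restrict_of_forall_mem hS fun θ hθ => ?_
  rw [norm_mul]
  have h0 : 0 ≤ CK := (norm_nonneg _).trans (hCK θ)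
  exact mul_le_mul (hCK θ) (hM θ (hsub hθ)) (norm_nonneg _) h0

private theorem HighT_split (p : ParX k d) {K : ℝ → ℂ} (hK : Measurable K) {CK : ℝ}
    (hCK : ∀ θ, ‖K θ‖ ≤ CK) {c : ℤ → ℝ → ℂ} (hc : ∀ m, Continuous (c m)) (D l r : ℕ)
    (f : ℕ → ℝ) (Y : ℝ) :
    MV p (TH r) K c D l r f Y = ∑ i, MV p (TP r i) K c D l r f Y := by
  unfold MV
  rw [← integral_iUnion_fintype (HighT_meas r) (HighT_disj r), HighT_union]
  intro i
  exact HighT_int p (HighT_meas r i) (fun θ hθ => HighT_le r i hθ) hK hCK hc D l r f Y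

private theorem HighT_CS (p : ParX k d) {K : ℝ → ℂ} (hK : Measurable K) {CK : ℝ}
    (hCK : ∀ θ, ‖K θ‖ ≤ CK) {c : ℤ → ℝ → ℂ} (hc : ∀ m, Continuous (c m)) (D r : ℕ)
    (φ : Fin p.q → ℕ) (f : ℕ → ℝ) (Y : ℝ) :
    ∏ l, (‖MV p (TH r) K c D (φ l) r f Y‖ / su p (φ l) r) ^ 2 ≤
      9 ^ p.q * ∑ ι : Fin p.q → Fin 9, ∏ l,
        (‖MV p (TP r (ι l)) K c D (φ l) r f Y‖ / su p (φ l) r) ^ 2 := by
  have h1 : ∀ l, (‖MV p (TH r) K c D (φ l) r f Y‖ / su p (φ l) r) ^ 2 ≤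
      9 * ∑ i : Fin 9, (‖MV p (TP r i) K c D (φ l) r f Y‖ / su p (φ l) r) ^ 2 := by
    intro l
    have h2 : ‖MV p (TH r) K c D (φ l) r f Y‖ ≤ ∑ i : Fin 9, ‖MV p (TP r i) K c D (φ l) r f Y‖ := by
      rw [HighT_split p hK hCK hc]
      exact norm_sum_le _ _
    have h3 : (∑ i : Fin 9, ‖MV p (TP r i) K c D (φ l) r f Y‖) ^ 2 ≤
        9 * ∑ i : Fin 9, ‖MV p (TP r i) K c D (φ l) r f Y‖ ^ 2 := by
      have := sq_sum_le_card_mul_sum_sq (s := (Finset.univ : Finset (Fin 9)))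
        (f := fun i => ‖MV p (TP r i) K c D (φ l) r f Y‖)
      simpa using this
    simp only [div_pow]
    rw [← Finset.sum_div, ← mul_div_assoc]
    exact div_le_div_of_nonneg_right
      ((pow_le_pow_left₀ (norm_nonneg _) h2 2).trans h3) (sq_nonneg _)
  refine (Finset.prod_le_prod (fun l _ => sq_nonneg _) fun l _ => h1 l).trans (le_of_eq ?_)
  rw [Finset.prod_mul_distrib, Finset.prod_const, Finset.card_univ, Fintype.card_fin,
    Finset.prod_univ_sum, Fintype.piFinset_univ]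

private theorem HighT_sum {ι : Type} [Fintype ι] {d : ℕ} (F : ι → (Fin d → ℝ) → ℝ)
    (hF0 : ∀ i t, 0 ≤ F i t) (hFm : ∀ i, Measurable (F i)) (G : (Fin d → ℝ) → ℝ) {A : ℝ}
    (hA : 0 ≤ A) (hG : ∀ t, G t ≤ A * ∑ i, F i t) (B : ι → ℝ) (hB0 : ∀ i, 0 ≤ B i)
    (hB : ∀ i, ∫⁻ t, ENNReal.ofReal (F i t) ≤ ENNReal.ofReal (B i)) :
    ∫⁻ t, ENNReal.ofReal (G t) ≤ ENNReal.ofReal (A * ∑ i, B i) := by
  calc ∫⁻ t, ENNReal.ofReal (G t)
      ≤ ∫⁻ t, ENNReal.ofReal A * ∑ i, ENNReal.ofReal (F i t) := by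
        refine lintegral_mono fun t => ?_
        rw [← ENNReal.ofReal_sum_of_nonneg (fun i _ => hF0 i t), ← ENNReal.ofReal_mul hA]
        exact ENNReal.ofReal_le_ofReal (hG t)
    _ = ENNReal.ofReal A * ∑ i, ∫⁻ t, ENNReal.ofReal (F i t) := by
        rw [lintegral_const_mul' _ _ ENNReal.ofReal_ne_top,
          lintegral_finset_sum _ fun i _ => (hFm i).ennreal_ofReal]
    _ ≤ ENNReal.ofReal A * ∑ i, ENNReal.ofReal (B i) :=
        mul_le_mul_right (Finset.sum_le_sum fun i _ => hB i) _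
    _ = ENNReal.ofReal (A * ∑ i, B i) := by
        rw [← ENNReal.ofReal_sum_of_nonneg (fun i _ => hB0 i), ← ENNReal.ofReal_mul hA]

private theorem HighT_exists {ι : Type} [Fintype ι] [Nonempty ι] {X : Type}
    (Φ : ι → ℝ → ℕ → X → Prop) (h : ∀ i, ∃ C : ℝ, 0 < C ∧ ∀ᶠ r : ℕ in atTop, ∀ x, Φ i C r x) :
    ∃ C : ι → ℝ, (∀ i, 0 < C i) ∧ 0 < ∑ i, C i ∧ ∀ᶠ r : ℕ in atTop, ∀ i x, Φ i (C i) r x := by
  choose C hC hev using h
  exact ⟨C, hC, Finset.sum_pos (fun i _ => hC i) Finset.univ_nonempty, eventually_all.2 hev⟩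

/-- The integrand for a choice of the pieces. -/
private noncomputable def HighT_F (p : ParX k d) (g : ℕ → ℝ) (K : ℕ → ℝ → ℂ)
    (c : ℕ → ℤ → ℝ → ℂ) (r : ℕ) (x : (Fin p.q → ℕ) × ℝ) (ι : Fin p.q → Fin 9)
    (t : Fin d → ℝ) : ℝ :=
  gw t * ∏ l, (‖MV p (TP r (ι l)) (K r) (c r) (DD r) (x.1 l) r (ff k d g t) x.2‖ /
    su p (x.1 l) r) ^ 2

private theorem HighT_F_nonneg (p : ParX k d) (g : ℕ → ℝ) (K : ℕ → ℝ → ℂ)
    (c : ℕ → ℤ → ℝ → ℂ) (r : ℕ) (x : (Fin p.q → ℕ) × ℝ) (ι : Fin p.q → Fin 9)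
    (t : Fin d → ℝ) : 0 ≤ HighT_F p g K c r x ι t :=
  mul_nonneg (Real.exp_pos _).le (Finset.prod_nonneg fun l _ => sq_nonneg _)

private theorem HighT_F_meas (p : ParX k d) (g : ℕ → ℝ) (K : ℕ → ℝ → ℂ)
    (hK : ∀ r, Measurable (K r)) {CK : ℝ} (hCK : ∀ r θ, ‖K r θ‖ ≤ CK)
    (c : ℕ → ℤ → ℝ → ℂ) (hc : ∀ r m, Continuous (c r m)) (r : ℕ) (x : (Fin p.q → ℕ) × ℝ)
    (ι : Fin p.q → Fin 9) : Measurable (HighT_F p g K c r x ι) := by
  refine Continuous.measurable ?_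
  unfold HighT_F
  refine gw_cont.mul (continuous_finset_prod _ fun l _ => ?_)
  have h1 := mv_cont p g (HighT_meas r (ι l)) (R := 1 / 2)
    (fun θ hθ => HighT_le r (ι l) hθ) (hK r) (hCK r) (hc r) (DD r) (x.1 l) r
  have h0 : Continuous fun t : Fin d → ℝ => ((t, x.2) : (Fin d → ℝ) × ℝ) :=
    Continuous.prodMk_left x.2
  have h3 := h1.comp h0
  have h2 : Continuous fun t : Fin d → ℝ =>
      MV p (TP r (ι l)) (K r) (c r) (DD r) (x.1 l) r (ff k d g t) x.2 := by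
    simpa only [Function.comp_def] using h3
  exact (h2.norm.div_const _).pow 2

private theorem HighT_F_sum (p : ParX k d) (g : ℕ → ℝ) (K : ℕ → ℝ → ℂ)
    (hK : ∀ r, Measurable (K r)) {CK : ℝ} (hCK : ∀ r θ, ‖K r θ‖ ≤ CK)
    (c : ℕ → ℤ → ℝ → ℂ) (hc : ∀ r m, Continuous (c r m)) (r : ℕ) (x : (Fin p.q → ℕ) × ℝ)
    (t : Fin d → ℝ) : gw t * ∏ l,
        (‖MV p (TH r) (K r) (c r) (DD r) (x.1 l) r (ff k d g t) x.2‖ / su p (x.1 l) r) ^ 2 ≤
      9 ^ p.q * ∑ ι, HighT_F p g K c r x ι t := by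
  have hg0 : 0 ≤ gw t := (Real.exp_pos _).le
  have h1 := mul_le_mul_of_nonneg_left
    (HighT_CS p (hK r) (hCK r) (hc r) (DD r) r x.1 (ff k d g t) x.2) hg0
  refine h1.trans (le_of_eq ?_)
  unfold HighT_F
  rw [← Finset.mul_sum]
  ring

private theorem HighT_one (p : ParX k d) (g : ℕ → ℝ) (K : ℕ → ℝ → ℂ)
    (hK : ∀ r, Measurable (K r)) {CK : ℝ} (hCK : ∀ r θ, ‖K r θ‖ ≤ CK)
    (c : ℕ → ℤ → ℝ → ℂ) (hc : ∀ r m, Continuous (c r m)) {Cc : ℝ}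
    (hcb : ∀ r m θ, |θ| ≤ 1 / 2 → ‖c r m θ‖ ≤ Cc / (1 + |(m : ℝ)|)) (ι : Fin p.q → Fin 9) :
    ∃ C : ℝ, 0 < C ∧ ∀ᶠ r : ℕ in atTop, ∀ x : (Fin p.q → ℕ) × ℝ,
      (Function.Injective x.1 ∧ ∀ l, x.1 l < p.L) →
      ∫⁻ t, ENNReal.ofReal (HighT_F p g K c r x ι t) ≤
      ENNReal.ofReal (C / (XX r) ^ (k + 1)) := by
  obtain ⟨C0, hC0, hdec⟩ := dec_floor p ι
  obtain ⟨C, hC, hev⟩ := highG p g (fun l r => TP r (ι l)) (fun l r => HighT_meas r (ι l))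
    (fun l r θ hθ => HighT_leX r (ι l) hθ) (fun r => DD r) (fun _ => le_rfl) hC0 hdec K hK hCK
    c hc (fun l r m θ hθ _ => hcb r m θ (HighT_le r (ι l) hθ))
  refine ⟨C, hC, ?_⟩
  filter_upwards [hev] with r hr x hx
  exact hr x.1 hx.1 hx.2 x.2

theorem high_floor (p : ParX k d) (g : ℕ → ℝ) (K : ℕ → ℝ → ℂ)
    (hK : ∀ r, Measurable (K r)) {CK : ℝ} (hCK : ∀ r θ, ‖K r θ‖ ≤ CK)
    (c : ℕ → ℤ → ℝ → ℂ) (hc : ∀ r m, Continuous (c r m)) {Cc : ℝ}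
    (hcb : ∀ r m θ, |θ| ≤ 1 / 2 → ‖c r m θ‖ ≤ Cc / (1 + |(m : ℝ)|)) :
    ∃ C : ℝ, 0 < C ∧ ∀ᶠ r : ℕ in atTop, ∀ φ : Fin p.q → ℕ, Function.Injective φ →
      (∀ l, φ l < p.L) → ∀ Y : ℝ,
      ∫⁻ t : Fin d → ℝ, ENNReal.ofReal (gw t * ∏ l,
        (‖MV p (TH r) (K r) (c r) (DD r) (φ l) r (ff k d g t) Y‖ / su p (φ l) r) ^ 2) ≤
      ENNReal.ofReal (C / (XX r) ^ (k + 1)) := by
  obtain ⟨C, hC, hCs, hev⟩ := HighT_exists (ι := Fin p.q → Fin 9) (X := (Fin p.q → ℕ) × ℝ)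
    (fun ι C r x => (Function.Injective x.1 ∧ ∀ l, x.1 l < p.L) →
      ∫⁻ t, ENNReal.ofReal (HighT_F p g K c r x ι t) ≤ ENNReal.ofReal (C / (XX r) ^ (k + 1)))
    (fun ι => HighT_one p g K hK hCK c hc hcb ι)
  refine ⟨9 ^ p.q * ∑ ι, C ι, mul_pos (by positivity) hCs, ?_⟩
  filter_upwards [hev] with r hr φ hφ hφL Y
  have hP : 0 < XX r := by unfold XX; positivity
  have h9 := HighT_sum (ι := Fin p.q → Fin 9) (HighT_F p g K c r (φ, Y))
    (HighT_F_nonneg p g K c r (φ, Y)) (HighT_F_meas p g K hK hCK c hc r (φ, Y)) _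
    (A := 9 ^ p.q) (by positivity) (HighT_F_sum p g K hK hCK c hc r (φ, Y))
    (fun ι => C ι / (XX r) ^ (k + 1))
    (fun ι => div_nonneg (hC ι).le (pow_nonneg hP.le _)) (fun ι => hr ι (φ, Y) ⟨hφ, hφL⟩)
  refine h9.trans (le_of_eq ?_)
  rw [← Finset.sum_div, mul_div_assoc]

end UWar
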