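import Pool.Agent.HWar.Kernel
import Pool.Agent.UWar.LowU
import Pool.Agent.UWar.MainU
import Pool.Agent.UWar.HighT

/-!
# UWar.ApxU: real sums: middle integrals (deterministic part and almost all coefficients)

A modified copy of `Pool/Agent/RWar/ApxR.lean`. PROOF of `low_asmR`. As `Pool/Agent/HWar/LowAsm.lean` (`low_asm`, proved): `kernel (k+2)`, `K r = K' (P^u)`,
`main_ctR`, `low_freqR`, `tail_freqR`; `S x = zsum (x^k) x.1 + ∑_j am k α j (x.2 j)` on `ZU ×ˢ BU`.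
PROOF of `ae_goodR`. As `Pool/Agent/HWar/AeGood.lean` (`ae_good`, proved), with `highR` (`fl l = false`, `c = 1`,
`mv_real`, `mv_cont`).
-/

namespace UWar

open Filter Topology MeasureTheory MWg HWar IWar

/-- The set `{|θ| ≤ P / P ^ h}`. -/
private def ApxU_A (P : ℝ) (h : ℕ) : Set ℝ := {θ : ℝ | |θ| ≤ P / P ^ h}

private theorem ApxU_A_meas (P : ℝ) (h : ℕ) : MeasurableSet (ApxU_A P h) :=
  measurableSet_le continuous_abs.measurable measurable_const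

private theorem ApxU_step (r h : ℕ) {F : ℝ → ℂ} (hF : Integrable F) :
    ∫ θ in ApxU_A (XX r) h, F θ = (∫ θ in TT r h, F θ) + ∫ θ in ApxU_A (XX r) (h + 1), F θ := by
  have hP : 0 < XX r := lt_of_lt_of_le one_pos (XX_one r)
  have hP1 : 1 ≤ XX r := XX_one r
  have e1 : XX r / XX r ^ (h + 1) = (XX r ^ h)⁻¹ := by
    rw [pow_succ]
    field_simp
  have e2 : (XX r ^ h)⁻¹ ≤ XX r / XX r ^ h := by
    rw [div_eq_mul_inv]
    exact le_mul_of_one_le_left (by positivity) hP1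
  have hun : ApxU_A (XX r) h = TT r h ∪ ApxU_A (XX r) (h + 1) := by
    ext θ
    simp only [ApxU_A, TT, Set.mem_union, Set.mem_ofPred_eq, e1]
    constructor
    · intro h1
      rcases le_or_gt |θ| ((XX r ^ h)⁻¹) with h2 | h2
      · exact Or.inr h2
      · exact Or.inl ⟨h2, h1⟩
    · rintro (h1 | h1)
      · exact h1.2
      · exact h1.trans e2
  have hdis : Disjoint (TT r h) (ApxU_A (XX r) (h + 1)) := by
    rw [Set.disjoint_left]
    intro θ h1 h2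
    simp only [ApxU_A, TT, Set.mem_ofPred_eq, e1] at h1 h2
    exact absurd h1.1 (not_lt.2 h2)
  rw [hun, setIntegral_union hdis (ApxU_A_meas _ _) hF.integrableOn hF.integrableOn]

private theorem ApxU_steps (r : ℕ) {F : ℝ → ℂ} (hF : Integrable F) (m : ℕ) :
    ‖∫ θ in ApxU_A (XX r) 0, F θ‖ ≤
      (∑ h ∈ Finset.range m, ‖∫ θ in TT r h, F θ‖) + ‖∫ θ in ApxU_A (XX r) m, F θ‖ := by
  induction m with
  | zero => simp
  | succ m ih =>
    rw [Finset.sum_range_succ]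
    rw [ApxU_step r m hF] at ih
    have := norm_add_le (∫ θ in TT r m, F θ) (∫ θ in ApxU_A (XX r) (m + 1), F θ)
    linarith

private theorem ApxU_split (r u : ℕ) {F : ℝ → ℂ} (hF : Integrable F) :
    ‖∫ θ, F θ‖ ≤ ‖∫ θ in {θ : ℝ | |θ| ≤ ((XX r) ^ u)⁻¹}, F θ‖ +
      (∑ h ∈ Finset.range (u + 1), ‖∫ θ in TT r h, F θ‖) +
      ‖∫ θ in {θ : ℝ | XX r < |θ|}, F θ‖ := by
  have hP : 0 < XX r := lt_of_lt_of_le one_pos (XX_one r)
  have h1 := integral_add_compl (ApxU_A_meas (XX r) 0) hF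
  have h2 : (ApxU_A (XX r) 0)ᶜ = {θ : ℝ | XX r < |θ|} := by
    ext θ
    simp [ApxU_A]
  have h3 : ApxU_A (XX r) (u + 1) = {θ : ℝ | |θ| ≤ ((XX r) ^ u)⁻¹} := by
    unfold ApxU_A
    have e1 : XX r / XX r ^ (u + 1) = (XX r ^ u)⁻¹ := by
      rw [pow_succ]
      field_simp
    rw [e1]
  have h4 := ApxU_steps r hF (u + 1)
  rw [h3] at h4
  rw [← h1, h2]
  have h5 := norm_add_le (∫ θ in ApxU_A (XX r) 0, F θ) (∫ θ in {θ : ℝ | XX r < |θ|}, F θ)
  linarith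

private theorem ApxU_integrable {K : ℝ → ℂ} (hK : Continuous K) {C : ℝ} {m : ℕ} (hm : 2 ≤ m)
    (h1 : ∀ θ, ‖K θ‖ ≤ C) (h2 : ∀ θ, |θ| ^ m * ‖K θ‖ ≤ C) {E : ℝ → ℂ} (hE : Continuous E) {D : ℝ}
    (hD : ∀ θ, ‖E θ‖ ≤ D) : Integrable fun θ => K θ * E θ := by
  have hC0 : 0 ≤ C := (norm_nonneg _).trans (h1 0)
  have hint : Integrable fun θ : ℝ => (2 * C * D) * (1 + θ ^ 2)⁻¹ :=
    integrable_inv_one_add_sq.const_mul _
  refine hint.mono' (hK.mul hE).aestronglyMeasurable (Filter.Eventually.of_forall fun θ => ?_)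
  rw [norm_mul]
  have h3 : |θ| ^ 2 * ‖K θ‖ ≤ C := by
    rcases le_total |θ| 1 with h | h
    · have : |θ| ^ 2 ≤ 1 := pow_le_one₀ (abs_nonneg _) h
      calc |θ| ^ 2 * ‖K θ‖ ≤ 1 * ‖K θ‖ := mul_le_mul_of_nonneg_right this (norm_nonneg _)
        _ ≤ C := by rw [one_mul]; exact h1 θ
    · have : |θ| ^ 2 ≤ |θ| ^ m := pow_le_pow_right₀ h hm
      exact (mul_le_mul_of_nonneg_right this (norm_nonneg _)).trans (h2 θ)
  have h4 : ‖K θ‖ ≤ 2 * C * (1 + θ ^ 2)⁻¹ := by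
    rw [← div_eq_mul_inv, le_div_iff₀ (by positivity)]
    rw [sq_abs] at h3
    have := h1 θ
    nlinarith
  have hD0 : 0 ≤ D := (norm_nonneg _).trans (hD 0)
  calc ‖K θ‖ * ‖E θ‖ ≤ (2 * C * (1 + θ ^ 2)⁻¹) * D :=
        mul_le_mul h4 (hD θ) (norm_nonneg _) (by positivity)
    _ = 2 * C * D * (1 + θ ^ 2)⁻¹ := by ring

private theorem ApxU_prod {k d : ℕ} (p : ParX k d) (l r : ℕ) (f : ℕ → ℝ) (θ : ℝ) :
    ∑ x ∈ ZU p r ×ˢ BU p l r, ee (θ * (zsum (fun x => (x : ℝ) ^ k) x.1 + bsum f x.2)) =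
      FU p r θ * GU p l r f θ := by
  unfold FU GU
  rw [Finset.sum_product, Finset.sum_mul_sum]
  refine Finset.sum_congr rfl fun z _ => Finset.sum_congr rfl fun b _ => ?_
  rw [mul_add, ee_add]

/-- The decomposition for the real sums. -/
private theorem ApxU_dec {k d : ℕ} (p : ParX k d) (l r : ℕ) (f : ℕ → ℝ) (Y : ℝ) {K : ℝ → ℂ}
    (hK : Continuous K) {C : ℝ} (h1 : ∀ θ, ‖K θ‖ ≤ C) (h2 : ∀ θ, |θ| ^ (k + 2) * ‖K θ‖ ≤ C) :
    ‖∫ θ : ℝ, K θ * ee (-(θ * Y)) *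
        ∑ x ∈ ZU p r ×ˢ BU p l r, ee (θ * (zsum (fun x => (x : ℝ) ^ k) x.1 + bsum f x.2))‖ ≤
      ‖∫ θ in {θ : ℝ | |θ| ≤ ((XX r) ^ p.u)⁻¹}, K θ * ee (-(θ * Y)) * FU p r θ *
        GU p l r f θ‖ +
      (∑ h ∈ Finset.range (p.u + 1), ‖MU p (TT r h) K l r f Y‖) +
      ‖∫ θ in {θ : ℝ | XX r < |θ|}, K θ * ee (-(θ * Y)) * FU p r θ * GU p l r f θ‖ := by
  have e1 : (fun θ : ℝ => K θ * ee (-(θ * Y)) *
        ∑ x ∈ ZU p r ×ˢ BU p l r, ee (θ * (zsum (fun x => (x : ℝ) ^ k) x.1 + bsum f x.2))) =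
      fun θ : ℝ => K θ * ee (-(θ * Y)) * FU p r θ * GU p l r f θ := by
    funext θ
    rw [ApxU_prod]
    ring
  have hE : Continuous fun θ : ℝ => ee (-(θ * Y)) * FU p r θ * GU p l r f θ :=
    ((ee_cont.comp (continuous_id.mul continuous_const).neg).mul (FU_cont p r)).mul
      (GU_cont p l r f)
  have hD : ∀ θ : ℝ, ‖ee (-(θ * Y)) * FU p r θ * GU p l r f θ‖ ≤
      ((ZU p r).card : ℝ) * ((BU p l r).card : ℝ) := by
    intro θ
    rw [norm_mul, norm_mul, ee_norm, one_mul]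
    exact mul_le_mul (FU_norm p r θ) (GU_norm p l r f θ) (norm_nonneg _)
      (Nat.cast_nonneg _)
  have hint := ApxU_integrable hK (by omega : 2 ≤ k + 2) h1 h2 hE hD
  have e2 : (fun θ : ℝ => K θ * (ee (-(θ * Y)) * FU p r θ * GU p l r f θ)) =
      fun θ : ℝ => K θ * ee (-(θ * Y)) * FU p r θ * GU p l r f θ := by
    funext θ
    ring
  rw [e2] at hint
  rw [e1]
  exact ApxU_split r p.u hint

theorem low_asmU {k d : ℕ} (p : ParX k d) {ε : ℝ} (hε : 0 < ε) (hε1 : ε ≤ 1) :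
    ∃ (C : ℝ) (K : ℕ → ℝ → ℂ), 0 < C ∧ (∀ r, Continuous (K r)) ∧ (∀ r θ, ‖K r θ‖ ≤ C) ∧
      ∀ f : ℕ → ℝ, Good k f →
      ∃ c : ℝ, 0 < c ∧ ∀ᶠ r : ℕ in atTop, ∀ l < p.L, ∀ Y : ℝ,
        4 ^ k * (XX r) ^ k - 1 ≤ Y → Y ≤ 8 ^ k * (XX r) ^ k + 1 →
        (∀ z ∈ ZU p r, ∀ b ∈ BU p l r,
          ε ≤ |zsum (fun x => (x : ℝ) ^ k) z + bsum f b - Y|) →
        c ≤ ∑ h ∈ Finset.range (p.u + 1),
          ‖MU p (TT r h) (K r) l r f Y‖ / su p l r := by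
  obtain ⟨C, K', hC, hKc, hKb, hker⟩ := kernel (k + 2) hε hε1
  have hH : ∀ r : ℕ, 1 ≤ (XX r) ^ p.u := fun r => one_le_pow₀ (XX_one r)
  refine ⟨C, fun r => K' ((XX r) ^ p.u), hC, fun r => hKc _, fun r θ => (hKb _ θ (hH r)).1, ?_⟩
  intro f hf
  obtain ⟨c, hc, hmain⟩ := main_ctU p hf
  have hlow := low_freqU p (C := C) (fun r => K' ((XX r) ^ p.u))
    (fun r => hKc _) (fun r θ => (hKb _ θ (hH r)).1) (fun r θ => (hKb _ θ (hH r)).2.1)
    (η := c / 4) (by positivity)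
  have htail := tail_freqU p (C := C) (fun r => K' ((XX r) ^ p.u))
    (fun r => hKc _) (fun r θ => (hKb _ θ (hH r)).2.2) (η := c / 4) (by positivity)
  refine ⟨c / 2, by positivity, ?_⟩
  filter_upwards [hmain, hlow, htail, su_pos p] with r h1 h2 h3 h4
  intro l hl Y hY1 hY2 happ
  have hsz := (h4 l hl).1
  have m1 := h1 l hl Y hY1 hY2
  have m2 := h2 l f Y
  have m3 := h3 l f Y
  have m4 := hker (Zt × (Fin p.J × Fin p.M → ℕ)) (ZU p r ×ˢ BU p l r)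
    (fun x => zsum (fun x => (x : ℝ) ^ k) x.1 + bsum f x.2) Y ((XX r) ^ p.u) (hH r)
    (fun x hx => by
      rw [Finset.mem_product] at hx
      exact happ x.1 hx.1 x.2 hx.2)
  have hXu : 0 < (XX r) ^ p.u := zero_lt_one.trans_le (hH r)
  have m5 : c * su p l r ≤ ‖∫ θ : ℝ, K' ((XX r) ^ p.u) θ * ee (-(θ * Y)) *
      ∑ x ∈ ZU p r ×ˢ BU p l r, ee (θ * (zsum (fun x => (x : ℝ) ^ k) x.1 +
        bsum f x.2))‖ := by
    refine le_trans ?_ m4
    rw [le_div_iff₀ hXu]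
    exact m1
  have m6 := ApxU_dec p l r f Y (hKc ((XX r) ^ p.u)) (fun θ => (hKb _ θ (hH r)).1)
    (fun θ => (hKb _ θ (hH r)).2.2)
  rw [← Finset.sum_div, le_div_iff₀ hsz]
  have m7 : c * su p l r ≤ c / 4 * su p l r +
      (∑ h ∈ Finset.range (p.u + 1), ‖MU p (TT r h) (K' ((XX r) ^ p.u)) l r f Y‖) +
      c / 4 * su p l r :=
    m5.trans (m6.trans (add_le_add (add_le_add m2 le_rfl) m3))
  linarith

private theorem ApxU_gw_cont {d : ℕ} : Continuous (gw : (Fin d → ℝ) → ℝ) := by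
  unfold gw
  fun_prop

private theorem ApxU_gw_pos {d : ℕ} (t : Fin d → ℝ) : 0 < gw t := Real.exp_pos _

private theorem ApxU_borel {d : ℕ} (A : ℕ → (Fin d → ℝ) → ENNReal) (hA : ∀ r, Measurable (A r))
    {D : ℝ} (hD : 0 ≤ D) {r0 : ℕ} (hint : ∀ r, r0 ≤ r → ∫⁻ t, A r t ≤ ENNReal.ofReal (D / 2 ^ r)) :
    ∀ᵐ t : Fin d → ℝ, Tendsto (fun r => A r t) atTop (𝓝 0) := by
  have hsum : Summable (fun r : ℕ => D / 2 ^ (r + r0)) := by
    have h1 : (fun r : ℕ => D / 2 ^ (r + r0)) = fun r : ℕ => D / 2 ^ r0 * (1 / 2) ^ r := by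
      funext r
      rw [pow_add, one_div, inv_pow]
      field_simp
    rw [h1]
    exact summable_geometric_two.mul_left _
  have h1 : ∫⁻ t, ∑' r, A (r + r0) t ≠ ⊤ := by
    rw [lintegral_tsum (fun r => (hA (r + r0)).aemeasurable)]
    have h2 : ∑' r, ∫⁻ t, A (r + r0) t ≤ ∑' r, ENNReal.ofReal (D / 2 ^ (r + r0)) :=
      ENNReal.tsum_le_tsum fun r => hint (r + r0) (Nat.le_add_left _ _)
    rw [← ENNReal.ofReal_tsum_of_nonneg (fun r => by positivity) hsum] at h2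
    exact (h2.trans_lt ENNReal.ofReal_lt_top).ne
  have hmeas : Measurable (fun t => ∑' r, A (r + r0) t) :=
    Measurable.tsum fun r => hA (r + r0)
  filter_upwards [ae_lt_top hmeas h1] with t ht
  have h3 := ENNReal.tendsto_atTop_zero_of_tsum_ne_top ht.ne
  exact (tendsto_add_atTop_iff_nat r0).1 h3

theorem ae_goodU {k d : ℕ} (p : ParX k d) (g : ℕ → ℝ) (K : ℕ → ℝ → ℂ)
    (hK : ∀ r, Continuous (K r)) {CK : ℝ} (hCK : ∀ r θ, ‖K r θ‖ ≤ CK) :
    ∀ᵐ t : Fin d → ℝ, ∀ φ : Fin p.q → ℕ, Function.Injective φ → (∀ l, φ l < p.L) →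
      ∀ h : ℕ, h ≤ p.u → Tendsto (fun r : ℕ =>
        ∫⁻ Y in Set.Icc (4 ^ k * (XX r) ^ k - 1) (8 ^ k * (XX r) ^ k + 1), ENNReal.ofReal
          (∏ l : Fin p.q, (‖MU p (TT r h) (K r) (φ l) r (ff k d g t) Y‖ / su p (φ l) r) ^ 2))
        atTop (𝓝 0) := by
  rw [ae_all_iff]
  intro φ
  rw [eventually_imp_distrib_left]
  intro hφ
  rw [eventually_imp_distrib_left]
  intro hφL
  rw [ae_all_iff]
  intro h
  rw [eventually_imp_distrib_left]
  intro hh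
  have hKm : ∀ r, Measurable (K r) := fun r => (hK r).measurable
  obtain ⟨C, hC, hev⟩ := high_real p g hh K hKm hCK
  obtain ⟨r0, hr0⟩ := eventually_atTop.1 hev
  set Φ : ℕ → (Fin d → ℝ) × ℝ → ℝ := fun r z => ∏ l : Fin p.q,
    (‖MU p (TT r h) (K r) (φ l) r (ff k d g z.1) z.2‖ / su p (φ l) r) ^ 2 with hΦ
  have hΦc : ∀ r, Continuous (Φ r) := by
    intro r
    rw [hΦ]
    refine continuous_finsetProd _ fun l _ => ?_
    have h1 := mv_cont p g (TT_meas r h) (R := XX r) (fun θ hθ => TT_le hθ)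
      (hKm r) (hCK r) (c := fun _ _ => 1) (fun _ => continuous_const) 0 (φ l) r
    have h2 : (fun x : (Fin d → ℝ) × ℝ =>
        MV p (TT r h) (K r) (fun _ _ => 1) 0 (φ l) r (ff k d g x.1) x.2) =
        fun x => MU p (TT r h) (K r) (φ l) r (ff k d g x.1) x.2 := by
      funext x
      rw [mv_real]
    rw [h2] at h1
    exact (h1.norm.div_const _).pow 2
  have hΦ0 : ∀ r z, 0 ≤ Φ r z := by
    intro r z
    rw [hΦ]
    exact Finset.prod_nonneg fun l _ => sq_nonneg _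
  have hFm : ∀ r, Measurable (fun z : (Fin d → ℝ) × ℝ => ENNReal.ofReal (gw z.1 * Φ r z)) := by
    intro r
    have : Continuous (fun z : (Fin d → ℝ) × ℝ => gw z.1 * Φ r z) :=
      (ApxU_gw_cont.comp continuous_fst).mul (hΦc r)
    exact this.measurable.ennreal_ofReal
  set A : ℕ → (Fin d → ℝ) → ENNReal := fun r t =>
    ∫⁻ Y in Set.Icc (4 ^ k * (XX r) ^ k - 1) (8 ^ k * (XX r) ^ k + 1),
      ENNReal.ofReal (gw t * Φ r (t, Y)) with hA
  have hAm : ∀ r, Measurable (A r) := fun r => (hFm r).lintegral_prod_right'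
  have hint : ∀ r, r0 ≤ r → ∫⁻ t, A r t ≤ ENNReal.ofReal (C * (8 ^ k + 2) / 2 ^ r) := by
    intro r hr
    have h1 : ∫⁻ t, A r t =
        ∫⁻ Y in Set.Icc (4 ^ k * (XX r) ^ k - 1) (8 ^ k * (XX r) ^ k + 1),
          ∫⁻ t, ENNReal.ofReal (gw t * Φ r (t, Y)) := by
      rw [hA]
      exact lintegral_lintegral_swap (f := fun t Y => ENNReal.ofReal (gw t * Φ r (t, Y)))
        (hFm r).aemeasurable
    have h2 : ∫⁻ Y in Set.Icc (4 ^ k * (XX r) ^ k - 1) (8 ^ k * (XX r) ^ k + 1),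
          ∫⁻ t, ENNReal.ofReal (gw t * Φ r (t, Y)) ≤
        ∫⁻ _Y in Set.Icc (4 ^ k * (XX r) ^ k - 1) (8 ^ k * (XX r) ^ k + 1),
          ENNReal.ofReal (C / (XX r) ^ (k + 1)) := by
      refine lintegral_mono fun Y => ?_
      exact hr0 r hr φ hφ hφL Y
    rw [h1]
    refine h2.trans ?_
    rw [setLIntegral_const, Real.volume_Icc]
    have hP : 0 < XX r := by
      unfold XX
      positivity
    have hP1 : 1 ≤ XX r := by
      unfold XX
      exact one_le_pow₀ (by norm_num)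
    have hPk : 1 ≤ (XX r) ^ k := one_le_pow₀ hP1
    rw [← ENNReal.ofReal_mul (by positivity)]
    apply ENNReal.ofReal_le_ofReal
    have h3 : 8 ^ k * (XX r) ^ k + 1 - (4 ^ k * (XX r) ^ k - 1) ≤ (8 ^ k + 2) * (XX r) ^ k := by
      have h4 : 0 ≤ (4 : ℝ) ^ k * (XX r) ^ k := by positivity
      nlinarith
    have h5 : C / (XX r) ^ (k + 1) * ((8 ^ k + 2) * (XX r) ^ k) = C * (8 ^ k + 2) / XX r := by
      rw [pow_succ]
      field_simp
    have h6 : XX r = 2 ^ r := rfl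
    rw [← h6, ← h5]
    exact mul_le_mul_of_nonneg_left h3 (by positivity)
  have hmain := ApxU_borel A hAm (D := C * (8 ^ k + 2)) (by positivity) hint
  filter_upwards [hmain] with t ht
  have hg0 : ENNReal.ofReal (gw t) ≠ 0 := by
    rw [Ne, ENNReal.ofReal_eq_zero, not_le]
    exact ApxU_gw_pos t
  have hg1 : ENNReal.ofReal (gw t) ≠ ⊤ := ENNReal.ofReal_ne_top
  have hB : ∀ r, ∫⁻ Y in Set.Icc (4 ^ k * (XX r) ^ k - 1) (8 ^ k * (XX r) ^ k + 1),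
      ENNReal.ofReal (Φ r (t, Y)) = (ENNReal.ofReal (gw t))⁻¹ * A r t := by
    intro r
    have h1 : A r t = ENNReal.ofReal (gw t) *
        ∫⁻ Y in Set.Icc (4 ^ k * (XX r) ^ k - 1) (8 ^ k * (XX r) ^ k + 1),
          ENNReal.ofReal (Φ r (t, Y)) := by
      rw [hA]
      simp only [ENNReal.ofReal_mul (ApxU_gw_pos t).le]
      refine lintegral_const_mul _ ?_
      exact ((hΦc r).comp (Continuous.prodMk_right t)).measurable.ennreal_ofReal
    rw [h1, ← mul_assoc, ENNReal.inv_mul_cancel hg0 hg1, one_mul]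
  have h7 : Tendsto (fun r => (ENNReal.ofReal (gw t))⁻¹ * A r t) atTop
      (𝓝 ((ENNReal.ofReal (gw t))⁻¹ * 0)) :=
    ENNReal.Tendsto.const_mul ht (Or.inr (ENNReal.inv_ne_top.2 hg0))
  rw [mul_zero] at h7
  refine h7.congr fun r => ?_
  exact (hB r).symm

end UWar
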