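import Pool.Agent.UWar.ParExU

/-!
# UWar.ChooseA: the choice of the parameter `a` in `par_exU`
-/

namespace UWar

/-- The choice of the parameter `a`. -/
theorem choose_a {k d : ℕ} (hk : 2700 ≤ k) (hd : 270 ≤ d) :
    ∃ a : ℕ, 3 ≤ a ∧ 100 * a ^ 3 ≤ k ∧ 30 * a ^ 2 ≤ d ∧
      7 * ((k : ℝ) / a) ≤ 52 * (k / √(d : ℝ) + (k : ℝ) ^ ((2 : ℝ) / 3)) := by
  have hk0 : (0 : ℝ) < k := by exact_mod_cast (by omega : 0 < k)
  have hd0 : (0 : ℝ) < d := by exact_mod_cast (by omega : 0 < d)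
  obtain ⟨s, hs⟩ : ∃ s, s = √(d : ℝ) := ⟨_, rfl⟩
  have hs0 : 0 < s := by rw [hs]; exact Real.sqrt_pos.2 hd0
  have hs2 : s ^ 2 = d := by rw [hs]; exact Real.sq_sqrt hd0.le
  obtain ⟨c, hc⟩ : ∃ c, c = (k : ℝ) ^ ((1 : ℝ) / 3) := ⟨_, rfl⟩
  have hc0 : 0 < c := by rw [hc]; exact Real.rpow_pos_of_pos hk0 _
  have hc3 : c ^ 3 = k := by
    rw [hc, ← Real.rpow_natCast, ← Real.rpow_mul hk0.le]
    norm_num
  have hc2 : (k : ℝ) ^ ((2 : ℝ) / 3) = c ^ 2 := by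
    rw [hc, ← Real.rpow_natCast, ← Real.rpow_mul hk0.le]
    norm_num
  rw [hc2, ← hs]
  -- the two candidates
  obtain ⟨a1, h1, h1'⟩ : ∃ a1 : ℕ, 30 * a1 ^ 2 ≤ d ∧ d < 30 * (a1 + 1) ^ 2 := by
    refine ⟨Nat.sqrt (d / 30), ?_, ?_⟩
    · have := Nat.sqrt_le' (d / 30)
      omega
    · have := Nat.lt_succ_sqrt' (d / 30)
      rw [Nat.succ_eq_add_one] at this
      omega
  obtain ⟨a2, h2, h2'⟩ : ∃ a2 : ℕ, 100 * a2 ^ 3 ≤ k ∧ k < 100 * (a2 + 1) ^ 3 := by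
    have h0 : ∃ n : ℕ, k < 100 * (n + 1) ^ 3 := by
      refine ⟨k, ?_⟩
      have : (k + 1) ≤ (k + 1) ^ 3 := Nat.le_self_pow (by norm_num) _
      omega
    classical
    refine ⟨Nat.find h0, ?_, Nat.find_spec h0⟩
    by_contra hcon
    rcases Nat.eq_zero_or_pos (Nat.find h0) with hz | hz
    · rw [hz] at hcon
      omega
    · have h3 := Nat.find_min h0 (m := Nat.find h0 - 1) (by omega)
      rw [Nat.sub_add_cancel hz] at h3
      omega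
  have a1ge : 3 ≤ a1 := by
    by_contra hcon
    have : (a1 + 1) ^ 2 ≤ 3 ^ 2 := Nat.pow_le_pow_left (by omega) 2
    omega
  have a2ge : 3 ≤ a2 := by
    by_contra hcon
    have : (a2 + 1) ^ 3 ≤ 3 ^ 3 := Nat.pow_le_pow_left (by omega) 3
    omega
  rcases le_total a1 a2 with h | h
  · have ha0 : (3 : ℝ) ≤ a1 := by exact_mod_cast a1ge
    refine ⟨a1, a1ge, le_trans (Nat.mul_le_mul_left _ (Nat.pow_le_pow_left h 3)) h2, h1, ?_⟩
    have h3 : (d : ℝ) < 30 * ((a1 : ℝ) + 1) ^ 2 := by exact_mod_cast h1'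
    have h4 : s ≤ 7.4 * a1 := by
      apply le_of_sq_le_sq _ (by positivity)
      rw [hs2]
      nlinarith
    have h5 : 7 * ((k : ℝ) / a1) ≤ 52 * (k / s) := by
      rw [mul_div_assoc', mul_div_assoc', div_le_div_iff₀ (by linarith) hs0]
      nlinarith
    have h6 : 0 < c ^ 2 := by positivity
    linarith
  · have ha0 : (3 : ℝ) ≤ a2 := by exact_mod_cast a2ge
    refine ⟨a2, a2ge, h2, le_trans (Nat.mul_le_mul_left _ (Nat.pow_le_pow_left h 2)) h1, ?_⟩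
    have h3 : (k : ℝ) < 100 * ((a2 : ℝ) + 1) ^ 3 := by exact_mod_cast h2'
    have h4 : c ≤ 6.2 * a2 := by
      by_contra hcon
      push Not at hcon
      have h5 : (6.2 * (a2 : ℝ)) ^ 3 < c ^ 3 := pow_lt_pow_left₀ hcon (by positivity) (by norm_num)
      have h6 : ((a2 : ℝ) + 1) ^ 3 ≤ (4 / 3 * (a2 : ℝ)) ^ 3 :=
        pow_le_pow_left₀ (by positivity) (by linarith) 3
      have h7 : (0 : ℝ) < (a2 : ℝ) ^ 3 := by positivity
      rw [hc3, mul_pow] at h5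
      rw [mul_pow] at h6
      norm_num at h5 h6
      linarith
    have h5 : 7 * ((k : ℝ) / a2) ≤ 52 * c ^ 2 := by
      rw [mul_div_assoc', div_le_iff₀ (by linarith), ← hc3]
      have h6 : 0 < c ^ 2 := by positivity
      have h7 : 7 * c ≤ 52 * a2 := by linarith
      have h8 := mul_le_mul_of_nonneg_left h7 h6.le
      nlinarith
    have h6 : 0 < (k : ℝ) / s := by positivity
    linarith

theorem par_exU2 {k d : ℕ} {δ : ℝ} (hδ : 0 < δ) (hδ1 : δ ≤ 1) (hk : 2700 ≤ k) (hd : d ≤ k)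
    (hd2 : 270 ≤ d) {r m : ℕ}
    (hr : k * Real.log (1 / δ) + 38 * (k / √(d : ℝ) + (k : ℝ) ^ ((2 : ℝ) / 3)) ≤ r)
    (hm : δ * k + 23 * (k / √(d : ℝ) + (k : ℝ) ^ ((2 : ℝ) / 3)) ≤ m) :
    ∃ p : ParX k d, p.n1 + p.n2 + 1 ≤ r ∧ p.J * p.M ≤ m := by
  obtain ⟨a, ha, hak, had, hab⟩ := choose_a hk hd2
  have hE : 0 ≤ k / √(d : ℝ) + (k : ℝ) ^ ((2 : ℝ) / 3) := by positivity
  exact par_exU hδ hδ1 ha hak hd had (by linarith) (by linarith)

end UWar
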