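import Pool.Agent.UWar.Defs
import Pool.Agent.LWar.WBdW
import Pool.Agent.LWar.DecTopW
import Pool.Agent.LWar.DecLowW

/-!
# LWar.DecodeF: the relation between the power sums forces equality of the letters and of the modes

Compare `Pool/Agent/KWar/Decode.lean` (proved there for equal weights in each family), whose proof has the
same structure; the notation is the same: `N = k - 1`, `P = Q ^ N`, `β0 = be M L 0`, all bulk letters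
of level `j` are in `[β0 Q^(N-4j), Q^(N-4j)/128]`. Here `D = P⁻¹`, `B = Q ^ ((3N+1)/2)` (division of
naturals; `B ≥ P^(3/2)`), `E = P`. The weight of a bulk letter is `ω l x = τ l + mode`, `W l = τ l - τ' l`,
so `ω l x - ω' l x - W l` is an integer; `|W l| ≤ 1/4`. If `|ω l x - ω' l x| < D ≤ 1/4` then this
integer is `0`.

STEP 1: `dec_topW` with `m = m0`, `x0 = β0 Q^(N-4(j0-1))`, `ζ = Q^(N-4j0)`, `Γ1`. `hcard`: `c2`, `hc1`. `hnum`: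
(a) `D x0^(m0-1) ≥ β0^(m0-1) Q E`: `-N + (N-4j0+4)(m0-1) ≥ N + 1` by `c3` (`(k-1)(u+1) ≥ 2N`; `u ≥ 1`
follows from `hn`: `0 ≤ k(1-1/k)^n < u`);
(b) `D x0^(m0-1) ≥ β0^(m0-1) Q B ζ^m0`: `-N + (N-4j0+4)(m0-1) ≥ (3N+1)/2 + (N-4j0) m0 + 1`: twice this
is implied by `8 m0 + 8 j0 ≥ 7N + 11`, which follows from `ParF.c4` (`7N + 7 ≤ 8 m0`) and `j0 ≥ 1`.
The conclusion gives `b = b'` and `ω - ω' = W` for the levels `< j0`.
STEP 2: for `j = j0, ..., J` (induction) the letters of the levels `< j` agree and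
`ω - ω' = W` there; `wbdW` with `m = m1`, `D' = B`, `ζ = Q^(N-4j)` (`0` if `j = J`), `Γ0`, `δ` as in `decode`
gives `|W l| ≤ C1 (P · P^(-m1) + B Q^(-4 j m1))`. If `j < J`: `dec_lowW` with `m = m0`, `x0 = β0 Q^(N-4j)`,
`ζ = Q^(N-4j-4)`, `R = 16 P`, `Wm` = that bound. `hnum1`: (a) as above; (b):
`-N + (N-4j)(m0-1) ≥ (3N+1)/2 + (N-4j-4) m0 + 1`: twice this is implied by `8 m0 + 8 j ≥ 7N + 3`.
`hnum2` with `nn = 2qM - 1`:
(c) `P · P^(-m1) P^(m0+nn) Q ≤ D Q^((N-4j)(m0+nn-1))` iff `3N + 4j(m0+nn-1) + 1 ≤ N m1`: `c6`, `u ≥ 1`;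
(d) `B Q^(-4jm1) P^(m0+nn) Q ≤ D Q^((N-4j)(m0+nn-1))`: iff
`(3N+1)/2 + 2N + 1 + 4j(m0+nn-1) ≤ 4 j m1`: twice this is implied by
`7N + 3 ≤ 8 j (m1 + 2 - m0 - 2qM)`: `ParF.c5` (for `j0`, hence for all `j ≥ j0`).
At `j = J` the bound is `|W l| ≤ C1 P/P^m1`.
The relation for `m' ∈ [m0, N]` or `[m1, N]` is the hypothesis for `i = k - 1 - m' < d` (`c1`, `c1'`).
-/

namespace UWar

open Finset MWg KWar LWar

private theorem Decode_be_pos (M l i : ℕ) : 0 < be M l i := by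
  unfold be
  positivity

private theorem Decode_be_le (M l i : ℕ) : be M l i ≤ 1 / 256 := by
  unfold be
  calc (1 / 4 : ℝ) ^ (4 + l * M + i) ≤ (1 / 4 : ℝ) ^ 4 :=
        pow_le_pow_of_le_one (by norm_num) (by norm_num) (by omega)
    _ = 1 / 256 := by norm_num

private theorem Decode_be_ge {M L l i : ℕ} (hl : l < L) (hi : i < M) :
    be M L 0 ≤ be M l i := by
  unfold be
  refine pow_le_pow_of_le_one (by norm_num) (by norm_num) ?_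
  have := Nat.mul_le_mul_right M (show l + 1 ≤ L from hl)
  rw [Nat.add_mul, Nat.one_mul] at this
  omega

private theorem Decode_be_ratio {M l i l' i' : ℕ} (h : l * M + i < l' * M + i') :
    4 * be M l' i' ≤ be M l i := by
  unfold be
  calc 4 * (1 / 4 : ℝ) ^ (4 + l' * M + i') ≤ 4 * (1 / 4 : ℝ) ^ (4 + l * M + i + 1) := by
        refine mul_le_mul_of_nonneg_left ?_ (by norm_num)
        exact pow_le_pow_of_le_one (by norm_num) (by norm_num) (by omega)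
    _ = (1 / 4 : ℝ) ^ (4 + l * M + i) := by rw [pow_succ]; ring

private theorem Decode_ne {M l i l' i' : ℕ} (hi : i < M) (hi' : i' < M) (h : ¬(l = l' ∧ i = i')) :
    l * M + i < l' * M + i' ∨ l' * M + i' < l * M + i := by
  rcases lt_trichotomy l l' with h1 | h1 | h1
  · left
    have := Nat.mul_le_mul_right M (show l + 1 ≤ l' from h1)
    rw [Nat.add_mul, Nat.one_mul] at this
    omega
  · subst h1
    have : i ≠ i' := fun h2 => h ⟨rfl, h2⟩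
    omega
  · right
    have := Nat.mul_le_mul_right M (show l' + 1 ≤ l from h1)
    rw [Nat.add_mul, Nat.one_mul] at this
    omega

private theorem Decode_lev {g N J j j' : ℕ} {Q : ℝ} (hQ : 1 ≤ Q) (hJN : lg g J ≤ N) (hjj : j < j')
    (hj' : j' ≤ J) : Q ^ 4 * Q ^ (N - lg g j') ≤ Q ^ (N - lg g j) := by
  have e1 := lg_lt (g := g) hjj
  have e2 := lg_mono (g := g) hj'
  rw [← pow_add]
  exact pow_le_pow_right₀ hQ (by omega)

private theorem Decode_lb {g M L N l i j : ℕ} {Q X : ℝ} (hQ : 1 ≤ Q) (hl : l < L) (hi : i < M)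
    (h1 : be M l i * Q ^ (N - lg g j) < X) : be M L 0 * Q ^ (N - lg g j) ≤ X := by
  refine le_trans ?_ h1.le
  exact mul_le_mul_of_nonneg_right (Decode_be_ge hl hi) (by positivity)

private theorem Decode_ub {g M N l i j : ℕ} {Q X : ℝ} (hQ : 1 ≤ Q)
    (h1 : X ≤ 2 * (be M l i * Q ^ (N - lg g j))) : X ≤ Q ^ (N - lg g j) / 128 := by
  have h2 := Decode_be_le M l i
  have h3 : 0 < Q ^ (N - lg g j) := by positivity
  have h4 := mul_le_mul_of_nonneg_right h2 h3.le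
  linarith

private theorem Decode_sep {g M L q J N : ℕ} {Q : ℝ} (hQ : 1 ≤ Q) (hβQ : 1 ≤ be M L 0 * Q ^ 4)
    (φ : Fin q → ℕ) (hφ : Function.Injective φ) (hφL : ∀ l, φ l < L) (hJN : lg g J ≤ N)
    (l l' : Fin q) (x x' : Fin J × Fin M) (hne : (l, x) ≠ (l', x')) (X X' : ℝ)
    (h1 : be M (φ l) x.2 * Q ^ (N - lg g (x.1 : ℕ)) < X)
    (h1' : X ≤ 2 * (be M (φ l) x.2 * Q ^ (N - lg g (x.1 : ℕ))))
    (h2 : be M (φ l') x'.2 * Q ^ (N - lg g (x'.1 : ℕ)) < X')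
    (h2' : X' ≤ 2 * (be M (φ l') x'.2 * Q ^ (N - lg g (x'.1 : ℕ)))) :
    X' / 4 ≤ |X - X'| := by
  have a1 := Decode_lb hQ (hφL l) x.2.2 h1
  have a2 := Decode_ub hQ h1'
  have a3 := Decode_lb hQ (hφL l') x'.2.2 h2
  have a4 := Decode_ub hQ h2'
  have hβ := Decode_be_pos M L 0
  have hz : 0 < Q ^ (N - lg g (x.1 : ℕ)) := by positivity
  have hz' : 0 < Q ^ (N - lg g (x'.1 : ℕ)) := by positivity
  have hX : 0 < X := lt_of_lt_of_le (by positivity) a1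
  have hX' : 0 < X' := lt_of_lt_of_le (by positivity) a3
  rcases lt_trichotomy (x.1 : ℕ) (x'.1 : ℕ) with h | h | h
  · have h3 := Decode_lev hQ hJN h x'.1.2.le
    have h4 : Q ^ (N - lg g (x'.1 : ℕ)) ≤ X := by
      calc Q ^ (N - lg g (x'.1 : ℕ)) = 1 * Q ^ (N - lg g (x'.1 : ℕ)) := (one_mul _).symm
        _ ≤ (be M L 0 * Q ^ 4) * Q ^ (N - lg g (x'.1 : ℕ)) :=
            mul_le_mul_of_nonneg_right hβQ hz'.le
        _ = be M L 0 * (Q ^ 4 * Q ^ (N - lg g (x'.1 : ℕ))) := by ring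
        _ ≤ be M L 0 * Q ^ (N - lg g (x.1 : ℕ)) := mul_le_mul_of_nonneg_left h3 hβ.le
        _ ≤ X := a1
    refine le_trans ?_ (le_abs_self _)
    linarith
  · have hne2 : ¬(φ l = φ l' ∧ (x.2 : ℕ) = (x'.2 : ℕ)) := by
      rintro ⟨h3, h4⟩
      apply hne
      rw [hφ h3, Prod.ext (Fin.ext h) (Fin.ext h4)]
    rw [h] at h1 h1' hz
    rcases Decode_ne x.2.2 x'.2.2 hne2 with h3 | h3
    · have h4 := mul_le_mul_of_nonneg_right (Decode_be_ratio h3) hz'.le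
      have h5 : 2 * X' ≤ X := by linarith
      refine le_trans ?_ (le_abs_self _)
      linarith
    · have h4 := mul_le_mul_of_nonneg_right (Decode_be_ratio h3) hz'.le
      have h5 : 2 * X ≤ X' := by linarith
      refine le_trans ?_ (neg_le_abs _)
      linarith
  · have h3 := Decode_lev hQ hJN h x.1.2.le
    have h4 : Q ^ (N - lg g (x.1 : ℕ)) ≤ X' := by
      calc Q ^ (N - lg g (x.1 : ℕ)) = 1 * Q ^ (N - lg g (x.1 : ℕ)) := (one_mul _).symm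
        _ ≤ (be M L 0 * Q ^ 4) * Q ^ (N - lg g (x.1 : ℕ)) :=
            mul_le_mul_of_nonneg_right hβQ hz.le
        _ = be M L 0 * (Q ^ 4 * Q ^ (N - lg g (x.1 : ℕ))) := by ring
        _ ≤ be M L 0 * Q ^ (N - lg g (x'.1 : ℕ)) := mul_le_mul_of_nonneg_left h3 hβ.le
        _ ≤ X' := a3
    refine le_trans ?_ (neg_le_abs _)
    linarith

private theorem Decode_numA {Q β c K : ℝ} {N e2 m e f : ℕ} (hQ : 1 ≤ Q)
    (hc : 0 ≤ c) (hK : 0 ≤ K)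
    (ha : 1 + 2 * N ≤ e * (m - 1)) (hb : e2 + f * m + 1 + N ≤ e * (m - 1))
    (hbig : c * (1 + K) < β ^ (m - 1) * Q) :
    c * (Q ^ N + K * Q ^ e2 * (Q ^ f) ^ m) <
      (Q ^ N)⁻¹ * (β * Q ^ e) ^ (m - 1) := by
  have hQ0 : 0 < Q := by linarith
  have hD : 0 < (Q ^ N)⁻¹ := by positivity
  have h1 : Q ^ N * Q ≤ (Q ^ N)⁻¹ * Q ^ (e * (m - 1)) := by
    rw [inv_mul_eq_div, le_div_iff₀ (by positivity), ← pow_succ, ← pow_add]
    refine pow_le_pow_right₀ hQ ?_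
    calc N + 1 + N = 1 + 2 * N := by ring
      _ ≤ _ := ha
  have h2 : Q ^ e2 * (Q ^ f) ^ m * Q ≤ (Q ^ N)⁻¹ * Q ^ (e * (m - 1)) := by
    rw [inv_mul_eq_div, le_div_iff₀ (by positivity), ← pow_mul, ← pow_add, ← pow_succ, ← pow_add]
    exact pow_le_pow_right₀ hQ hb
  have h4 : 0 < (Q ^ N)⁻¹ * Q ^ (e * (m - 1)) := by positivity
  have h5 : c * (Q ^ N + K * Q ^ e2 * (Q ^ f) ^ m) * Q <
      (Q ^ N)⁻¹ * (β * Q ^ e) ^ (m - 1) * Q := by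
    calc c * (Q ^ N + K * Q ^ e2 * (Q ^ f) ^ m) * Q =
          c * (Q ^ N * Q + K * (Q ^ e2 * (Q ^ f) ^ m * Q)) := by ring
      _ ≤ c * ((Q ^ N)⁻¹ * Q ^ (e * (m - 1)) + K * ((Q ^ N)⁻¹ * Q ^ (e * (m - 1)))) := by
          refine mul_le_mul_of_nonneg_left ?_ hc
          exact add_le_add h1 (mul_le_mul_of_nonneg_left h2 hK)
      _ = c * (1 + K) * ((Q ^ N)⁻¹ * Q ^ (e * (m - 1))) := by ring
      _ < β ^ (m - 1) * Q * ((Q ^ N)⁻¹ * Q ^ (e * (m - 1))) :=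
          mul_lt_mul_of_pos_right hbig h4
      _ = (Q ^ N)⁻¹ * (β * Q ^ e) ^ (m - 1) * Q := by
          rw [mul_pow, pow_mul]
          ring
  exact lt_of_mul_lt_mul_right h5 hQ0.le

private theorem Decode_numB {Q β c K4 C0 K3 : ℝ} {N e2 m1 e s : ℕ} (hQ : 1 ≤ Q)
    (hc : 0 ≤ c) (hK4 : 0 ≤ K4) (hC0 : 0 ≤ C0) (hK3 : 0 ≤ K3)
    (h1 : 1 + N + N * (s + 1) + N ≤ N * m1 + e * s)
    (h2 : e2 + e * m1 + N * (s + 1) + 1 + N ≤ e * s + N * m1)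
    (hbig : c * K4 * C0 * (1 + K3) * 16 ^ (s + 1) < β ^ s * Q) :
    c * (K4 * (C0 * (Q ^ N / (Q ^ N) ^ m1 +
      K3 * Q ^ e2 * (Q ^ e / Q ^ N) ^ m1))) * (16 * Q ^ N) ^ (s + 1) <
      (Q ^ N)⁻¹ * (β * Q ^ e) ^ s := by
  have hQ0 : 0 < Q := by linarith
  have hD : 0 < (Q ^ N)⁻¹ := by positivity
  have a1 : Q ^ N / (Q ^ N) ^ m1 * (Q ^ N) ^ (s + 1) * Q ≤ (Q ^ N)⁻¹ * Q ^ (e * s) := by
    rw [inv_mul_eq_div, le_div_iff₀ (by positivity)]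
    rw [show Q ^ N / (Q ^ N) ^ m1 * (Q ^ N) ^ (s + 1) * Q * Q ^ N =
      Q ^ N * (Q ^ N) ^ (s + 1) * Q * Q ^ N / (Q ^ N) ^ m1 by ring]
    rw [div_le_iff₀ (by positivity), ← pow_mul, ← pow_mul, ← pow_add, ← pow_succ,
      ← pow_add, ← pow_add]
    refine pow_le_pow_right₀ hQ ?_
    calc N + N * (s + 1) + 1 + N = 1 + N + N * (s + 1) + N := by ring
      _ ≤ N * m1 + e * s := h1
      _ = e * s + N * m1 := by ring
  have a2 : Q ^ e2 * (Q ^ e / Q ^ N) ^ m1 * (Q ^ N) ^ (s + 1) * Q ≤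
      (Q ^ N)⁻¹ * Q ^ (e * s) := by
    rw [inv_mul_eq_div, le_div_iff₀ (by positivity), div_pow]
    rw [show Q ^ e2 * ((Q ^ e) ^ m1 / (Q ^ N) ^ m1) * (Q ^ N) ^ (s + 1) * Q * Q ^ N =
        Q ^ e2 * (Q ^ e) ^ m1 * (Q ^ N) ^ (s + 1) * Q * Q ^ N / (Q ^ N) ^ m1 by ring]
    rw [div_le_iff₀ (by positivity), ← pow_mul, ← pow_mul, ← pow_mul, ← pow_add, ← pow_add,
        ← pow_succ, ← pow_add, ← pow_add]
    exact pow_le_pow_right₀ hQ h2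
  have h4 : 0 < (Q ^ N)⁻¹ * Q ^ (e * s) := by positivity
  have h5 : c * (K4 * (C0 * (Q ^ N / (Q ^ N) ^ m1 +
      K3 * Q ^ e2 * (Q ^ e / Q ^ N) ^ m1))) * (16 * Q ^ N) ^ (s + 1) * Q <
      (Q ^ N)⁻¹ * (β * Q ^ e) ^ s * Q := by
    calc c * (K4 * (C0 * (Q ^ N / (Q ^ N) ^ m1 +
      K3 * Q ^ e2 * (Q ^ e / Q ^ N) ^ m1))) * (16 * Q ^ N) ^ (s + 1) * Q =
          (c * K4 * C0 * 16 ^ (s + 1)) * (Q ^ N / (Q ^ N) ^ m1 * (Q ^ N) ^ (s + 1) * Q +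
          K3 * (Q ^ e2 * (Q ^ e / Q ^ N) ^ m1 * (Q ^ N) ^ (s + 1) * Q)) := by
          rw [mul_pow]
          ring
      _ ≤ (c * K4 * C0 * 16 ^ (s + 1)) * ((Q ^ N)⁻¹ * Q ^ (e * s) +
          K3 * ((Q ^ N)⁻¹ * Q ^ (e * s))) := by
          refine mul_le_mul_of_nonneg_left ?_ (by positivity)
          exact add_le_add a1 (mul_le_mul_of_nonneg_left a2 hK3)
      _ = c * K4 * C0 * (1 + K3) * 16 ^ (s + 1) * ((Q ^ N)⁻¹ * Q ^ (e * s)) := by ring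
      _ < β ^ s * Q * ((Q ^ N)⁻¹ * Q ^ (e * s)) :=
          mul_lt_mul_of_pos_right hbig h4
      _ = (Q ^ N)⁻¹ * (β * Q ^ e) ^ s * Q := by
          rw [mul_pow, pow_mul]
          ring
  exact lt_of_mul_lt_mul_right h5 hQ0.le

private theorem Decode_ar1 {N m1 s u j J e W : ℕ} (hW : s + 2 = W)
    (c6 : N * (u + 2) + 4 * J * W + 1 ≤ N * m1) (hjJ : j ≤ J) (hu : 1 ≤ u)
    (hNe : N = e + 4 * j) : 1 + N + N * (s + 1) + N ≤ N * m1 + e * s := by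
  have h1 : 4 * j * W ≤ 4 * J * W := Nat.mul_le_mul_right _ (by omega)
  have h2 : N * 3 ≤ N * (u + 2) := Nat.mul_le_mul_left N (by omega)
  have h4 : N * s = e * s + 4 * j * s := by
    rw [hNe]
    ring
  have h5 : N * (s + 1) = N * s + N := by ring
  have h7 : 4 * j * W = 4 * j * s + 8 * j := by
    rw [← hW]
    ring
  omega

private theorem Decode_ar2 {N m1 s j j0 e e2 W : ℕ} (hW : s + 2 = W) (he2 : 2 * e2 ≤ 3 * N + 1)
    (c5 : 8 * j0 * W + 7 * (N + 1) ≤ 8 * j0 * (m1 + 2)) (hj : j0 ≤ j)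
    (hNe : N = e + 4 * j) : e2 + e * m1 + N * (s + 1) + 1 + N ≤ e * s + N * m1 := by
  subst hW
  have h2 : s < m1 := by
    by_contra hlt
    have h3 : 8 * j0 * (m1 + 2) ≤ 8 * j0 * (s + 2) := Nat.mul_le_mul_left _ (by omega)
    omega
  obtain ⟨t, ht⟩ : ∃ t, m1 = s + t := ⟨m1 - s, by omega⟩
  have h3 : 7 * N + 7 ≤ 8 * (j0 * t) := by
    rw [ht] at c5
    have : 8 * j0 * (s + t + 2) = 8 * j0 * (s + 2) + 8 * (j0 * t) := by ring
    omega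
  have h4 : j0 * t ≤ j * t := Nat.mul_le_mul_right _ hj
  have h5 : N * m1 = e * m1 + 4 * j * s + 4 * (j * t) := by
    rw [hNe, ht]
    ring
  have h6 : N * s = e * s + 4 * j * s := by
    rw [hNe]
    ring
  have h7 : N * (s + 1) = N * s + N := by ring
  omega

private theorem Decode_ar3 {N A B m0 e2 : ℕ} (hm0 : 1 ≤ m0) (he2 : 2 * e2 ≤ 3 * N + 1)
    (h1 : B = A + 4) (h2 : 5 * N + 11 + 2 * A ≤ 8 * m0) :
    e2 + A * m0 + 1 + N ≤ B * (m0 - 1) := by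
  obtain ⟨m, hm⟩ : ∃ m, m0 = m + 1 := ⟨m0 - 1, by omega⟩
  subst hm
  rw [h1, Nat.add_sub_cancel]
  calc e2 + A * (m + 1) + 1 + N = (e2 + A + 1 + N) + A * m := by ring
    _ ≤ 4 * m + A * m := by omega
    _ = (A + 4) * m := by ring

private theorem Decode_int {x y w D : ℝ} (hD : D ≤ 1 / 4) (hw : |w| ≤ 1 / 4)
    (hm : ∃ m : ℤ, x - y - w = m) (h : |x - y| < D) : x - y = w := by
  obtain ⟨m, hm⟩ := hm
  have h1 := abs_lt.1 h
  have h2 := abs_le.1 hw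
  have h3 : (m : ℝ) < 1 := by rw [← hm]; linarith
  have h4 : (-1 : ℝ) < m := by rw [← hm]; linarith
  have h5 : m < 1 := by exact_mod_cast h3
  have h6 : -1 < m := by exact_mod_cast h4
  have h7 : m = 0 := by omega
  rw [h7, Int.cast_zero] at hm
  linarith

private theorem Decode_main {g q M J L N d u m0 m1 : ℕ} {Γ : Type} [Fintype Γ] [DecidableEq Γ]
    (Γ0 Γ1 : Finset Γ) (hN : 4 ≤ N) (hq : 1 ≤ q) (hM : 1 ≤ M) (hj0J : 1 ≤ J)
    (hu : 1 ≤ u)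
    (hJN : lg g J ≤ N) (c1 : N + 1 ≤ m0 + d) (c1' : N + 1 ≤ m1 + d)
    (c2 : m0 + 2 * q * M + 11 * q ≤ N + 1)
    (c3 : N * (u + 1) + 1 ≤ (N - lg g J) * (m0 - 1)) (c4 : 7 * (N + 1) ≤ 8 * m0)
    (c5 : 8 * (1 + g) * (m0 + 2 * q * M) + 7 * (N + 1) ≤ 8 * (1 + g) * (m1 + 2))
    (c6 : N * (u + 2) + 4 * (J + g) * (m0 + 2 * q * M) + 1 ≤ N * m1)
    (c7 : m1 + q * M + 3 * q ≤ N + 1)
    (hc0 : Γ0.card ≤ 3) (hc1 : Γ1.card ≤ 11) :
    ∃ δ : ℝ, 0 < δ ∧ ∃ C Q0 : ℝ, 0 < C ∧ 1 ≤ Q0 ∧ ∀ Q : ℝ, Q0 ≤ Q →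
    ∀ φ : Fin q → ℕ, Function.Injective φ → (∀ l, φ l < L) →
    ∀ (a : Fin q → Γ → ℕ) (b b' : Fin q → Fin J × Fin M → ℕ),
    (∀ l γ, (a l γ : ℝ) ≤ 16 * Q ^ N) →
    (∀ l, ∀ γ ∈ Γ0, Q ^ N / 8 ≤ (a l γ : ℝ)) →
    (∀ l γ, γ ∉ Γ0 → (a l γ : ℝ) ≤ δ * Q ^ N) →
    (∀ l, ∀ γ ∈ Γ1, Q ^ (N - 4) ≤ (a l γ : ℝ)) →
    (∀ l γ, γ ∉ Γ1 → (a l γ : ℝ) ≤ Q ^ (N - 4)) →
    (∀ l, ∀ γ ∈ Γ1, ∀ j < 1, ∀ x : ℝ, be M L 0 * Q ^ (N - lg g j) ≤ x →
      x ≤ Q ^ (N - lg g j) / 128 → (a l γ : ℝ) / 4 ≤ |x - (a l γ : ℝ)|) →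
    (∀ l x, be M (φ l) x.2 * Q ^ (N - lg g (x.1 : ℕ)) < (b l x : ℝ) ∧
      (b l x : ℝ) ≤ 2 * (be M (φ l) x.2 * Q ^ (N - lg g (x.1 : ℕ)))) →
    (∀ l x, be M (φ l) x.2 * Q ^ (N - lg g (x.1 : ℕ)) < (b' l x : ℝ) ∧
      (b' l x : ℝ) ≤ 2 * (be M (φ l) x.2 * Q ^ (N - lg g (x.1 : ℕ)))) →
    ∀ (W : Fin q → ℝ) (ω ω' : Fin q → Fin J × Fin M → ℝ),
    (∀ l, |W l| ≤ 1 / 4) →
    (∀ l x, ∃ m : ℤ, ω l x - ω' l x - W l = m) →
    (∀ l x, (Q ^ N)⁻¹ ≤ |ω l x| ∧ |ω l x| ≤ Q ^ ((3 * N + 1) / 2)) →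
    (∀ l x, (Q ^ N)⁻¹ ≤ |ω' l x| ∧ |ω' l x| ≤ Q ^ ((3 * N + 1) / 2)) →
    (∀ i : Fin d, |∑ l, (W l * (∑ γ, (a l γ : ℝ) ^ (N - (i : ℕ))) +
        ∑ x, (ω l x * (b l x : ℝ) ^ (N - (i : ℕ)) -
          ω' l x * (b' l x : ℝ) ^ (N - (i : ℕ))))| ≤ Q ^ N) →
    b = b' ∧ (∀ l x, ω l x - ω' l x = W l) ∧ ∀ l, |W l| ≤ C * (Q ^ N / (Q ^ N) ^ m1) := by
  have hm0 : 1 ≤ m0 := by omega
  have hm1 : 1 ≤ m1 := by
    rcases Nat.eq_zero_or_pos m1 with h | h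
    · rw [h, Nat.mul_zero] at c6
      omega
    · exact h
  have hJ1 : 1 ≤ J := hj0J
  have hqM : 1 ≤ q * M := Nat.mul_pos hq hM
  obtain ⟨e2, he2d⟩ : ∃ e2 : ℕ, (3 * N + 1) / 2 = e2 := ⟨_, rfl⟩
  rw [he2d]
  have he2 : 2 * e2 ≤ 3 * N + 1 := by omega
  obtain ⟨β, hβd⟩ : ∃ β : ℝ, β = be M L 0 := ⟨_, rfl⟩
  rw [← hβd]
  have hβ : 0 < β := by rw [hβd]; exact Decode_be_pos M L 0
  have hβ1 : β ≤ 1 / 256 := by rw [hβd]; exact Decode_be_le M L 0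
  obtain ⟨K, hKd⟩ : ∃ K : ℝ, K = 2 * 8 ^ (q * M + q * Γ0.card) *
    ((q * (Fintype.card Γ + J * M) : ℕ) : ℝ) := ⟨_, rfl⟩
  have hK : 0 ≤ K := by rw [hKd]; positivity
  obtain ⟨C0, hC0d⟩ : ∃ C0 : ℝ, C0 = 2 * 8 ^ (q * M + q * Γ0.card) / β ^ m1 := ⟨_, rfl⟩
  have hC0 : 0 < C0 := by rw [hC0d]; positivity
  obtain ⟨cA, hcAd⟩ : ∃ cA : ℝ, cA = 2 * 8 ^ (2 * q * M * 1 + q * Γ1.card) := ⟨_, rfl⟩
  have hcA : 0 < cA := by rw [hcAd]; positivity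
  obtain ⟨K2, hK2d⟩ : ∃ K2 : ℝ, K2 = ((2 * q * (Fintype.card Γ + J * M) : ℕ) : ℝ) := ⟨_, rfl⟩
  have hK2 : 0 ≤ K2 := by rw [hK2d]; positivity
  obtain ⟨K3, hK3d⟩ : ∃ K3 : ℝ, K3 = ((2 * q * J * M : ℕ) : ℝ) := ⟨_, rfl⟩
  have hK3 : 0 ≤ K3 := by rw [hK3d]; positivity
  obtain ⟨K4, hK4d⟩ : ∃ K4 : ℝ, K4 = ((q * (Fintype.card Γ + J * M) : ℕ) : ℝ) := ⟨_, rfl⟩
  have hK4 : 0 ≤ K4 := by rw [hK4d]; positivity
  obtain ⟨cB, hcBd⟩ : ∃ cB : ℝ, cB = 4 * 8 ^ (2 * q * M) := ⟨_, rfl⟩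
  have hcB : 0 < cB := by rw [hcBd]; positivity
  obtain ⟨cC, hcCd⟩ : ∃ cC : ℝ, cC = 2 * 8 ^ (2 * q * M) := ⟨_, rfl⟩
  have hcC : 0 < cC := by rw [hcCd]; positivity
  obtain ⟨s, hsd⟩ : ∃ s : ℕ, s = m0 + (2 * q * M - 2) := ⟨_, rfl⟩
  have h2qM : 2 ≤ 2 * q * M := by
    rw [Nat.mul_assoc]
    omega
  obtain ⟨δ, hδd⟩ : ∃ δ : ℝ, δ = β / (1 + K) := ⟨_, rfl⟩
  have hδ : 0 < δ := by rw [hδd]; positivity
  have hδβ : δ ≤ β := by
    rw [hδd]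
    exact div_le_self hβ.le (by linarith)
  have hsmall : K * δ ^ m1 ≤ β ^ m1 := by
    rw [hδd, div_pow]
    have h1 : K ≤ (1 + K) ^ m1 := by
      calc K ≤ 1 + K := by linarith
        _ = (1 + K) ^ 1 := (pow_one _).symm
        _ ≤ (1 + K) ^ m1 := pow_le_pow_right₀ (by linarith) hm1
    have h2 : 0 < (1 + K) ^ m1 := by positivity
    rw [← mul_div_assoc, div_le_iff₀ h2, mul_comm]
    exact mul_le_mul_of_nonneg_left h1 (by positivity)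
  obtain ⟨Q0, hQ0d⟩ : ∃ Q0 : ℝ, Q0 = 4 + β⁻¹ + δ⁻¹ + cA * (1 + K2) / β ^ (m0 - 1) +
    cB * (1 + K3) / β ^ (m0 - 1) + cC * K4 * C0 * (1 + K3) * 16 ^ (s + 1) / β ^ s := ⟨_, rfl⟩
  have q1 : 0 ≤ β⁻¹ := by positivity
  have q2 : 0 ≤ δ⁻¹ := by positivity
  have q3 : 0 ≤ cA * (1 + K2) / β ^ (m0 - 1) := by positivity
  have q4 : 0 ≤ cB * (1 + K3) / β ^ (m0 - 1) := by positivity
  have q5 : 0 ≤ cC * K4 * C0 * (1 + K3) * 16 ^ (s + 1) / β ^ s := by positivity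
  refine ⟨δ, hδ, C0, Q0, hC0, by rw [hQ0d]; linarith, ?_⟩
  intro Q hQ φ hφ hφL a b b' g1 g2 g3 g4 g5 g6 hb hb' W ω ω' hW4 hint hω hω' hR
  rw [hQ0d] at hQ
  have hQ1 : 1 ≤ Q := by linarith
  have hQ4' : 4 ≤ Q := by linarith
  have hQp : 0 < Q := by linarith
  have hQ4 : Q ≤ Q ^ 4 := by
    calc Q = Q ^ 1 := (pow_one _).symm
      _ ≤ Q ^ 4 := pow_le_pow_right₀ hQ1 (by norm_num)
  have hβQ : 1 ≤ β * Q ^ 4 := by
    have h1 : β⁻¹ ≤ Q ^ 4 := by linarith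
    calc (1 : ℝ) = β * β⁻¹ := (mul_inv_cancel₀ hβ.ne').symm
      _ ≤ β * Q ^ 4 := mul_le_mul_of_nonneg_left h1 hβ.le
  have hδQ : 1 ≤ δ * Q ^ 4 := by
    have h1 : δ⁻¹ ≤ Q ^ 4 := by linarith
    calc (1 : ℝ) = δ * δ⁻¹ := (mul_inv_cancel₀ hδ.ne').symm
      _ ≤ δ * Q ^ 4 := mul_le_mul_of_nonneg_left h1 hδ.le
  have hbigA : cA * (1 + K2) < β ^ (m0 - 1) * Q := by
    rw [← div_lt_iff₀' (by positivity)]
    linarith
  have hbigB : cB * (1 + K3) < β ^ (m0 - 1) * Q := by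
    rw [← div_lt_iff₀' (by positivity)]
    linarith
  have hbigC : cC * K4 * C0 * (1 + K3) * 16 ^ (s + 1) < β ^ s * Q := by
    rw [← div_lt_iff₀' (by positivity)]
    linarith
  have hP1 : 1 ≤ Q ^ N := one_le_pow₀ hQ1
  have hP0 : 0 < Q ^ N := by positivity
  have hB1 : 1 ≤ Q ^ e2 := one_le_pow₀ hQ1
  have hD0 : 0 < (Q ^ N)⁻¹ := by positivity
  have hQN4 : Q ^ 4 ≤ Q ^ N := pow_le_pow_right₀ hQ1 hN
  have hD4 : (Q ^ N)⁻¹ ≤ 1 / 4 := by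
    rw [one_div]
    exact inv_anti₀ (by norm_num) (by linarith)
  have hDB : (Q ^ N)⁻¹ ≤ Q ^ e2 := by linarith
  have hβP : 1 ≤ β * Q ^ N := le_trans hβQ (mul_le_mul_of_nonneg_left hQN4 hβ.le)
  have hβQ' : 1 ≤ be M L 0 * Q ^ 4 := by rw [← hβd]; exact hβQ
  -- bounds of the letters
  have lb : ∀ l x, β * Q ^ (N - lg g ((x : Fin J × Fin M).1 : ℕ)) ≤ (b l x : ℝ) := fun l x => by
    rw [hβd]; exact Decode_lb hQ1 (hφL l) x.2.2 (hb l x).1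
  have lb' : ∀ l x, β * Q ^ (N - lg g ((x : Fin J × Fin M).1 : ℕ)) ≤ (b' l x : ℝ) := fun l x => by
    rw [hβd]; exact Decode_lb hQ1 (hφL l) x.2.2 (hb' l x).1
  have ub : ∀ l x, (b l x : ℝ) ≤ Q ^ (N - lg g ((x : Fin J × Fin M).1 : ℕ)) / 128 := fun l x =>
    Decode_ub hQ1 (hb l x).2
  have ub' : ∀ l x, (b' l x : ℝ) ≤ Q ^ (N - lg g ((x : Fin J × Fin M).1 : ℕ)) / 128 := fun l x =>
    Decode_ub hQ1 (hb' l x).2
  have hpart : ∀ l x, (b' l x : ℝ) ≤ 2 * (b l x : ℝ) := fun l x => by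
    linarith [(hb l x).1, (hb' l x).2]
  have sep : ∀ l p l' p', (l, p) ≠ (l', p') →
      (b l' p' : ℝ) / 4 ≤ |(b l p : ℝ) - (b l' p' : ℝ)| := fun l p l' p' hne =>
    Decode_sep hQ1 hβQ' φ hφ hφL hJN l l' p p' hne _ _ (hb l p).1 (hb l p).2 (hb l' p').1
      (hb l' p').2
  have sep' : ∀ l p l' p', (l, p) ≠ (l', p') →
      (b' l' p' : ℝ) / 4 ≤ |(b l p : ℝ) - (b' l' p' : ℝ)| := fun l p l' p' hne =>
    Decode_sep hQ1 hβQ' φ hφ hφL hJN l l' p p' hne _ _ (hb l p).1 (hb l p).2 (hb' l' p').1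
      (hb' l' p').2
  have low : ∀ j, j ≤ J → ∀ i, i < j → ∀ X : ℝ, β * Q ^ (N - lg g i) ≤ X →
      Q ^ (N - lg g j) ≤ X := by
    intro j hj i hi X hX
    have h1 := Decode_lev hQ1 hJN hi hj
    calc Q ^ (N - lg g j) = 1 * Q ^ (N - lg g j) := (one_mul _).symm
      _ ≤ (β * Q ^ 4) * Q ^ (N - lg g j) := mul_le_mul_of_nonneg_right hβQ (by positivity)
      _ = β * (Q ^ 4 * Q ^ (N - lg g j)) := by ring
      _ ≤ β * Q ^ (N - lg g i) := mul_le_mul_of_nonneg_left h1 hβ.le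
      _ ≤ X := hX
  have high : ∀ j i, j ≤ i → ∀ X : ℝ, X ≤ Q ^ (N - lg g i) / 128 → X ≤ Q ^ (N - lg g j) := by
    intro j i hi X hX
    have h0 := lg_mono (g := g) hi
    have h1 : Q ^ (N - lg g i) ≤ Q ^ (N - lg g j) := pow_le_pow_right₀ hQ1 (by omega)
    have h2 : 0 < Q ^ (N - lg g i) := by positivity
    linarith
  have hrel : ∀ m', N + 1 ≤ m' + d → m' ≤ N → |∑ l, (W l * (∑ γ, (a l γ : ℝ) ^ m') +
      ∑ p, (ω l p * (b l p : ℝ) ^ m' - ω' l p * (b' l p : ℝ) ^ m'))| ≤ Q ^ N := by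
    intro m' h1 h2
    have h3 := hR ⟨N - m', by omega⟩
    simp only [Nat.sub_sub_self h2] at h3
    exact h3
  have hN1 : N * 2 ≤ N * (u + 1) := Nat.mul_le_mul_left N (by omega)
  have hint0 : ∀ l p, |ω l p - ω' l p| < (Q ^ N)⁻¹ → ω l p - ω' l p = W l := fun l p h =>
    Decode_int hD4 (hW4 l) (hint l p) h
  -- the bound of the weights
  have hWb : ∀ j, 1 ≤ j → (∀ l p, (p.1 : ℕ) < j → b l p = b' l p) →
      (∀ l p, (p.1 : ℕ) < j → ω l p - ω' l p = W l) → ∀ ζ : ℝ, 0 ≤ ζ →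
      ζ ≤ β * Q ^ N → (∀ l p, j ≤ (p.1 : ℕ) → (b l p : ℝ) ≤ ζ ∧ (b' l p : ℝ) ≤ ζ) →
      ∀ l, |W l| ≤ C0 * (Q ^ N / (Q ^ N) ^ m1 + K3 * Q ^ e2 * (ζ / Q ^ N) ^ m1) := by
    intro j hj hag hagω ζ hζ0 hζβ hζ
    rw [hC0d, hK3d]
    refine wbdW (j := j) (N := N) (δ := δ) Γ0 a b b' W ω ω' hP0.le (by positivity) hP0 hβ hβP
      (fun m' h1 h2 => hrel m' (by omega) h2) ?_ hj hJ1 hM hag hagω ?_ ?_
      (fun l p l' p' _ _ hne => sep l p l' p' hne) ?_ hδ.le hδβ hζ0 hζβ g3 ?_ hζ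
      (fun l p _ => ⟨(hω l p).2, (hω' l p).2⟩) ?_
    · have : q * Γ0.card ≤ q * 3 := Nat.mul_le_mul_left q hc0
      omega
    · intro l p hp
      have := lb l p
      rw [hp, lg_zero, Nat.sub_zero] at this
      exact this
    · intro l γ hγ
      refine le_trans ?_ (g2 l γ hγ)
      have h1 := mul_le_mul_of_nonneg_right hβ1 hP0.le
      linarith
    · intro l p l' hp γ hγ
      have h1 := ub l p
      rw [hp, lg_zero, Nat.sub_zero] at h1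
      have h2 := g2 l' γ hγ
      refine le_trans ?_ (neg_le_abs _)
      linarith
    · intro l p h1 _
      have h2 := ub l p
      have h3 := Decode_lev hQ1 hJN (show 0 < (p.1 : ℕ) by omega) p.1.2.le
      rw [lg_zero, Nat.sub_zero] at h3
      have h4 : 0 < Q ^ (N - lg g (p.1 : ℕ)) := by positivity
      have h5 : Q ^ (N - lg g (p.1 : ℕ)) ≤ δ * Q ^ N := by
        calc Q ^ (N - lg g (p.1 : ℕ)) = 1 * Q ^ (N - lg g (p.1 : ℕ)) := (one_mul _).symm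
          _ ≤ (δ * Q ^ 4) * Q ^ (N - lg g (p.1 : ℕ)) := mul_le_mul_of_nonneg_right hδQ h4.le
          _ = δ * (Q ^ 4 * Q ^ (N - lg g (p.1 : ℕ))) := by ring
          _ ≤ δ * Q ^ N := mul_le_mul_of_nonneg_left h3 hδ.le
      linarith
    · rw [← hKd]
      exact hsmall
  have key : ∀ j, 1 ≤ j → j ≤ J → ∀ l p, ((p : Fin J × Fin M).1 : ℕ) < j →
      b l p = b' l p ∧ ω l p - ω' l p = W l := by
    intro j hj
    induction j, hj using Nat.le_induction with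
    | base =>
      intro _ l p hp
      have hz4 : ∀ l' p', 1 ≤ ((p' : Fin J × Fin M).1 : ℕ) → (b l' p' : ℝ) ≤ Q ^ (N - 4) ∧
          (b' l' p' : ℝ) ≤ Q ^ (N - 4) := by
        intro l' p' hp'
        have e0 := lg_lt (g := g) (show 0 < (p'.1 : ℕ) by omega)
        rw [lg_zero] at e0
        have e1 : Q ^ (N - lg g (p'.1 : ℕ)) ≤ Q ^ (N - 4) := pow_le_pow_right₀ hQ1 (by omega)
        have e2 := ub l' p'
        have e3 := ub' l' p'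
        have e4 : 0 < Q ^ (N - lg g (p'.1 : ℕ)) := by positivity
        constructor <;> linarith
      have hge : ∀ X : ℝ, β * Q ^ (N - lg g 0) ≤ X → Q ^ (N - 4) ≤ X := by
        intro X hX
        rw [lg_zero, Nat.sub_zero] at hX
        calc Q ^ (N - 4) = 1 * Q ^ (N - 4) := (one_mul _).symm
          _ ≤ (β * Q ^ 4) * Q ^ (N - 4) := mul_le_mul_of_nonneg_right hβQ (by positivity)
          _ = β * Q ^ (4 + (N - 4)) := by rw [pow_add]; ring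
          _ = β * Q ^ N := by rw [show 4 + (N - 4) = N by omega]
          _ ≤ X := hX
      have htop := dec_topW (j0 := 1) (m := m0) (N := N) (x0 := β * Q ^ (N - lg g 0))
        (ζ := Q ^ (N - 4)) (D := (Q ^ N)⁻¹) (B := Q ^ e2) Γ1 a b b' W ω ω' hP0.le hD0 hDB
        (one_le_pow₀ hQ1) (by positivity) hm0 (fun m' h1 h2 => hrel m' (by omega) h2) ?_ hJ1
        (fun l p l' p' _ _ hne => ⟨sep l p l' p' hne, sep' l p l' p' hne⟩) ?_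
        (fun l p _ => hpart l p) ?_ g4 g5 ?_ (fun l p => ⟨(hω l p).1, (hω l p).2, (hω' l p).2⟩)
        (fun l => (hW4 l).trans (by linarith)) ?_ l p hp
      · exact ⟨htop.1, hint0 l p htop.2⟩
      · have : q * Γ1.card ≤ q * 11 := Nat.mul_le_mul_left q hc1
        omega
      · intro l p l' hp γ hγ
        exact g6 l' γ hγ (p.1 : ℕ) hp _ (lb l p) (ub l p)
      · intro l p hp
        have hp0 : (p.1 : ℕ) = 0 := by omega
        have e1 := lb l p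
        have e2 := lb' l p
        rw [hp0] at e1 e2
        exact ⟨e1, hge _ e1, hge _ e2⟩
      · intro l p hp
        exact hz4 l p hp
      · rw [← hcAd, ← hK2d]
        refine Decode_numA hQ1 hcA.le hK2 ?_ ?_ hbigA
        · have h1 : (N - lg g J) * (m0 - 1) ≤ (N - lg g 0) * (m0 - 1) :=
            Nat.mul_le_mul_right _ (by rw [lg_zero]; omega)
          omega
        · exact Decode_ar3 hm0 he2 (show N - lg g 0 = N - 4 + 4 by rw [lg_zero]; omega) (by omega)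
    | succ j hj ih =>
      intro hJ'
      have hag := ih (by omega)
      intro l p hp
      rcases Nat.lt_or_ge (p.1 : ℕ) j with hp' | hp'
      · exact hag l p hp'
      have hpj : (p.1 : ℕ) = j := by omega
      have hjJ : j < J := by omega
      have hj1 : 1 ≤ j := by omega
      have hζβ : Q ^ (N - lg g j) ≤ β * Q ^ N := by
        refine low j hjJ.le 0 (by omega) _ ?_
        rw [lg_zero, Nat.sub_zero]
      have hW := hWb j hj1 (fun l p h => (hag l p h).1) (fun l p h => (hag l p h).2)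
        (Q ^ (N - lg g j)) (by positivity) hζβ
        (fun l p hp => ⟨high _ _ hp _ (ub l p), high _ _ hp _ (ub' l p)⟩)
      have hlow := dec_lowW (m := m0) (N := N) (j := j) (x0 := β * Q ^ (N - lg g j))
        (ζ := Q ^ (N - lg g (j + 1))) (D := (Q ^ N)⁻¹) (B := Q ^ e2) (R := 16 * Q ^ N)
        a b b' W ω ω' hP0.le
        hD0 hDB (one_le_pow₀ hQ1) (by positivity) (by positivity) hm0 hq hM
        (fun m' h1 h2 => hrel m' (by omega) h2) ?_ hjJ (fun l p h => (hag l p h).1)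
        (fun l p h => (hag l p h).2)
        (fun l p l' p' _ _ hne => ⟨sep l p l' p' hne, sep' l p l' p' hne⟩)
        (fun l p _ => hpart l p) ?_ ?_ g1 ?_ (fun l p => ⟨(hω l p).1, (hω l p).2, (hω' l p).2⟩)
        hW ?_ ?_ l p hpj
      · exact ⟨hlow.1, hint0 l p hlow.2⟩
      · omega
      · intro l p hp
        have h1 := lb l p
        have h2 := lb' l p
        rw [hp] at h1 h2
        exact ⟨h1, h2, low (j + 1) hJ' j (by omega) _ h1, low (j + 1) hJ' j (by omega) _ h2⟩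
      · intro l p hp
        exact ⟨high _ _ (show j + 1 ≤ (p.1 : ℕ) from hp) _ (ub l p),
          high _ _ (show j + 1 ≤ (p.1 : ℕ) from hp) _ (ub' l p)⟩
      · intro l p
        have h1 := high 0 _ (Nat.zero_le _) _ (ub l p)
        have h2 := high 0 _ (Nat.zero_le _) _ (ub' l p)
        rw [lg_zero, Nat.sub_zero] at h1 h2
        constructor <;> linarith
      · rw [← hcBd, ← hK3d]
        refine (Decode_numA hQ1 hcB.le hK3 ?_ ?_ hbigB).le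
        · have h0 := lg_mono (g := g) hjJ.le
          have h1 : (N - lg g J) * (m0 - 1) ≤ (N - lg g j) * (m0 - 1) :=
            Nat.mul_le_mul_right _ (by omega)
          omega
        · have h0 := lg_mono (g := g) (show j + 1 ≤ J from hjJ)
          have h2 : lg g (j + 1) = lg g j + 4 := by
            rw [lg_pos (by omega : 1 ≤ j + 1), lg_pos hj1]
            ring
          exact Decode_ar3 hm0 he2 (show N - lg g j = N - lg g (j + 1) + 4 by omega) (by omega)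
      · have hs1 : m0 + (2 * q * M - 1) = s + 1 := by omega
        rw [← hcCd, ← hK4d, ← hsd, hs1]
        obtain ⟨e, he⟩ : ∃ e, N - lg g j = e := ⟨_, rfl⟩
        have h0 := lg_mono (g := g) hjJ.le
        have h3 := lg_pos (g := g) hj1
        have hNe : N = e + 4 * (j + g) := by omega
        have hs2 : s + 2 = m0 + 2 * q * M := by omega
        rw [he]
        refine Decode_numB hQ1 hcC.le hK4 hC0.le hK3 ?_ ?_ hbigC
        · exact Decode_ar1 hs2 c6 (by omega) hu hNe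
        · exact Decode_ar2 hs2 he2 c5 (by omega) hNe
  have hall := key J hJ1 le_rfl
  refine ⟨?_, ?_, ?_⟩
  · funext l p
    exact (hall l p p.1.2).1
  · intro l p
    exact (hall l p p.1.2).2
  · intro l
    have h1 := hWb J hJ1 (fun l p _ => (hall l p p.1.2).1) (fun l p _ => (hall l p p.1.2).2) 0
      le_rfl (by positivity) (fun l p hp => absurd p.1.2 (not_lt.2 hp)) l
    rw [zero_div, zero_pow (by omega), mul_zero, add_zero] at h1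
    exact h1

theorem decodeF {k d : ℕ} (p : ParX k d) {Γ : Type} [Fintype Γ] [DecidableEq Γ]
    (Γ0 Γ1 : Finset Γ) (hc0 : Γ0.card ≤ 3) (hc1 : Γ1.card ≤ 11) :
    ∃ δ : ℝ, 0 < δ ∧ ∃ C Q0 : ℝ, 0 < C ∧ 1 ≤ Q0 ∧ ∀ Q : ℝ, Q0 ≤ Q →
    ∀ φ : Fin p.q → ℕ, Function.Injective φ → (∀ l, φ l < p.L) →
    ∀ (a : Fin p.q → Γ → ℕ) (b b' : Fin p.q → Fin p.J × Fin p.M → ℕ),
    (∀ l γ, (a l γ : ℝ) ≤ 16 * Q ^ (k - 1)) →
    (∀ l, ∀ γ ∈ Γ0, Q ^ (k - 1) / 8 ≤ (a l γ : ℝ)) →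
    (∀ l γ, γ ∉ Γ0 → (a l γ : ℝ) ≤ δ * Q ^ (k - 1)) →
    (∀ l, ∀ γ ∈ Γ1, Q ^ (k - 1 - 4) ≤ (a l γ : ℝ)) →
    (∀ l γ, γ ∉ Γ1 → (a l γ : ℝ) ≤ Q ^ (k - 1 - 4)) →
    (∀ l, ∀ γ ∈ Γ1, ∀ j < 1, ∀ x : ℝ, be p.M p.L 0 * Q ^ (k - 1 - lv k p.M j) ≤ x →
      x ≤ Q ^ (k - 1 - lv k p.M j) / 128 → (a l γ : ℝ) / 4 ≤ |x - (a l γ : ℝ)|) →
    (∀ l x, be p.M (φ l) x.2 * Q ^ (k - 1 - lv k p.M (x.1 : ℕ)) < (b l x : ℝ) ∧
      (b l x : ℝ) ≤ 2 * (be p.M (φ l) x.2 * Q ^ (k - 1 - lv k p.M (x.1 : ℕ)))) →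
    (∀ l x, be p.M (φ l) x.2 * Q ^ (k - 1 - lv k p.M (x.1 : ℕ)) < (b' l x : ℝ) ∧
      (b' l x : ℝ) ≤ 2 * (be p.M (φ l) x.2 * Q ^ (k - 1 - lv k p.M (x.1 : ℕ)))) →
    ∀ (W : Fin p.q → ℝ) (ω ω' : Fin p.q → Fin p.J × Fin p.M → ℝ),
    (∀ l, |W l| ≤ 1 / 4) →
    (∀ l x, ∃ m : ℤ, ω l x - ω' l x - W l = m) →
    (∀ l x, (Q ^ (k - 1))⁻¹ ≤ |ω l x| ∧ |ω l x| ≤ Q ^ ((3 * (k - 1) + 1) / 2)) →
    (∀ l x, (Q ^ (k - 1))⁻¹ ≤ |ω' l x| ∧ |ω' l x| ≤ Q ^ ((3 * (k - 1) + 1) / 2)) →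
    (∀ i : Fin d, |∑ l, (W l * (∑ γ, (a l γ : ℝ) ^ (k - 1 - (i : ℕ))) +
        ∑ x, (ω l x * (b l x : ℝ) ^ (k - 1 - (i : ℕ)) -
          ω' l x * (b' l x : ℝ) ^ (k - 1 - (i : ℕ))))| ≤ Q ^ (k - 1)) →
    b = b' ∧ (∀ l x, ω l x - ω' l x = W l) ∧
      ∀ l, |W l| ≤ C * (Q ^ (k - 1) / (Q ^ (k - 1)) ^ p.m1) := by
  have hk := p.hk
  have hk1 : k - 1 + 1 = k := by omega
  have hJk := p.hJk
  have hu : 1 ≤ p.u := by
    rcases Nat.eq_zero_or_pos p.u with h | h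
    · exfalso
      have h1 := p.hn
      rw [h, Nat.cast_zero] at h1
      have h2 : (1 : ℝ) / (k : ℝ) ≤ 1 := by
        rw [div_le_one (by exact_mod_cast (show 0 < k by omega))]
        exact_mod_cast (show 1 ≤ k by omega)
      have h3 : 0 ≤ (k : ℝ) * (1 - 1 / (k : ℝ)) ^ p.n2 :=
        mul_nonneg (Nat.cast_nonneg _) (pow_nonneg (by linarith) _)
      linarith
    · exact h
  have hJ := p.hJ
  have e1 : lg (gp k p.M) p.J = 4 * (p.J + gp k p.M) := lg_pos hJ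
  exact Decode_main (g := gp k p.M) Γ0 Γ1 (by omega) p.hq p.hM hJ hu (by rw [e1]; omega)
    (by rw [hk1]; exact p.c1) (by rw [hk1]; exact p.c1') (by rw [hk1]; exact p.c2)
    (by rw [e1]; exact p.c3)
    (by rw [hk1]; exact p.c4) (by rw [hk1]; exact p.c5) p.c6 (by rw [hk1]; exact p.c7) hc0 hc1

end UWar
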