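import Pool.Agent.UWar.Decode
import Pool.Agent.UWar.DecodeF
import Pool.Agent.UWar.Basic

/-!
# UWar.DecApp: decoding for the families

PROOF. `decode` and `decodeF` without other letters (`Γ = Fin 0`). Compare `Pool/Agent/LWar/DecAppF.lean`.
-/

namespace UWar

open Filter Topology MWg HWar IWar

private theorem DecApp_up {P Q : ℝ} {N : ℕ} (hQ : 1 ≤ Q) (hP : Q ^ N = P) (hP64 : 64 ≤ P)
    {w : ℝ} (hw : |w| ≤ 1 / 2 + P ^ ((4 : ℝ) / 3)) : |w| ≤ Q ^ ((3 * N + 1) / 2) := by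
  have hP0 : 0 < P := by linarith
  have hQ0 : 0 < Q := by linarith
  have h1 : (1 : ℝ) ≤ P ^ ((4 : ℝ) / 3) := Real.one_le_rpow (by linarith) (by norm_num)
  have h2 : (2 : ℝ) ≤ P ^ ((1 : ℝ) / 6) := by
    calc (2 : ℝ) = (64 : ℝ) ^ ((1 : ℝ) / 6) := by
          rw [show (64 : ℝ) = 2 ^ (6 : ℝ) by norm_num, ← Real.rpow_mul (by norm_num)]
          norm_num
      _ ≤ P ^ ((1 : ℝ) / 6) := Real.rpow_le_rpow (by norm_num) hP64 (by norm_num)
  have h3 : P ^ ((3 : ℝ) / 2) = P ^ ((4 : ℝ) / 3) * P ^ ((1 : ℝ) / 6) := by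
    rw [← Real.rpow_add hP0]
    norm_num
  have h4 : |w| ≤ P ^ ((3 : ℝ) / 2) := by
    rw [h3]
    nlinarith
  refine h4.trans ?_
  rw [← hP, ← Real.rpow_natCast Q N, ← Real.rpow_mul hQ0.le, ← Real.rpow_natCast Q ((3 * N + 1) / 2)]
  apply Real.rpow_le_rpow_of_exponent_le hQ
  have h5 : 3 * N ≤ 2 * ((3 * N + 1) / 2) := by omega
  have h6 : (3 : ℝ) * N ≤ 2 * (((3 * N + 1) / 2 : ℕ) : ℝ) := by exact_mod_cast h5
  linarith

private theorem DecApp_wt {P Q : ℝ} {N : ℕ} (hQ : 1 ≤ Q) (hP : Q ^ N = P) (hP64 : 64 ≤ P)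
    {τ : ℝ} {m : ℤ} {D : ℕ} (hD : (D : ℝ) ≤ P ^ ((4 : ℝ) / 3)) (hτ : P⁻¹ < |τ|)
    (hτ2 : |τ| ≤ 1 / 2) (hm : |m| ≤ (D : ℤ)) :
    (Q ^ N)⁻¹ ≤ |τ + m| ∧ |τ + m| ≤ Q ^ ((3 * N + 1) / 2) := by
  constructor
  · rw [hP]
    rcases eq_or_ne m 0 with h0 | h0
    · subst h0
      rw [Int.cast_zero, add_zero]
      exact hτ.le
    · have h1 : (1 : ℝ) ≤ |(m : ℝ)| := by
        have : (1 : ℤ) ≤ |m| := Int.one_le_abs h0
        exact_mod_cast this
      have h2 : |(m : ℝ)| - |τ| ≤ |τ + m| := by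
        have h3 := abs_sub_abs_le_abs_sub (m : ℝ) (-τ)
        rw [abs_neg, sub_neg_eq_add, add_comm] at h3
        exact h3
      have h3 : P⁻¹ ≤ 64⁻¹ := inv_anti₀ (by norm_num) hP64
      norm_num at h3
      linarith
  · apply DecApp_up hQ hP hP64
    have h1 : |(m : ℝ)| ≤ D := by exact_mod_cast hm
    have h2 := abs_add_le τ (m : ℝ)
    linarith

/-- The power sum relation determines the letters, the modes and nearly the frequencies: the sets of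
frequencies `S` and the bounds `D` for the modes. -/
def DecX {k d : ℕ} (p : ParX k d) (S : Fin p.q → ℕ → Set ℝ) (D : ℕ → ℕ) (C : ℝ) : Prop :=
  ∀ᶠ r : ℕ in atTop, ∀ φ : Fin p.q → ℕ, Function.Injective φ → (∀ l, φ l < p.L) →
    ∀ b b' : Fin p.q → (Fin p.J × Fin p.M → ℕ), (∀ l, b l ∈ BU p (φ l) r) →
    (∀ l, b' l ∈ BU p (φ l) r) →
    ∀ m m' : Fin p.q → (Fin p.J × Fin p.M → ℤ), (∀ l x, |m l x| ≤ (D r : ℤ)) →
    (∀ l x, |m' l x| ≤ (D r : ℤ)) →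
    ∀ τ τ' : Fin p.q → ℝ, (∀ l, τ l ∈ S l r) → (∀ l, τ' l ∈ S l r) →
    (∀ i : Fin d, |∑ l, ((∑ x, (τ l + m l x) * (b l x : ℝ) ^ (k - 1 - (i : ℕ))) -
          ∑ x, (τ' l + m' l x) * (b' l x : ℝ) ^ (k - 1 - (i : ℕ)))| ≤ XX r) →
    b = b' ∧ m = m' ∧ ∀ l, |τ l - τ' l| ≤ C * (XX r / (XX r) ^ p.m1)

private theorem DecApp_bulk {k d : ℕ} (p : ParX k d) {r : ℕ} {φ : Fin p.q → ℕ}
    (bb : Fin p.q → (Fin p.J × Fin p.M → ℕ)) (hbb : ∀ l, bb l ∈ BU p (φ l) r) (l : Fin p.q)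
    (x : Fin p.J × Fin p.M) :
    KWar.be p.M (φ l) x.2 * KWar.QQ k r ^ (k - 1 - KWar.lv k p.M (x.1 : ℕ)) < (bb l x : ℝ) ∧
      (bb l x : ℝ) ≤
        2 * (KWar.be p.M (φ l) x.2 * KWar.QQ k r ^ (k - 1 - KWar.lv k p.M (x.1 : ℕ))) := by
  have h1 := hbb l
  unfold BU KWar.Bk at h1
  exact KWar.mem_blk (Fintype.mem_piFinset.1 h1 x)

theorem dec_real {k d : ℕ} (p : ParX k d) {h : ℕ} (hh : h ≤ p.u) :
    ∃ C : ℝ, 0 < C ∧ DecX p (fun _ r => TT r h) (fun _ => 0) C := by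
  classical
  have hk5 := p.hk
  have hk2 : 2 ≤ k := by omega
  obtain ⟨δ, hδ, C, Q0, hC, hQ0, hdec⟩ := decode p (Γ := Fin 0) ∅ ∅ (by simp) (by simp)
  refine ⟨C, hC, ?_⟩
  filter_upwards [(KWar.QQ_tendsto hk2).eventually_ge_atTop Q0] with r hQr
  intro φ hφ hφL b b' hb hb' m m' hm hm' τ τ' hτ hτ' hrel
  have hX := KWar.QQ_pow hk2 r
  have hm0 : ∀ l x, m l x = 0 := fun l x => by
    have := hm l x
    simp only [Nat.cast_zero] at this
    exact abs_nonpos_iff.1 this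
  have hm0' : ∀ l x, m' l x = 0 := fun l x => by
    have := hm' l x
    simp only [Nat.cast_zero] at this
    exact abs_nonpos_iff.1 this
  have res := hdec (KWar.QQ k r) hQr φ hφ hφL (fun _ _ => 0) b b' (fun l γ => γ.elim0)
    (fun l γ hγ => γ.elim0) (fun l γ hγ => γ.elim0) (fun l γ hγ => γ.elim0)
    (fun l γ hγ => γ.elim0) (fun l γ hγ => γ.elim0)
    (DecApp_bulk p b hb) (DecApp_bulk p b' hb') h hh τ τ' ?_ ?_ ?_
  · rw [hX] at res
    refine ⟨res.1, ?_, res.2⟩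
    funext l x
    rw [hm0, hm0']
  · intro l
    have := hτ l
    unfold TT at this
    rw [hX]
    exact ⟨this.1.le, this.2⟩
  · intro l
    have := hτ' l
    unfold TT at this
    rw [hX]
    exact ⟨this.1.le, this.2⟩
  · intro i
    rw [hX]
    refine le_trans (le_of_eq ?_) (hrel i)
    congr 1
    apply Finset.sum_congr rfl
    intro l _
    simp only [hm0, hm0', Int.cast_zero, add_zero, Finset.univ_eq_empty, Finset.sum_empty,
      zero_add, Finset.mul_sum]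

/-- The pieces of `TH r`. -/
def TP (r : ℕ) (i : Fin 9) : Set ℝ := TH r ∩ {θ | ⌊8 * θ⌋ = ((i : ℕ) : ℤ) - 4}

theorem TP_diff {r : ℕ} {i : Fin 9} {τ τ' : ℝ} (h : τ ∈ TP r i)
    (h' : τ' ∈ TP r i) : |τ - τ'| ≤ 1 / 4 := by
  have h1 : ⌊8 * τ⌋ = ⌊8 * τ'⌋ := h.2.trans h'.2.symm
  have h2 := Int.abs_sub_lt_one_of_floor_eq_floor h1
  rw [← mul_sub, abs_mul, abs_of_nonneg (by norm_num : (0 : ℝ) ≤ 8)] at h2
  linarith

theorem dec_floor {k d : ℕ} (p : ParX k d) (ι : Fin p.q → Fin 9) :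
    ∃ C : ℝ, 0 < C ∧ DecX p (fun l r => TP r (ι l)) (fun r => DD r) C := by
  classical
  have hk5 := p.hk
  have hk2 : 2 ≤ k := by omega
  obtain ⟨δ, hδ, C, Q0, hC, hQ0, hdec⟩ := decodeF p (Γ := Fin 0) ∅ ∅ (by simp) (by simp)
  refine ⟨C, hC, ?_⟩
  filter_upwards [(KWar.QQ_tendsto hk2).eventually_ge_atTop Q0,
    Filter.eventually_ge_atTop 6] with r hQr hr6
  intro φ hφ hφL b b' hb hb' m m' hm hm' τ τ' hτ hτ' hrel
  have hX := KWar.QQ_pow hk2 r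
  have hQ1 : 1 ≤ KWar.QQ k r := KWar.QQ_one_le (by omega) r
  have hXpos : 0 < XX r := by unfold XX; positivity
  have hX64 : (64 : ℝ) ≤ XX r := by
    unfold XX
    calc (64 : ℝ) = 2 ^ 6 := by norm_num
      _ ≤ 2 ^ r := pow_le_pow_right₀ (by norm_num) hr6
  have hDD : ((DD r : ℕ) : ℝ) ≤ (XX r) ^ ((4 : ℝ) / 3) := by
    unfold DD
    exact Nat.floor_le (Real.rpow_nonneg hXpos.le _)
  have res := hdec (KWar.QQ k r) hQr φ hφ hφL (fun _ _ => 0) b b' (fun l γ => γ.elim0)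
    (fun l γ hγ => γ.elim0) (fun l γ hγ => γ.elim0) (fun l γ hγ => γ.elim0)
    (fun l γ hγ => γ.elim0) (fun l γ hγ => γ.elim0)
    (DecApp_bulk p b hb) (DecApp_bulk p b' hb') (fun l => τ l - τ' l) (fun l x => τ l + m l x)
    (fun l x => τ' l + m' l x) (fun l => TP_diff (hτ l) (hτ' l)) ?_ ?_ ?_ ?_
  · obtain ⟨r1, r2, r3⟩ := res
    rw [hX] at r3
    refine ⟨r1, ?_, r3⟩
    funext l x
    have h1 := r2 l x
    have h2 : (m l x : ℝ) = (m' l x : ℝ) := by linarith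
    exact_mod_cast h2
  · -- 8
    intro l x
    refine ⟨m l x - m' l x, ?_⟩
    push_cast
    ring
  · intro l x
    have h1 := (hτ l).1
    unfold TH at h1
    exact DecApp_wt hQ1 hX hX64 hDD h1.1 h1.2 (hm l x)
  · intro l x
    have h1 := (hτ' l).1
    unfold TH at h1
    exact DecApp_wt hQ1 hX hX64 hDD h1.1 h1.2 (hm' l x)
  · intro i
    rw [hX]
    refine le_trans (le_of_eq ?_) (hrel i)
    congr 1
    apply Finset.sum_congr rfl
    intro l _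
    simp only [Finset.univ_eq_empty, Finset.sum_empty, mul_zero, zero_add,
      Finset.sum_sub_distrib]

end UWar
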