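import Pool.Agent.UWar.Defs
import Pool.Agent.KWar.WBd
import Pool.Agent.KWar.DecTop
import Pool.Agent.KWar.DecLow

/-!
# KWar.Decode: the relation between the power sums forces equality of the bulk letters

Notation: `N = k - 1`, `P = Q ^ N`, `J M L n u q m0 m1 j0` the parameters of `p`,
`β0 = be M L 0 = 4^(-(4 + L M))`; `be M (φ l) i ≥ β0` (as `φ l M + i ≤ L M` for `φ l < L`, `i < M`)
and `be M (φ l) i ≤ 1/256`. Every bulk letter of level `j` is in `[β0 Q^(N-4j), Q^(N-4j)/128]`. For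
`(l, i) ≠ (l', i')` (`φ` injective, `i, i' < M`) the numbers `φ l M + i`, `φ l' M + i'` are different, so
the factors `be` differ by a factor `≥ 4` and bulk letters `x`, `y` of the SAME level with different
`(l, i)`, `(l', i')` have ratio `≥ 2`: `|x - y| ≥ y/2 ≥ y/4`. For different levels `j < j'` the ratio is
`≥ β0 Q^4/..` (`x ≥ β0 Q^(N-4j)`, `y ≤ Q^(N-4j')/128`, `Q` large), so `|x - y| ≥ max(x,y)/2`.
`D = (P^h)⁻¹`, `|τ|, |τ'| ∈ [D, D P]`, `E = P`, `G = Fintype.card Γ`.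

STEP 1: `dec_top` with `m = m0`, `x0 = β0 Q^(N-4(j0-1))`, `ζ = Q^(N-4j0)`, `Γ1`.
`hcard`: `c2` and `hc1`. `hnum`: `D x0^(m0-1) = β0^(m0-1) Q^(-Nh + (N-4j0+4)(m0-1))`;
(a) `-Nh + (N-4j0+4)(m0-1) ≥ N + 1`: by `c3` (`N (u+1) + 1 ≤ (N-4J)(m0-1)`, `h ≤ u`, `j0 ≤ J`);
(b) `(N-4j0+4)(m0-1) ≥ N + (N-4j0) m0 + 1`, i.e. `4 m0 + 4 j0 ≥ 2N + 5`: by `c4` and `j0 ≥ 1`.
So `D x0^(m0-1) ≥ β0^(m0-1) Q · max(P, D P ζ^m0)`, larger than the left side for `Q` large.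
STEP 2: for `j = j0, ..., J` (strong induction) the letters of the levels `< j` agree, and
`|W l| ≤ C1 (P · P^(-m1) + D P · Q^(-4 j m1))` (`wbd` with `m = m1`, `D' = D P`,
`ζ = Q^(N-4j)` if `j < J`, `ζ = 0` if `j = J` (`hbζ` is void there), `β0`, `Γ0`, `δ` so small that
`hsmall` holds and `δ ≤ β0`; `hcard`: `c7`, `hc0`; letters of levels `≥ 1` are
`≤ Q^(N-4) ≤ δ P` for `Q` large; `(ζ/P)^m1 = Q^(-4 j m1)`; `ζ ≤ β0 P` as `j ≥ 1`).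
If `j < J` apply `dec_low` with `m = m0`, `x0 = β0 Q^(N-4j)`, `ζ = Q^(N-4j-4)` (`4(j+1) ≤ 4J ≤ N`),
`R = 16 P`, `Wm = ` the bound above. `hnum1`: exponents as in (a), (b):
`(N-4j)(m0-1) ≥ N + (N-4j-4) m0 + 1` iff `4 m0 + 4 j ≥ 2N + 1`. `hnum2`, with `nn = 2qM - 1`:
`R^(m0+nn) = 16^.. P^(m0+nn)`, and `D x0^(m0+nn-1) = D β0^.. Q^((N-4j)(m0+nn-1))`.
(c) `P · P^(-m1) P^(m0+nn) Q ≤ D Q^((N-4j)(m0+nn-1))` iff
`N(1 - m1 + m0 + nn) + 1 ≤ -Nh + (N-4j)(m0+nn-1)` iff `N (h + 2) + 4j (m0+nn-1) + 1 ≤ N m1`: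
by `c6` (`m0 + nn - 1 ≤ m0 + 2qM`).
(d) `D P Q^(-4 j m1) P^(m0+nn) Q ≤ D Q^((N-4j)(m0+nn-1))` iff
`N - 4 j m1 + N(m0+nn) + 1 ≤ (N-4j)(m0+nn-1)` iff `2N + 1 + 4 j (m0 + nn - 1) ≤ 4 j m1`, i.e.
`4 j (m1 + 2 - m0 - 2 q M) ≥ 2N + 1`: by `c5` (which says this for `j0`; then
`m1 + 2 - m0 - 2qM > 0`, so it holds for all `j ≥ j0`).
So all bulk letters agree, and the bound for `j = J` (with `ζ = 0`) is
`|W l| ≤ C1 P/P^m1`. (`m1 ≥ 1` follows from `c6`.)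
The relation `hrel` of the lemmas for `m' ∈ [m0, N]` or `[m1, N]` is the hypothesis for
`i = k - 1 - m'`, `i < d` by `c1`, `c1'` (`k ≤ m0 + d`), after `Finset.sum_congr`/`ring`.
-/

namespace UWar

open Finset MWg KWar

private theorem Decode_be_pos (M l i : ℕ) : 0 < be M l i := by
  unfold be
  positivity

private theorem Decode_be_le (M l i : ℕ) : be M l i ≤ 1 / 256 := by
  unfold be
  calc (1 / 4 : ℝ) ^ (4 + l * M + i) ≤ (1 / 4 : ℝ) ^ 4 :=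
        pow_le_pow_of_le_one (by norm_num) (by norm_num) (by omega)
    _ = 1 / 256 := by norm_num

private theorem Decode_be_ge {M L l i : ℕ} (hl : l < L) (hi : i < M) :
    be M L 0 ≤ be M l i := by
  unfold be
  refine pow_le_pow_of_le_one (by norm_num) (by norm_num) ?_
  have := Nat.mul_le_mul_right M (show l + 1 ≤ L from hl)
  rw [Nat.add_mul, Nat.one_mul] at this
  omega

private theorem Decode_be_ratio {M l i l' i' : ℕ} (h : l * M + i < l' * M + i') :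
    4 * be M l' i' ≤ be M l i := by
  unfold be
  calc 4 * (1 / 4 : ℝ) ^ (4 + l' * M + i') ≤ 4 * (1 / 4 : ℝ) ^ (4 + l * M + i + 1) := by
        refine mul_le_mul_of_nonneg_left ?_ (by norm_num)
        exact pow_le_pow_of_le_one (by norm_num) (by norm_num) (by omega)
    _ = (1 / 4 : ℝ) ^ (4 + l * M + i) := by rw [pow_succ]; ring

private theorem Decode_ne {M l i l' i' : ℕ} (hi : i < M) (hi' : i' < M) (h : ¬(l = l' ∧ i = i')) :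
    l * M + i < l' * M + i' ∨ l' * M + i' < l * M + i := by
  rcases lt_trichotomy l l' with h1 | h1 | h1
  · left
    have := Nat.mul_le_mul_right M (show l + 1 ≤ l' from h1)
    rw [Nat.add_mul, Nat.one_mul] at this
    omega
  · subst h1
    have : i ≠ i' := fun h2 => h ⟨rfl, h2⟩
    omega
  · right
    have := Nat.mul_le_mul_right M (show l' + 1 ≤ l from h1)
    rw [Nat.add_mul, Nat.one_mul] at this
    omega

private theorem Decode_lev {g N J j j' : ℕ} {Q : ℝ} (hQ : 1 ≤ Q) (hJN : lg g J ≤ N) (hjj : j < j')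
    (hj' : j' ≤ J) : Q ^ 4 * Q ^ (N - lg g j') ≤ Q ^ (N - lg g j) := by
  have e1 := lg_lt (g := g) hjj
  have e2 := lg_mono (g := g) hj'
  rw [← pow_add]
  exact pow_le_pow_right₀ hQ (by omega)

private theorem Decode_lb {g M L N l i j : ℕ} {Q X : ℝ} (hQ : 1 ≤ Q) (hl : l < L) (hi : i < M)
    (h1 : be M l i * Q ^ (N - lg g j) < X) : be M L 0 * Q ^ (N - lg g j) ≤ X := by
  refine le_trans ?_ h1.le
  exact mul_le_mul_of_nonneg_right (Decode_be_ge hl hi) (by positivity)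

private theorem Decode_ub {g M N l i j : ℕ} {Q X : ℝ} (hQ : 1 ≤ Q)
    (h1 : X ≤ 2 * (be M l i * Q ^ (N - lg g j))) : X ≤ Q ^ (N - lg g j) / 128 := by
  have h2 := Decode_be_le M l i
  have h3 : 0 < Q ^ (N - lg g j) := by positivity
  nlinarith

private theorem Decode_sep {g M L q J N : ℕ} {Q : ℝ} (hQ : 1 ≤ Q) (hβQ : 1 ≤ be M L 0 * Q ^ 4)
    (φ : Fin q → ℕ) (hφ : Function.Injective φ) (hφL : ∀ l, φ l < L) (hJN : lg g J ≤ N)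
    (l l' : Fin q) (x x' : Fin J × Fin M) (hne : (l, x) ≠ (l', x')) (X X' : ℝ)
    (h1 : be M (φ l) x.2 * Q ^ (N - lg g (x.1 : ℕ)) < X)
    (h1' : X ≤ 2 * (be M (φ l) x.2 * Q ^ (N - lg g (x.1 : ℕ))))
    (h2 : be M (φ l') x'.2 * Q ^ (N - lg g (x'.1 : ℕ)) < X')
    (h2' : X' ≤ 2 * (be M (φ l') x'.2 * Q ^ (N - lg g (x'.1 : ℕ)))) :
    X' / 4 ≤ |X - X'| := by
  have a1 := Decode_lb hQ (hφL l) x.2.2 h1
  have a2 := Decode_ub hQ h1'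
  have a3 := Decode_lb hQ (hφL l') x'.2.2 h2
  have a4 := Decode_ub hQ h2'
  have hβ := Decode_be_pos M L 0
  have hz : 0 < Q ^ (N - lg g (x.1 : ℕ)) := by positivity
  have hz' : 0 < Q ^ (N - lg g (x'.1 : ℕ)) := by positivity
  have hX : 0 < X := lt_of_lt_of_le (by positivity) a1
  have hX' : 0 < X' := lt_of_lt_of_le (by positivity) a3
  rcases lt_trichotomy (x.1 : ℕ) (x'.1 : ℕ) with h | h | h
  · have h3 := Decode_lev hQ hJN h x'.1.2.le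
    have h4 : Q ^ (N - lg g (x'.1 : ℕ)) ≤ X := by
      calc Q ^ (N - lg g (x'.1 : ℕ)) = 1 * Q ^ (N - lg g (x'.1 : ℕ)) := (one_mul _).symm
        _ ≤ (be M L 0 * Q ^ 4) * Q ^ (N - lg g (x'.1 : ℕ)) :=
            mul_le_mul_of_nonneg_right hβQ hz'.le
        _ = be M L 0 * (Q ^ 4 * Q ^ (N - lg g (x'.1 : ℕ))) := by ring
        _ ≤ be M L 0 * Q ^ (N - lg g (x.1 : ℕ)) := mul_le_mul_of_nonneg_left h3 hβ.le
        _ ≤ X := a1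
    refine le_trans ?_ (le_abs_self _)
    linarith
  · have hne2 : ¬(φ l = φ l' ∧ (x.2 : ℕ) = (x'.2 : ℕ)) := by
      rintro ⟨h3, h4⟩
      apply hne
      rw [hφ h3, Prod.ext (Fin.ext h) (Fin.ext h4)]
    rw [h] at h1 h1' hz
    rcases Decode_ne x.2.2 x'.2.2 hne2 with h3 | h3
    · have h4 := Decode_be_ratio h3
      have h5 : 2 * X' ≤ X := by nlinarith
      refine le_trans ?_ (le_abs_self _)
      linarith
    · have h4 := Decode_be_ratio h3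
      have h5 : 2 * X ≤ X' := by nlinarith
      refine le_trans ?_ (neg_le_abs _)
      linarith
  · have h3 := Decode_lev hQ hJN h x.1.2.le
    have h4 : Q ^ (N - lg g (x.1 : ℕ)) ≤ X' := by
      calc Q ^ (N - lg g (x.1 : ℕ)) = 1 * Q ^ (N - lg g (x.1 : ℕ)) := (one_mul _).symm
        _ ≤ (be M L 0 * Q ^ 4) * Q ^ (N - lg g (x.1 : ℕ)) :=
            mul_le_mul_of_nonneg_right hβQ hz.le
        _ = be M L 0 * (Q ^ 4 * Q ^ (N - lg g (x.1 : ℕ))) := by ring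
        _ ≤ be M L 0 * Q ^ (N - lg g (x'.1 : ℕ)) := mul_le_mul_of_nonneg_left h3 hβ.le
        _ ≤ X' := a3
    refine le_trans ?_ (neg_le_abs _)
    linarith

private theorem Decode_numA {Q β c K : ℝ} {N h m e f : ℕ} (hQ : 1 ≤ Q)
    (hc : 0 ≤ c) (hK : 0 ≤ K)
    (ha : 1 + N * (1 + h) ≤ e * (m - 1)) (hb : 1 + N + f * m ≤ e * (m - 1))
    (hbig : c * (1 + K) < β ^ (m - 1) * Q) :
    c * (Q ^ N + K * (((Q ^ N) ^ h)⁻¹ * Q ^ N) * (Q ^ f) ^ m) <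
      ((Q ^ N) ^ h)⁻¹ * (β * Q ^ e) ^ (m - 1) := by
  have hQ0 : 0 < Q := by linarith
  have hD : 0 < ((Q ^ N) ^ h)⁻¹ := by positivity
  have h1 : Q ^ N * Q ≤ ((Q ^ N) ^ h)⁻¹ * Q ^ (e * (m - 1)) := by
    rw [inv_mul_eq_div, le_div_iff₀ (by positivity), ← pow_succ, ← pow_mul, ← pow_add]
    refine pow_le_pow_right₀ hQ ?_
    calc N + 1 + N * h = 1 + N * (1 + h) := by ring
      _ ≤ _ := ha
  have h2 : (((Q ^ N) ^ h)⁻¹ * Q ^ N) * (Q ^ f) ^ m * Q ≤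
      ((Q ^ N) ^ h)⁻¹ * Q ^ (e * (m - 1)) := by
    have h3 : Q ^ N * (Q ^ f) ^ m * Q ≤ Q ^ (e * (m - 1)) := by
      rw [← pow_mul, ← pow_add, ← pow_succ]
      refine pow_le_pow_right₀ hQ ?_
      calc N + f * m + 1 = 1 + N + f * m := by ring
        _ ≤ _ := hb
    calc (((Q ^ N) ^ h)⁻¹ * Q ^ N) * (Q ^ f) ^ m * Q =
          ((Q ^ N) ^ h)⁻¹ * (Q ^ N * (Q ^ f) ^ m * Q) := by ring
      _ ≤ _ := mul_le_mul_of_nonneg_left h3 hD.le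
  have h4 : 0 < ((Q ^ N) ^ h)⁻¹ * Q ^ (e * (m - 1)) := by positivity
  have h5 : c * (Q ^ N + K * (((Q ^ N) ^ h)⁻¹ * Q ^ N) * (Q ^ f) ^ m) * Q <
      ((Q ^ N) ^ h)⁻¹ * (β * Q ^ e) ^ (m - 1) * Q := by
    calc c * (Q ^ N + K * (((Q ^ N) ^ h)⁻¹ * Q ^ N) * (Q ^ f) ^ m) * Q =
          c * (Q ^ N * Q + K * ((((Q ^ N) ^ h)⁻¹ * Q ^ N) * (Q ^ f) ^ m * Q)) := by ring
      _ ≤ c * (((Q ^ N) ^ h)⁻¹ * Q ^ (e * (m - 1)) +
          K * (((Q ^ N) ^ h)⁻¹ * Q ^ (e * (m - 1)))) := by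
          refine mul_le_mul_of_nonneg_left ?_ hc
          exact add_le_add h1 (mul_le_mul_of_nonneg_left h2 hK)
      _ = c * (1 + K) * (((Q ^ N) ^ h)⁻¹ * Q ^ (e * (m - 1))) := by ring
      _ < β ^ (m - 1) * Q * (((Q ^ N) ^ h)⁻¹ * Q ^ (e * (m - 1))) :=
          mul_lt_mul_of_pos_right hbig h4
      _ = ((Q ^ N) ^ h)⁻¹ * (β * Q ^ e) ^ (m - 1) * Q := by
          rw [mul_pow, pow_mul]
          ring
  exact lt_of_mul_lt_mul_right h5 hQ0.le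

private theorem Decode_numB {Q β c K4 C0 K3 : ℝ} {N h m1 e s : ℕ} (hQ : 1 ≤ Q)
    (hc : 0 ≤ c) (hK4 : 0 ≤ K4) (hC0 : 0 ≤ C0) (hK3 : 0 ≤ K3)
    (h1 : 1 + N + N * (s + 1) + N * h ≤ N * m1 + e * s)
    (h2 : N + e * m1 + N * (s + 1) + 1 ≤ e * s + N * m1)
    (hbig : c * K4 * C0 * (1 + K3) * 16 ^ (s + 1) < β ^ s * Q) :
    c * (K4 * (C0 * (Q ^ N / (Q ^ N) ^ m1 +
      K3 * (((Q ^ N) ^ h)⁻¹ * Q ^ N) * (Q ^ e / Q ^ N) ^ m1))) * (16 * Q ^ N) ^ (s + 1) <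
      ((Q ^ N) ^ h)⁻¹ * (β * Q ^ e) ^ s := by
  have hQ0 : 0 < Q := by linarith
  have hD : 0 < ((Q ^ N) ^ h)⁻¹ := by positivity
  have a1 : Q ^ N / (Q ^ N) ^ m1 * (Q ^ N) ^ (s + 1) * Q ≤ ((Q ^ N) ^ h)⁻¹ * Q ^ (e * s) := by
    rw [inv_mul_eq_div, le_div_iff₀ (by positivity)]
    rw [show Q ^ N / (Q ^ N) ^ m1 * (Q ^ N) ^ (s + 1) * Q * (Q ^ N) ^ h =
      Q ^ N * (Q ^ N) ^ (s + 1) * Q * (Q ^ N) ^ h / (Q ^ N) ^ m1 by ring]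
    rw [div_le_iff₀ (by positivity), ← pow_mul, ← pow_mul, ← pow_mul, ← pow_add, ← pow_succ,
      ← pow_add, ← pow_add]
    refine pow_le_pow_right₀ hQ ?_
    calc N + N * (s + 1) + 1 + N * h = 1 + N + N * (s + 1) + N * h := by ring
      _ ≤ N * m1 + e * s := h1
      _ = e * s + N * m1 := by ring
  have a2 : (((Q ^ N) ^ h)⁻¹ * Q ^ N) * (Q ^ e / Q ^ N) ^ m1 * (Q ^ N) ^ (s + 1) * Q ≤
      ((Q ^ N) ^ h)⁻¹ * Q ^ (e * s) := by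
    have a3 : Q ^ N * (Q ^ e / Q ^ N) ^ m1 * (Q ^ N) ^ (s + 1) * Q ≤ Q ^ (e * s) := by
      rw [div_pow]
      rw [show Q ^ N * ((Q ^ e) ^ m1 / (Q ^ N) ^ m1) * (Q ^ N) ^ (s + 1) * Q =
        Q ^ N * (Q ^ e) ^ m1 * (Q ^ N) ^ (s + 1) * Q / (Q ^ N) ^ m1 by ring]
      rw [div_le_iff₀ (by positivity), ← pow_mul, ← pow_mul, ← pow_mul, ← pow_add, ← pow_add,
        ← pow_succ, ← pow_add]
      exact pow_le_pow_right₀ hQ h2
    calc (((Q ^ N) ^ h)⁻¹ * Q ^ N) * (Q ^ e / Q ^ N) ^ m1 * (Q ^ N) ^ (s + 1) * Q =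
          ((Q ^ N) ^ h)⁻¹ * (Q ^ N * (Q ^ e / Q ^ N) ^ m1 * (Q ^ N) ^ (s + 1) * Q) := by ring
      _ ≤ _ := mul_le_mul_of_nonneg_left a3 hD.le
  have h4 : 0 < ((Q ^ N) ^ h)⁻¹ * Q ^ (e * s) := by positivity
  have h5 : c * (K4 * (C0 * (Q ^ N / (Q ^ N) ^ m1 +
      K3 * (((Q ^ N) ^ h)⁻¹ * Q ^ N) * (Q ^ e / Q ^ N) ^ m1))) * (16 * Q ^ N) ^ (s + 1) * Q <
      ((Q ^ N) ^ h)⁻¹ * (β * Q ^ e) ^ s * Q := by
    calc c * (K4 * (C0 * (Q ^ N / (Q ^ N) ^ m1 +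
      K3 * (((Q ^ N) ^ h)⁻¹ * Q ^ N) * (Q ^ e / Q ^ N) ^ m1))) * (16 * Q ^ N) ^ (s + 1) * Q =
          (c * K4 * C0 * 16 ^ (s + 1)) * (Q ^ N / (Q ^ N) ^ m1 * (Q ^ N) ^ (s + 1) * Q +
          K3 * ((((Q ^ N) ^ h)⁻¹ * Q ^ N) * (Q ^ e / Q ^ N) ^ m1 * (Q ^ N) ^ (s + 1) * Q)) := by
          rw [mul_pow]
          ring
      _ ≤ (c * K4 * C0 * 16 ^ (s + 1)) * (((Q ^ N) ^ h)⁻¹ * Q ^ (e * s) +
          K3 * (((Q ^ N) ^ h)⁻¹ * Q ^ (e * s))) := by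
          refine mul_le_mul_of_nonneg_left ?_ (by positivity)
          exact add_le_add a1 (mul_le_mul_of_nonneg_left a2 hK3)
      _ = c * K4 * C0 * (1 + K3) * 16 ^ (s + 1) * (((Q ^ N) ^ h)⁻¹ * Q ^ (e * s)) := by ring
      _ < β ^ s * Q * (((Q ^ N) ^ h)⁻¹ * Q ^ (e * s)) := mul_lt_mul_of_pos_right hbig h4
      _ = ((Q ^ N) ^ h)⁻¹ * (β * Q ^ e) ^ s * Q := by
          rw [mul_pow, pow_mul]
          ring
  exact lt_of_mul_lt_mul_right h5 hQ0.le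

private theorem Decode_ar1 {N m1 s h u j J e W : ℕ} (hW : s + 2 = W)
    (c6 : N * (u + 2) + 4 * J * W + 1 ≤ N * m1) (hjJ : j ≤ J) (hh : h ≤ u)
    (hNe : N = e + 4 * j) : 1 + N + N * (s + 1) + N * h ≤ N * m1 + e * s := by
  have h1 : 4 * j * W ≤ 4 * J * W := Nat.mul_le_mul_right _ (by omega)
  have h2 : N * (h + 2) ≤ N * (u + 2) := Nat.mul_le_mul_left N (by omega)
  have h4 : N * s = e * s + 4 * j * s := by
    rw [hNe]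
    ring
  have h5 : N * (s + 1) = N * s + N := by ring
  have h6 : N * (h + 2) = N * h + 2 * N := by ring
  have h7 : 4 * j * W = 4 * j * s + 8 * j := by
    rw [← hW]
    ring
  omega

private theorem Decode_ar2 {N m1 s j j0 e W : ℕ} (hW : s + 2 = W)
    (c5 : 4 * j0 * W + 2 * (N + 1) ≤ 4 * j0 * (m1 + 2) + 1) (hj : j0 ≤ j)
    (hNe : N = e + 4 * j) : N + e * m1 + N * (s + 1) + 1 ≤ e * s + N * m1 := by
  subst hW
  have h2 : s < m1 := by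
    by_contra hlt
    have h3 : 4 * j0 * (m1 + 2) ≤ 4 * j0 * (s + 2) := Nat.mul_le_mul_left _ (by omega)
    omega
  obtain ⟨t, ht⟩ : ∃ t, m1 = s + t := ⟨m1 - s, by omega⟩
  have h3 : 2 * N + 1 ≤ 4 * j0 * t := by
    rw [ht] at c5
    have : 4 * j0 * (s + t + 2) = 4 * j0 * (s + 2) + 4 * j0 * t := by ring
    omega
  have h4 : 4 * j0 * t ≤ 4 * j * t := Nat.mul_le_mul_right _ (by omega)
  have h5 : N * m1 = e * m1 + 4 * j * s + 4 * j * t := by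
    rw [hNe, ht]
    ring
  have h6 : N * s = e * s + 4 * j * s := by
    rw [hNe]
    ring
  have h7 : N * (s + 1) = N * s + N := by ring
  omega

private theorem Decode_ar3 {N A B m0 : ℕ} (hm0 : 1 ≤ m0) (h1 : B = A + 4)
    (h2 : 5 + N + A ≤ 4 * m0) : 1 + N + A * m0 ≤ B * (m0 - 1) := by
  obtain ⟨m, hm⟩ : ∃ m, m0 = m + 1 := ⟨m0 - 1, by omega⟩
  subst hm
  rw [h1, Nat.add_sub_cancel]
  calc 1 + N + A * (m + 1) = (1 + N + A) + A * m := by ring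
    _ ≤ 4 * m + A * m := by omega
    _ = (A + 4) * m := by ring

private theorem Decode_main {g q M J L N d u m0 m1 : ℕ} {Γ : Type} [Fintype Γ] [DecidableEq Γ]
    (Γ0 Γ1 : Finset Γ) (hN : 4 ≤ N) (hq : 1 ≤ q) (hM : 1 ≤ M) (hj0J : 1 ≤ J)
    (hJN : lg g J ≤ N) (c1 : N + 1 ≤ m0 + d) (c1' : N + 1 ≤ m1 + d)
    (c2 : m0 + 2 * q * M + 11 * q ≤ N + 1)
    (c3 : N * (u + 1) + 1 ≤ (N - lg g J) * (m0 - 1)) (c4 : 2 * (N + 1) ≤ 4 * m0 + 1)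
    (c5 : 4 * (1 + g) * (m0 + 2 * q * M) + 2 * (N + 1) ≤ 4 * (1 + g) * (m1 + 2) + 1)
    (c6 : N * (u + 2) + 4 * (J + g) * (m0 + 2 * q * M) + 1 ≤ N * m1)
    (c7 : m1 + q * M + 3 * q ≤ N + 1)
    (hc0 : Γ0.card ≤ 3) (hc1 : Γ1.card ≤ 11) :
    ∃ δ : ℝ, 0 < δ ∧ ∃ C Q0 : ℝ, 0 < C ∧ 1 ≤ Q0 ∧ ∀ Q : ℝ, Q0 ≤ Q →
    ∀ φ : Fin q → ℕ, Function.Injective φ → (∀ l, φ l < L) →
    ∀ (a : Fin q → Γ → ℕ) (b b' : Fin q → Fin J × Fin M → ℕ),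
    (∀ l γ, (a l γ : ℝ) ≤ 16 * Q ^ N) →
    (∀ l, ∀ γ ∈ Γ0, Q ^ N / 8 ≤ (a l γ : ℝ)) →
    (∀ l γ, γ ∉ Γ0 → (a l γ : ℝ) ≤ δ * Q ^ N) →
    (∀ l, ∀ γ ∈ Γ1, Q ^ (N - 4) ≤ (a l γ : ℝ)) →
    (∀ l γ, γ ∉ Γ1 → (a l γ : ℝ) ≤ Q ^ (N - 4)) →
    (∀ l, ∀ γ ∈ Γ1, ∀ j < 1, ∀ x : ℝ, be M L 0 * Q ^ (N - lg g j) ≤ x →
      x ≤ Q ^ (N - lg g j) / 128 → (a l γ : ℝ) / 4 ≤ |x - (a l γ : ℝ)|) →
    (∀ l x, be M (φ l) x.2 * Q ^ (N - lg g (x.1 : ℕ)) < (b l x : ℝ) ∧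
      (b l x : ℝ) ≤ 2 * (be M (φ l) x.2 * Q ^ (N - lg g (x.1 : ℕ)))) →
    (∀ l x, be M (φ l) x.2 * Q ^ (N - lg g (x.1 : ℕ)) < (b' l x : ℝ) ∧
      (b' l x : ℝ) ≤ 2 * (be M (φ l) x.2 * Q ^ (N - lg g (x.1 : ℕ)))) →
    ∀ h : ℕ, h ≤ u → ∀ τ τ' : Fin q → ℝ,
    (∀ l, ((Q ^ N) ^ h)⁻¹ ≤ |τ l| ∧ |τ l| ≤ Q ^ N / (Q ^ N) ^ h) →
    (∀ l, ((Q ^ N) ^ h)⁻¹ ≤ |τ' l| ∧ |τ' l| ≤ Q ^ N / (Q ^ N) ^ h) →
    (∀ i : Fin d, |∑ l, (τ l * ((∑ γ, (a l γ : ℝ) ^ (N - (i : ℕ))) +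
        ∑ x, (b l x : ℝ) ^ (N - (i : ℕ))) -
      τ' l * ((∑ γ, (a l γ : ℝ) ^ (N - (i : ℕ))) +
        ∑ x, (b' l x : ℝ) ^ (N - (i : ℕ))))| ≤ Q ^ N) →
    b = b' ∧ ∀ l, |τ l - τ' l| ≤ C * (Q ^ N / (Q ^ N) ^ m1) := by
  have hm0 : 1 ≤ m0 := by omega
  have hm1 : 1 ≤ m1 := by
    rcases Nat.eq_zero_or_pos m1 with h | h
    · rw [h, Nat.mul_zero] at c6
      omega
    · exact h
  have hJ1 : 1 ≤ J := hj0J
  have hqM : 1 ≤ q * M := Nat.mul_pos hq hM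
  obtain ⟨β, hβd⟩ : ∃ β : ℝ, β = be M L 0 := ⟨_, rfl⟩
  rw [← hβd]
  have hβ : 0 < β := by rw [hβd]; exact Decode_be_pos M L 0
  have hβ1 : β ≤ 1 / 256 := by rw [hβd]; exact Decode_be_le M L 0
  obtain ⟨K, hKd⟩ : ∃ K : ℝ, K = 2 * 8 ^ (q * M + q * Γ0.card) *
    ((q * (Fintype.card Γ + J * M) : ℕ) : ℝ) := ⟨_, rfl⟩
  have hK : 0 ≤ K := by rw [hKd]; positivity
  obtain ⟨C0, hC0d⟩ : ∃ C0 : ℝ, C0 = 2 * 8 ^ (q * M + q * Γ0.card) / β ^ m1 := ⟨_, rfl⟩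
  have hC0 : 0 < C0 := by rw [hC0d]; positivity
  obtain ⟨cA, hcAd⟩ : ∃ cA : ℝ, cA = 2 * 8 ^ (2 * q * M * 1 + q * Γ1.card) := ⟨_, rfl⟩
  have hcA : 0 < cA := by rw [hcAd]; positivity
  obtain ⟨K2, hK2d⟩ : ∃ K2 : ℝ, K2 = ((2 * q * (Fintype.card Γ + J * M) : ℕ) : ℝ) := ⟨_, rfl⟩
  have hK2 : 0 ≤ K2 := by rw [hK2d]; positivity
  obtain ⟨K3, hK3d⟩ : ∃ K3 : ℝ, K3 = ((2 * q * J * M : ℕ) : ℝ) := ⟨_, rfl⟩
  have hK3 : 0 ≤ K3 := by rw [hK3d]; positivity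
  obtain ⟨K4, hK4d⟩ : ∃ K4 : ℝ, K4 = ((q * (Fintype.card Γ + J * M) : ℕ) : ℝ) := ⟨_, rfl⟩
  have hK4 : 0 ≤ K4 := by rw [hK4d]; positivity
  obtain ⟨cB, hcBd⟩ : ∃ cB : ℝ, cB = 4 * 8 ^ (2 * q * M) := ⟨_, rfl⟩
  have hcB : 0 < cB := by rw [hcBd]; positivity
  obtain ⟨cC, hcCd⟩ : ∃ cC : ℝ, cC = 2 * 8 ^ (2 * q * M) := ⟨_, rfl⟩
  have hcC : 0 < cC := by rw [hcCd]; positivity
  obtain ⟨s, hsd⟩ : ∃ s : ℕ, s = m0 + (2 * q * M - 2) := ⟨_, rfl⟩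
  have h2qM : 2 ≤ 2 * q * M := by
    rw [Nat.mul_assoc]
    omega
  obtain ⟨δ, hδd⟩ : ∃ δ : ℝ, δ = β / (1 + K) := ⟨_, rfl⟩
  have hδ : 0 < δ := by rw [hδd]; positivity
  have hδβ : δ ≤ β := by
    rw [hδd]
    exact div_le_self hβ.le (by linarith)
  have hsmall : K * δ ^ m1 ≤ β ^ m1 := by
    rw [hδd, div_pow]
    have h1 : K ≤ (1 + K) ^ m1 := by
      calc K ≤ 1 + K := by linarith
        _ = (1 + K) ^ 1 := (pow_one _).symm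
        _ ≤ (1 + K) ^ m1 := pow_le_pow_right₀ (by linarith) hm1
    have h2 : 0 < (1 + K) ^ m1 := by positivity
    rw [← mul_div_assoc, div_le_iff₀ h2, mul_comm]
    exact mul_le_mul_of_nonneg_left h1 (by positivity)
  obtain ⟨Q0, hQ0d⟩ : ∃ Q0 : ℝ, Q0 = 1 + β⁻¹ + δ⁻¹ + cA * (1 + K2) / β ^ (m0 - 1) +
    cB * (1 + K3) / β ^ (m0 - 1) + cC * K4 * C0 * (1 + K3) * 16 ^ (s + 1) / β ^ s := ⟨_, rfl⟩
  have q1 : 0 ≤ β⁻¹ := by positivity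
  have q2 : 0 ≤ δ⁻¹ := by positivity
  have q3 : 0 ≤ cA * (1 + K2) / β ^ (m0 - 1) := by positivity
  have q4 : 0 ≤ cB * (1 + K3) / β ^ (m0 - 1) := by positivity
  have q5 : 0 ≤ cC * K4 * C0 * (1 + K3) * 16 ^ (s + 1) / β ^ s := by positivity
  refine ⟨δ, hδ, C0, Q0, hC0, by rw [hQ0d]; linarith, ?_⟩
  intro Q hQ φ hφ hφL a b b' g1 g2 g3 g4 g5 g6 hb hb' h hh τ τ' hτ hτ' hR
  rw [hQ0d] at hQ
  have hQ1 : 1 ≤ Q := by linarith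
  have hQp : 0 < Q := by linarith
  have hQ4 : Q ≤ Q ^ 4 := by
    calc Q = Q ^ 1 := (pow_one _).symm
      _ ≤ Q ^ 4 := pow_le_pow_right₀ hQ1 (by norm_num)
  have hβQ : 1 ≤ β * Q ^ 4 := by
    have h1 : β⁻¹ ≤ Q ^ 4 := by linarith
    calc (1 : ℝ) = β * β⁻¹ := (mul_inv_cancel₀ hβ.ne').symm
      _ ≤ β * Q ^ 4 := mul_le_mul_of_nonneg_left h1 hβ.le
  have hδQ : 1 ≤ δ * Q ^ 4 := by
    have h1 : δ⁻¹ ≤ Q ^ 4 := by linarith
    calc (1 : ℝ) = δ * δ⁻¹ := (mul_inv_cancel₀ hδ.ne').symm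
      _ ≤ δ * Q ^ 4 := mul_le_mul_of_nonneg_left h1 hδ.le
  have hbigA : cA * (1 + K2) < β ^ (m0 - 1) * Q := by
    rw [← div_lt_iff₀' (by positivity)]
    linarith
  have hbigB : cB * (1 + K3) < β ^ (m0 - 1) * Q := by
    rw [← div_lt_iff₀' (by positivity)]
    linarith
  have hbigC : cC * K4 * C0 * (1 + K3) * 16 ^ (s + 1) < β ^ s * Q := by
    rw [← div_lt_iff₀' (by positivity)]
    linarith
  have hP1 : 1 ≤ Q ^ N := one_le_pow₀ hQ1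
  have hP0 : 0 < Q ^ N := by positivity
  have hD0 : 0 < ((Q ^ N) ^ h)⁻¹ := by positivity
  have hDP : ((Q ^ N) ^ h)⁻¹ * Q ^ N = Q ^ N / (Q ^ N) ^ h := inv_mul_eq_div _ _
  have hQN4 : Q ^ 4 ≤ Q ^ N := pow_le_pow_right₀ hQ1 hN
  have hβP : 1 ≤ β * Q ^ N := le_trans hβQ (mul_le_mul_of_nonneg_left hQN4 hβ.le)
  have hβQ' : 1 ≤ be M L 0 * Q ^ 4 := by rw [← hβd]; exact hβQ
  -- bounds of the letters
  have lb : ∀ l x, β * Q ^ (N - lg g ((x : Fin J × Fin M).1 : ℕ)) ≤ (b l x : ℝ) := fun l x => by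
    rw [hβd]; exact Decode_lb hQ1 (hφL l) x.2.2 (hb l x).1
  have lb' : ∀ l x, β * Q ^ (N - lg g ((x : Fin J × Fin M).1 : ℕ)) ≤ (b' l x : ℝ) := fun l x => by
    rw [hβd]; exact Decode_lb hQ1 (hφL l) x.2.2 (hb' l x).1
  have ub : ∀ l x, (b l x : ℝ) ≤ Q ^ (N - lg g ((x : Fin J × Fin M).1 : ℕ)) / 128 := fun l x =>
    Decode_ub hQ1 (hb l x).2
  have ub' : ∀ l x, (b' l x : ℝ) ≤ Q ^ (N - lg g ((x : Fin J × Fin M).1 : ℕ)) / 128 := fun l x =>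
    Decode_ub hQ1 (hb' l x).2
  have hpart : ∀ l x, (b' l x : ℝ) ≤ 2 * (b l x : ℝ) := fun l x => by
    linarith [(hb l x).1, (hb' l x).2]
  have sep : ∀ l p l' p', (l, p) ≠ (l', p') →
      (b l' p' : ℝ) / 4 ≤ |(b l p : ℝ) - (b l' p' : ℝ)| := fun l p l' p' hne =>
    Decode_sep hQ1 hβQ' φ hφ hφL hJN l l' p p' hne _ _ (hb l p).1 (hb l p).2 (hb l' p').1
      (hb l' p').2
  have sep' : ∀ l p l' p', (l, p) ≠ (l', p') →
      (b' l' p' : ℝ) / 4 ≤ |(b l p : ℝ) - (b' l' p' : ℝ)| := fun l p l' p' hne =>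
    Decode_sep hQ1 hβQ' φ hφ hφL hJN l l' p p' hne _ _ (hb l p).1 (hb l p).2 (hb' l' p').1
      (hb' l' p').2
  have low : ∀ j, j ≤ J → ∀ i, i < j → ∀ X : ℝ, β * Q ^ (N - lg g i) ≤ X →
      Q ^ (N - lg g j) ≤ X := by
    intro j hj i hi X hX
    have h1 := Decode_lev hQ1 hJN hi hj
    calc Q ^ (N - lg g j) = 1 * Q ^ (N - lg g j) := (one_mul _).symm
      _ ≤ (β * Q ^ 4) * Q ^ (N - lg g j) := mul_le_mul_of_nonneg_right hβQ (by positivity)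
      _ = β * (Q ^ 4 * Q ^ (N - lg g j)) := by ring
      _ ≤ β * Q ^ (N - lg g i) := mul_le_mul_of_nonneg_left h1 hβ.le
      _ ≤ X := hX
  have high : ∀ j i, j ≤ i → ∀ X : ℝ, X ≤ Q ^ (N - lg g i) / 128 → X ≤ Q ^ (N - lg g j) := by
    intro j i hi X hX
    have h0 := lg_mono (g := g) hi
    have h1 : Q ^ (N - lg g i) ≤ Q ^ (N - lg g j) := pow_le_pow_right₀ hQ1 (by omega)
    have h2 : 0 < Q ^ (N - lg g i) := by positivity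
    linarith
  have hrel : ∀ m', N + 1 ≤ m' + d → m' ≤ N → |∑ l, ((τ l - τ' l) * (∑ γ, (a l γ : ℝ) ^ m') +
      (τ l * (∑ p, (b l p : ℝ) ^ m') - τ' l * (∑ p, (b' l p : ℝ) ^ m')))| ≤ Q ^ N := by
    intro m' h1 h2
    have h3 := hR ⟨N - m', by omega⟩
    simp only [Nat.sub_sub_self h2] at h3
    refine le_trans (le_of_eq ?_) h3
    congr 1
    exact Finset.sum_congr rfl fun l _ => by ring
  have hτD : ∀ l, |τ l| ≤ ((Q ^ N) ^ h)⁻¹ * Q ^ N ∧ |τ' l| ≤ ((Q ^ N) ^ h)⁻¹ * Q ^ N := fun l => by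
    rw [hDP]
    exact ⟨(hτ l).2, (hτ' l).2⟩
  have hNh : N * (1 + h) ≤ N * (u + 1) := Nat.mul_le_mul_left N (by omega)
  -- the bound of the differences
  have hWb : ∀ j, 1 ≤ j → (∀ l p, (p.1 : ℕ) < j → b l p = b' l p) → ∀ ζ : ℝ, 0 ≤ ζ →
      ζ ≤ β * Q ^ N → (∀ l p, j ≤ (p.1 : ℕ) → (b l p : ℝ) ≤ ζ ∧ (b' l p : ℝ) ≤ ζ) →
      ∀ l, |τ l - τ' l| ≤ C0 * (Q ^ N / (Q ^ N) ^ m1 +
        K3 * (((Q ^ N) ^ h)⁻¹ * Q ^ N) * (ζ / Q ^ N) ^ m1) := by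
    intro j hj hag ζ hζ0 hζβ hζ
    rw [hC0d, hK3d]
    refine wbd (j := j) (N := N) (δ := δ) Γ0 a b b' τ τ' hP0.le (by positivity) hP0 hβ hβP
      (fun m' h1 h2 => hrel m' (by omega) h2) ?_ hj hJ1 hM hag ?_ ?_
      (fun l p l' p' _ _ hne => sep l p l' p' hne) ?_ hδ.le hδβ hζ0 hζβ g3 ?_ hζ hτD ?_
    · have : q * Γ0.card ≤ q * 3 := Nat.mul_le_mul_left q hc0
      omega
    · intro l p hp
      have := lb l p
      rw [hp, lg_zero, Nat.sub_zero] at this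
      exact this
    · intro l γ hγ
      refine le_trans ?_ (g2 l γ hγ)
      nlinarith
    · intro l p l' hp γ hγ
      have h1 := ub l p
      rw [hp, lg_zero, Nat.sub_zero] at h1
      have h2 := g2 l' γ hγ
      refine le_trans ?_ (neg_le_abs _)
      linarith
    · intro l p h1 _
      have h2 := ub l p
      have h3 := Decode_lev hQ1 hJN (show 0 < (p.1 : ℕ) by omega) p.1.2.le
      rw [lg_zero, Nat.sub_zero] at h3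
      have h4 : 0 < Q ^ (N - lg g (p.1 : ℕ)) := by positivity
      have h5 : Q ^ (N - lg g (p.1 : ℕ)) ≤ δ * Q ^ N := by
        calc Q ^ (N - lg g (p.1 : ℕ)) = 1 * Q ^ (N - lg g (p.1 : ℕ)) := (one_mul _).symm
          _ ≤ (δ * Q ^ 4) * Q ^ (N - lg g (p.1 : ℕ)) := mul_le_mul_of_nonneg_right hδQ h4.le
          _ = δ * (Q ^ 4 * Q ^ (N - lg g (p.1 : ℕ))) := by ring
          _ ≤ δ * Q ^ N := mul_le_mul_of_nonneg_left h3 hδ.le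
      linarith
    · rw [← hKd]
      exact hsmall
  have key : ∀ j, 1 ≤ j → j ≤ J → ∀ l p, ((p : Fin J × Fin M).1 : ℕ) < j →
      b l p = b' l p := by
    intro j hj
    induction j, hj using Nat.le_induction with
    | base =>
      intro _
      have hN4 : lg g 0 + 4 ≤ lg g 1 := lg_lt (by omega)
      have hN5 : lg g 1 ≤ lg g J := lg_mono hJ1
      have hz4 : ∀ l' p', 1 ≤ ((p' : Fin J × Fin M).1 : ℕ) → (b l' p' : ℝ) ≤ Q ^ (N - 4) ∧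
          (b' l' p' : ℝ) ≤ Q ^ (N - 4) := by
        intro l' p' hp'
        have e0 := lg_lt (g := g) (show 0 < (p'.1 : ℕ) by omega)
        rw [lg_zero] at e0
        have e1 : Q ^ (N - lg g (p'.1 : ℕ)) ≤ Q ^ (N - 4) := pow_le_pow_right₀ hQ1 (by omega)
        have e2 := ub l' p'
        have e3 := ub' l' p'
        have e4 : 0 < Q ^ (N - lg g (p'.1 : ℕ)) := by positivity
        constructor <;> linarith
      have hge : ∀ X : ℝ, β * Q ^ (N - lg g 0) ≤ X → Q ^ (N - 4) ≤ X := by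
        intro X hX
        rw [lg_zero, Nat.sub_zero] at hX
        calc Q ^ (N - 4) = 1 * Q ^ (N - 4) := (one_mul _).symm
          _ ≤ (β * Q ^ 4) * Q ^ (N - 4) := mul_le_mul_of_nonneg_right hβQ (by positivity)
          _ = β * Q ^ (4 + (N - 4)) := by rw [pow_add]; ring
          _ = β * Q ^ N := by rw [show 4 + (N - 4) = N by omega]
          _ ≤ X := hX
      refine dec_top (j0 := 1) (m := m0) (N := N) (x0 := β * Q ^ (N - lg g 0))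
        (ζ := Q ^ (N - 4)) (D := ((Q ^ N) ^ h)⁻¹) Γ1 a b b' τ τ' hP0.le hD0 hP1
        (one_le_pow₀ hQ1) (by positivity) hm0 (fun m' h1 h2 => hrel m' (by omega) h2) ?_ hJ1
        (fun l p l' p' _ _ hne => ⟨sep l p l' p' hne, sep' l p l' p' hne⟩) ?_
        (fun l p _ => hpart l p) ?_ g4 g5 ?_ ?_ ?_
      · have : q * Γ1.card ≤ q * 11 := Nat.mul_le_mul_left q hc1
        omega
      · intro l p l' hp γ hγ
        exact g6 l' γ hγ (p.1 : ℕ) hp _ (lb l p) (ub l p)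
      · intro l p hp
        have hp0 : (p.1 : ℕ) = 0 := by omega
        have e1 := lb l p
        have e2 := lb' l p
        rw [hp0] at e1 e2
        exact ⟨e1, hge _ e1, hge _ e2⟩
      · intro l p hp
        exact hz4 l p hp
      · intro l
        exact ⟨(hτ l).1, (hτD l).1, (hτD l).2⟩
      · rw [← hcAd, ← hK2d]
        refine Decode_numA hQ1 hcA.le hK2 ?_ ?_ hbigA
        · have h1 : (N - lg g J) * (m0 - 1) ≤ (N - lg g 0) * (m0 - 1) :=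
            Nat.mul_le_mul_right _ (by omega)
          omega
        · exact Decode_ar3 hm0 (show N - lg g 0 = N - 4 + 4 by rw [lg_zero]; omega) (by omega)
    | succ j hj ih =>
      intro hJ'
      have hag := ih (by omega)
      intro l p hp
      rcases Nat.lt_or_ge (p.1 : ℕ) j with hp' | hp'
      · exact hag l p hp'
      have hpj : (p.1 : ℕ) = j := by omega
      have hjJ : j < J := by omega
      have hj1 : 1 ≤ j := by omega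
      have hζβ : Q ^ (N - lg g j) ≤ β * Q ^ N := by
        refine low j hjJ.le 0 (by omega) _ ?_
        rw [lg_zero, Nat.sub_zero]
      have hW := hWb j hj1 hag (Q ^ (N - lg g j)) (by positivity) hζβ
        (fun l p hp => ⟨high _ _ hp _ (ub l p), high _ _ hp _ (ub' l p)⟩)
      refine dec_low (m := m0) (N := N) (j := j) (x0 := β * Q ^ (N - lg g j))
        (ζ := Q ^ (N - lg g (j + 1))) (D := ((Q ^ N) ^ h)⁻¹) (R := 16 * Q ^ N) a b b' τ τ' hP0.le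
        hD0 hP1 (one_le_pow₀ hQ1) (by positivity) (by positivity) hm0 hq hM
        (fun m' h1 h2 => hrel m' (by omega) h2) ?_ hjJ hag
        (fun l p l' p' _ _ hne => ⟨sep l p l' p' hne, sep' l p l' p' hne⟩)
        (fun l p _ => hpart l p) ?_ ?_ g1 ?_ ?_ hW ?_ ?_ l p hpj
      · omega
      · intro l p hp
        have h1 := lb l p
        have h2 := lb' l p
        rw [hp] at h1 h2
        exact ⟨h1, h2, low (j + 1) hJ' j (by omega) _ h1, low (j + 1) hJ' j (by omega) _ h2⟩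
      · intro l p hp
        exact ⟨high _ _ (show j + 1 ≤ (p.1 : ℕ) from hp) _ (ub l p),
          high _ _ (show j + 1 ≤ (p.1 : ℕ) from hp) _ (ub' l p)⟩
      · intro l p
        have h1 := high 0 _ (Nat.zero_le _) _ (ub l p)
        have h2 := high 0 _ (Nat.zero_le _) _ (ub' l p)
        rw [lg_zero, Nat.sub_zero] at h1 h2
        constructor <;> linarith
      · intro l
        exact ⟨(hτ l).1, (hτD l).1, (hτD l).2⟩
      · rw [← hcBd, ← hK3d]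
        refine (Decode_numA hQ1 hcB.le hK3 ?_ ?_ hbigB).le
        · have h0 := lg_mono (g := g) hjJ.le
          have h1 : (N - lg g J) * (m0 - 1) ≤ (N - lg g j) * (m0 - 1) :=
            Nat.mul_le_mul_right _ (by omega)
          omega
        · have h0 := lg_mono (g := g) (show j + 1 ≤ J from hjJ)
          have h2 : lg g (j + 1) = lg g j + 4 := by
            rw [lg_pos (by omega : 1 ≤ j + 1), lg_pos hj1]
            ring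
          exact Decode_ar3 hm0 (show N - lg g j = N - lg g (j + 1) + 4 by omega) (by omega)
      · have hs1 : m0 + (2 * q * M - 1) = s + 1 := by omega
        rw [← hcCd, ← hK4d, ← hsd, hs1]
        obtain ⟨e, he⟩ : ∃ e, N - lg g j = e := ⟨_, rfl⟩
        have h0 := lg_mono (g := g) hjJ.le
        have h3 := lg_pos (g := g) hj1
        have hNe : N = e + 4 * (j + g) := by omega
        have hs2 : s + 2 = m0 + 2 * q * M := by omega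
        rw [he]
        refine Decode_numB hQ1 hcC.le hK4 hC0.le hK3 ?_ ?_ hbigC
        · exact Decode_ar1 hs2 c6 (by omega) hh hNe
        · exact Decode_ar2 hs2 c5 (by omega) hNe
  have hall := key J hJ1 le_rfl
  refine ⟨?_, ?_⟩
  · funext l p
    exact hall l p p.1.2
  · intro l
    have h1 := hWb J hJ1 (fun l p _ => hall l p p.1.2) 0 le_rfl (by positivity)
      (fun l p hp => absurd p.1.2 (not_lt.2 hp)) l
    rw [zero_div, zero_pow (by omega), mul_zero, add_zero] at h1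
    exact h1

theorem decode {k d : ℕ} (p : ParX k d) {Γ : Type} [Fintype Γ] [DecidableEq Γ] (Γ0 Γ1 : Finset Γ)
    (hc0 : Γ0.card ≤ 3) (hc1 : Γ1.card ≤ 11) :
    ∃ δ : ℝ, 0 < δ ∧ ∃ C Q0 : ℝ, 0 < C ∧ 1 ≤ Q0 ∧ ∀ Q : ℝ, Q0 ≤ Q →
    ∀ φ : Fin p.q → ℕ, Function.Injective φ → (∀ l, φ l < p.L) →
    ∀ (a : Fin p.q → Γ → ℕ) (b b' : Fin p.q → Fin p.J × Fin p.M → ℕ),
    (∀ l γ, (a l γ : ℝ) ≤ 16 * Q ^ (k - 1)) →
    (∀ l, ∀ γ ∈ Γ0, Q ^ (k - 1) / 8 ≤ (a l γ : ℝ)) →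
    (∀ l γ, γ ∉ Γ0 → (a l γ : ℝ) ≤ δ * Q ^ (k - 1)) →
    (∀ l, ∀ γ ∈ Γ1, Q ^ (k - 1 - 4) ≤ (a l γ : ℝ)) →
    (∀ l γ, γ ∉ Γ1 → (a l γ : ℝ) ≤ Q ^ (k - 1 - 4)) →
    (∀ l, ∀ γ ∈ Γ1, ∀ j < 1, ∀ x : ℝ, be p.M p.L 0 * Q ^ (k - 1 - lv k p.M j) ≤ x →
      x ≤ Q ^ (k - 1 - lv k p.M j) / 128 → (a l γ : ℝ) / 4 ≤ |x - (a l γ : ℝ)|) →
    (∀ l x, be p.M (φ l) x.2 * Q ^ (k - 1 - lv k p.M (x.1 : ℕ)) < (b l x : ℝ) ∧
      (b l x : ℝ) ≤ 2 * (be p.M (φ l) x.2 * Q ^ (k - 1 - lv k p.M (x.1 : ℕ)))) →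
    (∀ l x, be p.M (φ l) x.2 * Q ^ (k - 1 - lv k p.M (x.1 : ℕ)) < (b' l x : ℝ) ∧
      (b' l x : ℝ) ≤ 2 * (be p.M (φ l) x.2 * Q ^ (k - 1 - lv k p.M (x.1 : ℕ)))) →
    ∀ h : ℕ, h ≤ p.u → ∀ τ τ' : Fin p.q → ℝ,
    (∀ l, ((Q ^ (k - 1)) ^ h)⁻¹ ≤ |τ l| ∧ |τ l| ≤ Q ^ (k - 1) / (Q ^ (k - 1)) ^ h) →
    (∀ l, ((Q ^ (k - 1)) ^ h)⁻¹ ≤ |τ' l| ∧ |τ' l| ≤ Q ^ (k - 1) / (Q ^ (k - 1)) ^ h) →
    (∀ i : Fin d, |∑ l, (τ l * ((∑ γ, (a l γ : ℝ) ^ (k - 1 - (i : ℕ))) +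
        ∑ x, (b l x : ℝ) ^ (k - 1 - (i : ℕ))) -
      τ' l * ((∑ γ, (a l γ : ℝ) ^ (k - 1 - (i : ℕ))) +
        ∑ x, (b' l x : ℝ) ^ (k - 1 - (i : ℕ))))| ≤ Q ^ (k - 1)) →
    b = b' ∧ ∀ l, |τ l - τ' l| ≤ C * (Q ^ (k - 1) / (Q ^ (k - 1)) ^ p.m1) := by
  have hk := p.hk
  have hk1 : k - 1 + 1 = k := by omega
  have hJk := p.hJk
  have hJ := p.hJ
  have e1 : lg (gp k p.M) p.J = 4 * (p.J + gp k p.M) := lg_pos hJ
  have c5 := p.c5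
  exact Decode_main (g := gp k p.M) Γ0 Γ1 (by omega) p.hq p.hM hJ (by rw [e1]; omega)
    (by rw [hk1]; exact p.c1) (by rw [hk1]; exact p.c1') (by rw [hk1]; exact p.c2)
    (by rw [e1]; exact p.c3)
    (by rw [hk1]; have := p.c4; omega)
    (by
      rw [hk1]
      have h1 : 8 * (1 + gp k p.M) * (p.m0 + 2 * p.q * p.M) =
        2 * (4 * (1 + gp k p.M) * (p.m0 + 2 * p.q * p.M)) := by ring
      have h2 : 8 * (1 + gp k p.M) * (p.m1 + 2) = 2 * (4 * (1 + gp k p.M) * (p.m1 + 2)) := by ring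
      rw [h1, h2] at c5
      omega) p.c6 (by rw [hk1]; exact p.c7) hc0 hc1

end UWar
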