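import Pool.Agent.RWar.Defs
import Pool.Agent.KWar.BkSize

/-!
# UWar: plain `k`-th powers and a few values of one generic polynomial.  Definitions

We represent integers `N = x_1^k + ... + x_r^k + ⌊f(y_1)⌋ + ... + ⌊f(y_T)⌋`,
`f(y) = y^k + g(y) + t_0 y^(k-1) + ... + t_(d-1) y^(k-d)` (`HWar.ff`), for almost every `t ∈ ℝ^d`. `P = XX r = 2^r`.

The plain letters form `z = ((w1, w2), v) ∈ ZU p r`: chains with `n1` and `n2` letters and `v ∈ J1 P` (as in the
folder `RWar`). The `J M` generic letters of the family `l` form `b ∈ BU p l r` (the bulk letters of the folder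
`KWar`). `FU` is the exponential sum over the plain letters, `GU` over the generic letters, `MU` the signed
integral of the product, `MV` the same with the trigonometric approximation `LL` of `ee (θ ⌊f y⌋)` (folder
`IWar`), `su` the expected size.
-/

namespace UWar

open MWg HWar IWar

/-- The parameters: `q` families are used at a time, `L` families in all, `J` levels of generic letters
with `M` letters each, chains with `n1`, `n2` plain letters, `H = P ^ u`. -/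
structure ParX (k d : ℕ) where
  (q M J L n1 n2 u v m0 m1 : ℕ)
  hk : 35 ≤ k
  hd : d ≤ k
  hq : 1 ≤ q
  hM : 1 ≤ M
  hJ : 1 ≤ J
  hn2 : 1 ≤ n2
  hn12 : n2 ≤ n1
  hJk : 4 * (J + KWar.gp k M) < k
  hL : 3 * ((u + 1) * (q - 1)) < L
  hn : (k : ℝ) * (1 - 1 / (k : ℝ)) ^ n2 < u
  hv : (k : ℝ) * (1 - 1 / (k : ℝ)) ^ n1 ≤ v
  hu : u + 1 ≤ k
  c1 : k ≤ m0 + d
  c1' : k ≤ m1 + d
  c2 : m0 + 2 * q * M + 11 * q ≤ k
  c3 : (k - 1) * (u + 1) + 1 ≤ (k - 1 - 4 * (J + KWar.gp k M)) * (m0 - 1)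
  c4 : 7 * k ≤ 8 * m0
  c5 : 8 * (1 + KWar.gp k M) * (m0 + 2 * q * M) + 7 * k ≤ 8 * (1 + KWar.gp k M) * (m1 + 2)
  c6 : (k - 1) * (u + 2) + 4 * (J + KWar.gp k M) * (m0 + 2 * q * M) + 1 ≤ (k - 1) * m1
  c7 : m1 + q * M + 3 * q ≤ k
  c8 : q * M * (2 * J * (J - 1) + 4 * KWar.gp k M * (J - 1)) +
    (k - 1) * (q * (k + v + 3 - m1) + k + 1) ≤ q * M * ((k - 1) * J)

variable {k d : ℕ}

/-- The plain letters. -/
noncomputable def ZU (p : ParX k d) (r : ℕ) : Finset Zt :=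
  (chain k J0 p.n1 (XX r) ×ˢ chain k J0 p.n2 (XX r)) ×ˢ J1 (XX r)

/-- The generic letters of the family `l`. -/
noncomputable def BU (p : ParX k d) (l r : ℕ) : Finset (Fin p.J × Fin p.M → ℕ) :=
  KWar.Bk k p.J p.M l r

/-- The exponential sum over the plain letters. -/
noncomputable def FU (p : ParX k d) (r : ℕ) (θ : ℝ) : ℂ :=
  ∑ z ∈ ZU p r, ee (θ * zsum (fun x => (x : ℝ) ^ k) z)

/-- The exponential sum over the generic letters. -/
noncomputable def GU (p : ParX k d) (l r : ℕ) (f : ℕ → ℝ) (θ : ℝ) : ℂ :=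
  ∑ b ∈ BU p l r, ee (θ * bsum f b)

/-- The signed integral over `S`. -/
noncomputable def MU (p : ParX k d) (S : Set ℝ) (K : ℝ → ℂ) (l r : ℕ) (f : ℕ → ℝ) (Y : ℝ) : ℂ :=
  ∫ θ in S, K θ * ee (-(θ * Y)) * FU p r θ * GU p l r f θ

/-- The signed integral with the trigonometric approximation of the integer parts. -/
noncomputable def MV (p : ParX k d) (S : Set ℝ) (K : ℝ → ℂ) (c : ℤ → ℝ → ℂ) (D l r : ℕ)
    (f : ℕ → ℝ) (Y : ℝ) : ℂ :=
  ∫ θ in S, K θ * ee (-(θ * Y)) * FU p r θ * ∑ b ∈ BU p l r, ∏ x, LL c D f θ (b x)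

/-- The expected size. -/
noncomputable def su (p : ParX k d) (l r : ℕ) : ℝ :=
  ((ZU p r).card : ℝ) * ((BU p l r).card : ℝ) / (XX r) ^ k

end UWar
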