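import Pool.Agent.UWar.HighX
import Pool.Agent.UWar.DecApp

/-!
# UWar.High: the mean of the product of `q` families

PROOF. With `f = ff k d g t`, `F0 x = x^k + g x` and modes `m_x` of the generic letters `b_x`,
`MV = ∑_{(b,m)} ∫_S ψ(b,m,θ) ee (∑_i t_i V_i(b,m,θ)) dθ`, `V_i = ∑_x (θ + m_x) b_x^(k-1-i)`,
`ψ = K θ ee (-θY) FU θ ∏_x c_{m_x}(θ) ee (∑_x (θ + m_x) F0 (b_x))`, `‖ψ‖ ≤ ∏_x w(m_x) · CK ‖FU θ‖`. Apply `highX`
with `χ = CK ‖FU‖`, `E = P`, `ν = C0 P/P^m1` (`DecX`) and `FU_energy`. With `s1 = ∑_{|m| ≤ D} w m`,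
`s1^(2 q J M) ≤ P` for large `r`, the result follows from `card_Bk` and `c8`.
-/

namespace UWar

open Filter Topology MeasureTheory MWg HWar IWar

variable {k d : ℕ}

private theorem High_ee_zero : ee 0 = 1 := by
  unfold ee
  simp

private theorem High_ee_sum {ι : Type*} (s : Finset ι) (a : ι → ℝ) :
    ee (∑ i ∈ s, a i) = ∏ i ∈ s, ee (a i) := by
  classical
  induction s using Finset.induction_on with
  | empty => simpa using High_ee_zero
  | insert i s hi ih => rw [Finset.sum_insert hi, Finset.prod_insert hi, ee_add, ih]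


/-- The main part of the values. -/
private def High_F0 (k : ℕ) (g : ℕ → ℝ) (x : ℕ) : ℝ := (x : ℝ) ^ k + g x

/-- The letters of a family, with modes. -/
private noncomputable def High_E (p : ParX k d) (D l r : ℕ) :
    Finset ((Fin p.J × Fin p.M → ℕ) × (Fin p.J × Fin p.M → ℤ)) :=
  BU p l r ×ˢ Fintype.piFinset (fun _ : Fin p.J × Fin p.M => Finset.Icc (-(D : ℤ)) D)

/-- The factor that does not depend on the coefficients. -/
private noncomputable def High_psi (p : ParX k d) (K : ℝ → ℂ) (c : ℤ → ℝ → ℂ) (g : ℕ → ℝ) (r : ℕ)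
    (Y : ℝ) (e : (Fin p.J × Fin p.M → ℕ) × (Fin p.J × Fin p.M → ℤ)) (θ : ℝ) : ℂ :=
  K θ * ee (-(θ * Y)) * FU p r θ * (∏ x, c (e.2 x) θ) *
    ee (∑ x, (θ + e.2 x) * High_F0 k g (e.1 x))

private noncomputable def High_V (p : ParX k d)
    (e : (Fin p.J × Fin p.M → ℕ) × (Fin p.J × Fin p.M → ℤ)) (θ : ℝ) (i : Fin d) : ℝ :=
  ∑ x, (θ + e.2 x) * (e.1 x : ℝ) ^ (k - 1 - (i : ℕ))

private theorem High_phase (p : ParX k d) (g : ℕ → ℝ) (t : Fin d → ℝ)
    (e : (Fin p.J × Fin p.M → ℕ) × (Fin p.J × Fin p.M → ℤ)) (θ : ℝ) :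
    ∑ x, (θ + e.2 x) * ff k d g t (e.1 x) =
      ∑ x, (θ + e.2 x) * High_F0 k g (e.1 x) + ∑ i, t i * High_V p e θ i := by
  unfold High_V
  simp only [Finset.mul_sum]
  rw [Finset.sum_comm, ← Finset.sum_add_distrib]
  refine Finset.sum_congr rfl fun x _ => ?_
  unfold ff High_F0
  rw [mul_add, Finset.mul_sum]
  congr 1
  exact Finset.sum_congr rfl fun i _ => by ring

private theorem High_expand (p : ParX k d) (c : ℤ → ℝ → ℂ) (D l r : ℕ) (g : ℕ → ℝ)
    (t : Fin d → ℝ) (θ : ℝ) :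
    ∑ b ∈ BU p l r, ∏ x, LL c D (ff k d g t) θ (b x) =
    ∑ e ∈ High_E p D l r, (∏ x, c (e.2 x) θ) *
      (ee (∑ x, (θ + e.2 x) * High_F0 k g (e.1 x)) * ee (∑ i, t i * High_V p e θ i)) := by
  unfold High_E
  rw [Finset.sum_product]
  refine Finset.sum_congr rfl fun b _ => ?_
  unfold LL
  simp only [Finset.mul_sum]
  rw [Finset.prod_univ_sum]
  refine Finset.sum_congr rfl fun μ _ => ?_
  rw [← ee_add, ← High_phase p g t (b, μ) θ, High_ee_sum, ← Finset.prod_mul_distrib]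
  refine Finset.prod_congr rfl fun i _ => ?_
  rw [add_mul, ee_add]
  ring

/-- The weights of the modes. -/
private noncomputable def High_w (C1 : ℝ) (m : ℤ) : ℝ := C1 / (1 + |(m : ℝ)|)

private theorem High_w_pos {C1 : ℝ} (h : 0 < C1) (m : ℤ) : 0 < High_w C1 m := by
  unfold High_w
  positivity


private theorem High_psi_bound (p : ParX k d) {K : ℝ → ℂ} {CK : ℝ} (hCK : ∀ θ, ‖K θ‖ ≤ CK)
    {c : ℤ → ℝ → ℂ} {C1 : ℝ} {S : Set ℝ} {D : ℕ}
    (hcb : ∀ m θ, θ ∈ S → |m| ≤ (D : ℤ) → ‖c m θ‖ ≤ High_w C1 m) (g : ℕ → ℝ) {l r : ℕ}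
    (Y : ℝ) {e : (Fin p.J × Fin p.M → ℕ) × (Fin p.J × Fin p.M → ℤ)} (he : e ∈ High_E p D l r)
    {θ : ℝ} (hθ : θ ∈ S) :
    ‖High_psi p K c g r Y e θ‖ ≤ (∏ x, High_w C1 (e.2 x)) * (CK * ‖FU p r θ‖) := by
  unfold High_psi
  have h0 : 0 ≤ CK := (norm_nonneg _).trans (hCK 0)
  rw [norm_mul, norm_mul, norm_mul, norm_mul, ee_norm, ee_norm, mul_one, mul_one, norm_prod,
    mul_comm]
  have h2 : ∏ x, ‖c (e.2 x) θ‖ ≤ ∏ x, High_w C1 (e.2 x) := by
    refine Finset.prod_le_prod (fun _ _ => norm_nonneg _) fun x _ => hcb _ _ hθ ?_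
    unfold High_E at he
    have h3 := Fintype.mem_piFinset.1 (Finset.mem_product.1 he).2 x
    rw [abs_le]
    exact Finset.mem_Icc.1 h3
  exact mul_le_mul h2 (mul_le_mul_of_nonneg_right (hCK θ) (norm_nonneg _)) (by positivity)
    ((Finset.prod_nonneg fun _ _ => norm_nonneg _).trans h2)

private theorem High_psi_meas (p : ParX k d) {K : ℝ → ℂ} (hK : Measurable K) {c : ℤ → ℝ → ℂ}
    (hc : ∀ m, Continuous (c m)) (g : ℕ → ℝ) (r : ℕ) (Y : ℝ)
    (e : (Fin p.J × Fin p.M → ℕ) × (Fin p.J × Fin p.M → ℤ)) :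
    Measurable (High_psi p K c g r Y e) := by
  unfold High_psi
  refine (((hK.mul ?_).mul (FU_cont p r).measurable).mul ?_).mul ?_
  · exact (ee_cont.comp ((continuous_id.mul continuous_const).neg)).measurable
  · exact (continuous_finset_prod _ fun j _ => hc _).measurable
  · refine (ee_cont.comp (continuous_finset_sum _ fun i _ => ?_)).measurable
    exact (continuous_id.add continuous_const).mul continuous_const

private theorem High_V_meas (p : ParX k d)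
    (e : (Fin p.J × Fin p.M → ℕ) × (Fin p.J × Fin p.M → ℤ)) (i : Fin d) :
    Measurable fun θ => High_V p e θ i := by
  unfold High_V
  exact (continuous_finset_sum _ fun i _ =>
    (continuous_id.add continuous_const).mul continuous_const).measurable

private theorem High_MV (p : ParX k d) {K : ℝ → ℂ} (hK : Measurable K) {CK : ℝ}
    (hCK : ∀ θ, ‖K θ‖ ≤ CK) {c : ℤ → ℝ → ℂ} (hc : ∀ m, Continuous (c m)) {C1 : ℝ} {S : Set ℝ}
    (hS : MeasurableSet S) (hSf : volume S < ⊤) {D : ℕ}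
    (hcb : ∀ m θ, θ ∈ S → |m| ≤ (D : ℤ) → ‖c m θ‖ ≤ High_w C1 m) (g : ℕ → ℝ) (l r : ℕ) (Y : ℝ)
    (t : Fin d → ℝ) :
    MV p S K c D l r (ff k d g t) Y = ∑ e ∈ High_E p D l r,
      ∫ θ in S, High_psi p K c g r Y e θ * ee (∑ i, t i * High_V p e θ i) := by
  have h0 : 0 ≤ CK := (norm_nonneg _).trans (hCK 0)
  unfold MV
  simp only [High_expand]
  rw [← integral_finset_sum]
  · refine integral_congr_ae (Filter.Eventually.of_forall fun θ => ?_)
    simp only [High_psi]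
    rw [Finset.mul_sum]
    refine Finset.sum_congr rfl fun b _ => ?_
    ring
  · intro e he
    refine Measure.integrableOn_of_bounded (M := (∏ x, High_w C1 (e.2 x)) *
      (CK * ((ZU p r).card : ℝ))) hSf.ne ?_ ?_
    · refine ((High_psi_meas p hK hc g r Y e).mul ?_).aestronglyMeasurable
      refine (ee_cont.measurable).comp ?_
      exact Finset.measurable_sum _ fun i _ => (High_V_meas p e i).const_mul _
    · refine ae_restrict_of_forall_mem hS fun θ hθ => ?_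
      rw [norm_mul, ee_norm, mul_one]
      refine (High_psi_bound p hCK hcb g Y he hθ).trans ?_
      have h2 : 0 ≤ ∏ x, High_w C1 (e.2 x) := by
        refine (Finset.prod_nonneg fun x _ => norm_nonneg (c (e.2 x) θ)).trans
          (Finset.prod_le_prod (fun _ _ => norm_nonneg _) fun x _ => hcb _ _ hθ ?_)
        unfold High_E at he
        have h3 := Fintype.mem_piFinset.1 (Finset.mem_product.1 he).2 x
        rw [abs_le]
        exact Finset.mem_Icc.1 h3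
      exact mul_le_mul_of_nonneg_left (mul_le_mul_of_nonneg_left (FU_norm p r θ) h0) h2

private noncomputable def High_s1 (C1 : ℝ) (D : ℕ) : ℝ :=
  ∑ m ∈ Finset.Icc (-(D : ℤ)) D, High_w C1 m

private theorem High_Icc (D : ℕ) : Finset.Icc (-((D + 1 : ℕ) : ℤ)) ((D + 1 : ℕ) : ℤ) =
    insert ((D : ℤ) + 1) (insert (-((D : ℤ) + 1)) (Finset.Icc (-(D : ℤ)) D)) := by
  ext m
  simp only [Finset.mem_Icc, Finset.mem_insert]
  push_cast
  omega

private theorem High_s1_aux (D : ℕ) : ∑ m ∈ Finset.Icc (-(D : ℤ)) D, (1 + |(m : ℝ)|)⁻¹ ≤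
    2 * ∑ j ∈ Finset.range (D + 1), ((j : ℝ) + 1)⁻¹ := by
  induction D with
  | zero => simp
  | succ D ih =>
    rw [High_Icc, Finset.sum_insert, Finset.sum_insert, Finset.sum_range_succ _ (D + 1), mul_add]
    · have e1 : (1 + |(((D : ℤ) + 1 : ℤ) : ℝ)|)⁻¹ = (((D + 1 : ℕ) : ℝ) + 1)⁻¹ := by
        push_cast
        rw [abs_of_nonneg (by positivity)]
        congr 1
        ring
      have e2 : (1 + |((-((D : ℤ) + 1) : ℤ) : ℝ)|)⁻¹ = (((D + 1 : ℕ) : ℝ) + 1)⁻¹ := by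
        rw [← e1]
        push_cast
        rw [abs_neg]
      rw [e1, e2]
      linarith
    · simp only [Finset.mem_Icc]
      omega
    · simp only [Finset.mem_Icc, Finset.mem_insert]
      omega

private theorem High_s1_le {C1 : ℝ} (hC1 : 0 < C1) (D : ℕ) :
    High_s1 C1 D ≤ 2 * C1 * (1 + Real.log ((D : ℝ) + 1)) := by
  unfold High_s1 High_w
  simp only [div_eq_mul_inv]
  rw [← Finset.mul_sum]
  have h1 := High_s1_aux D
  have h2 := harmonic_le_one_add_log (D + 1)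
  have h3 : ((harmonic (D + 1) : ℚ) : ℝ) = ∑ j ∈ Finset.range (D + 1), ((j : ℝ) + 1)⁻¹ := by
    unfold harmonic
    push_cast
    rfl
  rw [h3] at h2
  push_cast at h2
  calc C1 * ∑ m ∈ Finset.Icc (-(D : ℤ)) D, (1 + |(m : ℝ)|)⁻¹
      ≤ C1 * (2 * (1 + Real.log ((D : ℝ) + 1))) :=
        mul_le_mul_of_nonneg_left (by linarith) hC1.le
    _ = _ := by ring

private theorem High_s1_nonneg {C1 : ℝ} (hC1 : 0 < C1) (D : ℕ) : 0 ≤ High_s1 C1 D :=
  Finset.sum_nonneg fun m _ => (High_w_pos hC1 m).le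

private theorem High_s1_DD {C1 : ℝ} (hC1 : 0 < C1) (r : ℕ) :
    High_s1 C1 (DD r) ≤ 4 * C1 * ((r : ℝ) + 1) := by
  refine (High_s1_le hC1 _).trans ?_
  have hX1 := XX_one r
  have h1 : ((DD r : ℕ) : ℝ) ≤ (XX r) ^ 2 := by
    unfold DD
    refine (Nat.floor_le (Real.rpow_nonneg (by linarith) _)).trans ?_
    rw [← Real.rpow_natCast]
    exact Real.rpow_le_rpow_of_exponent_le hX1 (by norm_num)
  have h2 : ((DD r : ℕ) : ℝ) + 1 ≤ 2 ^ (2 * r + 1) := by
    have e1 : (2 : ℝ) ^ (2 * r + 1) = 2 * (XX r) ^ 2 := by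
      unfold XX
      rw [← pow_mul]
      ring
    rw [e1]
    have : (1 : ℝ) ≤ (XX r) ^ 2 := one_le_pow₀ hX1
    linarith
  have h3 : Real.log (((DD r : ℕ) : ℝ) + 1) ≤ 2 * r + 1 := by
    refine (Real.log_le_log (by positivity) h2).trans ?_
    rw [Real.log_pow]
    push_cast
    have h4 : Real.log 2 ≤ 1 := by
      have := Real.log_two_lt_d9
      linarith
    have h5 : (0 : ℝ) ≤ 2 * r + 1 := by positivity
    nlinarith
  have h6 : 0 ≤ 2 * C1 := by linarith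
  calc 2 * C1 * (1 + Real.log (((DD r : ℕ) : ℝ) + 1)) ≤ 2 * C1 * (1 + (2 * r + 1)) :=
        mul_le_mul_of_nonneg_left (by linarith) h6
    _ = _ := by ring


private theorem High_growth {C1 : ℝ} (hC1 : 0 < C1) (A : ℕ) : ∀ᶠ r : ℕ in atTop,
    High_s1 C1 (DD r) ^ A ≤ XX r := by
  obtain ⟨Kc, hKc⟩ : ∃ Kc : ℝ, Kc = (4 * C1) ^ A := ⟨_, rfl⟩
  have hK0 : 0 < Kc := by rw [hKc]; positivity
  have h1 := (tendsto_add_atTop_iff_nat 1).2
    (tendsto_pow_const_div_const_pow_of_one_lt A (r := 2) (by norm_num))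
  have h2 : ∀ᶠ r : ℕ in atTop, ((r + 1 : ℕ) : ℝ) ^ A / 2 ^ (r + 1) < 1 / (2 * Kc) :=
    h1.eventually (gt_mem_nhds (by positivity))
  filter_upwards [h2] with r hr
  have h3 := High_s1_DD hC1 r
  have h4 := High_s1_nonneg hC1 (DD r)
  rw [div_lt_div_iff₀ (by positivity) (by positivity)] at hr
  have h5 : High_s1 C1 (DD r) ^ A ≤ (4 * C1) ^ A * ((r : ℝ) + 1) ^ A := by
    rw [← mul_pow]
    exact pow_le_pow_left₀ h4 h3 A
  calc High_s1 C1 (DD r) ^ A ≤ (4 * C1) ^ A * ((r : ℝ) + 1) ^ A := h5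
    _ = Kc * ((r : ℝ) + 1) ^ A := by rw [hKc]
    _ ≤ XX r := by
        unfold XX
        push_cast at hr
        have e2 : (2 : ℝ) ^ (r + 1) = 2 * 2 ^ r := by ring
        rw [e2] at hr
        nlinarith

private theorem High_s1_mono {C1 : ℝ} (hC1 : 0 < C1) {D D' : ℕ} (h : D ≤ D') :
    High_s1 C1 D ≤ High_s1 C1 D' := by
  unfold High_s1
  refine Finset.sum_le_sum_of_subset_of_nonneg ?_ fun m _ _ => (High_w_pos hC1 m).le
  refine Finset.Icc_subset_Icc ?_ ?_ <;> omega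

private theorem High_s1_pos {C1 : ℝ} (hC1 : 0 < C1) (D : ℕ) : 0 < High_s1 C1 D := by
  unfold High_s1
  exact Finset.sum_pos (fun m _ => High_w_pos hC1 m) ⟨0, by simp⟩

private theorem High_sumE {C1 : ℝ} (p : ParX k d) (l r D : ℕ) :
    ∑ e ∈ High_E p D l r, ∏ x, High_w C1 (e.2 x) =
      ((BU p l r).card : ℝ) * High_s1 C1 D ^ Fintype.card (Fin p.J × Fin p.M) := by
  unfold High_E
  rw [Finset.sum_product]
  simp only [Finset.sum_const, nsmul_eq_mul]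
  rw [← Finset.prod_univ_sum (fun _ : Fin p.J × Fin p.M => Finset.Icc (-(D : ℤ)) D)
    (fun _ m => High_w C1 m), Finset.prod_const, Finset.card_univ]
  rfl

private theorem High_sumE2 {C1 : ℝ} (hC1 : 0 < C1) (p : ParX k d) (l r D : ℕ) :
    ∑ e ∈ High_E p D l r, (∏ x, High_w C1 (e.2 x)) ^ 2 ≤
      ((BU p l r).card : ℝ) *
        (High_s1 C1 D ^ Fintype.card (Fin p.J × Fin p.M)) ^ 2 := by
  unfold High_E
  simp only [← Finset.prod_pow]
  rw [Finset.sum_product]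
  simp only [Finset.sum_const, nsmul_eq_mul]
  rw [← Finset.prod_univ_sum (fun _ : Fin p.J × Fin p.M => Finset.Icc (-(D : ℤ)) D)
    (fun _ m => High_w C1 m ^ 2), Finset.prod_const, Finset.card_univ]
  refine mul_le_mul_of_nonneg_left ?_ (Nat.cast_nonneg _)
  rw [← pow_mul, mul_comm _ 2, pow_mul]
  refine pow_le_pow_left₀ (Finset.sum_nonneg fun m _ => sq_nonneg _) ?_ _
  exact Finset.sum_sq_le_sq_sum_of_nonneg fun m _ => (High_w_pos hC1 m).le

private theorem High_mono (a : ℕ) :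
    ∀ᶠ x : ℝ in atTop, x ^ a * Real.exp (-Real.pi * x ^ 2) ≤ 1 := by
  have h1 := Real.tendsto_pow_mul_exp_neg_atTop_nhds_zero a
  have h2 : ∀ᶠ x : ℝ in atTop, x ^ a * Real.exp (-x) < 1 := h1.eventually (gt_mem_nhds one_pos)
  filter_upwards [h2, eventually_ge_atTop (1 : ℝ)] with x hx hx1
  refine le_trans ?_ hx.le
  refine mul_le_mul_of_nonneg_left ?_ (by positivity)
  refine Real.exp_le_exp.2 ?_
  have := Real.pi_gt_three
  nlinarith

private theorem High_XX : Tendsto XX atTop atTop :=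
  tendsto_pow_atTop_atTop_of_one_lt (by norm_num)


/-- The arithmetic at the end. -/
private theorem High_arith (p : ParX k d) {A A1 c : ℝ} (hA : 0 ≤ A) (hA1 : 0 ≤ A1) (hc : 0 < c) :
    ∃ C : ℝ, 0 < C ∧ ∀ᶠ r : ℕ in atTop, ∀ B : Fin p.q → ℝ,
      (∀ l, c * KWar.QQ k r ^ (p.M * ((k - 1) * p.J - (2 * p.J * (p.J - 1) +
        4 * KWar.gp k p.M * (p.J - 1)))) ≤ B l) →
      (XX r) ^ (2 * k * p.q) * (XX r * (A1 * ((2 * XX r) ^ (2 * p.q) *
        Real.exp (-Real.pi * (XX r) ^ 2)) +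
        (A * (XX r ^ (p.v + 2) / (XX r ^ k * (XX r) ^ p.m1))) ^ p.q / ∏ l, B l)) ≤
        C / (XX r) ^ (k + 1) := by
  have hk := p.hk
  have hq := p.hq
  refine ⟨A1 * 2 ^ (2 * p.q) + A ^ p.q / c ^ p.q + 1, by positivity, ?_⟩
  filter_upwards [High_XX.eventually (High_mono (2 * k * p.q + 1 + 2 * p.q + (k + 1)))] with
    r hr B hB
  obtain ⟨P, hP⟩ : ∃ P, P = XX r := ⟨_, rfl⟩
  obtain ⟨Q, hQ⟩ : ∃ Q, Q = KWar.QQ k r := ⟨_, rfl⟩
  have hQ1 : 1 ≤ Q := hQ ▸ KWar.QQ_one_le (by omega) r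
  have hPQ : Q ^ (k - 1) = P := by rw [hQ, hP]; exact KWar.QQ_pow (by omega) r
  have hP1 : 1 ≤ P := hP ▸ XX_one r
  rw [← hP] at hr ⊢
  rw [← hQ] at hB
  have hP0 : 0 < P := by linarith
  have hQ0 : 0 < Q := by linarith
  obtain ⟨e, he⟩ : ∃ e, e = p.M * ((k - 1) * p.J - (2 * p.J * (p.J - 1) +
    4 * KWar.gp k p.M * (p.J - 1))) := ⟨_, rfl⟩
  rw [← he] at hB
  have hBp : c ^ p.q * Q ^ (e * p.q) ≤ ∏ l, B l := by
    have h1 : ∏ l : Fin p.q, (c * Q ^ e) ≤ ∏ l, B l :=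
      Finset.prod_le_prod (fun l _ => by positivity) (fun l _ => hB l)
    rw [Finset.prod_const, Finset.card_univ, Fintype.card_fin, mul_pow, ← pow_mul] at h1
    exact h1
  have hB0 : 0 < ∏ l, B l := lt_of_lt_of_le (by positivity) hBp
  -- the exponents
  have hexp : (k - 1) * (2 * k * p.q + 1 + (p.v + 2) * p.q + (k + 1)) ≤
      (k - 1) * ((k + p.m1) * p.q) + e * p.q := by
    have h8 := p.c8
    have h7 := p.c7
    have hJk := p.hJk
    obtain ⟨N, hN⟩ : ∃ N, N = k - 1 := ⟨_, rfl⟩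
    rw [← hN] at h8 he ⊢
    obtain ⟨s, hs⟩ : ∃ s, k + p.v + 3 - p.m1 = s := ⟨_, rfl⟩
    have hs2 : s + p.m1 = k + p.v + 3 := by omega
    rw [hs] at h8
    have hsub : (2 * p.J * (p.J - 1) + 4 * KWar.gp k p.M * (p.J - 1)) ≤ N * p.J := by
      have h1 : 2 * p.J + 4 * KWar.gp k p.M ≤ N := by omega
      calc (2 * p.J * (p.J - 1) + 4 * KWar.gp k p.M * (p.J - 1)) =
          (2 * p.J + 4 * KWar.gp k p.M) * (p.J - 1) := by ring
        _ ≤ N * p.J := Nat.mul_le_mul h1 (Nat.sub_le _ _)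
    obtain ⟨f, hf⟩ : ∃ f, N * p.J - (2 * p.J * (p.J - 1) + 4 * KWar.gp k p.M * (p.J - 1)) = f :=
      ⟨_, rfl⟩
    have hf2 : f + (2 * p.J * (p.J - 1) + 4 * KWar.gp k p.M * (p.J - 1)) = N * p.J := by omega
    rw [hf] at he
    have h9 : p.q * p.M * (N * p.J) = p.q * p.M * f +
        p.q * p.M * (2 * p.J * (p.J - 1) + 4 * KWar.gp k p.M * (p.J - 1)) := by
      rw [← hf2]; ring
    have h10 : N * (p.q * s + k + 1) ≤ p.q * p.M * f := by
      have e1 : p.q * p.M * (2 * p.J * (p.J - 1) + 4 * KWar.gp k p.M * (p.J - 1)) +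
          N * (p.q * s + k + 1) ≤ p.q * p.M * (N * p.J) := h8
      rw [h9] at e1
      omega
    have h11 : N * (2 * k * p.q + 1 + (p.v + 2) * p.q + (k + 1)) ≤
        N * ((k + p.m1) * p.q) + N * (p.q * s + k + 1) := by
      rw [← mul_add]
      apply Nat.mul_le_mul_left
      have e2 : (k + p.m1) * p.q + p.q * s = 2 * k * p.q + (p.v + 3) * p.q := by
        have e3 : (k + p.m1) * p.q + p.q * s = (k + (s + p.m1)) * p.q := by ring
        rw [e3, hs2]; ring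
      have e4 : (p.v + 3) * p.q = (p.v + 2) * p.q + p.q := by ring
      omega
    rw [he]
    have h12 : p.M * f * p.q = p.q * p.M * f := by ring
    rw [h12]
    omega
  have hpow : P ^ (2 * k * p.q + 1 + (p.v + 2) * p.q + (k + 1)) ≤
      P ^ ((k + p.m1) * p.q) * Q ^ (e * p.q) := by
    rw [← hPQ, ← pow_mul, ← pow_mul, ← pow_add]
    exact pow_le_pow_right₀ hQ1 hexp
  -- first term
  have t1 : P ^ (2 * k * p.q) * (P * (A1 * ((2 * P) ^ (2 * p.q) * Real.exp (-Real.pi * P ^ 2)))) ≤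
      A1 * 2 ^ (2 * p.q) / P ^ (k + 1) := by
    rw [le_div_iff₀ (by positivity)]
    have e1 : P ^ (2 * k * p.q) * (P * (A1 * ((2 * P) ^ (2 * p.q) *
        Real.exp (-Real.pi * P ^ 2)))) * P ^ (k + 1) =
        A1 * 2 ^ (2 * p.q) * (P ^ (2 * k * p.q + 1 + 2 * p.q + (k + 1)) *
          Real.exp (-Real.pi * P ^ 2)) := by
      rw [mul_pow, pow_add, pow_add, pow_add]; ring
    rw [e1]
    calc A1 * (2 : ℝ) ^ (2 * p.q) * (P ^ (2 * k * p.q + 1 + 2 * p.q + (k + 1)) *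
          Real.exp (-Real.pi * P ^ 2)) ≤ A1 * 2 ^ (2 * p.q) * 1 :=
        mul_le_mul_of_nonneg_left hr (by positivity)
      _ = _ := mul_one _
  -- second term
  have t2 : P ^ (2 * k * p.q) * (P * ((A * (P ^ (p.v + 2) / (P ^ k * P ^ p.m1))) ^ p.q /
      ∏ l, B l)) ≤ (A ^ p.q / c ^ p.q) / P ^ (k + 1) := by
    have e1 : (A * (P ^ (p.v + 2) / (P ^ k * P ^ p.m1))) ^ p.q = A ^ p.q * P ^ ((p.v + 2) * p.q) /
        P ^ ((k + p.m1) * p.q) := by
      rw [← pow_add, mul_pow, div_pow, ← pow_mul, ← pow_mul, mul_div_assoc]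
    rw [e1]
    have h1 : P ^ (2 * k * p.q) * (P * (A ^ p.q * P ^ ((p.v + 2) * p.q) /
        P ^ ((k + p.m1) * p.q) / ∏ l, B l)) ≤
        P ^ (2 * k * p.q) * (P * (A ^ p.q * P ^ ((p.v + 2) * p.q) / P ^ ((k + p.m1) * p.q) /
          (c ^ p.q * Q ^ (e * p.q)))) := by
      refine mul_le_mul_of_nonneg_left (mul_le_mul_of_nonneg_left ?_ hP0.le) (by positivity)
      exact div_le_div_of_nonneg_left (by positivity) (by positivity) hBp
    refine h1.trans ?_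
    have e2 : P ^ (2 * k * p.q) * (P * (A ^ p.q * P ^ ((p.v + 2) * p.q) /
          P ^ ((k + p.m1) * p.q) / (c ^ p.q * Q ^ (e * p.q)))) = (A ^ p.q / c ^ p.q) *
          (P ^ (2 * k * p.q + 1 + (p.v + 2) * p.q) /
            (P ^ ((k + p.m1) * p.q) * Q ^ (e * p.q))) := by
      rw [pow_add, pow_add, pow_one]
      field_simp
    rw [e2, div_eq_mul_inv (A ^ p.q / c ^ p.q) (P ^ (k + 1))]
    refine mul_le_mul_of_nonneg_left ?_ (by positivity)
    rw [div_le_iff₀ (by positivity), ← div_eq_inv_mul, le_div_iff₀ (by positivity), ← pow_add]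
    exact hpow
  calc P ^ (2 * k * p.q) * (P * (A1 * ((2 * P) ^ (2 * p.q) * Real.exp (-Real.pi * P ^ 2)) +
        (A * (P ^ (p.v + 2) / (P ^ k * P ^ p.m1))) ^ p.q / ∏ l, B l)) =
      P ^ (2 * k * p.q) * (P * (A1 * ((2 * P) ^ (2 * p.q) * Real.exp (-Real.pi * P ^ 2)))) +
        P ^ (2 * k * p.q) * (P * ((A * (P ^ (p.v + 2) / (P ^ k * P ^ p.m1))) ^ p.q /
          ∏ l, B l)) := by ring
    _ ≤ A1 * 2 ^ (2 * p.q) / P ^ (k + 1) + (A ^ p.q / c ^ p.q) / P ^ (k + 1) := add_le_add t1 t2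
    _ = (A1 * 2 ^ (2 * p.q) + A ^ p.q / c ^ p.q) / P ^ (k + 1) := by ring
    _ ≤ (A1 * 2 ^ (2 * p.q) + A ^ p.q / c ^ p.q + 1) / P ^ (k + 1) := by
      refine div_le_div_of_nonneg_right ?_ (by positivity)
      linarith

private theorem High_fin (p : ParX k d) (r : ℕ) {S : Set ℝ} (hSP : ∀ θ ∈ S, |θ| ≤ XX r) :
    volume S < ⊤ := by
  have h1 : S ⊆ Set.Icc (-(XX r)) (XX r) := fun θ hθ => abs_le.1 (hSP θ hθ)
  exact (measure_mono h1).trans_lt measure_Icc_lt_top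

theorem highG (p : ParX k d) (g : ℕ → ℝ) (S : Fin p.q → ℕ → Set ℝ)
    (hSm : ∀ l r, MeasurableSet (S l r)) (hSP : ∀ l r, ∀ θ ∈ S l r, |θ| ≤ XX r) (D : ℕ → ℕ)
    (hD : ∀ r, D r ≤ DD r) {C0 : ℝ} (hC0 : 0 < C0) (hdec : DecX p S D C0) (K : ℕ → ℝ → ℂ)
    (hK : ∀ r, Measurable (K r)) {CK : ℝ} (hCK : ∀ r θ, ‖K r θ‖ ≤ CK)
    (c : ℕ → ℤ → ℝ → ℂ) (hc : ∀ r m, Continuous (c r m)) {Cc : ℝ}
    (hcb : ∀ l r m θ, θ ∈ S l r → |m| ≤ (D r : ℤ) → ‖c r m θ‖ ≤ Cc / (1 + |(m : ℝ)|)) :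
    ∃ C : ℝ, 0 < C ∧ ∀ᶠ r : ℕ in atTop, ∀ φ : Fin p.q → ℕ, Function.Injective φ →
      (∀ l, φ l < p.L) → ∀ Y : ℝ,
      ∫⁻ t : Fin d → ℝ, ENNReal.ofReal (gw t * ∏ l,
        (‖MV p (S l r) (K r) (c r) (D r) (φ l) r (ff k d g t) Y‖ / su p (φ l) r) ^ 2) ≤
      ENNReal.ofReal (C / (XX r) ^ (k + 1)) := by
  have hk := p.hk
  have hq := p.hq
  have hCK0 : 0 ≤ CK := (norm_nonneg _).trans (hCK 0 0)
  obtain ⟨C1, hC1d⟩ : ∃ C1 : ℝ, C1 = max Cc 1 := ⟨_, rfl⟩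
  have hC1 : 0 < C1 := by
    rw [hC1d]
    exact lt_of_lt_of_le one_pos (le_max_right _ _)
  have hcb' : ∀ l r m θ, θ ∈ S l r → |m| ≤ (D r : ℤ) → ‖c r m θ‖ ≤ High_w C1 m := by
    intro l r m θ hθ hm
    refine (hcb l r m θ hθ hm).trans ?_
    unfold High_w
    rw [hC1d]
    exact div_le_div_of_nonneg_right (le_max_left _ _) (by positivity)
  obtain ⟨c0, hc0, hcard⟩ := KWar.card_Bk (k := k) (J := p.J) (M := p.M) (L := p.L) (by omega)
    p.hJk
  obtain ⟨CE, hCE, hen⟩ := FU_energy p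
  obtain ⟨C, hC, har⟩ := High_arith p (A := 8 * C0 * (CK ^ 2 * CE)) (A1 := CK ^ (2 * p.q))
    (by positivity) (by positivity) hc0
  have hsz := su_pos p
  have hgr := High_growth hC1 (Fintype.card (Fin p.J × Fin p.M) * (2 * p.q))
  refine ⟨C, hC, ?_⟩
  filter_upwards [hdec, hcard, hen, har, hsz, hgr] with r hdec hcard hen har hsz hgr φ hφ hφL Y
  obtain ⟨P, hP⟩ : ∃ P, P = XX r := ⟨_, rfl⟩
  have hP1 : 1 ≤ P := hP ▸ XX_one r
  have hP0 : 0 < P := by linarith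
  obtain ⟨Z, hZ⟩ : ∃ Z : ℝ, Z = ((ZU p r).card : ℝ) := ⟨_, rfl⟩
  have hL0 : 0 < p.L := by
    have h1 := hφL ⟨0, by omega⟩
    omega
  have hZ0 : 0 < Z := by rw [hZ]; exact (hsz 0 hL0).2.1
  obtain ⟨B, hB⟩ : ∃ B : Fin p.q → ℝ, B = fun l => ((BU p (φ l) r).card : ℝ) := ⟨_, rfl⟩
  have hB0 : ∀ l, 0 < B l := by
    intro l
    rw [hB]
    exact (hsz (φ l) (hφL l)).2.2
  have hBp : 0 < ∏ l, B l := Finset.prod_pos fun l _ => hB0 l
  obtain ⟨ν, hν⟩ : ∃ ν : ℝ, ν = C0 * (P / P ^ p.m1) := ⟨_, rfl⟩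
  have hν0 : 0 ≤ ν := by rw [hν]; positivity
  obtain ⟨s, hs⟩ : ∃ s : ℝ, s = High_s1 C1 (D r) ^ Fintype.card (Fin p.J × Fin p.M) := ⟨_, rfl⟩
  have hs0 : 0 < s := by rw [hs]; exact pow_pos (High_s1_pos hC1 _) _
  have hsP : s ^ (2 * p.q) ≤ P := by
    rw [hs, ← pow_mul, hP]
    exact (pow_le_pow_left₀ (High_s1_nonneg hC1 _) (High_s1_mono hC1 (hD r)) _).trans hgr
  obtain ⟨I, hI⟩ : ∃ I : ℝ, I = CK ^ 2 * (CE * Z ^ 2 * (P ^ (1 + p.v) / P ^ k)) := ⟨_, rfl⟩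
  have hI0 : 0 ≤ I := by rw [hI]; positivity
  have hmain : ∀ t : Fin d → ℝ, ∀ l, MV p (S l r) (K r) (c r) (D r) (φ l) r (ff k d g t) Y =
      ∑ e ∈ High_E p (D r) (φ l) r, ∫ θ in S l r, High_psi p (K r) (c r) g r Y e θ *
        ee (∑ i, t i * High_V p e θ i) := fun t l =>
    High_MV p (hK r) (hCK r) (hc r) (hSm l r) (High_fin p r (hSP l r)) (hcb' l r) g (φ l) r Y t
  have h1 := highX hq (fun l : Fin p.q => High_E p (D r) (φ l) r) (fun l => S l r)
    (fun l => hSm l r) (R := P) hP0.le (fun l θ hθ => by rw [hP]; exact hSP l r θ hθ)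
    (fun _ e => High_psi p (K r) (c r) g r Y e)
    (fun _ e => High_psi_meas p (hK r) (hc r) g r Y e)
    (fun _ e => ∏ x, High_w C1 (e.2 x))
    (fun _ e => Finset.prod_nonneg fun x _ => (High_w_pos hC1 _).le)
    (fun _ θ => CK * ‖FU p r θ‖)
    (fun _ => ((FU_cont p r).norm.measurable.const_mul CK))
    (fun _ θ => mul_nonneg hCK0 (norm_nonneg _)) (B := CK * Z) (by positivity)
    (fun _ θ => mul_le_mul_of_nonneg_left (by rw [hZ]; exact FU_norm p r θ) hCK0)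
    (fun l e he θ hθ => High_psi_bound p (hCK r) (hcb' l r) g Y he hθ)
    (fun _ e θ => High_V p e θ) (fun _ e i => High_V_meas p e i) (E := P) (ν := ν) hP0.le hν0
    (I := I) hI0 (by
      intro l
      have h2 := hen (S l r) (hSm l r) (hSP l r)
      have h3 : ∫⁻ θ in S l r, ENNReal.ofReal ((CK * ‖FU p r θ‖) ^ 2) =
          ENNReal.ofReal (∫ θ in S l r, (CK * ‖FU p r θ‖) ^ 2) := by
        rw [ofReal_integral_eq_lintegral_ofReal]
        · have hc1 : Continuous fun θ => (CK * ‖FU p r θ‖) ^ 2 :=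
            (continuous_const.mul (FU_cont p r).norm).pow 2
          have hsub : S l r ⊆ Set.Icc (-XX r) (XX r) := fun θ hθ => abs_le.1 (hSP l r θ hθ)
          exact hc1.integrableOn_Icc.mono_set hsub
        · exact Filter.Eventually.of_forall fun θ => sq_nonneg _
      rw [h3]
      refine ENNReal.ofReal_le_ofReal ?_
      have h4 : ∫ θ in S l r, (CK * ‖FU p r θ‖) ^ 2 = CK ^ 2 * ∫ θ in S l r, ‖FU p r θ‖ ^ 2 := by
        rw [← integral_const_mul]
        congr 1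
        funext θ
        ring
      rw [h4, hI, hZ, hP]
      exact mul_le_mul_of_nonneg_left h2 (by positivity))
    (by
      intro e e' he he' τ τ' hτ hτ' hi
      have hm : ∀ (e : Fin p.q → (Fin p.J × Fin p.M → ℕ) × (Fin p.J × Fin p.M → ℤ)),
          (∀ l, e l ∈ High_E p (D r) (φ l) r) →
          (∀ l, (e l).1 ∈ BU p (φ l) r) ∧ ∀ l x, |(e l).2 x| ≤ (D r : ℤ) := by
        intro e he
        refine ⟨fun l => (Finset.mem_product.1 (he l)).1, fun l x => ?_⟩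
        have h2 := Fintype.mem_piFinset.1 (Finset.mem_product.1 (he l)).2 x
        rw [abs_le]
        exact Finset.mem_Icc.1 h2
      obtain ⟨hb1, hb2⟩ := hm e he
      obtain ⟨hb1', hb2'⟩ := hm e' he'
      obtain ⟨h4, h5, h6⟩ := hdec φ hφ hφL (fun l => (e l).1) (fun l => (e' l).1) hb1 hb1'
        (fun l => (e l).2) (fun l => (e' l).2) hb2 hb2' τ τ' hτ hτ' (by
          intro i
          rw [← hP]
          exact hi i)
      refine ⟨?_, ?_⟩
      · funext l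
        exact Prod.ext (congrFun h4 l) (congrFun h5 l)
      · rw [hν, hP]
        exact h6)
  -- the bound
  have h2 : (∏ l, ∑ e ∈ High_E p (D r) (φ l) r, ∏ x, High_w C1 (e.2 x)) =
      (∏ l, B l) * s ^ p.q := by
    simp only [High_sumE]
    rw [Finset.prod_mul_distrib, Finset.prod_const, Finset.card_univ, Fintype.card_fin, ← hs, hB]
  have h3 : (∏ l, ∑ e ∈ High_E p (D r) (φ l) r, (∏ x, High_w C1 (e.2 x)) ^ 2) ≤
      (∏ l, B l) * (s ^ 2) ^ p.q := by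
    refine (Finset.prod_le_prod (fun l _ => Finset.sum_nonneg fun e _ => sq_nonneg _)
      fun l _ => High_sumE2 hC1 p (φ l) r (D r)).trans (le_of_eq ?_)
    rw [Finset.prod_mul_distrib, Finset.prod_const, Finset.card_univ, Fintype.card_fin, ← hs, hB]
  have hsz0 : ∀ l, 0 < su p (φ l) r := fun l => (hsz (φ l) (hφL l)).1
  obtain ⟨Sz, hSz⟩ : ∃ Sz : ℝ, Sz = ∏ l, (su p (φ l) r) ^ 2 := ⟨_, rfl⟩
  have hSz0 : 0 < Sz := by
    rw [hSz]
    exact Finset.prod_pos fun l _ => by have := hsz0 l; positivity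
  have hSzv : Sz = (Z ^ p.q * ∏ l, B l) ^ 2 / P ^ (2 * k * p.q) := by
    rw [hSz]
    unfold su
    rw [← hZ, ← hP]
    have e2 : ∀ l : Fin p.q, (Z * ((BU p (φ l) r).card : ℝ) / P ^ k) ^ 2 =
        (Z * B l) ^ 2 / P ^ (2 * k) := by
      intro l
      rw [hB, div_pow, ← pow_mul, mul_comm k 2]
    simp only [e2]
    rw [Finset.prod_div_distrib, Finset.prod_pow, Finset.prod_mul_distrib, Finset.prod_const,
      Finset.prod_const, Finset.card_univ, Fintype.card_fin, ← pow_mul]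
  calc ∫⁻ t : Fin d → ℝ, ENNReal.ofReal (gw t * ∏ l,
        (‖MV p (S l r) (K r) (c r) (D r) (φ l) r (ff k d g t) Y‖ / su p (φ l) r) ^ 2)
      = ∫⁻ t : Fin d → ℝ, ENNReal.ofReal Sz⁻¹ * ENNReal.ofReal (gw t *
          ∏ l, ‖∑ e ∈ High_E p (D r) (φ l) r, ∫ θ in S l r, High_psi p (K r) (c r) g r Y e θ *
            ee (∑ i, t i * High_V p e θ i)‖ ^ 2) := by
        refine lintegral_congr fun t => ?_
        rw [← ENNReal.ofReal_mul (by positivity)]
        congr 1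
        simp only [hmain, div_pow]
        rw [Finset.prod_div_distrib, ← hSz, div_eq_mul_inv]
        ring
    _ = ENNReal.ofReal Sz⁻¹ * ∫⁻ t : Fin d → ℝ, ENNReal.ofReal (gw t *
          ∏ l, ‖∑ e ∈ High_E p (D r) (φ l) r, ∫ θ in S l r, High_psi p (K r) (c r) g r Y e θ *
            ee (∑ i, t i * High_V p e θ i)‖ ^ 2) :=
        lintegral_const_mul' _ _ ENNReal.ofReal_ne_top
    _ ≤ ENNReal.ofReal Sz⁻¹ * ENNReal.ofReal
          ((∏ l, ∑ e ∈ High_E p (D r) (φ l) r, ∏ x, High_w C1 (e.2 x)) ^ 2 *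
            (CK * Z * (2 * P)) ^ (2 * p.q) * Real.exp (-Real.pi * P ^ 2) +
          (∏ l, ∑ e ∈ High_E p (D r) (φ l) r, (∏ x, High_w C1 (e.2 x)) ^ 2) *
            (8 * ν * I) ^ p.q) := mul_le_mul_right h1 _
    _ ≤ ENNReal.ofReal (C / (XX r) ^ (k + 1)) := by
        rw [← ENNReal.ofReal_mul (by positivity)]
        refine ENNReal.ofReal_le_ofReal ?_
        have h5 := har B (by
          intro l
          rw [hB]
          exact (hcard (φ l) (hφL l)).1)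
        refine le_trans ?_ h5
        rw [← hP, h2]
        have h6 : (∏ l, ∑ e ∈ High_E p (D r) (φ l) r, (∏ x, High_w C1 (e.2 x)) ^ 2) *
            (8 * ν * I) ^ p.q ≤ ((∏ l, B l) * (s ^ 2) ^ p.q) * (8 * ν * I) ^ p.q :=
          mul_le_mul_of_nonneg_right h3 (by positivity)
        have hT : 0 ≤ (8 * C0 * (CK ^ 2 * CE) * (P ^ (p.v + 2) / (P ^ k * P ^ p.m1))) ^ p.q /
            ∏ l, B l := by positivity
        have e1 : Sz⁻¹ * (((∏ l, B l) * s ^ p.q) ^ 2 * (CK * Z * (2 * P)) ^ (2 * p.q) *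
            Real.exp (-Real.pi * P ^ 2) + ((∏ l, B l) * (s ^ 2) ^ p.q) * (8 * ν * I) ^ p.q) =
            P ^ (2 * k * p.q) * (s ^ (2 * p.q) * (CK ^ (2 * p.q) * ((2 * P) ^ (2 * p.q) *
              Real.exp (-Real.pi * P ^ 2)) +
            (8 * C0 * (CK ^ 2 * CE) * (P ^ (p.v + 2) / (P ^ k * P ^ p.m1))) ^ p.q /
              ∏ l, B l)) := by
          have e2 : 8 * ν * I = Z ^ 2 * (8 * C0 * (CK ^ 2 * CE) *
              (P ^ (p.v + 2) / (P ^ k * P ^ p.m1))) := by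
            rw [hν, hI, pow_add P p.v 2, pow_add P 1 p.v]
            field_simp
          rw [e2, hSzv, mul_pow (Z ^ 2), mul_pow (CK * Z), mul_pow CK Z]
          have e3 : (s ^ 2) ^ p.q = s ^ (2 * p.q) := by rw [← pow_mul]
          have e4 : (Z ^ 2) ^ p.q = (Z ^ p.q) ^ 2 := by rw [← pow_mul, ← pow_mul, mul_comm]
          have e5 : Z ^ (2 * p.q) = (Z ^ p.q) ^ 2 := by rw [← pow_mul, mul_comm]
          have e6 : (s ^ p.q) ^ 2 = s ^ (2 * p.q) := by rw [← pow_mul, mul_comm]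
          rw [e3, e4, e5, mul_pow (∏ l, B l) (s ^ p.q) 2, e6]
          field_simp
        have h7 : Sz⁻¹ * (((∏ l, B l) * s ^ p.q) ^ 2 * (CK * Z * (2 * P)) ^ (2 * p.q) *
            Real.exp (-Real.pi * P ^ 2) + (∏ l, ∑ e ∈ High_E p (D r) (φ l) r,
            (∏ x, High_w C1 (e.2 x)) ^ 2) * (8 * ν * I) ^ p.q) ≤
            P ^ (2 * k * p.q) * (s ^ (2 * p.q) * (CK ^ (2 * p.q) * ((2 * P) ^ (2 * p.q) *
              Real.exp (-Real.pi * P ^ 2)) +
            (8 * C0 * (CK ^ 2 * CE) * (P ^ (p.v + 2) / (P ^ k * P ^ p.m1))) ^ p.q /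
              ∏ l, B l)) := by
          rw [← e1]
          exact mul_le_mul_of_nonneg_left (add_le_add le_rfl h6) (by positivity)
        refine h7.trans ?_
        refine mul_le_mul_of_nonneg_left ?_ (by positivity)
        refine mul_le_mul_of_nonneg_right hsP ?_
        have := Real.exp_pos (-Real.pi * P ^ 2)
        positivity

end UWar
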