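import Pool.Agent.RWar.GaussG
import Pool.Agent.RWar.LinE

/-!
# UWar.HighX: the mean of a product of `q` sums of integrals with weights `χ`

PROOF. `RWar.gaussG`, then `gw v ≤ exp (-π E²)` unless `|v_i| ≤ E` for all `i`; in the second case `hdec`
gives `b = b'` and `|τ_l - τ'_l| ≤ ν`, and `RWar.lin_energy` (with the identity matrix) bounds the integral
over these pairs.
-/

namespace UWar

open Filter Topology MeasureTheory MWg HWar

private theorem HighX_gw_le_one {d : ℕ} (y : Fin d → ℝ) : gw y ≤ 1 := by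
  unfold gw
  rw [Real.exp_le_one_iff]
  have h1 : 0 ≤ ∑ i, y i ^ 2 := Finset.sum_nonneg fun i _ => sq_nonneg _
  nlinarith [Real.pi_pos]

private theorem HighX_gw_small {d : ℕ} (y : Fin d → ℝ) {E : ℝ} (hE : 0 ≤ E) {i : Fin d}
    (hi : E < |y i|) : gw y ≤ Real.exp (-Real.pi * E ^ 2) := by
  unfold gw
  rw [Real.exp_le_exp]
  have h1 : y i ^ 2 ≤ ∑ i, y i ^ 2 :=
    Finset.single_le_sum (f := fun i => y i ^ 2) (fun i _ => sq_nonneg _) (Finset.mem_univ i)
  have h2 : E ^ 2 ≤ y i ^ 2 := by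
    rw [← sq_abs (y i)]
    exact pow_le_pow_left₀ hE hi.le 2
  nlinarith [Real.pi_pos]

theorem highX {q d : ℕ} (hq : 1 ≤ q) {β : Type} [DecidableEq β] (𝓑 : Fin q → Finset β)
    (S : Fin q → Set ℝ) (hS : ∀ l, MeasurableSet (S l)) {R : ℝ} (hR : 0 ≤ R)
    (hSR : ∀ l, ∀ θ ∈ S l, |θ| ≤ R)
    (ψ : Fin q → β → ℝ → ℂ) (hψ : ∀ l b, Measurable (ψ l b)) (w : Fin q → β → ℝ)
    (hw : ∀ l b, 0 ≤ w l b) (χ : Fin q → ℝ → ℝ) (hχ : ∀ l, Measurable (χ l))
    (hχ0 : ∀ l θ, 0 ≤ χ l θ) {B : ℝ} (hB : 0 ≤ B) (hχB : ∀ l θ, χ l θ ≤ B)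
    (hb : ∀ l, ∀ b ∈ 𝓑 l, ∀ θ ∈ S l, ‖ψ l b θ‖ ≤ w l b * χ l θ)
    (V : Fin q → β → ℝ → Fin d → ℝ) (hV : ∀ l b i, Measurable fun θ => V l b θ i) {E ν : ℝ}
    (hE : 0 ≤ E) (hν : 0 ≤ ν) {I : ℝ} (hI0 : 0 ≤ I)
    (hI : ∀ l, ∫⁻ θ in S l, ENNReal.ofReal (χ l θ ^ 2) ≤ ENNReal.ofReal I)
    (hdec : ∀ b b' : Fin q → β, (∀ l, b l ∈ 𝓑 l) → (∀ l, b' l ∈ 𝓑 l) → ∀ τ τ' : Fin q → ℝ,
      (∀ l, τ l ∈ S l) → (∀ l, τ' l ∈ S l) →
      (∀ i, |∑ l, (V l (b l) (τ l) i - V l (b' l) (τ' l) i)| ≤ E) →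
      b = b' ∧ ∀ l, |τ l - τ' l| ≤ ν) :
    ∫⁻ t : Fin d → ℝ, ENNReal.ofReal (gw t *
        ∏ l, ‖∑ b ∈ 𝓑 l, ∫ θ in S l, ψ l b θ * ee (∑ i, t i * V l b θ i)‖ ^ 2) ≤
      ENNReal.ofReal ((∏ l, ∑ b ∈ 𝓑 l, w l b) ^ 2 * (B * (2 * R)) ^ (2 * q) *
        Real.exp (-Real.pi * E ^ 2) + (∏ l, ∑ b ∈ 𝓑 l, (w l b) ^ 2) * (8 * ν * I) ^ q) := by
  classical
  refine (RWar.gaussG 𝓑 S hS hSR ψ hψ w hw χ hχ hχ0 hχB hb V hV).trans ?_
  obtain ⟨A, hA⟩ : ∃ A : Fin q → Fin q → ℝ, A = fun m l => if m = l then 1 else 0 := ⟨_, rfl⟩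
  obtain ⟨T, hT⟩ : ∃ T : Set ((Fin q → ℝ) × (Fin q → ℝ)), T = {x |
      ∀ m, |∑ l, (A m l * x.1 l - A m l * x.2 l) + 0| ≤ ν} := ⟨_, rfl⟩
  have hTmem : ∀ τ τ' : Fin q → ℝ, (∀ l, |τ l - τ' l| ≤ ν) → (τ, τ') ∈ T := by
    intro τ τ' h
    rw [hT]
    intro m
    have e1 : ∑ l, (A m l * τ l - A m l * τ' l) + 0 = τ m - τ' m := by
      rw [hA, add_zero]
      simp [Finset.sum_sub_distrib]
    change |∑ l, (A m l * τ l - A m l * τ' l) + 0| ≤ ν
    rw [e1]
    exact h m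
  obtain ⟨F, hF⟩ : ∃ F : (Fin q → ℝ) × (Fin q → ℝ) → ENNReal,
      F = fun x => ENNReal.ofReal (∏ l, (χ l (x.1 l) * χ l (x.2 l))) := ⟨_, rfl⟩
  obtain ⟨e, he⟩ : ∃ e : ℝ, e = Real.exp (-Real.pi * E ^ 2) := ⟨_, rfl⟩
  have he0 : 0 ≤ e := he ▸ (Real.exp_pos _).le
  obtain ⟨C1, hC1⟩ : ∃ C1 : ℝ, C1 = (∏ l, ∑ b ∈ 𝓑 l, w l b) ^ 2 * B ^ (2 * q) * e := ⟨_, rfl⟩
  obtain ⟨C2, hC2⟩ : ∃ C2 : ℝ, C2 = ∏ l, ∑ b ∈ 𝓑 l, (w l b) ^ 2 := ⟨_, rfl⟩
  have hC10 : 0 ≤ C1 := by rw [hC1]; positivity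
  have hC20 : 0 ≤ C2 := by
    rw [hC2]
    exact Finset.prod_nonneg fun l _ => Finset.sum_nonneg fun b _ => sq_nonneg _
  -- the pointwise bound
  have hpt : ∀ τ ∈ Set.pi Set.univ S, ∀ τ' ∈ Set.pi Set.univ S,
      ∑ b ∈ Fintype.piFinset 𝓑, ∑ b' ∈ Fintype.piFinset 𝓑,
          ENNReal.ofReal ((∏ l, (w l (b l) * χ l (τ l) * (w l (b' l) * χ l (τ' l)))) *
            gw (fun i => ∑ l, (V l (b l) (τ l) i - V l (b' l) (τ' l) i))) ≤
        ENNReal.ofReal C1 + ENNReal.ofReal C2 * Set.indicator T F (τ, τ') := by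
    intro τ hτ τ' hτ'
    have hterm : ∀ b ∈ Fintype.piFinset 𝓑, ∀ b' ∈ Fintype.piFinset 𝓑,
        ENNReal.ofReal ((∏ l, (w l (b l) * χ l (τ l) * (w l (b' l) * χ l (τ' l)))) *
            gw (fun i => ∑ l, (V l (b l) (τ l) i - V l (b' l) (τ' l) i))) ≤
        ENNReal.ofReal ((∏ l, w l (b l)) * (∏ l, w l (b' l)) * (B ^ (2 * q) * e)) +
          (if b = b' then ENNReal.ofReal (∏ l, (w l (b l)) ^ 2) *
            Set.indicator T F (τ, τ') else 0) := by
      intro b hb1 b' hb2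
      have hp1 : ∏ l, (w l (b l) * χ l (τ l) * (w l (b' l) * χ l (τ' l))) =
          (∏ l, w l (b l)) * (∏ l, w l (b' l)) * ∏ l, (χ l (τ l) * χ l (τ' l)) := by
        rw [← Finset.prod_mul_distrib, ← Finset.prod_mul_distrib]
        exact Finset.prod_congr rfl fun l _ => by ring
      have hw1 : 0 ≤ ∏ l, w l (b l) := Finset.prod_nonneg fun l _ => hw _ _
      have hw2 : 0 ≤ ∏ l, w l (b' l) := Finset.prod_nonneg fun l _ => hw _ _
      have hc0 : 0 ≤ ∏ l, (χ l (τ l) * χ l (τ' l)) :=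
        Finset.prod_nonneg fun l _ => mul_nonneg (hχ0 _ _) (hχ0 _ _)
      have hcB : ∏ l, (χ l (τ l) * χ l (τ' l)) ≤ B ^ (2 * q) := by
        have h1 : ∏ l, (χ l (τ l) * χ l (τ' l)) ≤ ∏ _l : Fin q, (B * B) :=
          Finset.prod_le_prod (fun l _ => mul_nonneg (hχ0 _ _) (hχ0 _ _)) fun l _ =>
            mul_le_mul (hχB _ _) (hχB _ _) (hχ0 _ _) hB
        refine h1.trans (le_of_eq ?_)
        rw [Finset.prod_const, Finset.card_univ, Fintype.card_fin, ← pow_two, ← pow_mul]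
      rw [hp1]
      by_cases hall : ∀ i, |∑ l, (V l (b l) (τ l) i - V l (b' l) (τ' l) i)| ≤ E
      · obtain ⟨hbb, hττ⟩ := hdec b b' (fun l => Fintype.mem_piFinset.1 hb1 l)
          (fun l => Fintype.mem_piFinset.1 hb2 l) τ τ' (fun l => hτ l (Set.mem_univ l))
          (fun l => hτ' l (Set.mem_univ l)) hall
        refine le_trans ?_ le_add_self
        rw [if_pos hbb, Set.indicator_of_mem (hTmem τ τ' hττ), hF, ← hbb,
          ← ENNReal.ofReal_mul (Finset.prod_nonneg fun l _ => sq_nonneg _)]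
        refine ENNReal.ofReal_le_ofReal ?_
        have e1 : (∏ l, (w l (b l)) ^ 2) = (∏ l, w l (b l)) * (∏ l, w l (b l)) := by
          rw [Finset.prod_pow, pow_two]
        rw [e1]
        exact mul_le_of_le_one_right (by positivity) (HighX_gw_le_one _)
      · push Not at hall
        obtain ⟨i, hi⟩ := hall
        refine le_trans ?_ le_self_add
        refine ENNReal.ofReal_le_ofReal ?_
        have h2 := HighX_gw_small (fun i => ∑ l, (V l (b l) (τ l) i - V l (b' l) (τ' l) i)) hE hi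
        rw [← he] at h2
        have h3 : 0 ≤ gw (fun i => ∑ l, (V l (b l) (τ l) i - V l (b' l) (τ' l) i)) :=
          (Real.exp_pos _).le
        rw [mul_assoc]
        refine mul_le_mul_of_nonneg_left ?_ (mul_nonneg hw1 hw2)
        exact mul_le_mul hcB h2 h3 (by positivity)
    refine (Finset.sum_le_sum fun b hb1 => Finset.sum_le_sum fun b' hb2 =>
      hterm b hb1 b' hb2).trans (le_of_eq ?_)
    simp only [Finset.sum_add_distrib]
    congr 1
    · rw [hC1]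
      have e1 : ∀ b ∈ Fintype.piFinset 𝓑, ∑ b' ∈ Fintype.piFinset 𝓑,
          ENNReal.ofReal ((∏ l, w l (b l)) * (∏ l, w l (b' l)) * (B ^ (2 * q) * e)) =
          ENNReal.ofReal ((∏ l, w l (b l)) * (∏ l, ∑ b ∈ 𝓑 l, w l b) * (B ^ (2 * q) * e)) := by
        intro b _
        rw [← ENNReal.ofReal_sum_of_nonneg, Finset.prod_univ_sum, Finset.mul_sum, Finset.sum_mul]
        intro b' _
        exact mul_nonneg (mul_nonneg (Finset.prod_nonneg fun l _ => hw _ _)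
          (Finset.prod_nonneg fun l _ => hw _ _)) (by positivity)
      rw [Finset.sum_congr rfl e1, ← ENNReal.ofReal_sum_of_nonneg]
      · congr 1
        rw [← Finset.sum_mul, ← Finset.sum_mul, ← Finset.prod_univ_sum]
        ring
      · intro b _
        refine mul_nonneg (mul_nonneg (Finset.prod_nonneg fun l _ => hw _ _) ?_) (by positivity)
        exact Finset.prod_nonneg fun l _ => Finset.sum_nonneg fun b _ => hw _ _
    · have e1 : ∀ b ∈ Fintype.piFinset 𝓑, ∑ b' ∈ Fintype.piFinset 𝓑,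
          (if b = b' then ENNReal.ofReal (∏ l, (w l (b l)) ^ 2) *
            Set.indicator T F (τ, τ') else 0) = ENNReal.ofReal (∏ l, (w l (b l)) ^ 2) *
            Set.indicator T F (τ, τ') := by
        intro b hb1
        rw [Finset.sum_ite_eq, if_pos hb1]
      rw [Finset.sum_congr rfl e1, ← Finset.sum_mul, ← ENNReal.ofReal_sum_of_nonneg, hC2,
        Finset.prod_univ_sum]
      intro b _
      exact Finset.prod_nonneg fun l _ => sq_nonneg _
  have hSm : MeasurableSet (Set.pi Set.univ S) := MeasurableSet.univ_pi hS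
  have hvS : (volume : Measure (Fin q → ℝ)) (Set.pi Set.univ S) ≤ ENNReal.ofReal ((2 * R) ^ q) := by
    rw [volume_pi, Measure.pi_pi]
    calc ∏ l, volume (S l) ≤ ∏ _l : Fin q, ENNReal.ofReal (2 * R) := by
          refine Finset.prod_le_prod' fun l _ => ?_
          have h1 : S l ⊆ Set.Icc (-R) R := fun θ hθ => by
            rw [Set.mem_Icc, ← abs_le]
            exact hSR l θ hθ
          refine (measure_mono h1).trans ?_
          rw [Real.volume_Icc]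
          refine ENNReal.ofReal_le_ofReal ?_
          linarith
      _ = ENNReal.ofReal ((2 * R) ^ q) := by
          rw [Finset.prod_const, Finset.card_univ, Fintype.card_fin,
            ENNReal.ofReal_pow (by linarith)]
  have hlin := RWar.lin_energy hq S hS χ hχ hχ0 A A (a := 1) one_pos
    (fun m => by rw [hA]; simp) (fun m l hml => by rw [hA]; simp [hml]) (fun _ => 0) hν
  have hlin2 : ∫⁻ τ in Set.pi Set.univ S, ∫⁻ τ' in Set.pi Set.univ S,
      Set.indicator T F (τ, τ') ≤ ENNReal.ofReal ((8 * ν * I) ^ q) := by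
    rw [hT, hF]
    refine hlin.trans ?_
    have h1 : ∏ l, ∫⁻ θ in S l, ENNReal.ofReal (χ l θ ^ 2) ≤ ENNReal.ofReal (I ^ q) := by
      refine (Finset.prod_le_prod' fun l _ => hI l).trans (le_of_eq ?_)
      rw [Finset.prod_const, Finset.card_univ, Fintype.card_fin, ENNReal.ofReal_pow hI0]
    refine (mul_le_mul_right h1 _).trans (le_of_eq ?_)
    rw [← ENNReal.ofReal_mul (by positivity), div_one, ← mul_pow]
  calc ∫⁻ τ in Set.pi Set.univ S, ∫⁻ τ' in Set.pi Set.univ S,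
        ∑ b ∈ Fintype.piFinset 𝓑, ∑ b' ∈ Fintype.piFinset 𝓑,
          ENNReal.ofReal ((∏ l, (w l (b l) * χ l (τ l) * (w l (b' l) * χ l (τ' l)))) *
            gw (fun i => ∑ l, (V l (b l) (τ l) i - V l (b' l) (τ' l) i)))
      ≤ ∫⁻ τ in Set.pi Set.univ S, ∫⁻ τ' in Set.pi Set.univ S,
          (ENNReal.ofReal C1 + ENNReal.ofReal C2 * Set.indicator T F (τ, τ')) := by
        refine setLIntegral_mono' hSm fun τ hτ => setLIntegral_mono' hSm fun τ' hτ' => ?_
        exact hpt τ hτ τ' hτ'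
    _ ≤ ENNReal.ofReal C1 * ENNReal.ofReal ((2 * R) ^ q) * ENNReal.ofReal ((2 * R) ^ q) +
          ENNReal.ofReal C2 * ENNReal.ofReal ((8 * ν * I) ^ q) := by
        have e1 : ∀ τ : Fin q → ℝ, ∫⁻ τ' in Set.pi Set.univ S,
            (ENNReal.ofReal C1 + ENNReal.ofReal C2 * Set.indicator T F (τ, τ')) =
            ENNReal.ofReal C1 * volume (Set.pi Set.univ S) +
            ENNReal.ofReal C2 * ∫⁻ τ' in Set.pi Set.univ S, Set.indicator T F (τ, τ') := by
          intro τ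
          rw [lintegral_add_left measurable_const, setLIntegral_const,
            lintegral_const_mul' _ _ ENNReal.ofReal_ne_top]
        simp only [e1]
        rw [lintegral_add_left measurable_const, setLIntegral_const,
          lintegral_const_mul' _ _ ENNReal.ofReal_ne_top]
        refine add_le_add ?_ (mul_le_mul_right hlin2 _)
        exact mul_le_mul' (mul_le_mul_right hvS _) hvS
    _ = ENNReal.ofReal ((∏ l, ∑ b ∈ 𝓑 l, w l b) ^ 2 * (B * (2 * R)) ^ (2 * q) *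
        Real.exp (-Real.pi * E ^ 2) + (∏ l, ∑ b ∈ 𝓑 l, (w l b) ^ 2) * (8 * ν * I) ^ q) := by
        rw [← ENNReal.ofReal_mul hC10, ← ENNReal.ofReal_mul (by positivity),
          ← ENNReal.ofReal_mul hC20, ← ENNReal.ofReal_add (by positivity) (by positivity), hC1, hC2,
          he]
        congr 1
        have e2 : (B * (2 * R)) ^ (2 * q) = B ^ (2 * q) * ((2 * R) ^ q * (2 * R) ^ q) := by
          rw [mul_pow]
          congr 1
          rw [← pow_add]
          congr 1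
          ring
        rw [e2]
        ring

end UWar
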