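import Pool.Agent.HWar.LowerF
import Pool.Agent.UWar.FinU

/-!
# UWar.LowerU: the lower bound for the number of summands

`lower_fam`: the counting argument of `HWar.lower_s` for a family of functions; `lowerU`: `r` plain powers and
`m` values of the polynomial.
-/

namespace UWar

open Filter Topology HWar

/-- a lower bound for a function asymptotic to `x ^ k` -/
private theorem LowerU_bd {k : ℕ} {f : ℕ → ℝ}
    (hf : Tendsto (fun x : ℕ => f x / (x : ℝ) ^ k) atTop (𝓝 1)) :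
    ∃ C : ℝ, 0 ≤ C ∧ ∀ x : ℕ, (1 / 2 : ℝ) * (x : ℝ) ^ k - C ≤ f x := by
  have h1 : ∀ᶠ x : ℕ in atTop, (1 / 2 : ℝ) < f x / (x : ℝ) ^ k :=
    hf.eventually (lt_mem_nhds (by norm_num))
  obtain ⟨N, hN⟩ := Filter.eventually_atTop.1 (h1.and (Filter.eventually_ge_atTop 1))
  refine ⟨∑ x ∈ Finset.range N, (|f x| + 1 / 2 * (x : ℝ) ^ k),
    Finset.sum_nonneg fun x _ => by positivity, fun x => ?_⟩
  by_cases hx : x < N
  · have h2 : |f x| + 1 / 2 * (x : ℝ) ^ k ≤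
        ∑ x ∈ Finset.range N, (|f x| + 1 / 2 * (x : ℝ) ^ k) :=
      Finset.single_le_sum (f := fun x : ℕ => |f x| + 1 / 2 * (x : ℝ) ^ k)
        (fun x _ => by positivity) (Finset.mem_range.2 hx)
    have h3 := neg_abs_le (f x)
    linarith
  · obtain ⟨h2, h3⟩ := hN x (by omega)
    have h4 : (0 : ℝ) < (x : ℝ) ^ k := by
      have : (0 : ℝ) < x := by exact_mod_cast h3
      positivity
    rw [lt_div_iff₀ h4] at h2
    have h5 : 0 ≤ ∑ x ∈ Finset.range N, (|f x| + 1 / 2 * (x : ℝ) ^ k) :=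
      Finset.sum_nonneg fun x _ => by positivity
    linarith

theorem lower_fam {k : ℕ} (hk : 1 ≤ k) {s : ℕ} {f : Fin s → ℕ → ℝ} {c C : ℝ} (hc : 0 < c)
    (hC : 0 ≤ C) (hfb : ∀ (i : Fin s) (x : ℕ), c * (x : ℝ) ^ k - C ≤ f i x)
    (h : ∀ ε : ℝ, 0 < ε → ∃ Y : ℝ, ∀ y : ℝ, Y ≤ y → ∃ x : Fin s → ℕ,
      |∑ i, f i (x i) - y| < ε) : k < s := by
  by_contra hs
  push Not at hs
  obtain ⟨κ, hκ⟩ := exists_nat_ge (max 1 ((2 + s * C) / c))
  have hκ1 : (1 : ℝ) ≤ κ := le_trans (le_max_left _ _) hκ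
  have hκ2 : (2 + s * C) / c ≤ κ := le_trans (le_max_right _ _) hκ
  have hκ3 : 2 + s * C ≤ c * (κ : ℝ) ^ k := by
    rw [div_le_iff₀ hc] at hκ2
    have : (κ : ℝ) ≤ (κ : ℝ) ^ k := le_self_pow₀ hκ1 (by omega)
    nlinarith
  set C2 : ℕ := (2 * κ) ^ k with hC2
  have hm : (0 : ℝ) < 1 / (4 * (C2 + 1) : ℝ) := by positivity
  obtain ⟨Y0, hY0⟩ := h (1 / (4 * (C2 + 1) : ℝ)) hm
  obtain ⟨Z, hZ⟩ := exists_nat_ge (max 1 (2 * max Y0 0))
  have hZ1 : (1 : ℝ) ≤ Z := le_trans (le_max_left _ _) hZ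
  have hZ2 : 2 * max Y0 0 ≤ Z := le_trans (le_max_right _ _) hZ
  have hZn : 1 ≤ Z := by exact_mod_cast hZ1
  have hZk : (Z : ℝ) ≤ (Z : ℝ) ^ k := le_self_pow₀ hZ1 (by omega)
  have hY1 : 0 ≤ max Y0 0 := le_max_right _ _
  have key : ∀ j : Fin ((C2 + 1) * Z ^ k), ∃ x : Fin s → ℕ,
      |∑ i, f i (x i) - (max Y0 0 + 2 * (j : ℕ) * (1 / (4 * (C2 + 1) : ℝ)))|
        < 1 / (4 * (C2 + 1) : ℝ) := by
    intro j
    obtain ⟨x, hx⟩ := hY0 (max Y0 0 + 2 * (j : ℕ) * (1 / (4 * (C2 + 1) : ℝ)))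
      (le_trans (le_max_left _ _) (le_add_of_nonneg_right (by positivity)))
    exact ⟨x, hx⟩
  choose F hF using key
  have hinj : Function.Injective F := by
    intro j j' hjj
    have h1 := hF j
    have h2 := hF j'
    rw [hjj] at h1
    have h3 : |(2 * ((j : ℕ) : ℝ) - 2 * ((j' : ℕ) : ℝ)) * (1 / (4 * (C2 + 1) : ℝ))|
        < 2 * (1 / (4 * (C2 + 1) : ℝ)) := by
      rw [abs_lt] at h1 h2 ⊢
      constructor <;> nlinarith [h1.1, h1.2, h2.1, h2.2]
    rw [abs_mul, abs_of_pos hm] at h3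
    have h4 := lt_of_mul_lt_mul_right h3 hm.le
    rw [abs_lt] at h4
    have h5 : ((j : ℕ) : ℝ) < ((j' : ℕ) : ℝ) + 1 := by linarith [h4.2]
    have h6 : ((j' : ℕ) : ℝ) < ((j : ℕ) : ℝ) + 1 := by linarith [h4.1]
    have h7 : (j : ℕ) < (j' : ℕ) + 1 := by exact_mod_cast h5
    have h8 : (j' : ℕ) < (j : ℕ) + 1 := by exact_mod_cast h6
    exact Fin.ext (by omega)
  have hmem : ∀ j, F j ∈ Fintype.piFinset fun _ : Fin s => Finset.range (κ * Z + 1) := by
    intro j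
    rw [Fintype.mem_piFinset]
    intro i
    rw [Finset.mem_range, Nat.lt_succ_iff]
    have h1 := (abs_lt.1 (hF j)).2
    have hj : (((j : ℕ) : ℝ)) < (C2 + 1) * (Z : ℝ) ^ k := by
      have := j.2
      have h2 : ((j : ℕ) : ℝ) < (((C2 + 1) * Z ^ k : ℕ) : ℝ) := by exact_mod_cast this
      push_cast at h2
      linarith
    have h2 : 2 * ((j : ℕ) : ℝ) * (1 / (4 * (C2 + 1) : ℝ)) ≤ (Z : ℝ) ^ k / 2 := by
      have h3 : (0 : ℝ) < C2 + 1 := by positivity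
      rw [mul_one_div, div_le_div_iff₀ (by positivity) (by norm_num)]
      nlinarith
    have h3 : 1 / (4 * (C2 + 1) : ℝ) ≤ 1 := by
      rw [div_le_one (by positivity)]
      have : (0 : ℝ) ≤ C2 := by positivity
      linarith
    have h4 : ∑ i, f i (F j i) ≤ (Z : ℝ) ^ k + 1 := by linarith
    have h5 : ∑ i' ∈ Finset.univ.erase i, (-C) ≤ ∑ i' ∈ Finset.univ.erase i, f i' (F j i') := by
      refine Finset.sum_le_sum fun i' _ => ?_
      have := hfb i' (F j i')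
      have h6 : 0 ≤ c * ((F j i' : ℕ) : ℝ) ^ k := by positivity
      linarith
    have h6 : ∑ i, f i (F j i) = f i (F j i) + ∑ i' ∈ Finset.univ.erase i, f i' (F j i') :=
      (Finset.add_sum_erase _ _ (Finset.mem_univ i)).symm
    have h7 : ∑ i' ∈ Finset.univ.erase i, (-C) = -(((s : ℝ) - 1) * C) := by
      rw [Finset.sum_const, Finset.card_erase_of_mem (Finset.mem_univ i), Finset.card_univ,
        Fintype.card_fin, nsmul_eq_mul]
      have : 1 ≤ s := by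
        have := i.2
        omega
      rw [Nat.cast_sub this]
      push_cast
      ring
    have h8 := hfb i (F j i)
    have h9 : c * ((F j i : ℕ) : ℝ) ^ k ≤ (Z : ℝ) ^ k + 1 + s * C := by nlinarith
    have h10 : (1 : ℝ) ≤ (Z : ℝ) ^ k := one_le_pow₀ hZ1
    have h11 : (Z : ℝ) ^ k + 1 + s * C ≤ (2 + s * C) * (Z : ℝ) ^ k := by
      have : 0 ≤ (s : ℝ) * C := by positivity
      nlinarith
    have h12 : c * ((F j i : ℕ) : ℝ) ^ k ≤ c * ((κ : ℝ) * Z) ^ k := by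
      rw [mul_pow]
      calc c * ((F j i : ℕ) : ℝ) ^ k ≤ (2 + s * C) * (Z : ℝ) ^ k := h9.trans h11
        _ ≤ c * (κ : ℝ) ^ k * (Z : ℝ) ^ k := by gcongr
        _ = c * ((κ : ℝ) ^ k * (Z : ℝ) ^ k) := by ring
    have h13 := le_of_mul_le_mul_left h12 hc
    have h14 : ((F j i : ℕ) : ℝ) ≤ (κ : ℝ) * Z :=
      le_of_pow_le_pow_left₀ (by omega) (by positivity) h13
    exact_mod_cast h14
  have hcard := Finset.card_le_card_of_injOn (s := Finset.univ) F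
    (fun j _ => hmem j) (fun j _ j' _ hjj => hinj hjj)
  rw [Finset.card_univ, Fintype.card_fin, Fintype.card_piFinset_const, Finset.card_range] at hcard
  have h1 : (κ * Z + 1) ^ s ≤ (κ * Z + 1) ^ k := Nat.pow_le_pow_right (by omega) hs
  have hκn : 1 ≤ κ := by exact_mod_cast hκ1
  have h2 : κ * Z + 1 ≤ 2 * κ * Z := by nlinarith
  have h3 : (κ * Z + 1) ^ k ≤ (2 * κ * Z) ^ k := Nat.pow_le_pow_left h2 k
  rw [mul_pow (2 * κ) Z k, ← hC2] at h3
  have h4 : 0 < Z ^ k := by positivity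
  have h5 : (C2 + 1) * Z ^ k ≤ C2 * Z ^ k := hcard.trans (h1.trans h3)
  nlinarith


theorem lowerU {k d : ℕ} (hk : 1 ≤ k) {g : Polynomial ℝ} (hg : g.natDegree < k)
    (t : Fin d → ℝ) {r m : ℕ} (h : ApproxU k r m (ff k d (fun x => g.eval (x : ℝ)) t)) :
    k < r + m := by
  obtain ⟨C, hC, hb⟩ := LowerU_bd (lowerF_lim hk hg t)
  refine lower_fam (f := Fin.append (fun _ : Fin r => fun x : ℕ => (x : ℝ) ^ k)
    (fun _ : Fin m => ff k d (fun x => g.eval (x : ℝ)) t)) hk (c := 1 / 2) (by norm_num) hC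
    (fun i x => ?_) (fun ε hε => ?_)
  · refine Fin.addCases (fun a => ?_) (fun a => ?_) i
    · rw [Fin.append_left]
      have : (0 : ℝ) ≤ (x : ℝ) ^ k := by positivity
      linarith
    · rw [Fin.append_right]
      exact hb x
  · obtain ⟨Y, hY⟩ := h ε hε
    refine ⟨Y, fun y hy => ?_⟩
    obtain ⟨x, z, -, -, hxz⟩ := hY y hy
    refine ⟨Fin.append x z, ?_⟩
    rw [Fin.sum_univ_add]
    simp only [Fin.append_left, Fin.append_right]
    exact hxz

end UWar
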